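import Pool.Agent.Work.MP_03d2dd_co.NL.G1T

/-! Checks of the first gadget. -/

namespace Pool.Agent.NL.G1

theorem ok : tab.OkTab := by decide +kernel

def spTc : ℕ := 0x3ca402ba13b60390408a2898198fc516b443c42187419f0eae3e8b15
def spTs : ℕ := 0xbd12af1db81ba3088d05910cb72b24823a93368310c00aa818990fbc
def spTz : ℕ := 0x35812aad2ca53fa042943bb01c9e26b3069739a909c6329a31a204a7
def spIc : ℕ := 0x5556aaa
def spIs : ℕ := 0xaaa9555

/-- Codes of points; `255` stands for no point. -/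
def spC (p : (Fin 2 × Fin 71) ⊕ Fin 14) : ℕ := Sum.elim cd (fun b => 142 + b.1) p

def spO (p : Option ((Fin 2 × Fin 71) ⊕ Fin 14)) : ℕ := p.elim 255 spC

/-- Function application that evaluates its argument first. -/
def spZ {α : Type} (n : ℕ) (f : ℕ → α) : α := Nat.rec (f (nat_lit 0)) (fun m _ => f (Nat.succ m)) n

def spI (a b : ℕ) : ℕ :=
  Nat.add (Nat.mul (Nat.add (Nat.mul (Nat.div a (nat_lit 71)) (nat_lit 2)) (Nat.div b
    (nat_lit 71))) (nat_lit 71))
    (Nat.mod (Nat.sub (Nat.add b (nat_lit 142)) a) (nat_lit 71))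

def spUp (x y : ℕ) : ℕ := spZ y fun y =>
  Nat.add (Nat.mul (Nat.div y (nat_lit 128)) (nat_lit 71)) (Nat.mod (Nat.add x (Nat.mod y
    (nat_lit 128))) (nat_lit 71))

def spDn (x c y : ℕ) : ℕ :=
  Nat.add (Nat.mul c (nat_lit 71)) (Nat.mod (Nat.sub (Nat.add x (nat_lit 142)) (Nat.mod y
    (nat_lit 128))) (nat_lit 71))

def spLb (v : ℕ) : ℕ := spZ v fun v =>
  Bool.rec (Nat.add (nat_lit 142) (Nat.mod v (nat_lit 14))) (nat_lit 255) (Nat.beq v (nat_lit 15))

def spIx (β a : ℕ) : ℕ := Nat.add (Nat.mul (Nat.sub β (nat_lit 142)) (nat_lit 2)) a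

def spF3 (k : Bool) (a b : ℕ) : ℕ :=
  Bool.rec
    (Bool.rec
      (Bool.rec (nat_lit 255) (spUp b (dg spTz (nat_lit 8) (nat_lit 256) (spIx a (Nat.div b
        (nat_lit 71))))) (Nat.ble b (nat_lit 141)))
      (Bool.rec (spUp a (dg spTs (nat_lit 8) (nat_lit 256) (spIx b (Nat.div a (nat_lit 71)))))
        (spUp a (dg tTh (nat_lit 8) (nat_lit 256) (spI a b))) (Nat.ble b (nat_lit 141)))
      (Nat.ble a (nat_lit 141)))
    (Bool.rec (nat_lit 255) (Bool.rec (nat_lit 255) (spLb (dg tLc (nat_lit 4) (nat_lit 16)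
      (spI a b))) (Nat.ble b (nat_lit 141)))
      (Nat.ble a (nat_lit 141))) k

def spF1 (k : Bool) (b d : ℕ) : ℕ :=
  Bool.rec
    (Bool.rec
      (Bool.rec (nat_lit 255) (spZ (dg spIs (nat_lit 1) (nat_lit 2) (spIx b (Nat.div d
        (nat_lit 71)))) fun c =>
        spDn d c (dg spTs (nat_lit 8) (nat_lit 256) (spIx b c))) (Nat.ble d (nat_lit 141)))
      (Bool.rec (spZ (dg spIc (nat_lit 1) (nat_lit 2) (spIx d (Nat.div b (nat_lit 71)))) fun c =>
          spDn b c (dg spTc (nat_lit 8) (nat_lit 256) (spIx d c)))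
        (spZ (dg tRw (nat_lit 8) (nat_lit 256) (spI b d)) fun y => spDn b (Nat.div y
          (nat_lit 128)) y) (Nat.ble d (nat_lit 141)))
      (Nat.ble b (nat_lit 141)))
    (Bool.rec (nat_lit 255) (Bool.rec (nat_lit 255) (spLb (dg tLz (nat_lit 4) (nat_lit 16)
      (spI b d))) (Nat.ble d (nat_lit 141)))
      (Nat.ble b (nat_lit 141))) k

def spT1 (b c y s : ℕ) (l k : Bool) : Bool :=
  spZ (spF1 k b s) fun r => Bool.rec false (Nat.beq (spF3 l r y) c) (Nat.ble r (nat_lit 155))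

def spT2 (a b c y : ℕ) (l k : Bool) : Bool :=
  spZ (spF3 k a y) fun s =>
    Bool.rec false (Bool.rec (spT1 b c y s l true) true (spT1 b c y s l false)) (Nat.ble s
      (nat_lit 155))

/-- True whenever some quad has the second column with code `y`. -/
def spT (a b c y : ℕ) (l : Bool) : Bool :=
  Bool.rec (spT2 a b c y l true) true (spT2 a b c y l false)

/-- The second columns below `n` that pass the test, in front of `L`. -/
def spL (a b c : ℕ) (l : Bool) (n : ℕ) : List ℕ → List ℕ :=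
  Nat.rec (fun L => L) (fun i ih L => Bool.rec (ih L) (ih (i :: L)) (spT a b c i l)) n

theorem spZ_eq {α : Type} (n : ℕ) (f : ℕ → α) : spZ n f = f n := by cases n <;> rfl

theorem spI_eq (a b : Fin 2 × Fin 71) : spI (cd a) (cd b) = ix a.1 b.1 (b.2 - a.2) := ixN_cd a b

theorem spDg (T b m i : ℕ) (h : 0 < m) : dg T b m i < m := Nat.mod_lt _ h

theorem spUp_eq (a : Fin 2 × Fin 71) (y : ℕ) (hy : y < 256) :
    spUp (cd a) y = spO (tab.up a.2 (pt y)) := by
  simp only [spUp, Tab.up, tab, pt, frc_eq, spZ_eq]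
  change y / 128 * 71 + (a.1.1 * 71 + a.2.1 + y % 128) % 71 =
    y / 128 % 2 % 2 * 71 + (a.2.1 + y % 128 % 71) % 71 % 71
  omega

theorem spDn_eq (a : Fin 2 × Fin 71) (c y : ℕ) (hc : c < 2) :
    spDn (cd a) c y = spO (tab.dn a.2 (Fin.ofNat 2 c, (pt y).2)) := by
  simp only [spDn, Tab.dn, tab, pt, frc_eq]
  change c * 71 + (a.1.1 * 71 + a.2.1 + 142 - y % 128) % 71 =
    c % 2 % 2 * 71 + (71 - y % 128 % 71 + a.2.1) % 71 % 71
  omega

theorem spLb_eq (v : ℕ) : spLb v = spO ((op v).map .inr) := by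
  simp only [spLb, op, frc_eq, spZ_eq]
  split_ifs with h
  · rw [h]
    rfl
  · rw [Bool.eq_false_iff.2 fun e => h (Nat.eq_of_beq_eq_true e)]
    rfl

theorem spCd (a : Fin 2 × Fin 71) : Nat.ble (cd a) 141 = true ∧ Nat.div (cd a) 71 = a.1.1 := by
  have h1 := a.1.2
  have h2 := a.2.2
  rw [Nat.ble_eq]
  change a.1.1 * 71 + a.2.1 ≤ 141 ∧ (a.1.1 * 71 + a.2.1) / 71 = a.1.1
  omega

theorem spLa : ∀ β : Fin 14, Nat.ble (142 + β.1) 141 = false := by decide

theorem spLe (a : (Fin 2 × Fin 71) ⊕ Fin 14) : Nat.ble (spC a) 155 = true := by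
  rw [Nat.ble_eq]
  rcases a with a | a
  · exact (Nat.ble_eq.mp (spCd a).1).trans (by norm_num)
  · change 142 + a.1 ≤ 155
    omega

theorem spIx_eq (β c : ℕ) : spIx (142 + β) c = β * 2 + c := by
  change (142 + β - 142) * 2 + c = _
  omega

theorem spF3_eq (a b : (Fin 2 × Fin 71) ⊕ Fin 14) (k : Bool) :
    spF3 k (spC a) (spC b) = spO (tab.f3 a b k) := by
  rcases a with a | a <;> rcases b with b | b <;> cases k <;>
    simp only [spF3, spC, Sum.elim_inl, Sum.elim_inr, spCd, spLa, cond_true, cond_false, spI_eq,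
      spIx_eq, Tab.f3]
  · exact spUp_eq _ _ (spDg _ _ _ _ (by norm_num))
  · exact spLb_eq _
  · exact spUp_eq _ _ (spDg _ _ _ _ (by norm_num))
  · rfl
  · exact spUp_eq _ _ (spDg _ _ _ _ (by norm_num))
  all_goals rfl

theorem spF1_eq (a b : (Fin 2 × Fin 71) ⊕ Fin 14) (k : Bool) :
    spF1 k (spC a) (spC b) = spO (tab.f1 a b k) := by
  rcases a with a | a <;> rcases b with b | b <;> cases k <;>
    simp only [spF1, spC, Sum.elim_inl, Sum.elim_inr, spCd, spLa, cond_true, cond_false, spI_eq,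
      spIx_eq, Tab.f1, spZ_eq]
  · have h := spDg tRw 8 256 (ix a.1 b.1 (b.2 - a.2)) (by norm_num)
    rw [spDn_eq _ _ _ (by change _ / 128 < 2; omega)]
    simp only [tab, pt, frc_eq]
  · exact spLb_eq _
  · have h := spDg spIc 1 2 (b.1 * 2 + a.1.1) (by norm_num)
    rw [spDn_eq _ _ _ h]
    have e : (tab.ic b a.1).1 = dg spIc 1 2 (b.1 * 2 + a.1.1) := Nat.mod_eq_of_lt h
    change _ = spO (tab.dn a.2 (_, (pt (dg spTc 8 256 (b.1 * 2 + (tab.ic b a.1).1))).2))
    rw [e]
    rfl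
  · rfl
  · have h := spDg spIs 1 2 (a.1 * 2 + b.1.1) (by norm_num)
    rw [spDn_eq _ _ _ h]
    have e : (tab.is a b.1).1 = dg spIs 1 2 (a.1 * 2 + b.1.1) := Nat.mod_eq_of_lt h
    change _ = spO (tab.dn b.2 (_, (pt (dg spTs 8 256 (a.1 * 2 + (tab.is a b.1).1))).2))
    rw [e]
    rfl
  all_goals rfl

theorem spCand (a b c y : (Fin 2 × Fin 71) ⊕ Fin 14) (k k' : Bool)
    (h : spT2 (spC a) (spC b) (spC c) (spC y) (Tab.lab c) k = false) :
    tab.cand a b c y k k' = none := by
  rw [spT2, spZ_eq, spF3_eq a] at h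
  unfold Tab.cand
  rcases h1 : tab.f3 a y k with _ | s
  · rfl
  rw [h1, show spO (some s) = spC s from rfl, show nat_lit 155 = 155 from rfl, spLe] at h
  replace h : spT1 (spC b) (spC c) (spC y) (spC s) (Tab.lab c) k' = false := by
    cases h2 : spT1 (spC b) (spC c) (spC y) (spC s) (Tab.lab c) false
    · rw [h2] at h
      cases k'
      exacts [h2, h]
    · rw [h2] at h
      cases h
  rw [spT1, spZ_eq, spF1_eq] at h
  rw [Option.bind_some]
  rcases h2 : tab.f1 b s k' with _ | r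
  · rfl
  rw [h2, show spO (some r) = spC r from rfl, show nat_lit 155 = 155 from rfl, spLe, spF3_eq] at h
  rw [Option.bind_some]
  rcases h3 : tab.f3 r y (Tab.lab c) with _ | t
  · rfl
  rw [h3] at h
  have h4 : t ≠ c := fun e => Nat.ne_of_beq_eq_false h (congrArg spC e)
  have h5 : Tab.eqP t c = false := by
    rcases t with t | t <;> rcases c with c | c <;> simp_all [Tab.eqP, Prod.ext_iff]
    tauto
  rw [Option.bind_some, h5]
  rfl

theorem spEn : ∀ i < 156, spC (en i) = i := by decide +kernel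

theorem spCands (a b c : (Fin 2 × Fin 71) ⊕ Fin 14) {i : ℕ} (hi : i < 156)
    (h : spT (spC a) (spC b) (spC c) i (Tab.lab c) = false) : tab.cands a b c (en i) = [] := by
  rw [← spEn i hi, spT] at h
  cases h1 : spT2 (spC a) (spC b) (spC c) (spC (en i)) (Tab.lab c) false
  · rw [h1] at h
    rw [Tab.cands, spCand _ _ _ _ _ _ h1, spCand _ _ _ _ _ _ h1, spCand _ _ _ _ _ _ h,
      spCand _ _ _ _ _ _ h]
    rfl
  · rw [h1] at h
    cases h

theorem spL_eq {β : Type} (a b c : ℕ) (l : Bool) (n : ℕ) (L : List ℕ) (f : ℕ → List β)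
    (h : ∀ i < n, spT a b c i l = false → f i = []) :
    (spL a b c l n L).flatMap f = (List.range n).flatMap f ++ L.flatMap f := by
  induction n generalizing L with
  | zero => rfl
  | succ n ih =>
    change List.flatMap f (Bool.rec (spL a b c l n L) (spL a b c l n (n :: L)) (spT a b c n l)) = _
    have ih' := fun L => ih L fun i hi => h i (Nat.lt_succ_of_lt hi)
    cases h1 : spT a b c n l
    · simp [List.range_succ, ih', h n (Nat.lt_succ_self n) h1]
    · simp [List.range_succ, ih']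

def spQuads (a b c : (Fin 2 × Fin 71) ⊕ Fin 14) : List (Six ((Fin 2 × Fin 71) ⊕ Fin 14)) :=
  spZ (spC a) fun x => spZ (spC b) fun y => spZ (spC c) fun z =>
    (spL x y z (Tab.lab c) 156 []).flatMap fun i => tab.cands a b c (en i)

theorem spQuads_eq (a b c : (Fin 2 × Fin 71) ⊕ Fin 14) :
    tab.quads 156 en a b c = spQuads a b c := by
  simp only [spQuads, spZ_eq, Tab.quads]
  rw [spL_eq _ _ _ _ _ _ _ fun i hi h => spCands a b c hi h, List.flatMap_nil, List.append_nil]

def spCell (a : Fin 2) (p : Fin 2 × Fin 71) : Bool :=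
  spZ (cd (a, 0)) fun x => spZ (cd p) fun y => spZ (cd (tab.th a p.1 p.2)) fun z =>
    tab.okL 1 true ((spL x y z false 156 []).flatMap fun i =>
      cond (Nat.blt i 142 && !raw.pf tab x y z i) []
        (tab.cands (.inl (a, 0)) (.inl p) (.inl (tab.th a p.1 p.2)) (en i)))

theorem spCell_eq (a : Fin 2) (p : Fin 2 × Fin 71) :
    raw.okCell tab 156 142 en 1 a p = spCell a p := by
  simp only [spCell, frc_eq, spZ_eq, Tab.Raw.okCell]
  rw [spL_eq _ _ _ _ _ _ _ fun i hi h => by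
    rw [spCands (.inl (a, 0)) (.inl p) (.inl (tab.th a p.1 p.2)) hi h, Bool.cond_self],
    List.flatMap_nil, List.append_nil]
  rfl

theorem bord : ∀ β a, tab.okBord 156 en 1 β a = true := by
  simp only [Tab.okBord, spQuads_eq]
  decide +kernel

theorem c00 : ∀ x, raw.okCell tab 156 142 en 1 0 (0, x) = true := by
  simp only [spCell_eq]
  decide +kernel

theorem c01 : ∀ x, raw.okCell tab 156 142 en 1 0 (1, x) = true := by
  simp only [spCell_eq]
  decide +kernel

theorem c10 : ∀ x, raw.okCell tab 156 142 en 1 1 (0, x) = true := by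
  simp only [spCell_eq]
  decide +kernel

theorem c11 : ∀ x, raw.okCell tab 156 142 en 1 1 (1, x) = true := by
  simp only [spCell_eq]
  decide +kernel

end Pool.Agent.NL.G1
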