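import Pool.Agent.Work.MP_03d2dd_co.NL.G2T
import Mathlib.Tactic.IntervalCases

/-! Checks of the cells of the second gadget, part 0. -/

namespace Pool.Agent.NL.G2

theorem c0 : ∀ x < 12, raw.okCell tab 439 432 en 2 () (pt (0 + x)) = true := by
  decide +kernel

theorem c12 : ∀ x < 12, raw.okCell tab 439 432 en 2 () (pt (12 + x)) = true := by
  decide +kernel

theorem c24 : ∀ x < 12, raw.okCell tab 439 432 en 2 () (pt (24 + x)) = true := by
  decide +kernel

theorem c36 : ∀ x < 12, raw.okCell tab 439 432 en 2 () (pt (36 + x)) = true := by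
  decide +kernel

theorem c48 : ∀ x < 12, raw.okCell tab 439 432 en 2 () (pt (48 + x)) = true := by
  decide +kernel

theorem c60 : ∀ x < 12, raw.okCell tab 439 432 en 2 () (pt (60 + x)) = true := by
  decide +kernel

theorem c72 : ∀ x < 12, raw.okCell tab 439 432 en 2 () (pt (72 + x)) = true := by
  decide +kernel

theorem c84 : ∀ x < 12, raw.okCell tab 439 432 en 2 () (pt (84 + x)) = true := by
  decide +kernel

theorem c96 : ∀ x < 12, raw.okCell tab 439 432 en 2 () (pt (96 + x)) = true := by
  decide +kernel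

theorem chk0 (x : ℕ) (h1 : 0 ≤ x) (h2 : x < 108) :
    raw.okCell tab 439 432 en 2 () (pt x) = true := by
  obtain ⟨y, rfl⟩ := Nat.exists_eq_add_of_le h1
  have : y / 12 < 9 := by omega
  have e : 0 + y = 0 + 12 * (y / 12) + y % 12 := by omega
  have l : y % 12 < 12 := Nat.mod_lt _ (by norm_num)
  rw [e]
  generalize y / 12 = z at this
  interval_cases z
  exacts [c0 _ l, c12 _ l, c24 _ l, c36 _ l, c48 _ l, c60 _ l, c72 _ l, c84 _ l, c96 _ l]

end Pool.Agent.NL.G2
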