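import Pool.Agent.Work.MP_03d2dd_co.NL.G2T
import Mathlib.Tactic.IntervalCases

/-! Checks of the cells of the second gadget, part 1. -/

namespace Pool.Agent.NL.G2

theorem c108 : ∀ x < 12, raw.okCell tab 439 432 en 2 () (pt (108 + x)) = true := by
  decide +kernel

theorem c120 : ∀ x < 12, raw.okCell tab 439 432 en 2 () (pt (120 + x)) = true := by
  decide +kernel

theorem c132 : ∀ x < 12, raw.okCell tab 439 432 en 2 () (pt (132 + x)) = true := by
  decide +kernel

theorem c144 : ∀ x < 12, raw.okCell tab 439 432 en 2 () (pt (144 + x)) = true := by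
  decide +kernel

theorem c156 : ∀ x < 12, raw.okCell tab 439 432 en 2 () (pt (156 + x)) = true := by
  decide +kernel

theorem c168 : ∀ x < 12, raw.okCell tab 439 432 en 2 () (pt (168 + x)) = true := by
  decide +kernel

theorem c180 : ∀ x < 12, raw.okCell tab 439 432 en 2 () (pt (180 + x)) = true := by
  decide +kernel

theorem c192 : ∀ x < 12, raw.okCell tab 439 432 en 2 () (pt (192 + x)) = true := by
  decide +kernel

theorem c204 : ∀ x < 12, raw.okCell tab 439 432 en 2 () (pt (204 + x)) = true := by
  decide +kernel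

theorem chk1 (x : ℕ) (h1 : 108 ≤ x) (h2 : x < 216) :
    raw.okCell tab 439 432 en 2 () (pt x) = true := by
  obtain ⟨y, rfl⟩ := Nat.exists_eq_add_of_le h1
  have : y / 12 < 9 := by omega
  have e : 108 + y = 108 + 12 * (y / 12) + y % 12 := by omega
  have l : y % 12 < 12 := Nat.mod_lt _ (by norm_num)
  rw [e]
  generalize y / 12 = z at this
  interval_cases z
  exacts [c108 _ l, c120 _ l, c132 _ l, c144 _ l, c156 _ l, c168 _ l, c180 _ l, c192 _ l, c204 _ l]

end Pool.Agent.NL.G2
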