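import Pool.Agent.Work.MP_03d2dd_co.NL.G2T
import Mathlib.Tactic.IntervalCases

/-! Checks of the cells of the second gadget, part 2. -/

namespace Pool.Agent.NL.G2

theorem c216 : ∀ x < 12, raw.okCell tab 439 432 en 2 () (pt (216 + x)) = true := by
  decide +kernel

theorem c228 : ∀ x < 12, raw.okCell tab 439 432 en 2 () (pt (228 + x)) = true := by
  decide +kernel

theorem c240 : ∀ x < 12, raw.okCell tab 439 432 en 2 () (pt (240 + x)) = true := by
  decide +kernel

theorem c252 : ∀ x < 12, raw.okCell tab 439 432 en 2 () (pt (252 + x)) = true := by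
  decide +kernel

theorem c264 : ∀ x < 12, raw.okCell tab 439 432 en 2 () (pt (264 + x)) = true := by
  decide +kernel

theorem c276 : ∀ x < 12, raw.okCell tab 439 432 en 2 () (pt (276 + x)) = true := by
  decide +kernel

theorem c288 : ∀ x < 12, raw.okCell tab 439 432 en 2 () (pt (288 + x)) = true := by
  decide +kernel

theorem c300 : ∀ x < 12, raw.okCell tab 439 432 en 2 () (pt (300 + x)) = true := by
  decide +kernel

theorem c312 : ∀ x < 12, raw.okCell tab 439 432 en 2 () (pt (312 + x)) = true := by
  decide +kernel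

theorem chk2 (x : ℕ) (h1 : 216 ≤ x) (h2 : x < 324) :
    raw.okCell tab 439 432 en 2 () (pt x) = true := by
  obtain ⟨y, rfl⟩ := Nat.exists_eq_add_of_le h1
  have : y / 12 < 9 := by omega
  have e : 216 + y = 216 + 12 * (y / 12) + y % 12 := by omega
  have l : y % 12 < 12 := Nat.mod_lt _ (by norm_num)
  rw [e]
  generalize y / 12 = z at this
  interval_cases z
  exacts [c216 _ l, c228 _ l, c240 _ l, c252 _ l, c264 _ l, c276 _ l, c288 _ l, c300 _ l, c312 _ l]

end Pool.Agent.NL.G2
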