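import Pool.Agent.Work.MP_03d2dd_co.NL.G2T
import Mathlib.Tactic.IntervalCases

/-! Checks of the cells of the second gadget, part 3. -/

namespace Pool.Agent.NL.G2

theorem c324 : ∀ x < 12, raw.okCell tab 439 432 en 2 () (pt (324 + x)) = true := by
  decide +kernel

theorem c336 : ∀ x < 12, raw.okCell tab 439 432 en 2 () (pt (336 + x)) = true := by
  decide +kernel

theorem c348 : ∀ x < 12, raw.okCell tab 439 432 en 2 () (pt (348 + x)) = true := by
  decide +kernel

theorem c360 : ∀ x < 12, raw.okCell tab 439 432 en 2 () (pt (360 + x)) = true := by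
  decide +kernel

theorem c372 : ∀ x < 12, raw.okCell tab 439 432 en 2 () (pt (372 + x)) = true := by
  decide +kernel

theorem c384 : ∀ x < 12, raw.okCell tab 439 432 en 2 () (pt (384 + x)) = true := by
  decide +kernel

theorem c396 : ∀ x < 12, raw.okCell tab 439 432 en 2 () (pt (396 + x)) = true := by
  decide +kernel

theorem c408 : ∀ x < 12, raw.okCell tab 439 432 en 2 () (pt (408 + x)) = true := by
  decide +kernel

theorem c420 : ∀ x < 12, raw.okCell tab 439 432 en 2 () (pt (420 + x)) = true := by
  decide +kernel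

theorem chk3 (x : ℕ) (h1 : 324 ≤ x) (h2 : x < 432) :
    raw.okCell tab 439 432 en 2 () (pt x) = true := by
  obtain ⟨y, rfl⟩ := Nat.exists_eq_add_of_le h1
  have : y / 12 < 9 := by omega
  have e : 324 + y = 324 + 12 * (y / 12) + y % 12 := by omega
  have l : y % 12 < 12 := Nat.mod_lt _ (by norm_num)
  rw [e]
  generalize y / 12 = z at this
  interval_cases z
  exacts [c324 _ l, c336 _ l, c348 _ l, c360 _ l, c372 _ l, c384 _ l, c396 _ l, c408 _ l, c420 _ l]

end Pool.Agent.NL.G2
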