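import Pool.Agent.Work.MP_03d2dd_co.NL.TabS
import Pool.Agent.Work.MP_03d2dd_co.NL.G1C
import Pool.Agent.Work.MP_03d2dd_co.NL.G2C0
import Pool.Agent.Work.MP_03d2dd_co.NL.G2C1
import Pool.Agent.Work.MP_03d2dd_co.NL.G2C2
import Pool.Agent.Work.MP_03d2dd_co.NL.G2C3

/-! The two gadgets with labels. -/

namespace Pool.Agent.NL

theorem G1.enum : Tab.Enum 156 G1.en := by
  have k : ∀ i < 156, Sum.elim G1.cd (fun b => 142 + b.1) (G1.en i) = i := by
    decide +kernel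
  have l : ∀ p, Sum.elim G1.cd (fun b => 142 + b.1) p < 156 ∧
      G1.en (Sum.elim G1.cd (fun b => 142 + b.1) p) = p := by decide +kernel
  exact ⟨fun p => ⟨_, l p⟩, fun i hi j hj e => by rw [← k i hi, e, k j hj]⟩

theorem G1.en_cd : ∀ i < 142, ∃ p, G1.en i = .inl p ∧ G1.raw.cd p = i := fun i hi =>
  ⟨(Fin.ofNat 2 (i / 71), Fin.ofNat 71 i), if_pos hi, by
    change i / 71 % 2 * 71 + i % 71 = i
    omega⟩

theorem G2.en_cd : ∀ i < 432, ∃ p, G2.en i = .inl p ∧ G2.raw.cd p = i := fun i hi =>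
  ⟨G2.pt i, if_pos hi, Nat.mod_eq_of_lt hi⟩

theorem G2.ok : G2.tab.OkTab := by decide +kernel

theorem G2.bord : ∀ β a, G2.tab.okBord 439 G2.en 2 β a = true := by decide +kernel

theorem G2.enum : Tab.Enum 439 G2.en := by
  have k : ∀ i < 439, Sum.elim (fun p => G2.ix p.2) (fun b => 432 + b.1) (G2.en i) = i := by
    decide +kernel
  have l : ∀ p, Sum.elim (fun p => G2.ix p.2) (fun b => 432 + b.1) p < 439 ∧
      G2.en (Sum.elim (fun p => G2.ix p.2) (fun b => 432 + b.1) p) = p := by decide +kernel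
  exact ⟨fun p => ⟨_, l p⟩, fun i hi j hj e => by rw [← k i hi, e, k j hj]⟩

theorem dvd_4686 {t c : ℕ} (h : t ∣ 4686 ^ 4) : t * 11 ^ c ∣ 4686 ^ (4 + c) := by
  rw [pow_add]
  exact mul_dvd_mul h (pow_dvd_pow_of_dvd (by norm_num) _)

theorem gad1 : ∃ t e, Rep ∅ t 1 14 1 ∧ Even t ∧ t ∣ 4686 ^ e := by
  obtain ⟨c, h⟩ := Tab.tab_rep (T := G1.tab) ⟨G1.ok, G1.enum, fun a p => by
    rw [← Tab.okCell_raw G1.ok G1.raw (t := 142) G1.en_cd]
    obtain ⟨b, x⟩ := p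
    fin_cases a <;> fin_cases b
    exacts [G1.c00 x, G1.c01 x, G1.c10 x, G1.c11 x], G1.bord⟩
  exact ⟨142 * 11 ^ c, _, by simpa using h, Even.mul_right (by decide) _, dvd_4686 (by norm_num)⟩

theorem gad2 : ∃ t e, Rep ∅ t 1 7 2 ∧ Even t ∧ t ∣ 4686 ^ e := by
  obtain ⟨c, h⟩ := Tab.tab_rep (T := G2.tab) ⟨G2.ok, G2.enum, fun a p => by
    rw [← Tab.okCell_raw G2.ok G2.raw (t := 432) G2.en_cd]
    have e : G2.pt (G2.ix p.2) = p := Prod.ext rfl (Fin.ext (Nat.mod_eq_of_lt p.2.2))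
    have l : G2.ix p.2 < 432 := p.2.2
    rw [← e]
    by_cases h1 : G2.ix p.2 < 108
    · exact G2.chk0 _ (by omega) h1
    by_cases h2 : G2.ix p.2 < 216
    · exact G2.chk1 _ (by omega) h2
    by_cases h3 : G2.ix p.2 < 324
    · exact G2.chk2 _ (by omega) h3
    · exact G2.chk3 _ (by omega) l, G2.bord⟩
  have e : Fintype.card G2.V = 432 := Fintype.card_fin 432
  rw [e] at h
  exact ⟨432 * 11 ^ c, _, by simpa using h, Even.mul_right (by decide) _, dvd_4686 (by norm_num)⟩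

end Pool.Agent.NL
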