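import Pool.Agent.Work.MP_03d2dd_co.Spectrum

/-! Orders in all residue classes: the start.

Plan for `cov_base`.  Write `r % M + M = 2 ^ e * r'` with `r'` odd
(`Nat.exists_eq_two_pow_mul_odd`), so `2 ^ e ≤ 2 * M`.  If `e = 0` then `r` is odd, `4 ∣ h`, put
`c = τ * q'`; otherwise put `c = τ * q * (13 ^ 16) ^ (e - 1)`.  As `c` is coprime to `M` there is
`m < M` with `c * m ≡ r' [MOD M]`; `m` is odd since `M` is even and `r'` is odd.  Take
`N = 2 ^ e * c * m`.  The square is the product (`Ex.mul_one'`) of the given one, `e - 1` copies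
of `ex_zero` for the prime 13, and `ex_odd` for `τ * m`.  Size: `2 * 13 ^ 16 ≤ 2 ^ 61`. -/

namespace Pool.Agent.NL

open Pool.Agent.Work.MP_03d2dd_co

/-- The counting condition. -/
def Adm (h n : ℕ) : Prop := Even n ∨ 4 ∣ h

/-- Every admissible class modulo `M` contains an order `N ≤ U` divisible by `τ`. -/
def Cov (h τ M U : ℕ) : Prop :=
  ∀ r, Adm h r → ∃ N, Ex N (h + 1) ∧ N ≤ U ∧ N ≡ r [MOD M] ∧ τ ∣ N

theorem Cov.mono {h τ M U M' U' : ℕ} (H : Cov h τ M U) (hM : M' ∣ M) (hU : U ≤ U') :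
    Cov h τ M' U' := fun r hr =>
  let ⟨N, a, b, c, d⟩ := H r hr
  ⟨N, a, b.trans hU, c.of_dvd hM, d⟩

theorem cova_pow {a n : ℕ} (H : Ex a n) (k : ℕ) : Ex (a * (2 * 13 ^ 16) ^ k) n := by
  induction k with
  | zero => rwa [pow_zero, mul_one]
  | succ k ih =>
    rw [pow_succ, ← mul_assoc]
    exact ih.mul_one' (ex_zero (by norm_num) (by norm_num))

theorem cova_core {n τ M B E c r r' : ℕ} (hM : Even M) (hM0 : 0 < M) (hτ : Nat.Coprime τ M)
    (hc : Nat.Coprime c M) (H : Ex (E * c) n) (hB : E * c ≤ B) (hr : r % M + M = E * r')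
    (ho : Odd r') : ∃ N, Ex N n ∧ N ≤ τ * B * (2 * M) ∧ N ≡ r [MOD M] ∧ τ ∣ N := by
  obtain ⟨m, h1, h2⟩ := Nat.exists_mul_mod_eq_of_coprime r' (Nat.Coprime.mul_left hc hτ) hM0.ne'
  have h3 : c * τ * m ≡ r' [MOD M] := h2
  have h4 : Odd (c * (τ * m)) := by
    rw [← mul_assoc, Nat.odd_iff, (h3.of_dvd hM.two_dvd :), ← Nat.odd_iff]
    exact ho
  refine ⟨E * c * (τ * m), H.mul_one' (ex_odd ?_), ?_, ?_, ⟨E * c * m, by ring⟩⟩
  · exact (Nat.coprime_two_right).2 (Nat.Odd.of_mul_right h4)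
  · calc E * c * (τ * m) ≤ B * (τ * (2 * M)) := by
          gcongr
          omega
      _ = τ * B * (2 * M) := by ring
  · have h5 := h3.mul_left E
    rw [← hr, show E * (c * τ * m) = E * c * (τ * m) by ring] at h5
    refine h5.trans ?_
    unfold Nat.ModEq
    rw [Nat.add_mod_right, Nat.mod_mod]

theorem cov_base {h τ M Q : ℕ} (hM : Even M) (hM0 : 0 < M) (hτ : Nat.Coprime (13 * τ) M)
    (E2 : ∃ q ≤ Q, Ex (2 * q) (h + 1) ∧ Nat.Coprime q M)
    (E1 : 4 ∣ h → ∃ q ≤ Q, Ex q (h + 1) ∧ Nat.Coprime q M) :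
    Cov h τ M (τ * Q * (2 * M) ^ 62) := by
  intro r hr
  obtain ⟨e, r', ho, he⟩ := Nat.exists_eq_two_pow_mul_odd (n := r % M + M) (by omega)
  have h13 : Nat.Coprime 13 M := hτ.coprime_mul_right
  have hτ' : Nat.Coprime τ M := hτ.coprime_mul_left
  have hle : 2 ^ e ≤ 2 * M := by
    have h1 := Nat.mod_lt r hM0
    have h2 := Nat.le_mul_of_pos_right (2 ^ e) ho.pos
    omega
  rw [show τ * Q * (2 * M) ^ 62 = τ * (Q * (2 * M) ^ 61) * (2 * M) by ring]
  cases e with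
  | zero =>
    have h4 : 4 ∣ h := hr.resolve_left fun h1 => by
      have h2 := Nat.mod_mod_of_dvd r hM.two_dvd
      rw [Nat.even_iff] at h1 hM
      rw [Nat.odd_iff] at ho
      omega
    obtain ⟨q, h1, h2, h3⟩ := E1 h4
    refine cova_core hM hM0 hτ' h3 (by rwa [pow_zero, one_mul]) ?_ he ho
    rw [pow_zero, one_mul]
    exact h1.trans (Nat.le_mul_of_pos_right _ (by positivity))
  | succ k =>
    obtain ⟨q, h1, h2, h3⟩ := E2
    have h4 : 2 ^ (k + 1) * (q * (13 ^ 16) ^ k) = 2 * q * (2 * 13 ^ 16) ^ k := by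
      rw [mul_pow]
      generalize (13 ^ 16) ^ k = z
      ring
    refine cova_core (c := q * (13 ^ 16) ^ k) hM hM0 hτ'
      (Nat.Coprime.mul_left h3 ((h13.pow_left _).pow_left _)) (h4 ▸ cova_pow h2 k) ?_ he ho
    calc 2 ^ (k + 1) * (q * (13 ^ 16) ^ k) = q * (2 * (2 * 13 ^ 16) ^ k) := by
          rw [h4, mul_comm 2 q, mul_assoc]
      _ ≤ Q * (2 ^ 61 * (2 ^ 61) ^ k) :=
          Nat.mul_le_mul h1 (Nat.mul_le_mul (by norm_num) (Nat.pow_le_pow_left (by norm_num) _))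
      _ = Q * (2 ^ (k + 1)) ^ 61 := by rw [← pow_succ', ← pow_mul, ← pow_mul, mul_comm 61]
      _ ≤ Q * (2 * M) ^ 61 := Nat.mul_le_mul_left _ (Nat.pow_le_pow_left hle _)

end Pool.Agent.NL
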