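import Pool.Agent.Work.MP_03d2dd_co.NL.FillC

/-! Filling the hole of a clean system.

Plan.  `reg_uc`: split by the colour (`num_sum` wants a function to a finite type: use
`S.col (mk6 ..)` with values in `Option S.C`, the value `none` does not occur, or sum over
`k` by `num_or`-induction).  `bal_uc`: split both sides by the class index `y.2.2 : Fin k` and the
colour, and use `S.bal` with `num_bij`.
`fill`: `K = S.B × Fin k`, `M` from `derange`, `T (x, y, z) := ∃ β, M (β, x) (β, y) = (β, z)`,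
`c = g * k` (a triple with given first entry is determined by `(β, y)`, and so on, using that `M`
is latin), `κ` from `greedy`, `l z = S.lb z.1 (κ z.2)`; `h3` from `S.three`.  All weights are 1.
`fillN`: if `N = 0` take `k = 0`; else `g ≥ 1`, `N = g * k`, `ex_le`.
`Rep.ex`: `k = 0` needs `0 < a`; use `Rep.le`-style reasoning directly: the group `S.A` is
nonempty, so a `Rep` with any `a` is also one with `a = 1`; `Ex 0 m` holds on the empty type. -/

namespace Pool.Agent.NL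

open Pool.Agent.Work.MP_03d2dd_co

theorem fill_split {X C : Type} [Finite X] [Fintype C] (p : X → Prop) (f : X → Option C)
    (hf : ∀ x, p x → f x ≠ none) : num p = ∑ c, num fun x => p x ∧ f x = some c := by
  rw [num_sum p f, Fintype.sum_option, num_zero (fun x a => hf x a.1 a.2), zero_add]

theorem fill_two {X B C : Type} {k : ℕ} [Finite X] [Finite B] [Fintype C]
    (p : X × B × Fin k → Prop) (f : X → Option C) (hf : ∀ y, p y → f y.1 ≠ none) :
    num p = ∑ i, ∑ c, num fun z : X × B => p (z.1, z.2, i) ∧ f z.1 = some c := by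
  rw [num_sum p fun y => y.2.2]
  refine Finset.sum_congr rfl fun i _ => ?_
  rw [← fill_split (fun z : X × B => p (z.1, z.2, i)) (fun z => f z.1) fun z a => hf _ a]
  refine num_bij (fun y => (y.1, y.2.1)) ?_ ?_ ?_
  · rintro ⟨x, b, j⟩ ⟨a, rfl⟩
    exact a
  · rintro ⟨x, b, j⟩ ⟨x', b', j'⟩ ⟨-, e⟩ ⟨-, e'⟩ h
    obtain ⟨rfl, rfl⟩ := Prod.mk.inj h
    dsimp only at e e'
    rw [e, e']
  · rintro ⟨x, b⟩ a
    exact ⟨(x, b, i), ⟨a, rfl⟩, rfl⟩

theorem fill_le {X K : Type} [Finite K] (p : X → Prop) (φ : K → X)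
    (h : ∀ x, p x → ∃ z, φ z = x) : num p ≤ Nat.card K := by
  choose g hg using h
  refine Nat.card_le_card_of_injective (fun x : {x // p x} => g x.1 x.2) fun x y e => ?_
  exact Subtype.ext ((hg x.1 x.2).symm.trans ((congrArg φ e).trans (hg y.1 y.2)))

theorem Sys.sep_uc (S : Sys) (hS : S.Clean) : S.G.Sep uc :=
  fun q b hq _ ho => S.sep q b hq (hS q hq) ho

theorem Sys.reg_uc (S : Sys) (hS : S.Clean) {a b c : S.P} (h : S.G.line a b c) :
    num (S.G.RegP uc a b c ()) = ∑ k, S.N k := by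
  rw [fill_split _ (fun x => S.col (mk6 a b c x)) fun x hx => hS _ hx.1]
  refine Finset.sum_congr rfl fun k _ => ?_
  rw [← S.reg h k]
  exact num_congr fun x => ⟨fun u => ⟨u.1.1, u.2, u.1.2.2⟩, fun u => ⟨⟨u.1, rfl, u.2.2⟩, u.2.1⟩⟩

theorem Sys.bal_uc (S : Sys) (hS : S.Clean) {k : ℕ} (κ : Fin k → S.A) {a b c : S.P}
    (h : S.G.line a b c) (hp : S.G.Plain (a, b, c)) :
    num (S.G.LossP uc (fun z : S.B × Fin k => S.lb z.1 (κ z.2)) a b c ()) =
      num (S.G.GainP uc (fun z : S.B × Fin k => S.lb z.1 (κ z.2)) a b c ()) := by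
  rw [fill_two _ (fun x => S.col (mk6 a b c x)) fun y hy => hS _ hy.1.1,
    fill_two _ (fun x => S.col (mk6 a b c x)) fun y hy => hS _ hy.1]
  refine Finset.sum_congr rfl fun i _ => Finset.sum_congr rfl fun e _ => ?_
  refine Eq.trans ?_ ((S.bal h hp e (κ i)).trans ?_)
  · exact num_congr fun z => ⟨fun u => ⟨⟨u.1.1.1, u.2, u.1.1.2.2⟩, u.1.2⟩,
      fun u => ⟨⟨⟨u.1.1, rfl, u.1.2.2⟩, u.2⟩, u.1.2.1⟩⟩
  · exact num_congr fun z => ⟨fun u => ⟨⟨u.1, rfl, u.2.2⟩, u.2.1⟩,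
      fun u => ⟨u.1.1, u.2, u.1.2.2⟩⟩

theorem fill {n a g h k : ℕ} (H : Rep ∅ n a g h) (E : Ex (g * k) (h + 1))
    (h3 : g * k = 0 ∨ 3 ≤ g * k) (hk : 3 * (g * k) + k < a) : Ex (n + g * k) (h + 1) := by
  obtain ⟨S, hS, rfl, ha, rfl, w, hw, hv⟩ := H
  have hK : Nat.card (S.B × Fin k) = Nat.card S.B * k := by simp
  rw [← hK] at E h3 ⊢
  obtain ⟨M, m1, m2, md, hM⟩ := derange E h3
  obtain ⟨κ, k1, k2⟩ := greedy S.tf (k := k) (c := Nat.card (S.B × Fin k))
    (fun t => ∃ β : S.B, M (β, t.1) (β, t.2.1) = (β, t.2.2)) (fun x ⟨β, e⟩ => md _ e)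
    (fun u => fill_le _ (fun z : S.B × Fin k => (u, z.2, (M (z.1, u) z).2)) (by
      rintro ⟨x, y, z⟩ ⟨⟨β, e⟩, rfl⟩
      exact ⟨(β, y), by dsimp only at e ⊢; rw [e]⟩))
    (fun u => fill_le _ (fun z : S.B × Fin k => (z.2, u, (M z (z.1, u)).2)) (by
      rintro ⟨x, y, z⟩ ⟨⟨β, e⟩, rfl⟩
      exact ⟨(β, x), by dsimp only at e ⊢; rw [e]⟩))
    (fun u => fill_le _
      (fun z : S.B × Fin k => (z.2, (Function.surjInv (m1 z).2 (z.1, u)).2, u)) (by
      rintro ⟨x, y, z⟩ ⟨⟨β, e⟩, rfl⟩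
      refine ⟨(β, x), ?_⟩
      dsimp only at e ⊢
      rw [(m1 (β, x)).1 ((Function.surjInv_eq (m1 (β, x)).2 (β, z)).trans e.symm)]))
    (by rw [hK]; omega)
  have hh : ∑ c, S.N c = h := by
    rw [← hv]
    refine Finset.sum_congr rfl fun c _ => ?_
    rcases hw c with e | e
    · rw [e, mul_one]
    · simp at e
  refine FH.ex (G := S.G) (l := fun z : S.B × Fin k => S.lb z.1 (κ z.2)) (M := M)
    ⟨fun z => (S.lb_lab _).2 ⟨_, _, rfl⟩, fun x y e => ?_, m1, m2, S.four, S.sep_uc hS,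
      fun x y r c s l1 l2 l3 => ?_, hM, fun a b c l => (S.reg_uc hS l).trans hh,
      fun a b c l p => S.bal_uc hS κ l p⟩
  · exact Prod.ext (S.lb_inj e).1 (k1 (S.lb_inj e).2)
  · obtain ⟨e1, e2, e3⟩ := S.three l3 l2 l1
    refine k2 x.2 y.2 (M x y).2 ⟨(M x y).1, ?_⟩ e3
    have ex : ((M x y).1, x.2) = x := Prod.ext e2 rfl
    have ey : ((M x y).1, y.2) = y := Prod.ext e1 rfl
    dsimp only
    rw [ex, ey]

theorem fillN {n a g h N : ℕ} (H : Rep ∅ n a g h) (E : Ex N (h + 1)) (hg : g ∣ N) (h2 : 2 ≤ h)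
    (hN : 4 * N < a) : Ex (n + N) (h + 1) := by
  obtain ⟨k, rfl⟩ := hg
  by_cases h0 : g * k = 0
  · rw [h0] at E hN ⊢
    exact fill (k := 0) H E (Or.inl rfl) (by omega)
  · have hg : 0 < g := Nat.pos_of_ne_zero fun e => h0 (by rw [e, zero_mul])
    have hk : k ≤ g * k := Nat.le_mul_of_pos_left k hg
    exact fill H E ((ex_le E).imp id fun e => by omega) (by omega)

theorem Rep.ex {n a g h : ℕ} (H : Rep ∅ n a g h) : Ex n (h + 1) := by
  obtain ⟨S, hS, hn, -, hg, hw⟩ := H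
  have h1 : 1 ≤ Nat.card S.A := Nat.card_pos
  exact fill (k := 0) (a := 1) ⟨S, hS, hn, h1, hg, hw⟩
    ⟨Empty, inferInstance, inferInstance, fun x _ => x, by simp,
      ⟨fun r => r.elim, fun c => c.elim⟩, fun r => r.elim⟩ (Or.inl rfl) (by omega)

end Pool.Agent.NL
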