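import Pool.Agent.Work.MP_03d2dd_co.NL.Lift

/-! Scaling colours by a cyclic fibre.

Plan.  `onLD`: as in `StepA` but without offsets: the coefficients are
`cst (tz * ∏ k ∈ U, σ k)`.  For a quad of colour `k ∈ U` split off `σ k` (`σ_on`, `σ_flat`,
`OnId.mul`, `OnId.cst`); `offSum` of zeros is 0.  For `k ∉ U` the product is one vector `v` on
the four lines (`σ_flat`), the determinant is a unit (`det_mul`, `det_cst`, `det_tz`), and if the
quad is `Rel` one of its lines is `Spec`, so `v = 1` (`σ_one`).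
`liftOn`: `R = ZMod m` (`ZMod.isUnit_iff_coprime`), `sys_ord`, `sys_A`, `sys_clean`.
`scale`: `U = univ`.  `gen`: `U = ∅`.  `drop`: `U` the colours of weight `d`, new weight 1 there.
`close`: induction on `D` with `drop`. -/

namespace Pool.Agent.NL

theorem repops_flat (S : Sys) {U : Finset S.C} {q : Six S.P} {k : S.C} (h : S.G.Quad q)
    (hk : S.col q = some k) (hU : k ∉ U) :
    ∏ j ∈ U, S.σ j q.r0 q.c1 q.s1 = ∏ j ∈ U, S.σ j q.r0 q.c0 q.s0 ∧
      ∏ j ∈ U, S.σ j q.r1 q.c0 q.s1 = ∏ j ∈ U, S.σ j q.r0 q.c0 q.s0 ∧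
      ∏ j ∈ U, S.σ j q.r1 q.c1 q.s0 = ∏ j ∈ U, S.σ j q.r0 q.c0 q.s0 :=
  have e := fun j (hj : j ∈ U) => S.σ_flat q k j h hk fun x => hU (x ▸ hj)
  ⟨Finset.prod_congr rfl fun j hj => (e j hj).1, Finset.prod_congr rfl fun j hj => (e j hj).2.1,
    Finset.prod_congr rfl fun j hj => (e j hj).2.2⟩

theorem repops_one (S : Sys) (U : Finset S.C) {a b c : S.P} (h : S.G.line a b c)
    (hs : S.G.Spec a b c) : ∏ j ∈ U, S.σ j a b c = 1 :=
  Finset.prod_eq_one fun j _ => S.σ_one j h hs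

theorem repops_rel {P : Type} {G : Geo P} {q : Six P} (h : G.Rel q) :
    G.Spec q.r0 q.c0 q.s0 ∨ G.Spec q.r0 q.c1 q.s1 ∨ G.Spec q.r1 q.c0 q.s1 ∨
      G.Spec q.r1 q.c1 q.s0 := by
  rcases h with (h | h | h | h | h | h) | ⟨b, hb, h | h | h | h⟩
  · exact Or.inl (Or.inl h)
  · exact Or.inl (Or.inr (Or.inl h))
  · exact Or.inl (Or.inr (Or.inr (Or.inl h)))
  · exact Or.inr (Or.inr (Or.inl (Or.inl h)))
  · exact Or.inr (Or.inl (Or.inr (Or.inl h)))
  · exact Or.inr (Or.inl (Or.inr (Or.inr (Or.inl h))))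
  · exact Or.inl (Or.inr (Or.inr (Or.inr ⟨b, hb, h.2⟩)))
  · exact Or.inr (Or.inl (Or.inr (Or.inr (Or.inr ⟨b, hb, h.2⟩))))
  · exact Or.inr (Or.inr (Or.inl (Or.inr (Or.inr (Or.inr ⟨b, hb, h.2⟩)))))
  · exact Or.inr (Or.inr (Or.inr (Or.inr (Or.inr (Or.inr ⟨b, hb, h.2⟩)))))

/-- The lift data that multiply the colours in `U`. -/
noncomputable def Sys.onLD (S : Sys) (U : Finset S.C) {R : Type} [CommRing R]
    (u : IsUnit (30 : R)) : LD S R where
  T := ⊤
  co a b c := cst R (S.G.tz a b c * ∏ k ∈ U, S.σ k a b c)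
  off _ _ _ := 0
  U k := k ∈ U
  u30 := u
  unit := fun a b c => ((sm_t0 _ _ _).mul (sm_prod _ _ fun k _ => S.σ_sm k a b c)).u3 u
  spec := fun h hs => ⟨by rw [repops_one S U h hs, mul_one], rfl⟩
  on := by
    classical
    intro q k h hk hU
    refine ⟨OnId.cst ?_, by simp [offSum, Six.a00, Six.a01, Six.a10, Six.a11]⟩
    obtain ⟨e1, e2, e3⟩ := repops_flat S h hk (Finset.notMem_erase k U)
    rw [← Finset.mul_prod_erase U _ hU, ← Finset.mul_prod_erase U _ hU,
      ← Finset.mul_prod_erase U (fun j => S.σ j q.r1 q.c0 q.s1) hU,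
      ← Finset.mul_prod_erase U (fun j => S.σ j q.r1 q.c1 q.s0) hU, e1, e2, e3,
      ← mul_assoc, ← mul_assoc, ← mul_assoc, ← mul_assoc]
    exact (S.σ_on q k h hk).mul _
  gen := by
    intro q k h hk hU
    obtain ⟨e1, e2, e3⟩ := repops_flat S h hk hU
    refine ⟨?_, fun hr => ?_⟩
    · obtain ⟨a1, a2, a3⟩ := (sm_prod U _ fun j _ => S.σ_sm j q.r0 q.c0 q.s0).u3 u
      simp only [Six.a01, Six.a10, Six.a11]
      rw [e1, e2, e3, cst_mul, cst_mul, cst_mul, det_mul, det_cst]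
      exact (unit_of_dvd u (S.G.det_tz S.four h)).mul ((a1.mul a2).mul a3)
    · have e0 : ∏ j ∈ U, S.σ j q.r0 q.c0 q.s0 = 1 := by
        rcases repops_rel hr with x | x | x | x
        · exact repops_one S U h.1.1 x
        · exact e1.symm.trans (repops_one S U h.1.2.1 x)
        · exact e2.symm.trans (repops_one S U h.1.2.2.1 x)
        · exact e3.symm.trans (repops_one S U h.1.2.2.2 x)
      exact ⟨⟨by rw [e0, mul_one], rfl⟩, ⟨by rw [e1, e0, mul_one], rfl⟩,
        ⟨by rw [e2, e0, mul_one], rfl⟩, by rw [e3, e0, mul_one], rfl⟩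

variable {D : Finset ℕ} {n a g v : ℕ}

open Classical in
theorem liftOn (S : Sys) (hS : S.Clean) (U : Finset S.C) {m : ℕ} (hm : Nat.Coprime m 30)
    (w : S.C → ℕ) (hw : ∀ k, w k = 1 ∨ w k ∈ D) :
    Rep D (S.ord * m) (Nat.card S.A * m) (Nat.card S.B)
      (∑ k, (S.N k * if k ∈ U then m else 1) * w k) := by
  have : NeZero m := ⟨by rintro rfl; revert hm; decide⟩
  have u : IsUnit (30 : ZMod m) := by
    exact_mod_cast (ZMod.isUnit_iff_coprime 30 m).2 hm.symm
  refine ⟨(S.onLD U u).sys, LD.sys_clean _ fun q hq _ => hS _ hq, ?_, ?_, rfl, w, hw, ?_⟩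
  · rw [LD.sys_ord, Nat.card_zmod]
  · rw [LD.sys_A]
    exact le_of_eq (congrArg _ (AddSubgroup.card_top.trans (Nat.card_zmod m)).symm)
  · refine Finset.sum_congr rfl fun k _ => ?_
    congr 1
    refine congrArg (S.N k * ·) ?_
    by_cases h : k ∈ U
    · exact (if_pos h).trans ((Nat.card_zmod m).trans (if_pos h).symm)
    · exact (if_neg h).trans (if_neg h).symm

theorem Rep.mono {D' : Finset ℕ} (h : Rep D n a g v) (hD : D ⊆ D') : Rep D' n a g v := by
  obtain ⟨S, h1, h2, h3, h4, w, h5, h6⟩ := h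
  exact ⟨S, h1, h2, h3, h4, w, fun k => (h5 k).imp id fun x => hD x, h6⟩

theorem Rep.le {a' : ℕ} (h : Rep D n a g v) (ha : a' ≤ a) : Rep D n a' g v := by
  obtain ⟨S, h1, h2, h3, h4⟩ := h
  exact ⟨S, h1, h2, ha.trans h3, h4⟩

theorem Rep.scale (h : Rep D n a g v) {m : ℕ} (hm : Nat.Coprime m 30) :
    Rep D (n * m) (a * m) g (v * m) := by
  obtain ⟨S, h1, rfl, h3, rfl, w, h5, rfl⟩ := h
  have k := (liftOn S h1 Finset.univ hm w h5).le (Nat.mul_le_mul_right m h3)
  simp only [Finset.mem_univ, if_true] at k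
  rw [Finset.sum_mul]
  simpa only [mul_right_comm] using k

theorem Rep.gen (h : Rep D n a g v) {m : ℕ} (hm : Nat.Coprime m 30) :
    Rep D (n * m) (a * m) g v := by
  obtain ⟨S, h1, rfl, h3, rfl, w, h5, rfl⟩ := h
  have k := (liftOn S h1 ∅ hm w h5).le (Nat.mul_le_mul_right m h3)
  simpa only [Finset.notMem_empty, if_false, mul_one] using k

theorem Rep.drop {d : ℕ} (h : Rep (insert d D) n a g v) (hd : Nat.Coprime d 30) :
    Rep D (n * d) (a * d) g v := by
  classical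
  obtain ⟨S, h1, rfl, h3, rfl, w, h5, rfl⟩ := h
  have k := (liftOn (D := D) S h1 (Finset.univ.filter fun j => w j = d) hd
    (fun j => if w j = d then 1 else w j) fun j => by
      by_cases e : w j = d
      · exact Or.inl (if_pos e)
      · rw [if_neg e]
        exact (h5 j).imp id fun x => (Finset.mem_insert.1 x).resolve_left e).le
    (Nat.mul_le_mul_right d h3)
  refine (congrArg _ (Finset.sum_congr rfl fun j _ => ?_)).mp k
  by_cases e : w j = d
  · simp [e]
  · simp [e]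

theorem Rep.close (h : Rep D n a g v) (hD : ∀ d ∈ D, Nat.Coprime d 30) :
    Rep ∅ (n * ∏ d ∈ D, d) (a * ∏ d ∈ D, d) g v := by
  induction D using Finset.induction_on generalizing n a with
  | empty => simpa using h
  | insert d D hd ih =>
    rw [Finset.prod_insert hd, ← mul_assoc, ← mul_assoc]
    exact ih (h.drop (hD d (Finset.mem_insert_self _ _))) fun x hx =>
      hD x (Finset.mem_insert_of_mem hx)

end Pool.Agent.NL
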