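import Pool.Agent.Work.MP_03d2dd_co.NL.CovA
import Pool.Agent.Work.MP_03d2dd_co.NL.Fill
import Pool.Agent.Work.MP_03d2dd_co.NL.RepOps

/-! Orders in all residue classes: nested holes.

Plan.  `cov_step`: put `q = T * a`.  Apply `H` to `r + (M - 1) * (q * τ)` (same parity as `r`):
`N ≤ U`, `N + q * τ ≡ r [MOD M]`, and `Adm h N` since `M` is even.  Let
`y0 = 4 * U / (a * τ * μ) + 1` and choose `y0 ≤ y < y0 + ρ` with
`N + q * τ + q * τ * μ * y ≡ r [MOD M * ρ]`: since `q * τ * μ = M * (u * τ)`, after dividing by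
`M` this is a congruence `u * τ * y ≡ z [MOD ρ]` (work in `ℤ` or add a multiple of `M * ρ` to `r`).
With `m = τ * (1 + μ * y)`, coprime to 30, `Rep.gen` and `fillN` give the order `q * m + N`.
`cov_final`: apply `H` to `n + (30 * q - 1) * q`; then `n - N > 0` is `q` modulo `30 * q`, so
`n - N = q * m` with `m ≡ 1 [MOD 30]`, and `T * (a * m) > 4 * T * U`.
`chain`: by induction on `i`, `Cov h τ (μ * c * R ^ min (i * w) l) ((4 * T + 2) ^ i * U)`, using
`cov_step` at level `y = min (i * w) l` with `u = Ty y * uy y`, `ρ = R ^ w`, and `Cov.mono`;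
then `cov_final` at level `l`. -/

namespace Pool.Agent.NL

open Pool.Agent.Work.MP_03d2dd_co

theorem covb_solve {k ρ : ℕ} (hc : Nat.Coprime k ρ) (hρ : 0 < ρ) (z : ℤ) :
    ∃ j : ℕ, j < ρ ∧ (ρ : ℤ) ∣ z - k * j := by
  have : NeZero ρ := ⟨hρ.ne'⟩
  refine ⟨((z : ZMod ρ) * (k : ZMod ρ)⁻¹).val, ZMod.val_lt _,
    (ZMod.intCast_zmod_eq_zero_iff_dvd _ _).1 ?_⟩
  push_cast
  rw [ZMod.natCast_zmod_val, mul_left_comm, ZMod.coe_mul_inv_eq_one k hc, mul_one, sub_self]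

theorem covb_adm {h r N M x : ℕ} (hr : Adm h r) (hM : Even M) (hx : Even x) :
    Adm h (r + x) ∧ (N ≡ r + x [MOD M] → Adm h N) := by
  refine ⟨hr.imp_left fun e => e.add hx, fun k => hr.imp_left fun e => ?_⟩
  have k2 := k.of_dvd (even_iff_two_dvd.1 hM)
  have e2 := Nat.even_iff.1 (e.add hx)
  unfold Nat.ModEq at k2
  exact Nat.even_iff.2 (k2.trans e2)

theorem covb_cop {μ y : ℕ} (hμ : 30 ∣ μ) : Nat.Coprime (1 + μ * y) 30 := by
  obtain ⟨k, rfl⟩ := hμ
  rw [mul_assoc, Nat.coprime_add_mul_left_left]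
  exact Nat.coprime_one_left _

theorem covb_pos {τ : ℕ} (hτ : Nat.Coprime τ 30) : 0 < τ :=
  Nat.pos_of_ne_zero (by rintro rfl; revert hτ; decide)

theorem cov_step {h τ M U T a g μ u ρ : ℕ} (H : Cov h τ M U) (S : Rep ∅ (T * a) a g h)
    (hg : ∀ N, τ ∣ N → Adm h N → g ∣ N) (h2 : 2 ≤ h) (hM : Even M) (hM0 : 0 < M) (hT : Even T)
    (ha : 0 < a) (hτ : Nat.Coprime τ 30) (hμ : 30 ∣ μ) (hμ0 : 0 < μ) (e : T * a * μ = M * u)
    (hc : Nat.Coprime (u * τ) ρ) (hρ : 0 < ρ) :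
    Cov h τ (M * ρ) ((4 * T + 1) * U + T * a * τ * (1 + μ * (1 + ρ))) := by
  intro r hr
  have hx : Even ((M - 1) * (T * a * τ)) := ((hT.mul_right a).mul_right τ).mul_left _
  obtain ⟨N, hE, hNU, hN, hτN⟩ := H _ (covb_adm (N := 0) hr hM hx).1
  have hgN := hg N hτN ((covb_adm hr hM hx).2 hN)
  have τ0 := covb_pos hτ
  have k0 : 0 < a * τ * μ := by positivity
  obtain ⟨M', rfl⟩ : ∃ M', M = M' + 1 := ⟨M - 1, by omega⟩
  rw [Nat.add_sub_cancel] at hN
  obtain ⟨z, hz⟩ := (Nat.modEq_iff_dvd.1 hN)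
  obtain ⟨d, hd, hd'⟩ : ∃ d, a * τ * μ * d ≤ 4 * U ∧ 4 * U < a * τ * μ * (d + 1) :=
    ⟨4 * U / (a * τ * μ), Nat.mul_div_le _ _, Nat.lt_mul_div_succ _ k0⟩
  obtain ⟨j, hj, w, hw⟩ := covb_solve hc hρ (z - T * a * τ - u * τ * (d + 1))
  refine ⟨T * a * (τ * (1 + μ * (d + 1 + j))) + N,
    fillN (S.gen (Nat.Coprime.mul_left hτ (covb_cop hμ))) hE hgN h2 ?_, ?_, ?_,
    Nat.dvd_add ⟨T * a * (1 + μ * (d + 1 + j)), by ring⟩ hτN⟩
  · have : a * (τ * (1 + μ * (d + 1 + j))) = a * τ * μ * (d + 1) + (a * τ + a * τ * μ * j) := by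
      ring
    omega
  · have e1 : T * a * (τ * (1 + μ * (d + 1 + j))) =
        T * (a * τ * μ * d) + T * a * τ * (1 + μ * (1 + j)) := by ring
    have e2 : T * (a * τ * μ * d) ≤ T * (4 * U) := Nat.mul_le_mul_left _ hd
    have e3 : T * a * τ * (1 + μ * (1 + j)) ≤ T * a * τ * (1 + μ * (1 + ρ)) := by gcongr
    have e4 : (4 * T + 1) * U = T * (4 * U) + U := by ring
    omega
  · refine Nat.modEq_iff_dvd.2 ⟨w, ?_⟩
    have e' : (T : ℤ) * a * μ = (M' + 1) * u := by exact_mod_cast e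
    push_cast at hz hw ⊢
    linear_combination hz + (M' + 1) * hw - τ * (d + 1 + j) * e'

theorem cov_final {h τ U T a g n : ℕ} (H : Cov h τ (30 * (T * a)) U) (S : Rep ∅ (T * a) a g h)
    (hg : ∀ N, τ ∣ N → Adm h N → g ∣ N) (h2 : 2 ≤ h) (hT : Even T) (hT0 : 0 < T) (ha : 0 < a)
    (hn : (4 * T + 1) * U < n) (hA : Adm h n) : Ex n (h + 1) := by
  have q0 : 0 < T * a := Nat.mul_pos hT0 ha
  have hM : Even (30 * (T * a)) := (hT.mul_right a).mul_left _
  have hx : Even ((30 * (T * a) - 1) * (T * a)) := (hT.mul_right a).mul_left _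
  obtain ⟨N, hE, hNU, hN, hτN⟩ := H _ (covb_adm (N := 0) hA hM hx).1
  have hgN := hg N hτN ((covb_adm hA hM hx).2 hN)
  have e4 : (4 * T + 1) * U = T * (4 * U) + U := by ring
  obtain ⟨z, hz⟩ := (Nat.modEq_iff_dvd.1 hN)
  rw [Nat.cast_add, Nat.cast_mul, Nat.cast_sub (by omega)] at hz
  have hz' : (n : ℤ) - N = (T * a : ℕ) * (1 + 30 * (z - (T * a : ℕ))) := by
    push_cast at hz ⊢
    linear_combination hz
  have t0 : 0 ≤ z - (T * a : ℕ) := by
    have h1 : (0 : ℤ) < (T * a : ℕ) * (1 + 30 * (z - (T * a : ℕ))) := by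
      rw [← hz']
      omega
    have h3 := (mul_pos_iff_of_pos_left (Int.natCast_pos.2 q0)).1 h1
    omega
  obtain ⟨t, ht⟩ := Int.eq_ofNat_of_zero_le t0
  rw [ht] at hz'
  have hn' : n = T * a * (1 + 30 * t) + N := by
    zify
    push_cast at hz'
    linear_combination hz'
  rw [hn']
  refine fillN (S.gen (covb_cop dvd_rfl)) hE hgN h2 ?_
  have h1 : T * (4 * U) < T * (a * (1 + 30 * t)) := by
    rw [← mul_assoc T a]
    omega
  have h3 := Nat.lt_of_mul_lt_mul_left h1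
  omega

/-- One level of the chain. -/
structure Level (h τ c R T Q y t u g : ℕ) : Prop where
  rep : Rep ∅ (t * (u * c * R ^ y)) (u * c * R ^ y) g h
  dvd : ∀ N, τ ∣ N → Adm h N → g ∣ N
  even : Even t
  tpos : 0 < t
  tle : t ≤ T
  upos : 0 < u
  cop : Nat.Coprime (t * u * τ) R
  qle : t * (u * c * R ^ y) ≤ Q

theorem chain {h τ c R T Q l w s U n : ℕ} (Ty uy gy : ℕ → ℕ)
    (hL : ∀ y ≤ l, Level h τ c R T Q y (Ty y) (uy y) (gy y)) (h2 : 2 ≤ h) (hc : 0 < c)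
    (hR : 0 < R) (hτ : Nat.Coprime τ 30) (base : Cov h τ (30 * Ty l * uy l * c) U)
    (hU : Q * τ * (1 + 30 * Ty l * uy l * (1 + R ^ w)) ≤ U) (hs : l ≤ s * w)
    (hn : (4 * T + 2) ^ (s + 1) * U ≤ n) (hA : Adm h n) : Ex n (h + 1) := by
  have Ll := hL l le_rfl
  have τ0 := covb_pos hτ
  have μ0 : 0 < 30 * Ty l * uy l := Nat.mul_pos (Nat.mul_pos (by norm_num) Ll.tpos) Ll.upos
  have key : ∀ i, Cov h τ (30 * Ty l * uy l * c * R ^ min (i * w) l) ((4 * T + 2) ^ i * U) := by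
    intro i
    induction i with
    | zero => simpa using base
    | succ i ih =>
      have L := hL (min (i * w) l) (min_le_right _ _)
      generalize hy : min (i * w) l = y at ih L
      have tp := L.tpos
      have up := L.upos
      refine (cov_step (μ := 30 * Ty l * uy l) (u := Ty y * uy y) (ρ := R ^ w) ih L.rep L.dvd h2
        ⟨15 * Ty l * uy l * c * R ^ y, by ring⟩ (by positivity) L.even (by positivity) hτ
        ⟨Ty l * uy l, by ring⟩ μ0 (by ring) (L.cop.pow_right w) (by positivity)).mono ?_ ?_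
      · rw [mul_assoc _ (R ^ y), ← pow_add]
        refine Nat.mul_dvd_mul_left _ (pow_dvd_pow _ ?_)
        rw [← hy, Nat.succ_mul]
        omega
      · have e1 : U ≤ (4 * T + 2) ^ i * U := Nat.le_mul_of_pos_left _ (by positivity)
        have e2 : (4 * Ty y + 1) * ((4 * T + 2) ^ i * U) ≤ (4 * T + 1) * ((4 * T + 2) ^ i * U) := by
          have := L.tle
          gcongr
        have e3 : Ty y * (uy y * c * R ^ y) * τ * (1 + 30 * Ty l * uy l * (1 + R ^ w)) ≤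
            Q * τ * (1 + 30 * Ty l * uy l * (1 + R ^ w)) := by
          have := L.qle
          gcongr
        have e4 : (4 * T + 2) ^ (i + 1) * U =
            (4 * T + 1) * ((4 * T + 2) ^ i * U) + (4 * T + 2) ^ i * U := by ring
        omega
  have k := key s
  rw [min_eq_right hs, show 30 * Ty l * uy l * c * R ^ l = 30 * (Ty l * (uy l * c * R ^ l)) by
    ring] at k
  have tp := Ll.tpos
  have up := Ll.upos
  have a0 : 0 < uy l * c * R ^ l := by positivity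
  refine cov_final k Ll.rep Ll.dvd h2 Ll.even tp a0 ?_ hA
  have Q0 : 0 < Q := (Nat.mul_pos tp a0).trans_le Ll.qle
  have U0 : 0 < U := lt_of_lt_of_le (by positivity) hU
  have e1 : 0 < (4 * T + 2) ^ s * U := by positivity
  have e2 : (4 * Ty l + 1) * ((4 * T + 2) ^ s * U) ≤ (4 * T + 1) * ((4 * T + 2) ^ s * U) := by
    have := Ll.tle
    gcongr
  have e4 : (4 * T + 2) ^ (s + 1) * U =
      (4 * T + 1) * ((4 * T + 2) ^ s * U) + (4 * T + 2) ^ s * U := by ring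
  omega

end Pool.Agent.NL
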