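import Pool.Agent.Work.MP_03d2dd_co.Main
import Mathlib.SetTheory.Cardinal.Finite
import Mathlib.Algebra.Ring.Prod
import Mathlib.Algebra.Ring.Pi
import Mathlib.Algebra.Group.Subgroup.Basic
import Mathlib.Algebra.BigOperators.Ring.Finset
import Mathlib.Data.ZMod.Basic
import Mathlib.Tactic.LinearCombination
import Mathlib.Tactic.Ring
import Mathlib.Tactic.Linarith

/-! Near-linear spectrum of homogeneous latin squares: the point/line framework.

A `Geo` is a latin square on the plain points (`lab p = false`) together with a family of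
disjoint transversals, one for each label point (`lab p = true`).  A line is a triple
(row, column, symbol).  Plain lines are the cells of the square.  A cell `(r, c, s)` on the
transversal with label `b` gives three border lines `(b, c, s)`, `(r, b, s)`, `(r, c, b)`.
A quad is an intercalate-shaped configuration of four lines. -/

namespace Pool.Agent.NL

/-- The number of elements with a property. -/
noncomputable def num {α : Type} (p : α → Prop) : ℕ := Nat.card {x // p x}

/-- Trivial coefficients of a line, read off from the kinds of its points. -/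
def t0 (a b c : Bool) : ℤ × ℤ × ℤ :=
  if a then (-3, 1, -1) else if b then (-1, 2, 1) else if c then (1, -1, 1) else (3, -2, -1)

/-- An integer triple read in a ring. -/
def cst (R : Type) [CommRing R] (v : ℤ × ℤ × ℤ) : R × R × R := (v.1, v.2.1, v.2.2)

/-- All entries divide a power of 30. -/
def Sm (v : ℤ × ℤ × ℤ) : Prop := ∃ k : ℕ, v.1 ∣ 30 ^ k ∧ v.2.1 ∣ 30 ^ k ∧ v.2.2 ∣ 30 ^ k

section
variable {R : Type} [CommRing R]

/-- The four linear forms of a quad are dependent. -/
def OnId (A B C D : R × R × R) : Prop :=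
  A.1 * B.2.1 * D.2.2 + A.2.2 * B.1 * D.2.1 = 0 ∧ A.2.1 * C.1 * D.2.2 + A.2.2 * C.2.1 * D.1 = 0 ∧
    A.1 * B.2.2 * C.2.1 + A.2.1 * B.1 * C.2.2 = 0

/-- The dependence applied to the constant terms. -/
def offSum (A B C D : R × R × R) (a b c d : R) : R :=
  a * B.1 * C.2.1 * D.2.2 - b * A.1 * C.2.1 * D.2.2 - c * A.2.1 * B.1 * D.2.2 -
    d * A.2.2 * B.1 * C.2.1

/-- Determinant of the three equations that complete a line to a quad. -/
def det (B C D : R × R × R) : R := B.2.1 * C.2.2 * D.1 + B.2.2 * C.1 * D.2.1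

/-- The equation of a lifted line. -/
def Eqn (A : R × R × R) (a i j k : R) : Prop := A.1 * i + A.2.1 * j + A.2.2 * k = a

end

/-- Two rows, two columns, two symbols. -/
@[ext] structure Six (P : Type) where
  r0 : P
  c0 : P
  s0 : P
  r1 : P
  c1 : P
  s1 : P

def Six.map {P P' : Type} (f : P → P') (q : Six P) : Six P' :=
  ⟨f q.r0, f q.c0, f q.s0, f q.r1, f q.c1, f q.s1⟩

def mk6 {P : Type} (a b c : P) (x : P × P × P) : Six P := ⟨a, b, c, x.1, x.2.1, x.2.2⟩

section
variable {P M : Type} (q : Six P) (f : P → P → P → M)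
def Six.a00 : M := f q.r0 q.c0 q.s0
def Six.a01 : M := f q.r0 q.c1 q.s1
def Six.a10 : M := f q.r1 q.c0 q.s1
def Six.a11 : M := f q.r1 q.c1 q.s0
end

/-- A property holds at the four lines of `q`. -/
def Six.All {P : Type} (q : Six P) (f : P → P → P → Prop) : Prop :=
  f q.r0 q.c0 q.s0 ∧ f q.r0 q.c1 q.s1 ∧ f q.r1 q.c0 q.s1 ∧ f q.r1 q.c1 q.s0

structure Geo (P : Type) where
  lab : P → Bool
  line : P → P → P → Prop
  one12 : ∀ {a b c}, line a b c → lab a = true → lab b = false
  one13 : ∀ {a b c}, line a b c → lab a = true → lab c = false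
  one23 : ∀ {a b c}, line a b c → lab b = true → lab c = false
  u1 : ∀ {a a' b c}, line a b c → line a' b c → lab a = lab a' → a = a'
  u2 : ∀ {a b b' c}, line a b c → line a b' c → lab b = lab b' → b = b'
  u3 : ∀ {a b c c'}, line a b c → line a b c' → lab c = lab c' → c = c'
  e1 : ∀ b c, lab b = false ∨ lab c = false → ∃ a, lab a = false ∧ line a b c
  e2 : ∀ a c, lab a = false ∨ lab c = false → ∃ b, lab b = false ∧ line a b c
  e3 : ∀ a b, lab a = false ∨ lab b = false → ∃ c, lab c = false ∧ line a b c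
  t1 : ∀ {r c s b}, line r c s → lab r = false → lab c = false → lab s = false → lab b = true →
    (line r c b ↔ line b c s)
  t2 : ∀ {r c s b}, line r c s → lab r = false → lab c = false → lab s = false → lab b = true →
    (line r c b ↔ line r b s)

namespace Geo

variable {P : Type} (G : Geo P)

/-- A genuine intercalate-shaped configuration. -/
def Quad (q : Six P) : Prop := q.All G.line ∧ q.r0 ≠ q.r1 ∧ q.c0 ≠ q.c1 ∧ q.s0 ≠ q.s1

def HasLab (q : Six P) : Prop :=
  G.lab q.r0 = true ∨ G.lab q.c0 = true ∨ G.lab q.s0 = true ∨ G.lab q.r1 = true ∨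
    G.lab q.c1 = true ∨ G.lab q.s1 = true

/-- The label `b` sits on one of the plain lines of `q`. -/
def On (q : Six P) (b : P) : Prop :=
  G.lab b = true ∧
    (G.lab q.s0 = false ∧ G.line q.r0 q.c0 b ∨ G.lab q.s1 = false ∧ G.line q.r0 q.c1 b ∨
      G.lab q.s1 = false ∧ G.line q.r1 q.c0 b ∨ G.lab q.s0 = false ∧ G.line q.r1 q.c1 b)

/-- The quad meets a label or a transversal. -/
def Rel (q : Six P) : Prop := G.HasLab q ∨ ∃ b, G.On q b

/-- Border lines and cells of the transversals. -/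
def Spec (a b c : P) : Prop :=
  G.lab a = true ∨ G.lab b = true ∨ G.lab c = true ∨ ∃ x, G.lab x = true ∧ G.line a b x

def Plain (x : P × P × P) : Prop :=
  G.lab x.1 = false ∧ G.lab x.2.1 = false ∧ G.lab x.2.2 = false

def tz (a b c : P) : ℤ × ℤ × ℤ := t0 (G.lab a) (G.lab b) (G.lab c)

/-- No quad has two labels. -/
def Four : Prop := ∀ q, G.Quad q →
  ¬(G.lab q.r0 = true ∧ G.lab q.r1 = true) ∧ ¬(G.lab q.c0 = true ∧ G.lab q.c1 = true) ∧
    ¬(G.lab q.s0 = true ∧ G.lab q.s1 = true)

variable {C B : Type} (col : Six P → Option C)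

/-- A coloured quad carries at most one label on its cells, and none if it has a label point. -/
def Sep : Prop := ∀ q b, G.Quad q → col q ≠ none → G.On q b →
  ¬G.HasLab q ∧ ∀ b', G.On q b' → b' = b

/-- Completions of the line `(a, b, c)` by plain points to a quad of colour `k`. -/
def RegP (a b c : P) (k : C) (x : P × P × P) : Prop :=
  G.Quad (mk6 a b c x) ∧ col (mk6 a b c x) = some k ∧ G.Plain x

/-- Quads that are lost when the transversal `l β` is moved out. -/
def LossP (l : B → P) (a b c : P) (k : C) (y : (P × P × P) × B) : Prop :=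
  G.RegP col a b c k y.1 ∧
    (G.line a y.1.2.1 (l y.2) ∨ G.line y.1.1 b (l y.2) ∨ G.line y.1.1 y.1.2.1 (l y.2))

/-- Quads that are gained when the transversal `l β` is moved out. -/
def GainP (l : B → P) (a b c : P) (k : C) (y : (P × P × P) × B) : Prop :=
  G.Quad (mk6 a b c y.1) ∧ col (mk6 a b c y.1) = some k ∧
    (y.1.1 = l y.2 ∨ y.1.2.1 = l y.2 ∨ y.1.2.2 = l y.2)

end Geo

/-- A square with transversals, coloured quads and slope systems. -/
structure Sys where
  P : Type
  A : Type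
  B : Type
  C : Type
  [fP : Finite P]
  [gA : AddCommGroup A]
  [fA : Finite A]
  [fB : Finite B]
  [fC : Fintype C]
  G : Geo P
  lb : B → A → P
  lb_lab : ∀ p, G.lab p = true ↔ ∃ β a, lb β a = p
  lb_inj : ∀ {β β' a a'}, lb β a = lb β' a' → β = β' ∧ a = a'
  tf : ∀ a : A, 6 • a = 0 → a = 0
  three : ∀ {r c s β β' β'' a a' a''}, G.line r c (lb β a) → G.line r (lb β' a') s →
    G.line (lb β'' a'') c s → β = β' ∧ β = β'' ∧ 3 • a'' = 2 • a' + a
  four : G.Four
  col : Six P → Option C
  sep : G.Sep col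
  N : C → ℕ
  reg : ∀ {a b c}, G.line a b c → ∀ k, num (G.RegP col a b c k) = N k
  bal : ∀ {a b c}, G.line a b c → G.Plain (a, b, c) → ∀ k x,
    num (G.LossP col (fun β => lb β x) a b c k) = num (G.GainP col (fun β => lb β x) a b c k)
  σ : C → P → P → P → ℤ × ℤ × ℤ
  σ_sm : ∀ k a b c, Sm (σ k a b c)
  σ_one : ∀ k {a b c}, G.line a b c → G.Spec a b c → σ k a b c = 1
  σ_on : ∀ q k, G.Quad q → col q = some k →
    OnId (q.a00 G.tz * q.a00 (σ k)) (q.a01 G.tz * q.a01 (σ k)) (q.a10 G.tz * q.a10 (σ k))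
      (q.a11 G.tz * q.a11 (σ k))
  σ_flat : ∀ q k k', G.Quad q → col q = some k → k' ≠ k →
    q.a01 (σ k') = q.a00 (σ k') ∧ q.a10 (σ k') = q.a00 (σ k') ∧ q.a11 (σ k') = q.a00 (σ k')

attribute [instance] Sys.fP Sys.gA Sys.fA Sys.fB Sys.fC

namespace Sys

/-- The order of the square. -/
noncomputable def ord (S : Sys) : ℕ := num fun p => S.G.lab p = false

/-- Every quad is coloured. -/
def Clean (S : Sys) : Prop := ∀ q, S.G.Quad q → S.col q ≠ none

end Sys

/-- There is a clean system of order `n` with at least `a` classes of `g` labels whose quad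
counts, weighted by digits from `D`, add up to `v`. -/
def Rep (D : Finset ℕ) (n a g v : ℕ) : Prop :=
  ∃ S : Sys, S.Clean ∧ S.ord = n ∧ a ≤ Nat.card S.A ∧ Nat.card S.B = g ∧
    ∃ w : S.C → ℕ, (∀ k, w k = 1 ∨ w k ∈ D) ∧ ∑ k, S.N k * w k = v

/-- Data for an affine lift with fibre `R`; a label keeps the fibre `T`. -/
structure LD (S : Sys) (R : Type) [CommRing R] where
  T : AddSubgroup R
  co : S.P → S.P → S.P → R × R × R
  off : S.P → S.P → S.P → R
  U : S.C → Prop
  u30 : IsUnit (30 : R)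
  unit : ∀ a b c, IsUnit (co a b c).1 ∧ IsUnit (co a b c).2.1 ∧ IsUnit (co a b c).2.2
  spec : ∀ {a b c}, S.G.line a b c → S.G.Spec a b c →
    co a b c = cst R (S.G.tz a b c) ∧ off a b c = 0
  on : ∀ q k, S.G.Quad q → S.col q = some k → U k →
    OnId (q.a00 co) (q.a01 co) (q.a10 co) (q.a11 co) ∧
      offSum (q.a00 co) (q.a01 co) (q.a10 co) (q.a11 co) (q.a00 off) (q.a01 off) (q.a10 off)
        (q.a11 off) = 0
  gen : ∀ q k, S.G.Quad q → S.col q = some k → ¬U k →
    IsUnit (det (q.a01 co) (q.a10 co) (q.a11 co)) ∧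
      (S.G.Rel q → q.All fun a b c => co a b c = cst R (S.G.tz a b c) ∧ off a b c = 0)

namespace LD

variable {S : Sys} {R : Type} [CommRing R] (D : LD S R)

/-- Points of the lift. -/
def Pt : Type := {p : S.P × R // S.G.lab p.1 = true → p.2 ∈ D.T}

def pr (p : D.Pt) : S.P := p.1.1

def fb (p : D.Pt) : R := p.1.2

def lab (p : D.Pt) : Bool := S.G.lab (D.pr p)

def line (p q r : D.Pt) : Prop :=
  S.G.line (D.pr p) (D.pr q) (D.pr r) ∧
    Eqn (D.co (D.pr p) (D.pr q) (D.pr r)) (D.off (D.pr p) (D.pr q) (D.pr r))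
      (D.fb p) (D.fb q) (D.fb r)

def lb (β : S.B) (x : S.A × D.T) : D.Pt := ⟨(S.lb β x.1, x.2.1), fun _ => x.2.2⟩

def col (q : Six D.Pt) : Option S.C := S.col (q.map D.pr)

end LD

/-- `G` is the product of `G1` and `G2` along the projections `f1`, `f2`. -/
structure IsProd {P P1 P2 : Type} (G : Geo P) (G1 : Geo P1) (G2 : Geo P2) (f1 : P → P1)
    (f2 : P → P2) : Prop where
  lab1 : ∀ p, G.lab p = G1.lab (f1 p)
  lab2 : ∀ p, G.lab p = G2.lab (f2 p)
  line : ∀ a b c, G.line a b c ↔ G1.line (f1 a) (f1 b) (f1 c) ∧ G2.line (f2 a) (f2 b) (f2 c)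
  inj : ∀ p q, f1 p = f1 q → f2 p = f2 q → p = q
  surj : ∀ x y, G1.lab x = G2.lab y → ∃ p, f1 p = x ∧ f2 p = y

theorem IsProd.symm {P P1 P2 : Type} {G : Geo P} {G1 : Geo P1} {G2 : Geo P2} {f1 : P → P1}
    {f2 : P → P2} (h : IsProd G G1 G2 f1 f2) : IsProd G G2 G1 f2 f1 :=
  ⟨h.lab2, h.lab1, fun a b c => (h.line a b c).trans and_comm, fun p q a b => h.inj p q b a,
    fun x y e => let ⟨p, a, b⟩ := h.surj y x e.symm; ⟨p, b, a⟩⟩

end Pool.Agent.NL
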