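import Pool.Agent.Work.MP_03d2dd_co.NL.Step
import Pool.Agent.Work.MP_03d2dd_co.NL.RepOps

/-! Digits and the Horner scheme.

Plan.  `digit`: let `q = v / P ≥ m` and let `u` be the largest number `≤ q` in the class of `z`;
then `q - u < m`.  `digit1`: choose `z` with `z * R + 1 ≡ v` modulo `F`
(`Nat.exists_mul_emod_eq_one_of_coprime` or `ZMod` units) and use `digit`.
`two_units`: let `G` be the product of the primes dividing `F` but not `v`, and choose `z` with
`z * P ≡ 2 * v + G` modulo `F`.  A prime `p ∣ F` divides neither `2 * v + G` nor `v + G` (if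
`p ∣ v` then `p` does not divide `G`; otherwise `p ∣ G` and `p ≠ 2`), and `F ∣ d + (v + G)`.
`horner`: induction on `x`, generalizing `v`; put `m = F * E`.  The size condition gives
`m * P ≤ v`.  For `x = 0` take `z` from `two_units`, `z'` with `z' ≡ z [MOD F]`, `z' ≡ 1 [MOD E]`
(`Nat.chineseRemainder`), `digit` with modulus `m`; then `G.scale`, `Rep.mono` and `hs`.
For `x + 1` use `digit1` with modulus `F`: `v = v' * P + d` with `d`, `P` odd, and
`v + 2 * m < (v' + 2 * m) * P`, so the induction hypothesis applies to `v'`; then `hs`. -/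

namespace Pool.Agent.NL

theorem dig_solve {F R : ℕ} (hc : Nat.Coprime R F) (hF : 0 < F) (w : ℕ) :
    ∃ z, z * R ≡ w [MOD F] := by
  obtain ⟨z, -, h⟩ := Nat.exists_mul_mod_eq_of_coprime w hc hF.ne'
  exact ⟨z, by rwa [mul_comm]⟩

theorem dig_cop {a b F : ℕ} (h : a ≡ b [MOD F]) (hb : Nat.Coprime b F) : Nat.Coprime a F := by
  rw [Nat.Coprime, h.gcd_eq]
  exact hb

theorem dig_rep {D : Finset ℕ} {n a g v n' a' g' v' : ℕ} (h : Rep D n a g v) (h1 : n = n')
    (h2 : a = a') (h3 : g = g') (h4 : v = v') : Rep D n' a' g' v' := by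
  rwa [← h1, ← h2, ← h3, ← h4]

theorem digit {m P v : ℕ} (z : ℕ) (hm : 0 < m) (hP : 0 < P) (hv : m * P ≤ v) :
    ∃ u d, v = u * P + d ∧ u ≡ z [MOD m] ∧ d < m * P := by
  have h1 : m ≤ v / P := (Nat.le_div_iff_mul_le hP).2 hv
  have h2 := Nat.mod_lt z hm
  have h3 := Nat.mod_lt (v / P + m - z % m) hm
  have h4 := Nat.div_add_mod (v / P + m - z % m) m
  have h5 := Nat.div_add_mod' v P
  have h6 := Nat.mod_lt v hP
  generalize (v / P + m - z % m) % m = r at h3 h4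
  obtain ⟨u, hu⟩ : ∃ u, v / P = u + r := ⟨v / P - r, by omega⟩
  refine ⟨u, r * P + v % P, ?_, ?_, ?_⟩
  · rw [← add_assoc, ← add_mul, ← hu, h5]
  · have e : u + m = z % m + m * ((v / P + m - z % m) / m) := by omega
    have e' := congrArg (· % m) e
    simp only [Nat.add_mod_right, Nat.add_mul_mod_self_left, Nat.mod_mod] at e'
    exact e'
  · have := Nat.mul_le_mul_right P (Nat.succ_le_of_lt h3)
    rw [Nat.succ_mul] at this
    omega

theorem digit1 {F R v : ℕ} (hc : Nat.Coprime R F) (hF : 0 < F) (hR : 0 < R) (hv : F * R ≤ v) :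
    ∃ u d, v = u * R + d ∧ d ≡ 1 [MOD F] ∧ d < F * R := by
  obtain ⟨z, hz⟩ := dig_solve hc hF (v + (F - 1))
  obtain ⟨u, d, h1, h2, h3⟩ := digit z hF hR hv
  refine ⟨u, d, h1, ?_, h3⟩
  have h4 : u * R + d ≡ v + (F - 1) + d [MOD F] := ((h2.mul_right R).trans hz).add_right d
  rw [← h1] at h4
  have h5 : v + (F - 1) + 1 ≡ v [MOD F] := by
    rw [add_assoc, Nat.sub_add_cancel hF]
    exact Nat.add_mod_right v F
  exact (Nat.ModEq.add_left_cancel' _ (h5.trans h4)).symm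

theorem two_units {F P v : ℕ} (hc : Nat.Coprime P F) (hF : 0 < F) (hv : Even v) :
    ∃ z, Nat.Coprime z F ∧ ∀ u d, v = u * P + d → u ≡ z [MOD F] → Nat.Coprime d F := by
  obtain ⟨G, hG⟩ : ∃ G, ∀ p, p.Prime → p ∣ F → (p ∣ G ↔ ¬ p ∣ v) := by
    refine ⟨∏ q ∈ F.primeFactors.filter fun q => ¬ q ∣ v, q, fun p hp hpF => ⟨fun h => ?_, fun h =>
      Finset.dvd_prod_of_mem _ (Finset.mem_filter.2 ⟨Nat.mem_primeFactors.2 ⟨hp, hpF, hF.ne'⟩, h⟩)⟩⟩
    obtain ⟨q, hq, h'⟩ := (Finset.prod_induction _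
      (fun n => p ∣ n → ∃ q ∈ F.primeFactors.filter fun q => ¬ q ∣ v, p ∣ q)
      (fun a b ha hb k => (hp.dvd_mul.1 k).elim ha hb)
      (fun k => absurd (Nat.dvd_one.1 k) hp.ne_one) fun q hq k => ⟨q, hq, k⟩) h
    obtain ⟨q1, q2⟩ := Finset.mem_filter.1 hq
    rwa [(Nat.prime_dvd_prime_iff_eq hp (Nat.prime_of_mem_primeFactors q1)).1 h']
  have k1 : ∀ p, p.Prime → p ∣ F → ¬ p ∣ v + G := fun p hp hpF h => by
    by_cases k : p ∣ v
    · exact (hG p hp hpF).1 ((Nat.dvd_add_right k).1 h) k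
    · exact k ((Nat.dvd_add_left ((hG p hp hpF).2 k)).1 h)
  have k2 : ∀ p, p.Prime → p ∣ F → ¬ p ∣ 2 * v + G := fun p hp hpF h => by
    by_cases k : p ∣ v
    · exact (hG p hp hpF).1 ((Nat.dvd_add_right (k.mul_left 2)).1 h) k
    · have h2 := (hp.dvd_mul.1 ((Nat.dvd_add_left ((hG p hp hpF).2 k)).1 h)).resolve_right k
      exact k (h2.trans hv.two_dvd)
  obtain ⟨z, hz⟩ := dig_solve hc hF (2 * v + G)
  refine ⟨z, Nat.coprime_of_dvd fun p hp h h' => k2 p hp h' ?_, fun u d h1 h2 =>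
    Nat.coprime_of_dvd fun p hp h h' => k1 p hp h' ?_⟩
  · exact (hz.dvd_iff h').1 (h.mul_right P)
  · have h4 : u * P + d ≡ 2 * v + G + d [MOD F] := ((h2.mul_right P).trans hz).add_right d
    rw [← h1] at h4
    have h5 : v + 0 ≡ v + (v + G + d) [MOD F] := by
      rwa [add_zero, ← add_assoc, ← add_assoc, ← two_mul]
    exact (Nat.dvd_add_left h).1 (((Nat.ModEq.add_left_cancel' _ h5).dvd_iff h').1 (dvd_zero p))

/-- The digits. -/
def DS (F W : ℕ) : Finset ℕ := (Finset.range (W + 1)).filter fun d => Nat.Coprime d F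

theorem mem_DS {F W d : ℕ} : d ∈ DS F W ↔ d ≤ W ∧ Nat.Coprime d F := by
  simp [DS]

/-- The product of all digits. -/
def DP (F W : ℕ) : ℕ := ∏ d ∈ DS F W, d

theorem DP_coprime (F W : ℕ) : Nat.Coprime (DP F W) F :=
  Nat.Coprime.prod_left fun _ h => (mem_DS.1 h).2

theorem dvd_DP {F W d : ℕ} (h1 : d ≤ W) (h2 : Nat.Coprime d F) : d ∣ DP F W :=
  Finset.dvd_prod_of_mem _ (mem_DS.2 ⟨h1, h2⟩)

theorem Rep.closeDS {F W n a g v : ℕ} (h : Rep (DS F W) n a g v) (h30 : 30 ∣ F) :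
    Rep ∅ (n * DP F W) (a * DP F W) g v :=
  h.close fun _ hd => (mem_DS.1 hd).2.coprime_dvd_right h30

theorem horner {t g j P F E W : ℕ} (G : Rep ∅ t 1 g j) (hs : StepOk t g j P) (hP : 2 ≤ P)
    (hPF : Nat.Coprime P F) (hEF : Nat.Coprime E F) (h30 : 30 ∣ F) (hF : 0 < F) (hE : 0 < E)
    (hW : F * E * P ≤ W) (x v : ℕ) (hp : Even (v + x))
    (hv : 3 * (F * E) * P ^ (x + 1) ≤ v + 2 * (F * E)) :
    ∃ u, Nat.Coprime u (F * E) ∧ u * P ^ (x + 1) ≤ v ∧
      Rep (DS F W) (t ^ (x + 2) * (u * P ^ (x + 1))) (u * P ^ (x + 1)) (g ^ (x + 2)) (j * v) := by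
  have hm : 0 < F * E := Nat.mul_pos hF hE
  have hmP : 2 * (F * E) ≤ F * E * P := by
    rw [mul_comm 2]
    exact Nat.mul_le_mul_left _ hP
  have hFP : F * P ≤ F * E * P := Nat.mul_le_mul_right _ (Nat.le_mul_of_pos_right _ hE)
  induction x generalizing v with
  | zero =>
    rw [zero_add, pow_one, mul_assoc] at hv
    obtain ⟨z, z1, z2⟩ := two_units hPF hF (v := v) hp
    obtain ⟨y, y1, y2⟩ := Nat.chineseRemainder hEF.symm z 1
    obtain ⟨u, d, h1, h2, h3⟩ := digit (m := F * E) (P := P) (v := v) y hm (by omega) (by omega)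
    have u1 : u ≡ z [MOD F] := (h2.of_mul_right E).trans y1
    have u2 : Nat.Coprime u F := dig_cop u1 z1
    have u3 : Nat.Coprime u E := dig_cop ((h2.of_mul_left F).trans y2) (Nat.coprime_one_left E)
    refine ⟨u, u2.mul_right u3, by rw [zero_add, pow_one]; omega, ?_⟩
    refine dig_rep (hs _ _ _ _ _ d ((G.scale (u2.coprime_dvd_right h30)).mono
      (Finset.empty_subset _)) (mem_DS.2 ⟨by omega, z2 u d h1 u1⟩)) (by ring) (by ring) (by ring) ?_
    rw [h1]
    ring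
  | succ x ih =>
    have e1 : F * E * P ≤ F * E * P ^ (x + 1 + 1) :=
      Nat.mul_le_mul_left _ (Nat.le_self_pow (by omega) P)
    rw [mul_assoc] at hv
    obtain ⟨v', d, h1, h2, h3⟩ := digit1 (v := v) hPF hF (by omega) (by omega)
    have h2F : 2 ∣ F := (by norm_num : 2 ∣ 30).trans h30
    have d1 : d % 2 = 1 := h2.of_dvd h2F
    have p1 : Odd P := (hPF.coprime_dvd_right h2F).odd_of_right
    have e2 : Even (v' + x) := by
      obtain ⟨k, rfl⟩ := p1
      obtain ⟨l, hl⟩ := hp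
      have : v' * (2 * k + 1) = 2 * (v' * k) + v' := by ring
      rw [Nat.even_iff]
      omega
    have e3 : 3 * (F * E) * P ^ (x + 1) * P < (v' + 2 * (F * E)) * P := by
      have a1 : 3 * (F * E) * P ^ (x + 1) * P = 3 * (F * E * P ^ (x + 1 + 1)) := by ring
      have a2 : (v' + 2 * (F * E)) * P = v' * P + 2 * (F * E * P) := by ring
      omega
    obtain ⟨u, u1, u2, u3⟩ := ih v' e2 (Nat.lt_of_mul_lt_mul_right e3).le
    refine ⟨u, u1, ?_, dig_rep (hs _ _ _ _ _ d u3 (mem_DS.2 ⟨by omega,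
      dig_cop h2 (Nat.coprime_one_left F)⟩)) (by ring) (by ring) (by ring) ?_⟩
    · have := Nat.mul_le_mul_right P u2
      rw [mul_assoc, ← pow_succ] at this
      omega
    · rw [h1]
      ring

end Pool.Agent.NL
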