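import Pool.Agent.Work.MP_03d2dd_co.NL.Num
import Pool.Agent.Work.MP_03d2dd_co.Assemble
import Mathlib.Combinatorics.Hall.Basic
import Mathlib.Tactic.Module

/-! Latin squares as ternary relations, and two choices used for filling a hole.

Plan.  `ex_of_rel`: take the type `{p // Q p}`, define `L a b` by choice from `r3`; `cnt_eq` and
`intercalates`; an intercalate `(r', c')` corresponds to the triple `(r', c', L r c')`
(`r' ≠ r` forces `c' ≠ c`).
`ex_le`: `cnt L r c ≤ card`, since a pair counted by `cnt` is determined by its first entry.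
`derange`: move the square to `K` (`Ex.toType`, after `Fintype.ofFinite`), and compose with
permutations of columns and symbols (this keeps `IsLatin` and `cnt`).  Let `f b` be the column
with `M b (f b) = b`.  It suffices to find a permutation `g` with `g b ≠ f b` for all `b`, and use
`M b (g c)`.  If `f` is not constant and the order is at least 3, Hall's theorem
(`Finset.all_card_le_biUnion_card_iff_exists_injective` with `t b = univ.erase (f b)`; a set on
which `f` is not constant sees everything, otherwise it is not `univ`) gives `g`.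
If `f` is constant, first exchange two symbols; then it is not.  Any other proof is fine.
`greedy`: extend `κ` index by index (induction on `m ≤ k`: there is `κ` that is injective on the
indices below `m` and satisfies the condition for the triples with all entries below `m`).
For the new index `w` each triple of `T` with entries `≤ w` that contains `w` forbids at most one
value, because the coefficient of `κ w` in `3 κ x - 2 κ y - κ z` is one of 3, -2, -1, 1, 2, -3
(the triple is not constant) and `A` has no 6-torsion; so at most `3 * c + k < card A` values are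
forbidden. -/

namespace Pool.Agent.NL

open Pool.Agent.Work.MP_03d2dd_co

/-- `F` is a latin square on the points with the property `Q`. -/
structure Lat {P : Type} (Q : P → Prop) (F : P → P → P → Prop) : Prop where
  mem : ∀ {a b c}, F a b c → Q a ∧ Q b ∧ Q c
  r1 : ∀ b c, Q b → Q c → ∃! a, F a b c
  r2 : ∀ a c, Q a → Q c → ∃! b, F a b c
  r3 : ∀ a b, Q a → Q b → ∃! c, F a b c

/-- Intercalates through the cell `(a, b, c)`. -/
def Int4 {P : Type} (F : P → P → P → Prop) (a b c : P) (x : P × P × P) : Prop :=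
  F a x.2.1 x.2.2 ∧ F x.1 b x.2.2 ∧ F x.1 x.2.1 c ∧ x.1 ≠ a

theorem filla_int {α : Type} [Fintype α] [DecidableEq α] {L : α → α → α} (hL : IsLatin L)
    (x y : α) : num (Int4 (fun a b c => L a b = c) x y (L x y)) = intercalates L x y := by
  unfold intercalates
  rw [← num_eq_card]
  symm
  refine num_bij (fun p => (p.1, p.2, L x p.2)) ?_ ?_ ?_
  · rintro ⟨r, c⟩ ⟨a1, _, a3, a4⟩
    exact ⟨rfl, a4.symm, a3.symm, a1⟩
  · rintro ⟨r, c⟩ ⟨r', c'⟩ _ _ e
    simp only [Prod.mk.injEq] at e
    rw [e.1, e.2.1]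
  · rintro ⟨r, c, s⟩ ⟨a1, a2, a3, a4⟩
    refine ⟨(r, c), ⟨a4, ?_, a3.symm, a1.trans a2.symm⟩, ?_⟩
    · rintro rfl
      exact a4 ((hL.2 _).1 a3)
    · exact Prod.ext rfl (Prod.ext rfl a1)
theorem ex_of_rel {P : Type} [Finite P] {Q : P → Prop} {F : P → P → P → Prop} (hF : Lat Q F)
    {h : ℕ} (hh : ∀ a b c, F a b c → num (Int4 F a b c) = h) : Ex (num Q) (h + 1) := by
  classical
  have := Fintype.ofFinite {p // Q p}
  have hex : ∀ a b : {p // Q p}, ∃ c : {p // Q p}, F a b c := fun a b =>
    let ⟨c, hc, _⟩ := hF.r3 a b a.2 b.2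
    ⟨⟨c, (hF.mem hc).2.2⟩, hc⟩
  choose L hL using hex
  have hiff : ∀ a b c : {p // Q p}, L a b = c ↔ F a b c := fun a b c =>
    ⟨fun e => e ▸ hL a b, fun e => Subtype.ext ((hF.r3 a b a.2 b.2).unique (hL a b) e)⟩
  have hlat : IsLatin L := by
    refine ⟨fun r => Finite.injective_iff_bijective.1 fun c c' e => ?_,
      fun c => Finite.injective_iff_bijective.1 fun r r' e => ?_⟩
    · exact Subtype.ext ((hF.r2 r (L r c') r.2 (L r c').2).unique ((hiff _ _ _).1 e) (hL r c'))
    · exact Subtype.ext ((hF.r1 c (L r' c) c.2 (L r' c).2).unique ((hiff _ _ _).1 e) (hL r' c))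
  refine ⟨{p // Q p}, inferInstance, inferInstance, L, Nat.card_eq_fintype_card.symm, hlat,
    fun r c => ?_⟩
  rw [cnt_eq hlat, ← filla_int hlat, ← hh r c (L r c) (hL r c)]
  congr 1
  refine num_bij (fun x => (x.1.1, x.2.1.1, x.2.2.1)) ?_ ?_ ?_
  · rintro ⟨x, y, z⟩ ⟨a1, a2, a3, a4⟩
    exact ⟨(hiff _ _ _).1 a1, (hiff _ _ _).1 a2, (hiff _ _ _).1 a3, fun e => a4 (Subtype.ext e)⟩
  · rintro ⟨x, y, z⟩ ⟨x', y', z'⟩ _ _ e
    simp only [Prod.mk.injEq] at e
    rw [Subtype.ext e.1, Subtype.ext e.2.1, Subtype.ext e.2.2]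
  · rintro ⟨x, y, z⟩ ⟨a1, a2, a3, a4⟩
    refine ⟨(⟨x, (hF.mem a2).1⟩, ⟨y, (hF.mem a1).2.1⟩, ⟨z, (hF.mem a1).2.2⟩),
      ⟨(hiff _ _ _).2 a1, (hiff _ _ _).2 a2, (hiff _ _ _).2 a3, fun e => a4 ?_⟩, rfl⟩
    exact congrArg Subtype.val e

theorem ex_le {n m : ℕ} (h : Ex n m) : n = 0 ∨ m ≤ n := by
  obtain ⟨α, _, _, L, h1, h2, h3⟩ := h
  rcases isEmpty_or_nonempty α with hα | ⟨⟨r⟩⟩
  · left
    rw [← h1, Fintype.card_eq_zero]
  · right
    rw [← h1, ← h3 r r]
    refine Finset.card_le_card_of_injOn Prod.fst (fun _ _ => Finset.mem_univ _) ?_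
    rintro ⟨a, b⟩ hx ⟨a', b'⟩ hy e
    obtain rfl : a = a' := e
    have e1 := (Finset.mem_filter.1 hx).2.1
    have e2 := (Finset.mem_filter.1 hy).2.1
    exact Prod.ext rfl ((h2.1 a).1 (e1.symm.trans e2))

theorem filla_iso {α : Type} [Fintype α] [DecidableEq α] (L : α → α → α) (g σ : Equiv.Perm α)
    (r c : α) : cnt (fun a b => σ (L a (g b))) r c = cnt L r (g c) := by
  unfold cnt
  refine Finset.card_equiv (Equiv.prodCongr (Equiv.refl α) g) fun x => ?_
  simp

theorem filla_hall {K : Type} [Fintype K] [DecidableEq K] (d : K → K) {u v : K} (h : d u ≠ d v) :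
    ∃ τ : K → K, Function.Injective τ ∧ ∀ x, τ x ≠ d x := by
  have key := (Finset.all_card_le_biUnion_card_iff_exists_injective
    fun x : K => Finset.univ.erase (d x)).1 fun s => ?_
  · obtain ⟨τ, h1, h2⟩ := key
    exact ⟨τ, h1, fun x => (Finset.mem_erase.1 (h2 x)).1⟩
  by_cases hs : ∀ z, z ∈ s.biUnion fun x : K => Finset.univ.erase (d x)
  · exact Finset.card_le_card fun z _ => hs z
  obtain ⟨z, hz⟩ := not_forall.1 hs
  have hd : ∀ x ∈ s, d x = z := fun x hx => by
    by_contra e
    exact hz (Finset.mem_biUnion.2 ⟨x, hx, Finset.mem_erase.2 ⟨Ne.symm e, Finset.mem_univ _⟩⟩)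
  rcases s.eq_empty_or_nonempty with rfl | ⟨x, hx⟩
  · simp
  obtain ⟨y, hy⟩ : ∃ y, y ∉ s := by
    by_contra hc
    push Not at hc
    exact h ((hd u (hc u)).trans (hd v (hc v)).symm)
  calc s.card ≤ (Finset.univ.erase y).card := Finset.card_le_card fun a ha =>
        Finset.mem_erase.2 ⟨fun e => hy (e ▸ ha), Finset.mem_univ _⟩
    _ = (Finset.univ.erase (d x)).card := by
        rw [Finset.card_erase_of_mem (Finset.mem_univ _),
          Finset.card_erase_of_mem (Finset.mem_univ _)]
    _ ≤ _ := Finset.card_le_card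
        (Finset.subset_biUnion_of_mem (fun x : K => Finset.univ.erase (d x)) hx)
theorem derange {K : Type} [Finite K] {h : ℕ} (H : Ex (Nat.card K) (h + 1))
    (h3 : Nat.card K = 0 ∨ 3 ≤ Nat.card K) :
    ∃ M : K → K → K, (∀ r, Function.Bijective fun c => M r c) ∧
      (∀ c, Function.Bijective fun r => M r c) ∧ (∀ x, M x x ≠ x) ∧
      ∀ x y, num (Int4 (fun a b c => M a b = c) x y (M x y)) = h := by
  classical
  have := Fintype.ofFinite K
  obtain ⟨L, hL, hc⟩ := H.toType (β := K) Nat.card_eq_fintype_card.symm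
  have key : ∃ g σ : Equiv.Perm K, ∀ x, σ (L x (g x)) ≠ x := by
    rw [Nat.card_eq_fintype_card] at h3
    rcases h3 with h0 | h3
    · have := Fintype.card_eq_zero_iff.1 h0
      exact ⟨1, 1, fun x => isEmptyElim x⟩
    obtain ⟨u, v, w, huv, huw, hvw⟩ := Fintype.two_lt_card_iff.1 (show 2 < Fintype.card K from h3)
    obtain ⟨g, hg⟩ : ∃ g : Equiv.Perm K, L u (g u) ≠ L w (g w) := by
      by_cases e : L u u = L w w
      · refine ⟨Equiv.swap u v, ?_⟩
        rw [Equiv.swap_apply_left, Equiv.swap_apply_of_ne_of_ne huw.symm hvw.symm, ← e]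
        exact fun e' => huv ((hL.1 u).1 e').symm
      · exact ⟨1, e⟩
    obtain ⟨τ, hτ, hne⟩ := filla_hall (fun x => L x (g x)) hg
    refine ⟨g, (Equiv.ofBijective τ (Finite.injective_iff_bijective.1 hτ)).symm, fun x e => ?_⟩
    rw [Equiv.symm_apply_eq] at e
    exact hne x e.symm
  obtain ⟨g, σ, hg⟩ := key
  have hM : IsLatin fun a b => σ (L a (g b)) :=
    ⟨fun r => σ.bijective.comp ((hL.1 r).comp g.bijective),
      fun c => σ.bijective.comp (hL.2 (g c))⟩
  refine ⟨fun a b => σ (L a (g b)), hM.1, hM.2, hg, fun x y => ?_⟩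
  have e := cnt_eq hM x y
  rw [filla_iso, hc] at e
  rw [filla_int hM]
  omega

theorem filla_uniq {A ι : Type} [AddCommGroup A] [DecidableEq ι] (tf : ∀ a : A, 6 • a = 0 → a = 0)
    (κ : ι → A) {w x y z : ι} (h1 : x = w ∨ y = w ∨ z = w) (h2 : ¬(x = w ∧ y = w ∧ z = w))
    {a b : A}
    (ha : 3 • Function.update κ w a x = 2 • Function.update κ w a y + Function.update κ w a z)
    (hb : 3 • Function.update κ w b x = 2 • Function.update κ w b y + Function.update κ w b z) :
    a = b := by
  refine sub_eq_zero.1 (tf _ ?_)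
  simp only [Function.update_apply] at ha hb
  by_cases ex : x = w <;> by_cases ey : y = w <;> by_cases ez : z = w <;>
    simp only [ex, ey, ez, if_true, if_false] at ha hb
  · exact absurd ⟨ex, ey, ez⟩ h2
  · linear_combination (norm := module) (6 : ℤ) • ha - (6 : ℤ) • hb
  · linear_combination (norm := module) (3 : ℤ) • ha - (3 : ℤ) • hb
  · linear_combination (norm := module) (2 : ℤ) • ha - (2 : ℤ) • hb
  · linear_combination (norm := module) (2 : ℤ) • hb - (2 : ℤ) • ha
  · linear_combination (norm := module) (3 : ℤ) • hb - (3 : ℤ) • ha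
  · linear_combination (norm := module) (6 : ℤ) • hb - (6 : ℤ) • ha
  · exact absurd h1 (by simp [ex, ey, ez])
theorem greedy {A : Type} [AddCommGroup A] [Finite A] (tf : ∀ a : A, 6 • a = 0 → a = 0) {k c : ℕ}
    (T : Fin k × Fin k × Fin k → Prop) (hd : ∀ x, ¬T (x, x, x))
    (h1 : ∀ w, num (fun t => T t ∧ t.1 = w) ≤ c) (h2 : ∀ w, num (fun t => T t ∧ t.2.1 = w) ≤ c)
    (h3 : ∀ w, num (fun t => T t ∧ t.2.2 = w) ≤ c) (hk : 3 * c + k < Nat.card A) :
    ∃ κ : Fin k → A, Function.Injective κ ∧
      ∀ x y z, T (x, y, z) → 3 • κ x ≠ 2 • κ y + κ z := by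
  classical
  have := Fintype.ofFinite A
  have main : ∀ m ≤ k, ∃ κ : Fin k → A, (∀ x y : Fin k, x.1 < m → y.1 < m → κ x = κ y → x = y) ∧
      ∀ x y z : Fin k, x.1 < m → y.1 < m → z.1 < m → T (x, y, z) → 3 • κ x ≠ 2 • κ y + κ z := by
    intro m
    induction m with
    | zero => exact fun _ => ⟨0, fun x _ h => absurd h (by omega), fun x _ _ h => absurd h (by omega)⟩
    | succ m ih =>
      intro hm
      obtain ⟨κ, i1, i2⟩ := ih (by omega)
      obtain ⟨w, hw⟩ : ∃ w : Fin k, w.1 = m := ⟨⟨m, hm⟩, rfl⟩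
      have hφ : ∀ t : Fin k × Fin k × Fin k, ∃ b : A, T t → (t.1 = w ∨ t.2.1 = w ∨ t.2.2 = w) →
          ∀ a, 3 • Function.update κ w a t.1 =
            2 • Function.update κ w a t.2.1 + Function.update κ w a t.2.2 → a = b := by
        rintro ⟨x, y, z⟩
        by_cases hb : ∃ b, 3 • Function.update κ w b x =
          2 • Function.update κ w b y + Function.update κ w b z
        · obtain ⟨b, hb⟩ := hb
          refine ⟨b, fun ht hc a ha => filla_uniq tf κ hc ?_ ha hb⟩
          rintro ⟨e1, e2, e3⟩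
          have e : (x, y, z) = (w, w, w) := Prod.ext e1 (Prod.ext e2 e3)
          exact hd w (e ▸ ht)
        · exact ⟨0, fun _ _ a ha => absurd ⟨a, ha⟩ hb⟩
      choose φ hφ using hφ
      have hS : (Finset.univ.filter fun t : Fin k × Fin k × Fin k =>
          T t ∧ (t.1 = w ∨ t.2.1 = w ∨ t.2.2 = w)).card ≤ 3 * c := by
        have a1 := h1 w
        have a2 := h2 w
        have a3 := h3 w
        rw [num_eq_card] at a1 a2 a3
        simp only [and_or_left, Finset.filter_or]
        refine (Finset.card_union_le _ _).trans ?_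
        have := Finset.card_union_le
          (Finset.univ.filter fun t : Fin k × Fin k × Fin k => T t ∧ t.2.1 = w)
          (Finset.univ.filter fun t : Fin k × Fin k × Fin k => T t ∧ t.2.2 = w)
        omega
      obtain ⟨a, -, ha⟩ := Finset.exists_mem_notMem_of_card_lt_card
        (s := Finset.univ.image κ ∪ (Finset.univ.filter fun t : Fin k × Fin k × Fin k =>
          T t ∧ (t.1 = w ∨ t.2.1 = w ∨ t.2.2 = w)).image φ) (t := Finset.univ) (by
          refine (Finset.card_union_le _ _).trans_lt ?_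
          have a1 := Finset.card_image_le (s := Finset.univ) (f := κ)
          have a2 := (Finset.card_image_le (f := φ)).trans hS
          rw [Finset.card_univ, Fintype.card_fin] at a1
          rw [Finset.card_univ, ← Nat.card_eq_fintype_card]
          omega)
      rw [Finset.mem_union, not_or] at ha
      have hκ : ∀ x, κ x ≠ a := fun x e => ha.1 (Finset.mem_image.2 ⟨x, Finset.mem_univ _, e⟩)
      have hlt : ∀ x : Fin k, x.1 < m + 1 → x ≠ w → x.1 < m := fun x h e => by
        have : x.1 ≠ w.1 := fun e' => e (Fin.ext e')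
        omega
      refine ⟨Function.update κ w a, fun x y hx hy e => ?_, fun x y z hx hy hz ht e => ?_⟩
      · by_cases ex : x = w <;> by_cases ey : y = w
        · rw [ex, ey]
        · rw [ex, Function.update_self, Function.update_of_ne ey] at e
          exact absurd e.symm (hκ y)
        · rw [ey, Function.update_self, Function.update_of_ne ex] at e
          exact absurd e (hκ x)
        · rw [Function.update_of_ne ex, Function.update_of_ne ey] at e
          exact i1 x y (hlt x hx ex) (hlt y hy ey) e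
      · by_cases hc : x = w ∨ y = w ∨ z = w
        · exact ha.2 (Finset.mem_image.2 ⟨(x, y, z), Finset.mem_filter.2
            ⟨Finset.mem_univ _, ht, hc⟩, (hφ (x, y, z) ht hc a e).symm⟩)
        · push Not at hc
          rw [Function.update_of_ne hc.1, Function.update_of_ne hc.2.1,
            Function.update_of_ne hc.2.2] at e
          exact i2 x y z (hlt x hx hc.1) (hlt y hy hc.2.1) (hlt z hz hc.2.2) ht e
  obtain ⟨κ, i1, i2⟩ := main k le_rfl
  exact ⟨κ, fun x y e => i1 x y x.2 y.2 e, fun x y z => i2 x y z x.2 y.2 z.2⟩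

end Pool.Agent.NL
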