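import Pool.Agent.Work.MP_03d2dd_co.NL.Num

/-! Basic facts on degenerate configurations. -/

namespace Pool.Agent.NL.Geo

variable {P : Type} (G : Geo P)

theorem bool_ne {a b : Bool} (h : a ≠ b) : a = true ∧ b = false ∨ a = false ∧ b = true := by
  revert a b; decide

/-- A configuration of four lines that is not a quad repeats a line or joins a cell of a
transversal with one of its border lines. -/
theorem degen {q : Six P} (h : q.All G.line) (hn : ¬G.Quad q) :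
    q.r0 = q.r1 ∧ q.c0 = q.c1 ∧ (q.s0 = q.s1 ∨ G.lab q.s0 ≠ G.lab q.s1) ∨
      q.r0 = q.r1 ∧ q.s0 = q.s1 ∧ G.lab q.c0 ≠ G.lab q.c1 ∨
      q.c0 = q.c1 ∧ q.s0 = q.s1 ∧ G.lab q.r0 ≠ G.lab q.r1 := by
  obtain ⟨r0, c0, s0, r1, c1, s1⟩ := q
  obtain ⟨l00, l01, l10, l11⟩ := h
  dsimp only at *
  have hs : ∀ {a b}, G.line a b s0 → G.line a b s1 → s0 = s1 ∨ G.lab s0 ≠ G.lab s1 :=
    fun a b => (em (G.lab s0 = G.lab s1)).imp (G.u3 a b) id
  by_cases hr : r0 = r1
  · subst hr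
    by_cases hc : G.lab c0 = G.lab c1
    · exact Or.inl ⟨rfl, G.u2 l00 l11 hc, hs l00 l10⟩
    · refine Or.inr (Or.inl ⟨rfl, G.u3 l00 l10 ?_, hc⟩)
      rcases bool_ne hc with ⟨a, -⟩ | ⟨-, a⟩
      · rw [G.one23 l00 a, G.one23 l10 a]
      · rw [G.one23 l01 a, G.one23 l11 a]
  by_cases hc : c0 = c1
  · subst hc
    have hk : G.lab r0 ≠ G.lab r1 := fun e => hr (G.u1 l00 l11 e)
    refine Or.inr (Or.inr ⟨rfl, G.u3 l00 l01 ?_, hk⟩)
    rcases bool_ne hk with ⟨a, -⟩ | ⟨-, a⟩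
    · rw [G.one13 l00 a, G.one13 l01 a]
    · rw [G.one13 l10 a, G.one13 l11 a]
  have he : s0 = s1 := by
    by_contra he
    exact hn ⟨⟨l00, l01, l10, l11⟩, hr, hc, he⟩
  subst he
  have h1 : G.lab r0 ≠ G.lab r1 := fun e => hr (G.u1 l00 l10 e)
  have h2 : G.lab c0 ≠ G.lab c1 := fun e => hc (G.u2 l00 l01 e)
  exfalso
  rcases bool_ne h1 with ⟨a, -⟩ | ⟨-, a⟩
  · exact h2 (by rw [G.one12 l00 a, G.one12 l01 a])
  · exact h2 (by rw [G.one12 l10 a, G.one12 l11 a])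

/-- In a degenerate configuration either all four lines coincide or all four are special. -/
theorem degen_spec {q : Six P} (h : q.All G.line) (hn : ¬G.Quad q) :
    q.r0 = q.r1 ∧ q.c0 = q.c1 ∧ q.s0 = q.s1 ∨ G.HasLab q ∧ q.All G.Spec := by
  have hd := G.degen h hn
  obtain ⟨r0, c0, s0, r1, c1, s1⟩ := q
  obtain ⟨l00, l01, l10, l11⟩ := h
  dsimp only at *
  simp only [HasLab, Six.All, Spec]
  rcases hd with ⟨rfl, rfl, e | e⟩ | ⟨rfl, rfl, e⟩ | ⟨rfl, rfl, e⟩
  · exact Or.inl ⟨rfl, rfl, e⟩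
  · right
    rcases bool_ne e with ⟨a, -⟩ | ⟨-, a⟩
    · have : ∃ x, G.lab x = true ∧ G.line r0 c0 x := ⟨_, a, l00⟩
      tauto
    · have : ∃ x, G.lab x = true ∧ G.line r0 c0 x := ⟨_, a, l01⟩
      tauto
  · right
    rcases bool_ne e with ⟨a, b⟩ | ⟨b, a⟩
    · have h0 : G.lab r0 = false := by
        by_contra k
        rw [G.one12 l00 (by simpa using k)] at a
        exact Bool.noConfusion a
      have : ∃ x, G.lab x = true ∧ G.line r0 c1 x :=
        ⟨_, a, (G.t2 l01 h0 b (G.one23 l00 a) a).2 l00⟩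
      tauto
    · have h0 : G.lab r0 = false := by
        by_contra k
        rw [G.one12 l01 (by simpa using k)] at a
        exact Bool.noConfusion a
      have : ∃ x, G.lab x = true ∧ G.line r0 c0 x :=
        ⟨_, a, (G.t2 l00 h0 b (G.one23 l01 a) a).2 l01⟩
      tauto
  · right
    rcases bool_ne e with ⟨a, b⟩ | ⟨b, a⟩
    · have : ∃ x, G.lab x = true ∧ G.line r1 c0 x :=
        ⟨_, a, (G.t1 l10 b (G.one12 l00 a) (G.one13 l00 a) a).2 l00⟩
      tauto
    · have : ∃ x, G.lab x = true ∧ G.line r0 c0 x :=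
        ⟨_, a, (G.t1 l00 b (G.one12 l10 a) (G.one13 l10 a) a).2 l10⟩
      tauto

theorem lab3 {a b c : P} (h : G.line a b c) (hc : G.lab c = true) :
    G.lab a = false ∧ G.lab b = false := by
  constructor
  · by_contra k
    rw [G.one13 h (by simpa using k)] at hc
    exact Bool.noConfusion hc
  · by_contra k
    rw [G.one23 h (by simpa using k)] at hc
    exact Bool.noConfusion hc

theorem lab2 {a b c : P} (h : G.line a b c) (hb : G.lab b = true) :
    G.lab a = false ∧ G.lab c = false := by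
  refine ⟨?_, G.one23 h hb⟩
  by_contra k
  rw [G.one12 h (by simpa using k)] at hb
  exact Bool.noConfusion hb

/-- Two cells with the same plain symbol and the same label coincide. -/
theorem same_sym {r c r' c' s b : P} (h : G.line r c s) (h' : G.line r' c' s)
    (hs : G.lab s = false) (hb : G.lab b = true) (k : G.line r c b) (k' : G.line r' c' b) :
    r = r' ∧ c = c' := by
  obtain ⟨a1, a2⟩ := G.lab3 k hb
  obtain ⟨a3, a4⟩ := G.lab3 k' hb
  exact ⟨G.u1 ((G.t2 h a1 a2 hs hb).1 k) ((G.t2 h' a3 a4 hs hb).1 k') (by rw [a1, a3]),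
    G.u2 ((G.t1 h a1 a2 hs hb).1 k) ((G.t1 h' a3 a4 hs hb).1 k') (by rw [a2, a4])⟩

theorem same_row {r c c' b : P} (hb : G.lab b = true) (k : G.line r c b) (k' : G.line r c' b) :
    c = c' := G.u2 k k' (by rw [(G.lab3 k hb).2, (G.lab3 k' hb).2])

theorem same_col {r r' c b : P} (hb : G.lab b = true) (k : G.line r c b) (k' : G.line r' c b) :
    r = r' := G.u1 k k' (by rw [(G.lab3 k hb).1, (G.lab3 k' hb).1])

/-- Every line has exactly one degenerate completion by plain points. -/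
theorem triv {a b c : P} (h : G.line a b c) :
    ∃! x : P × P × P, (mk6 a b c x).All G.line ∧ ¬G.Quad (mk6 a b c x) ∧ G.Plain x := by
  have key : ∀ x y : P × P × P,
      (mk6 a b c x).All G.line ∧ ¬G.Quad (mk6 a b c x) ∧ G.Plain x →
      (mk6 a b c y).All G.line ∧ ¬G.Quad (mk6 a b c y) ∧ G.Plain y → x = y := by
    rintro ⟨x1, x2, x3⟩ ⟨y1, y2, y3⟩ ⟨hx, nx, p1, p2, p3⟩ ⟨hy, ny, q1, q2, q3⟩
    have dx := G.degen hx nx
    have dy := G.degen hy ny
    obtain ⟨-, l1, l2, l3⟩ := hx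
    obtain ⟨-, m1, m2, m3⟩ := hy
    dsimp only [mk6] at *
    have o1 := G.one12 h
    have o2 := G.one13 h
    have o3 := G.one23 h
    rcases dx with ⟨rfl, rfl, e⟩ | ⟨rfl, rfl, e⟩ | ⟨rfl, rfl, e⟩ <;>
      rcases dy with ⟨rfl, rfl, f⟩ | ⟨rfl, rfl, f⟩ | ⟨rfl, rfl, f⟩
    · rw [G.u3 l1 m1 (by rw [p3, q3])]
    · exact absurd (by rw [p2, q2]) f
    · exact absurd (by rw [p1, q1]) f
    · exact absurd (by rw [p2, q2]) e
    · rw [G.u2 l1 m1 (by rw [p2, q2])]
    · exact absurd (by rw [p2, q2]) e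
    · exact absurd (by rw [p1, q1]) e
    · exact absurd (by rw [p1, q1]) e
    · rw [G.u1 l2 m2 (by rw [p1, q1])]
  refine existsUnique_of_exists_of_unique ?_ key
  by_cases ha : G.lab a = true
  · obtain ⟨r, k1, k2⟩ := G.e1 b c (Or.inl (G.one12 h ha))
    exact ⟨(r, b, c), ⟨h, h, k2, k2⟩, fun q => q.2.2.1 rfl, k1, G.one12 h ha, G.one13 h ha⟩
  by_cases hb : G.lab b = true
  · obtain ⟨r, k1, k2⟩ := G.e2 a c (Or.inr (G.one23 h hb))
    exact ⟨(a, r, c), ⟨h, k2, h, k2⟩, fun q => q.2.1 rfl, by simpa using ha, k1, G.one23 h hb⟩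
  obtain ⟨r, k1, k2⟩ := G.e3 a b (Or.inl (by simpa using ha))
  exact ⟨(a, b, r), ⟨h, k2, k2, h⟩, fun q => q.2.1 rfl, by simpa using ha, by simpa using hb, k1⟩

end Pool.Agent.NL.Geo
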