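import Pool.Agent.Work.MP_03d2dd_co.NL.FillA
import Pool.Agent.Work.MP_03d2dd_co.NL.GeoB

/-! Prolongation along a set of transversals gives a latin square.

Plan.  `r3`: two labels: the hole (`one12` excludes a line, `l` is injective).  One label: the
plain point of `e3`, unique by `u3`.  Two plain points: the chosen label on the cell if there is
one, else the plain symbol.  `r2`: two labels: the hole (`one13`), by bijectivity of `M`.
One label: `e2`.  Both plain: let `b` be the plain column of `e2`; if the cell carries a chosen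
label `l z`, then `line a (l z) c` (`t2`) is the only solution; otherwise `b` is, because
`line a (l z) c` would give `line a b (l z)` by `t2`.  `r1` alike with `t1`.
`num_Q`: `num_or`, `num_bij`, `num_true`. -/

namespace Pool.Agent.NL

variable {P K : Type} (G : Geo P) (l : K → P) (M : K → K → K)

/-- The points of the prolonged square. -/
def FQ (p : P) : Prop := G.lab p = false ∨ ∃ z, l z = p

/-- The cells of the prolonged square. -/
def FL (a b c : P) : Prop :=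
  (G.line a b c ∧ FQ G l a ∧ FQ G l b ∧ FQ G l c ∧
      (G.lab c = false → ∀ z, ¬G.line a b (l z))) ∨
    ∃ x y, a = l x ∧ b = l y ∧ c = l (M x y)

theorem fillb_plain (hl : ∀ z, G.lab (l z) = true) {a b c : P} (h : FL G l M a b c)
    (hp : G.lab a = false ∨ G.lab b = false ∨ G.lab c = false) :
    G.line a b c ∧ FQ G l a ∧ FQ G l b ∧ FQ G l c ∧
      (G.lab c = false → ∀ z, ¬G.line a b (l z)) := by
  refine h.resolve_right ?_
  rintro ⟨x, y, rfl, rfl, rfl⟩
  simp [hl] at hp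

theorem fillb_no (hl : ∀ z, G.lab (l z) = true) {z : K} (h : G.lab (l z) = false) : False := by
  simp [hl] at h

theorem fillb_r3 (hl : ∀ z, G.lab (l z) = true) (hi : Function.Injective l) (a b : P)
    (ha : FQ G l a) (hb : FQ G l b) : ∃! c, FL G l M a b c := by
  have one : G.lab a = false ∨ G.lab b = false → (∀ z, ¬G.line a b (l z)) →
      ∃! c, FL G l M a b c := fun k k' => by
    obtain ⟨c, c1, c2⟩ := G.e3 a b k
    refine ⟨c, Or.inl ⟨c2, ha, hb, Or.inl c1, fun _ => k'⟩, fun c' h => ?_⟩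
    obtain ⟨d1, -, -, d2 | ⟨z, rfl⟩, -⟩ := fillb_plain G l M hl h (k.imp_right Or.inl)
    exacts [G.u3 d1 c2 (d2.trans c1.symm), absurd d1 (k' z)]
  rcases ha with ha' | ⟨x, rfl⟩
  · by_cases k : ∃ z, G.line a b (l z)
    · obtain ⟨z, hz⟩ := k
      refine ⟨l z, Or.inl ⟨hz, Or.inl ha', hb, Or.inr ⟨z, rfl⟩, fun k => (fillb_no G l hl k).elim⟩,
        fun c' h => ?_⟩
      obtain ⟨d1, -, -, d2 | ⟨z', rfl⟩, d3⟩ := fillb_plain G l M hl h (Or.inl ha')
      exacts [absurd hz (d3 d2 z), G.u3 d1 hz ((hl _).trans (hl _).symm)]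
    · exact one (Or.inl ha') fun z hz => k ⟨z, hz⟩
  · rcases hb with hb' | ⟨y, rfl⟩
    · exact one (Or.inr hb') fun z hz => fillb_no G l hl (G.one13 hz (hl x))
    · refine ⟨l (M x y), Or.inr ⟨x, y, rfl, rfl, rfl⟩, ?_⟩
      rintro c (h | ⟨x', y', k1, k2, rfl⟩)
      · exact (fillb_no G l hl (G.one12 h.1 (hl x))).elim
      · rw [hi k1, hi k2]

theorem fillb_r2 (hl : ∀ z, G.lab (l z) = true) (hi : Function.Injective l)
    (h1 : ∀ r, Function.Bijective fun c => M r c) (a c : P) (ha : FQ G l a) (hc : FQ G l c) :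
    ∃! b, FL G l M a b c := by
  have one : G.lab a = false ∨ G.lab c = false →
      (∀ b, G.lab b = false → G.line a b c → (G.lab c = false → ∀ z, ¬G.line a b (l z)) →
        (∀ z, ¬G.line a (l z) c) → ∃! b, FL G l M a b c) := fun k b b1 b2 k1 k2 => by
    refine ⟨b, Or.inl ⟨b2, ha, Or.inl b1, hc, k1⟩, fun b' h => ?_⟩
    obtain ⟨d1, -, d2 | ⟨z, rfl⟩, -, -⟩ := fillb_plain G l M hl h (k.imp_right Or.inr)
    exacts [G.u2 d1 b2 (d2.trans b1.symm), absurd d1 (k2 z)]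
  rcases ha with ha' | ⟨x, rfl⟩ <;> rcases hc with hc' | ⟨w, rfl⟩
  · obtain ⟨b, b1, b2⟩ := G.e2 a c (Or.inl ha')
    by_cases k : ∃ z, G.line a b (l z)
    · obtain ⟨z, hz⟩ := k
      have hz' := (G.t2 b2 ha' b1 hc' (hl z)).1 hz
      refine ⟨l z, Or.inl ⟨hz', Or.inl ha', Or.inr ⟨z, rfl⟩, Or.inl hc',
        fun _ z' k => fillb_no G l hl (G.one23 k (hl z))⟩, fun b' h => ?_⟩
      obtain ⟨d1, -, d2 | ⟨z', rfl⟩, -, d3⟩ := fillb_plain G l M hl h (Or.inl ha')
      · exact absurd (G.u2 d1 b2 (d2.trans b1.symm) ▸ hz) (d3 hc' z)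
      · exact G.u2 d1 hz' ((hl _).trans (hl _).symm)
    · exact one (Or.inl ha') b b1 b2 (fun _ z hz => k ⟨z, hz⟩)
        fun z hz => k ⟨z, (G.t2 b2 ha' b1 hc' (hl z)).2 hz⟩
  · obtain ⟨b, b1, b2⟩ := G.e2 a (l w) (Or.inl ha')
    exact one (Or.inl ha') b b1 b2 (fun k => (fillb_no G l hl k).elim)
      fun z hz => fillb_no G l hl (G.one23 hz (hl z))
  · obtain ⟨b, b1, b2⟩ := G.e2 (l x) c (Or.inr hc')
    exact one (Or.inr hc') b b1 b2 (fun _ z hz => fillb_no G l hl (G.one13 hz (hl x)))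
      fun z hz => fillb_no G l hl (G.one12 hz (hl x))
  · obtain ⟨y, rfl⟩ := (h1 x).2 w
    refine ⟨l y, Or.inr ⟨x, y, rfl, rfl, rfl⟩, ?_⟩
    rintro b (h | ⟨x', y', k1, rfl, k2⟩)
    · exact (fillb_no G l hl (G.one13 h.1 (hl x))).elim
    · obtain rfl := hi k1
      rw [(h1 x).1 (hi k2)]

theorem fillb_r1 (hl : ∀ z, G.lab (l z) = true) (hi : Function.Injective l)
    (h2 : ∀ c, Function.Bijective fun r => M r c) (b c : P) (hb : FQ G l b) (hc : FQ G l c) :
    ∃! a, FL G l M a b c := by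
  have one : G.lab b = false ∨ G.lab c = false →
      (∀ a, G.lab a = false → G.line a b c → (G.lab c = false → ∀ z, ¬G.line a b (l z)) →
        (∀ z, ¬G.line (l z) b c) → ∃! a, FL G l M a b c) := fun k a a1 a2 k1 k2 => by
    refine ⟨a, Or.inl ⟨a2, Or.inl a1, hb, hc, k1⟩, fun a' h => ?_⟩
    obtain ⟨d1, d2 | ⟨z, rfl⟩, -, -, -⟩ := fillb_plain G l M hl h (Or.inr k)
    exacts [G.u1 d1 a2 (d2.trans a1.symm), absurd d1 (k2 z)]
  rcases hb with hb' | ⟨y, rfl⟩ <;> rcases hc with hc' | ⟨w, rfl⟩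
  · obtain ⟨a, a1, a2⟩ := G.e1 b c (Or.inl hb')
    by_cases k : ∃ z, G.line a b (l z)
    · obtain ⟨z, hz⟩ := k
      have hz' := (G.t1 a2 a1 hb' hc' (hl z)).1 hz
      refine ⟨l z, Or.inl ⟨hz', Or.inr ⟨z, rfl⟩, Or.inl hb', Or.inl hc',
        fun _ z' k => fillb_no G l hl (G.one13 k (hl z))⟩, fun a' h => ?_⟩
      obtain ⟨d1, d2 | ⟨z', rfl⟩, -, -, d3⟩ := fillb_plain G l M hl h (Or.inr (Or.inl hb'))
      · exact absurd (G.u1 d1 a2 (d2.trans a1.symm) ▸ hz) (d3 hc' z)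
      · exact G.u1 d1 hz' ((hl _).trans (hl _).symm)
    · exact one (Or.inl hb') a a1 a2 (fun _ z hz => k ⟨z, hz⟩)
        fun z hz => k ⟨z, (G.t1 a2 a1 hb' hc' (hl z)).2 hz⟩
  · obtain ⟨a, a1, a2⟩ := G.e1 b (l w) (Or.inl hb')
    exact one (Or.inl hb') a a1 a2 (fun k => (fillb_no G l hl k).elim)
      fun z hz => fillb_no G l hl (G.one13 hz (hl z))
  · obtain ⟨a, a1, a2⟩ := G.e1 (l y) c (Or.inr hc')
    exact one (Or.inr hc') a a1 a2 (fun _ z hz => fillb_no G l hl (G.one23 hz (hl y)))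
      fun z hz => fillb_no G l hl (G.one12 hz (hl z))
  · obtain ⟨x, rfl⟩ := (h2 y).2 w
    refine ⟨l x, Or.inr ⟨x, y, rfl, rfl, rfl⟩, ?_⟩
    rintro a (h | ⟨x', y', rfl, k1, k2⟩)
    · exact (fillb_no G l hl (G.one23 h.1 (hl y))).elim
    · obtain rfl := hi k1
      rw [(h2 y).1 (hi k2)]

theorem fl_lat (hl : ∀ z, G.lab (l z) = true) (hi : Function.Injective l)
    (h1 : ∀ r, Function.Bijective fun c => M r c) (h2 : ∀ c, Function.Bijective fun r => M r c) :
    Lat (FQ G l) (FL G l M) := by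
  refine ⟨?_, fillb_r1 G l M hl hi h2, fillb_r2 G l M hl hi h1, fillb_r3 G l M hl hi⟩
  rintro a b c (h | ⟨x, y, rfl, rfl, rfl⟩)
  exacts [⟨h.2.1, h.2.2.1, h.2.2.2.1⟩, ⟨Or.inr ⟨_, rfl⟩, Or.inr ⟨_, rfl⟩, Or.inr ⟨_, rfl⟩⟩]

theorem num_Q [Finite P] (hl : ∀ z, G.lab (l z) = true) (hi : Function.Injective l) :
    num (FQ G l) = num (fun p => G.lab p = false) + Nat.card K := by
  rw [← num_true, num_bij (p := fun _ : K => True) (q := fun p => ∃ z, l z = p) l
    (fun x _ => ⟨x, rfl⟩) (fun _ _ _ _ h => hi h) fun _ ⟨z, h⟩ => ⟨z, trivial, h⟩]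
  refine num_or ?_
  rintro p h ⟨z, rfl⟩
  exact fillb_no G l hl h

end Pool.Agent.NL
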