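import Pool.Agent.Work.MP_03d2dd_co.NL.FillB

/-! Counting intercalates of the prolonged square.

All quads have the colour `()`.  `h3` excludes an intercalate with exactly one cell in the hole.

Plan.  `hole`: let `a = l x`, `b = l y`, `c = l (M x y)` and `(r, d, s)` a completion.  If `r` is
a label then the cell `(r, b)` is in the hole, so `s` is a label, so `d` is a label (`one13`), and
the completion is the image of an intercalate of `M`.  If `r` is plain then `s`, `d` are plain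
and the three cells are lines, against `h3`.
`border`: the cell is a line with one label.  A completion with all four cells lines is a quad
(`r ≠ a` gives the other two inequalities, e.g. from `fl_lat`, or directly), its new points are
plain (`Four`, `one12`, ...), and conversely a plain completion to a quad has no label on its
plain lines (`Sep`), so its cells are in `FL`.  A completion with a cell in the hole contradicts
`h3` (exactly one of the four cells is in the hole).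
`inner`: the cell is a plain line without chosen label.  No cell of a completion is in the hole.
Split the completions into plain ones and ones with a (chosen) label.  The second kind is counted
by `GainP` (exactly one label `l z`; `Sep` gives the side condition of `FL`).  The first kind are
the `RegP` completions without chosen label on the three new lines; those with one are counted by
`LossP` (the label is unique by `Sep`, `l` injective).  `num_split`, `num_bij`. -/

namespace Pool.Agent.NL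

variable {P K : Type} [Finite P] [Finite K] {G : Geo P} {l : K → P} {M : K → K → K} {h : ℕ}

/-- The colouring with one colour. -/
def uc {P : Type} : Six P → Option Unit := fun _ => some ()

/-- The hypotheses of the count. -/
structure FH (G : Geo P) (l : K → P) (M : K → K → K) (h : ℕ) : Prop where
  hl : ∀ z, G.lab (l z) = true
  hi : Function.Injective l
  h1 : ∀ r, Function.Bijective fun c => M r c
  h2 : ∀ c, Function.Bijective fun r => M r c
  four : G.Four
  sep : G.Sep uc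
  h3 : ∀ x y r c s, G.line (l x) c s → G.line r (l y) s → ¬G.line r c (l (M x y))
  hM : ∀ x y, num (Int4 (fun a b c => M a b = c) x y (M x y)) = h
  reg : ∀ a b c, G.line a b c → num (G.RegP uc a b c ()) = h
  bal : ∀ a b c, G.line a b c → G.Plain (a, b, c) →
    num (G.LossP uc l a b c ()) = num (G.GainP uc l a b c ())

/-- cells in the hole -/
def fillc_H (l : K → P) (M : K → K → K) (a b c : P) : Prop :=
  ∃ x y, a = l x ∧ b = l y ∧ c = l (M x y)

omit [Finite P] [Finite K] in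
theorem fillc_tf {p : P} (h1 : G.lab p = true) (h2 : G.lab p = false) : False := by
  rw [h1] at h2
  exact Bool.noConfusion h2

omit [Finite P] [Finite K] in
theorem fillc_lab (H : FH G l M h) {a b c : P} (k : fillc_H l M a b c) :
    G.lab a = true ∧ G.lab b = true ∧ G.lab c = true := by
  obtain ⟨x, y, rfl, rfl, rfl⟩ := k
  exact ⟨H.hl _, H.hl _, H.hl _⟩

omit [Finite P] [Finite K] in
theorem fillc_all (H : FH G l M h) {a b c r d s : P} (k : fillc_H l M a b c) (k1 : FL G l M a d s)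
    (k2 : FL G l M r b s) (k3 : FL G l M r d c) :
    fillc_H l M a d s ∧ fillc_H l M r b s ∧ fillc_H l M r d c := by
  obtain ⟨la, lb, lc⟩ := fillc_lab H k
  by_cases hr : G.lab r = true
  · have j2 : fillc_H l M r b s := k2.resolve_left fun e => fillc_tf lb (G.one12 e.1 hr)
    have j1 : fillc_H l M a d s :=
      k1.resolve_left fun e => fillc_tf (fillc_lab H j2).2.2 (G.one13 e.1 la)
    exact ⟨j1, j2, k3.resolve_left fun e => fillc_tf lc (G.one13 e.1 hr)⟩
  · have j2 := (k2.resolve_right fun e => hr (fillc_lab H e).1).1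
    have j3 := (k3.resolve_right fun e => hr (fillc_lab H e).1).1
    have j1 := (k1.resolve_right fun e => fillc_tf (fillc_lab H e).2.2 (G.one23 j2 lb)).1
    obtain ⟨x, y, rfl, rfl, rfl⟩ := k
    exact absurd j3 (H.h3 x y r d s j1 j2)

/-- cells outside the hole -/
def fillc_N (G : Geo P) (l : K → P) (a b c : P) : Prop :=
  G.line a b c ∧ FQ G l a ∧ FQ G l b ∧ FQ G l c ∧ (G.lab c = false → ∀ z, ¬G.line a b (l z))

omit [Finite P] [Finite K] in
theorem fillc_not (H : FH G l M h) {a b c : P} (hL : G.line a b c) : ¬fillc_H l M a b c :=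
  fun e => fillc_tf (fillc_lab H e).2.1 (G.one12 hL (fillc_lab H e).1)

omit [Finite P] [Finite K] in
theorem fillc_int (H : FH G l M h) {a b c r d s : P} (hF : FL G l M a b c) (hL : G.line a b c)
    (k : Int4 (FL G l M) a b c (r, d, s)) :
    G.Quad (mk6 a b c (r, d, s)) ∧ fillc_N G l a d s ∧ fillc_N G l r b s ∧ fillc_N G l r d c := by
  obtain ⟨k1, k2, k3, k4⟩ := k
  have n := fillc_not H hL
  have j1 : fillc_N G l a d s := k1.resolve_right fun e => n (fillc_all H e hF k3 k2).1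
  have j2 : fillc_N G l r b s := k2.resolve_right fun e => n (fillc_all H e k3 hF k1).2.1
  have j3 : fillc_N G l r d c := k3.resolve_right fun e => n (fillc_all H e k2 k1 hF).2.2
  have L := fl_lat G l M H.hl H.hi H.h1 H.h2
  have u : FL G l M r b c → False := fun e =>
    k4 ((L.r1 b c (L.mem hF).2.1 (L.mem hF).2.2).unique e hF)
  refine ⟨⟨⟨hL, j1.1, j2.1, j3.1⟩, k4.symm, fun e => u ?_, fun e => u ?_⟩, j1, j2, j3⟩
  · obtain rfl : b = d := e
    exact k3
  · obtain rfl : c = s := e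
    exact k2

omit [Finite P] [Finite K] in
theorem fillc_back (H : FH G l M h) {a b c r d s : P} (hF : FL G l M a b c)
    (q : G.Quad (mk6 a b c (r, d, s))) (hl : G.HasLab (mk6 a b c (r, d, s))) (q1 : FQ G l r)
    (q2 : FQ G l d) (q3 : FQ G l s) : Int4 (FL G l M) a b c (r, d, s) := by
  obtain ⟨p1, p2, p3⟩ := (fl_lat G l M H.hl H.hi H.h1 H.h2).mem hF
  have n : ∀ z, ¬G.On (mk6 a b c (r, d, s)) (l z) := fun z e =>
    (H.sep _ _ q (Option.some_ne_none _) e).1 hl
  exact ⟨.inl ⟨q.1.2.1, p1, q2, q3, fun e z k => n z ⟨H.hl z, .inr (.inl ⟨e, k⟩)⟩⟩,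
    .inl ⟨q.1.2.2.1, q1, p2, q3, fun e z k => n z ⟨H.hl z, .inr (.inr (.inl ⟨e, k⟩))⟩⟩,
    .inl ⟨q.1.2.2.2, q1, q2, p3, fun e z k => n z ⟨H.hl z, .inr (.inr (.inr ⟨e, k⟩))⟩⟩,
    q.2.1.symm⟩

omit [Finite P] [Finite K] in
theorem fillc_one {a b c r d s : P} (q : G.Quad (mk6 a b c (r, d, s))) :
    (G.lab r = true → G.lab d = false ∧ G.lab s = false) ∧
      (G.lab d = true → G.lab r = false ∧ G.lab s = false) ∧
      (G.lab s = true → G.lab r = false ∧ G.lab d = false) := by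
  obtain ⟨⟨-, k1, k2, k3⟩, -⟩ := q
  exact ⟨fun e => ⟨G.one12 k3 e, G.one13 k2 e⟩, fun e => ⟨(G.lab2 k3 e).1, G.one23 k1 e⟩,
    fun e => ⟨(G.lab3 k2 e).1, (G.lab3 k1 e).2⟩⟩

omit [Finite P] [Finite K] in
theorem fillc_np {a b c : P} (hp : ¬G.Plain (a, b, c)) :
    G.lab a = true ∨ G.lab b = true ∨ G.lab c = true := by
  by_contra k
  simp only [not_or, Bool.not_eq_true] at k
  exact hp k

theorem FH.hole (H : FH G l M h) (x y : K) :
    num (Int4 (FL G l M) (l x) (l y) (l (M x y))) = h := by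
  rw [← H.hM x y]
  refine (num_bij (fun u : K × K × K => (l u.1, l u.2.1, l u.2.2)) ?_ ?_ ?_).symm
  · rintro ⟨r, d, s⟩ ⟨k1, k2, k3, k4⟩
    exact ⟨.inr ⟨x, d, rfl, rfl, congrArg l k1.symm⟩, .inr ⟨r, y, rfl, rfl, congrArg l k2.symm⟩,
      .inr ⟨r, d, rfl, rfl, congrArg l k3.symm⟩, fun e => k4 (H.hi e)⟩
  · rintro ⟨r, d, s⟩ ⟨r', d', s'⟩ - - e
    simp only [Prod.mk.injEq] at e ⊢
    exact ⟨H.hi e.1, H.hi e.2.1, H.hi e.2.2⟩
  · rintro ⟨r, d, s⟩ ⟨k1, k2, k3, k4⟩
    obtain ⟨⟨x1, y1, a1, a2, a3⟩, ⟨x2, y2, b1, b2, b3⟩, ⟨x3, y3, c1, c2, c3⟩⟩ :=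
      fillc_all H ⟨x, y, rfl, rfl, rfl⟩ k1 k2 k3
    dsimp only at *
    obtain rfl := H.hi a1
    obtain rfl := H.hi b2
    obtain rfl := H.hi (b1.symm.trans c1)
    obtain rfl := H.hi (a2.symm.trans c2)
    refine ⟨(x2, y1, M x y1), ⟨rfl, H.hi (b3.symm.trans a3), (H.hi c3).symm, fun e => k4 ?_⟩, ?_⟩
    · rw [b1]
      exact congrArg l e
    · rw [a2, a3, b1]

theorem FH.border (H : FH G l M h) {a b c : P} (hF : FL G l M a b c) (hL : G.line a b c)
    (hp : ¬G.Plain (a, b, c)) : num (Int4 (FL G l M) a b c) = h := by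
  rw [← H.reg a b c hL]
  have hp' := fillc_np hp
  refine num_congr ?_
  rintro ⟨r, d, s⟩
  constructor
  · intro k
    have q := (fillc_int H hF hL k).1
    obtain ⟨f1, f2, f3⟩ := H.four _ q
    obtain ⟨⟨-, k1, k2, k3⟩, -⟩ := id q
    refine ⟨q, rfl, ?_⟩
    rcases hp' with e | e | e
    · exact ⟨Bool.eq_false_iff.2 fun e' => f1 ⟨e, e'⟩, G.one12 k1 e, G.one13 k1 e⟩
    · exact ⟨(G.lab2 k2 e).1, Bool.eq_false_iff.2 fun e' => f2 ⟨e, e'⟩, (G.lab2 k2 e).2⟩
    · exact ⟨(G.lab3 k3 e).1, (G.lab3 k3 e).2, Bool.eq_false_iff.2 fun e' => f3 ⟨e, e'⟩⟩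
  · rintro ⟨q, -, p1, p2, p3⟩
    exact fillc_back H hF q (hp'.imp_right fun e => e.imp_right .inl) (.inl p1) (.inl p2) (.inl p3)

theorem FH.inner (H : FH G l M h) {a b c : P} (hF : FL G l M a b c) (hL : G.line a b c)
    (hp : G.Plain (a, b, c)) : num (Int4 (FL G l M) a b c) = h := by
  obtain ⟨pa, pb, pc⟩ := id hp
  have e1 : num (fun x => Int4 (FL G l M) a b c x ∧ G.Plain x) =
      num fun x => G.RegP uc a b c () x ∧
        ¬∃ z, G.line a x.2.1 (l z) ∨ G.line x.1 b (l z) ∨ G.line x.1 x.2.1 (l z) := by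
    refine num_congr ?_
    rintro ⟨r, d, s⟩
    constructor
    · rintro ⟨k, p⟩
      obtain ⟨q, j1, j2, j3⟩ := fillc_int H hF hL k
      refine ⟨⟨q, rfl, p⟩, ?_⟩
      rintro ⟨z, e | e | e⟩
      exacts [j1.2.2.2.2 p.2.2 z e, j2.2.2.2.2 p.2.2 z e, j3.2.2.2.2 pc z e]
    · rintro ⟨⟨q, -, p1, p2, p3⟩, n⟩
      exact ⟨⟨.inl ⟨q.1.2.1, .inl pa, .inl p2, .inl p3, fun _ z k => n ⟨z, .inl k⟩⟩,
        .inl ⟨q.1.2.2.1, .inl p1, .inl pb, .inl p3, fun _ z k => n ⟨z, .inr (.inl k)⟩⟩,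
        .inl ⟨q.1.2.2.2, .inl p1, .inl p2, .inl pc, fun _ z k => n ⟨z, .inr (.inr k)⟩⟩,
        q.2.1.symm⟩, p1, p2, p3⟩
  have e2 : num (G.LossP uc l a b c ()) = num fun x => G.RegP uc a b c () x ∧
      ∃ z, G.line a x.2.1 (l z) ∨ G.line x.1 b (l z) ∨ G.line x.1 x.2.1 (l z) := by
    have on : ∀ x z, G.LossP uc l a b c () (x, z) → G.On (mk6 a b c x) (l z) := by
      rintro x z ⟨⟨-, -, p⟩, e | e | e⟩
      exacts [⟨H.hl z, .inr (.inl ⟨p.2.2, e⟩)⟩, ⟨H.hl z, .inr (.inr (.inl ⟨p.2.2, e⟩))⟩,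
        ⟨H.hl z, .inr (.inr (.inr ⟨pc, e⟩))⟩]
    refine num_bij Prod.fst (fun y k => ⟨k.1, y.2, k.2⟩) ?_ fun x k => ?_
    · rintro ⟨x, z⟩ ⟨x', z'⟩ k k' e
      obtain rfl : x = x' := e
      rw [H.hi ((H.sep _ _ k.1.1 (Option.some_ne_none _) (on x z k)).2 _ (on x z' k'))]
    · obtain ⟨k1, z, k2⟩ := k
      exact ⟨(x, z), ⟨k1, k2⟩, rfl⟩
  have e3 : num (G.GainP uc l a b c ()) =
      num fun x => Int4 (FL G l M) a b c x ∧ ¬G.Plain x := by
    refine num_bij Prod.fst ?_ ?_ ?_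
    · rintro ⟨⟨r, d, s⟩, z⟩ ⟨q, -, k⟩
      obtain ⟨o1, o2, o3⟩ := fillc_one q
      dsimp only at k ⊢
      rcases k with rfl | rfl | rfl
      · exact ⟨fillc_back H hF q (.inr (.inr (.inr (.inl (H.hl z))))) (.inr ⟨z, rfl⟩)
          (.inl (o1 (H.hl z)).1) (.inl (o1 (H.hl z)).2), fun p => fillc_tf (H.hl z) p.1⟩
      · exact ⟨fillc_back H hF q (.inr (.inr (.inr (.inr (.inl (H.hl z))))))
          (.inl (o2 (H.hl z)).1) (.inr ⟨z, rfl⟩) (.inl (o2 (H.hl z)).2),
          fun p => fillc_tf (H.hl z) p.2.1⟩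
      · exact ⟨fillc_back H hF q (.inr (.inr (.inr (.inr (.inr (H.hl z))))))
          (.inl (o3 (H.hl z)).1) (.inl (o3 (H.hl z)).2) (.inr ⟨z, rfl⟩),
          fun p => fillc_tf (H.hl z) p.2.2⟩
    · rintro ⟨⟨r, d, s⟩, z⟩ ⟨x', z'⟩ ⟨q, -, k⟩ k' e
      obtain rfl : (r, d, s) = x' := e
      obtain ⟨o1, o2, o3⟩ := fillc_one q
      have k' := k'.2.2
      have hz := H.hl z
      have hz' := H.hl z'
      dsimp only at k k'
      have e : l z = l z' := by
        rcases k with k | k | k <;> rcases k' with k' | k' | k'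
        · exact k.symm.trans k'
        · exact (fillc_tf (k' ▸ hz') (o1 (k ▸ hz)).1).elim
        · exact (fillc_tf (k' ▸ hz') (o1 (k ▸ hz)).2).elim
        · exact (fillc_tf (k' ▸ hz') (o2 (k ▸ hz)).1).elim
        · exact k.symm.trans k'
        · exact (fillc_tf (k' ▸ hz') (o2 (k ▸ hz)).2).elim
        · exact (fillc_tf (k' ▸ hz') (o3 (k ▸ hz)).1).elim
        · exact (fillc_tf (k' ▸ hz') (o3 (k ▸ hz)).2).elim
        · exact k.symm.trans k'
      rw [H.hi e]
    · rintro ⟨r, d, s⟩ ⟨k, p⟩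
      obtain ⟨q, j1, j2, j3⟩ := fillc_int H hF hL k
      rcases fillc_np p with e | e | e
      · obtain ⟨z, hz⟩ := j2.2.1.resolve_left (fillc_tf e)
        exact ⟨((r, d, s), z), ⟨q, rfl, .inl hz.symm⟩, rfl⟩
      · obtain ⟨z, hz⟩ := j1.2.2.1.resolve_left (fillc_tf e)
        exact ⟨((r, d, s), z), ⟨q, rfl, .inr (.inl hz.symm)⟩, rfl⟩
      · obtain ⟨z, hz⟩ := j1.2.2.2.1.resolve_left (fillc_tf e)
        exact ⟨((r, d, s), z), ⟨q, rfl, .inr (.inr hz.symm)⟩, rfl⟩
  rw [num_split _ G.Plain, e1, ← e3, ← H.bal a b c hL hp, e2, add_comm, ← num_split,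
    H.reg a b c hL]

theorem FH.ex (H : FH G l M h) : Pool.Agent.Work.MP_03d2dd_co.Ex
    (num (fun p => G.lab p = false) + Nat.card K) (h + 1) := by
  rw [← num_Q G l H.hl H.hi]
  refine ex_of_rel (fl_lat G l M H.hl H.hi H.h1 H.h2) fun a b c hF => ?_
  rcases id hF with hL | ⟨x, y, rfl, rfl, rfl⟩
  · by_cases hp : G.Plain (a, b, c)
    · exact H.inner hF hL.1 hp
    · exact H.border hF hL.1 hp
  · exact H.hole x y

end Pool.Agent.NL
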