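import Pool.Agent.Work.MP_03d2dd_co.NL.MainH
import Mathlib.Analysis.SpecialFunctions.Pow.Real

/-! The near-linear spectrum.

Plan.  `near_nat`: for `s = 0` take `C = 2` (the hypothesis is false).  Otherwise let
`β = t1 + t2 + 7`, and choose `k ≥ 1` above the bounds of `Rep.step` for both gadgets with
`β ^ (s * (s + 64)) ≤ 19 ^ k` (`Nat.lt_pow_self`); `P = 19 ^ k`.  With `K, h0` from `main_h`, for
`h ≥ h0` the `s`-th power of the bound is at most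
`K ^ s * h ^ s * (P ^ (2 * s) * h) * (P ^ 2 * h)`; use `Nat.pow_le_pow_iff_left`.
For `h < h0` use `spectrum` (its right-to-left direction and `cnt_eq` give `Ex`), with
`C ≥ ((h0 + 2) ^ C0) ^ s`.
`near_real`: choose `s ≥ 1` with `2 ≤ s * ε`, take `C + 1` as the real constant; raise the
hypothesis to the power `s` (`Real.rpow_natCast`, `Real.rpow_mul`, `Real.rpow_le_rpow_of_exponent_le`).
Necessity is `four_dvd` as in the proof of `spectrum`; sufficiency is `Ex.toFin`. -/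

namespace Pool.Agent.NL

open Pool.Agent.Work.MP_03d2dd_co

theorem final_bound {K h ρ β L s P : ℕ} (h1 : P ^ (L + 1) ≤ h) (h2 : ρ ^ s ≤ P ^ (2 * s) * h)
    (h3 : β ^ (s * (s + 64)) ≤ P) :
    (K * h * ρ * (β ^ (L + 3)) ^ (s + 64)) ^ s ≤ K ^ s * P ^ (2 * s) * P ^ 2 * (h + 1) ^ (s + 2) := by
  have e1 : ((β ^ (L + 3)) ^ (s + 64)) ^ s = (β ^ (s * (s + 64))) ^ (L + 3) := by
    simp only [← pow_mul]
    congr 1
    ring
  have e2 : (β ^ (s * (s + 64))) ^ (L + 3) ≤ P ^ 2 * h :=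
    (Nat.pow_le_pow_left h3 _).trans (by
      rw [show L + 3 = 2 + (L + 1) by omega, pow_add]
      exact Nat.mul_le_mul_left _ h1)
  calc (K * h * ρ * (β ^ (L + 3)) ^ (s + 64)) ^ s
      = K ^ s * h ^ s * ρ ^ s * (β ^ (s * (s + 64))) ^ (L + 3) := by
        rw [mul_pow, mul_pow, mul_pow, e1]
    _ ≤ K ^ s * h ^ s * (P ^ (2 * s) * h) * (P ^ 2 * h) :=
        Nat.mul_le_mul (Nat.mul_le_mul_left _ h2) e2
    _ = K ^ s * P ^ (2 * s) * P ^ 2 * h ^ (s + 2) := by ring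
    _ ≤ _ := Nat.mul_le_mul_left _ (Nat.pow_le_pow_left (Nat.le_succ h) _)

theorem final_small : ∃ C : ℕ, ∀ h n : ℕ, (h + 2) ^ C ≤ n → Adm h n → Ex n (h + 1) := by
  obtain ⟨C, H⟩ := Work.MP_03d2dd_co.spectrum
  refine ⟨C, fun h n hn ha => ?_⟩
  obtain ⟨L, h1, h2⟩ := (H h n hn).2 ha
  exact ⟨Fin n, inferInstance, inferInstance, L, Fintype.card_fin n, h1,
    fun r c => by rw [cnt_eq h1, h2 r c]⟩

theorem near_nat (g1 : ∃ t e, Rep ∅ t 1 14 1 ∧ Even t ∧ t ∣ 4686 ^ e)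
    (g2 : ∃ t e, Rep ∅ t 1 7 2 ∧ Even t ∧ t ∣ 4686 ^ e) (s : ℕ) :
    ∃ C, ∀ h n : ℕ, C * (h + 1) ^ (s + 2) ≤ n ^ s → Adm h n → Ex n (h + 1) := by
  rcases Nat.eq_zero_or_pos s with rfl | hs
  · refine ⟨2, fun h n hn _ => ?_⟩
    have : 1 ≤ (h + 1) ^ (0 + 2) := Nat.one_le_pow _ _ (by omega)
    rw [pow_zero] at hn
    omega
  obtain ⟨t1, e1, G1, v1, d1⟩ := g1
  obtain ⟨t2, e2, G2, v2, d2⟩ := g2
  obtain ⟨k1, S1⟩ := G1.step
  obtain ⟨k2, S2⟩ := G2.step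
  obtain ⟨β, hβ⟩ : ∃ β, β = t1 + t2 + 7 := ⟨_, rfl⟩
  obtain ⟨k, hk⟩ : ∃ k, k = k1 + k2 + 1 + β ^ (s * (s + 64)) := ⟨_, rfl⟩
  have p19 : Nat.Prime 19 := by norm_num
  have hP : β ^ (s * (s + 64)) ≤ 19 ^ k :=
    le_trans (by omega) (Nat.lt_pow_self (by norm_num : 1 < 19)).le
  obtain ⟨K, h0, H⟩ := main_h (β := β) G2 (S1 19 k p19 (by norm_num) (by omega))
    (S2 19 k p19 (by norm_num) (by omega)) (by omega) v1 v2 d1 d2 (by omega) (by omega) (by omega)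
    hs
  obtain ⟨C0, H0⟩ := final_small
  generalize 19 ^ k = P at H hP
  refine ⟨K ^ s * P ^ (2 * s) * P ^ 2 + ((h0 + 2) ^ C0) ^ s, fun h n hn ha => ?_⟩
  rcases le_or_gt h0 h with hh | hh
  · obtain ⟨L, ρ, a1, a2, a3⟩ := H h hh
    refine a3 n ((Nat.pow_le_pow_iff_left hs.ne').1 ((final_bound a1 a2 hP).trans
      (le_trans ?_ hn))) ha
    exact Nat.mul_le_mul_right _ (Nat.le_add_right _ _)
  · refine H0 h n ((Nat.pow_le_pow_iff_left hs.ne').1 (le_trans ?_ hn)) ha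
    calc ((h + 2) ^ C0) ^ s ≤ ((h0 + 2) ^ C0) ^ s :=
          Nat.pow_le_pow_left (Nat.pow_le_pow_left (by omega) _) _
      _ ≤ K ^ s * P ^ (2 * s) * P ^ 2 + ((h0 + 2) ^ C0) ^ s := Nat.le_add_left _ _
      _ ≤ _ := Nat.le_mul_of_pos_right _ (Nat.pow_pos (by omega))

theorem near_real (H : ∀ s : ℕ, ∃ C, ∀ h n : ℕ, C * (h + 1) ^ (s + 2) ≤ n ^ s → Adm h n →
    Ex n (h + 1)) (ε : ℝ) (hε : 0 < ε) : ∃ C : ℝ, ∀ h n : ℕ, C * ((h : ℝ) + 1) ^ (1 + ε) ≤ n →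
    ((∃ L : Fin n → Fin n → Fin n, IsLatin L ∧ IsHomogeneous L h) ↔ (Even n ∨ 4 ∣ h)) := by
  obtain ⟨s, hs⟩ := exists_nat_ge (2 / ε)
  have s2 : 2 ≤ s * ε := (div_le_iff₀ hε).1 hs
  have s0 : s ≠ 0 := by
    rintro rfl
    norm_num at s2
  obtain ⟨C, HC⟩ := H s
  refine ⟨C + 1, fun h n hn => ⟨?_, fun ha => Ex.toFin (HC h n ?_ ha)⟩⟩
  · rintro ⟨L, -, hL⟩
    rcases Nat.even_or_odd n with a | a
    · exact Or.inl a
    · have c : Nat.Coprime (2 ^ 2) (n * n) :=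
        Nat.Coprime.pow_left 2 (Nat.coprime_two_left.2 (a.mul a))
      exact Or.inr (c.dvd_of_dvd_mul_left (four_dvd hL))
  · have b0 : (0 : ℝ) ≤ C := Nat.cast_nonneg C
    have b1 : (1 : ℝ) ≤ (h : ℝ) + 1 := by linarith [Nat.cast_nonneg (α := ℝ) h]
    have b2 := pow_le_pow_left₀ (by positivity) hn s
    have b3 : (C : ℝ) ≤ ((C : ℝ) + 1) ^ s :=
      le_trans (by linarith) (le_self_pow₀ (by linarith : (1 : ℝ) ≤ C + 1) s0)
    have b4 : ((h : ℝ) + 1) ^ (s + 2) ≤ (((h : ℝ) + 1) ^ (1 + ε)) ^ s := by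
      rw [← Real.rpow_natCast, ← Real.rpow_natCast, ← Real.rpow_mul (by linarith)]
      refine Real.rpow_le_rpow_of_exponent_le b1 ?_
      push_cast
      linarith
    have b5 : (C : ℝ) * ((h : ℝ) + 1) ^ (s + 2) ≤ (n : ℝ) ^ s := by
      refine le_trans ?_ b2
      rw [mul_pow]
      exact mul_le_mul b3 b4 (by positivity) (by positivity)
    exact_mod_cast b5

end Pool.Agent.NL
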