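import Pool.Agent.Work.MP_03d2dd_co.NL.Latin

/-! Gadgets without labels. -/

namespace Pool.Agent.NL

open Pool.Agent.Work.MP_03d2dd_co

def oK (r c : Fin 13) : Fin 13 := r + Fin.ofNat 13 (1233270736655808 / 16 ^ (c - r).1 % 16)

def oW (r r' c c' : Fin 13) : ℕ :=
  let m := 2 ^ (c - r).1 + 2 ^ (c' - r).1 + (2 ^ (c - r').1 + 2 ^ (c' - r').1)
  if m ∈ [4103, 4648, 5200, 6528] then 1 else if m ∈ [2129, 646, 1320] then 3 else 0

def oS (T : ℕ) (r c : Fin 13) : ℤ := if T / 2 ^ (c - r).1 % 2 = 1 then -1 else 1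

theorem oS_dvd (T : ℕ) (r c : Fin 13) : oS T r c ∣ 1 := by
  unfold oS
  split_ifs <;> simp

private theorem oK_sh (r x y : Fin 13) : oK (x + r) (y + r) = oK x y + r := by
  unfold oK
  rw [add_sub_add_right_eq_sub, add_right_comm]

private theorem oW_sh (r a b c d : Fin 13) : oW (a + r) (b + r) (c + r) (d + r) = oW a b c d := by
  simp only [oW, add_sub_add_right_eq_sub]

private theorem oS_sh (T : ℕ) (r a b : Fin 13) : oS T (a + r) (b + r) = oS T a b := by
  simp only [oS, add_sub_add_right_eq_sub]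

private theorem o_sum (r c : Fin 13) : ∑ p ∈ Finset.univ.filter (fun p : Fin 13 × Fin 13 =>
    p.1 ≠ r ∧ p.2 ≠ c ∧ oK r c = oK p.1 p.2 ∧ oK r p.2 = oK p.1 c), oW r p.1 c p.2 = 4 := by
  have k : ∀ c : Fin 13, ∑ p ∈ Finset.univ.filter (fun p : Fin 13 × Fin 13 =>
      p.1 ≠ 0 ∧ p.2 ≠ c ∧ oK 0 c = oK p.1 p.2 ∧ oK 0 p.2 = oK p.1 c), oW 0 p.1 c p.2 = 4 := by
    decide +kernel
  obtain ⟨c, rfl⟩ : ∃ d, c = d + r := ⟨c - r, (sub_add_cancel c r).symm⟩
  rw [← k c]
  refine (Finset.sum_equiv ((Equiv.addRight r).prodCongr (Equiv.addRight r)) (fun p => ?_) fun p _ => ?_).symm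
  · have h1 := oK_sh r 0 c
    have h2 := oK_sh r 0 p.2
    rw [zero_add] at h1 h2
    simp only [Finset.mem_filter, Finset.mem_univ, true_and, Equiv.prodCongr_apply, Prod.map_fst, Prod.map_snd,
      Equiv.coe_addRight, h1, h2, oK_sh, add_left_inj, ne_eq, add_eq_right]
  · have h1 := oW_sh r 0 p.1 c p.2
    rw [zero_add] at h1
    exact h1.symm

private theorem o_sgn (r r' c c' : Fin 13) (h0 : r' ≠ r) (h1 : oK r c = oK r' c') (h2 : oK r c' = oK r' c)
    (h3 : 0 < oW r r' c c') : Sgn (oS 990) (oS 86) r r' c c' := by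
  have k : ∀ r' c c' : Fin 13, r' ≠ 0 → oK 0 c = oK r' c' → oK 0 c' = oK r' c → 0 < oW 0 r' c c' →
      Sgn (oS 990) (oS 86) 0 r' c c' := by decide +kernel
  obtain ⟨c, rfl⟩ : ∃ d, c = d + r := ⟨c - r, (sub_add_cancel c r).symm⟩
  obtain ⟨c', rfl⟩ : ∃ d, c' = d + r := ⟨c' - r, (sub_add_cancel c' r).symm⟩
  obtain ⟨r', rfl⟩ : ∃ d, r' = d + r := ⟨r' - r, (sub_add_cancel r' r).symm⟩
  have a1 : ∀ y, oK r (y + r) = oK 0 y + r := fun y => by rw [← oK_sh, zero_add]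
  have a2 : ∀ T y, oS T r (y + r) = oS T 0 y := fun T y => by rw [← oS_sh T r 0, zero_add]
  have a3 := oW_sh r 0 r' c c'
  rw [zero_add] at a3
  rw [a1, oK_sh, add_left_inj] at h1 h2
  have := k r' c c' (fun e => h0 (by rw [e, zero_add])) h1 h2 (a3 ▸ h3)
  simpa only [Sgn, a2, oS_sh] using this

/-- A 4-homogeneous system of odd order. -/
theorem gadO : ∃ t e, Rep ∅ t 1 0 4 ∧ t ∣ 403 ^ e := by
  obtain ⟨t, e, h1, h2⟩ := rep_lift (K := oK) (h := 4) ⟨by decide +kernel, by decide +kernel⟩ oW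
    (fun r r' c c' => by simp only [oW, add_comm])
    (fun r r' c c' => by simp only [oW, add_comm])
    (fun r r' c c' => by simp only [oW]; split_ifs <;> omega) o_sum (oS 990)
    (oS 86) (oS_dvd _) (oS_dvd _) o_sgn
  refine ⟨_, e + 1, h1, ?_⟩
  rw [pow_succ']
  exact mul_dvd_mul (by simp) h2

/-- A `j`-homogeneous system whose order is twice an odd number. -/
theorem gadE {j : ℕ} (hj : j ≤ 13) : ∃ t e, Rep ∅ (2 * t) 1 0 j ∧ t ∣ 403 ^ e := by
  have := rep_lift (α := Bool) (K := xor) (h := j) ⟨by decide, by decide⟩ (fun _ _ _ _ => j)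
    (fun _ _ _ _ => rfl) (fun _ _ _ _ => rfl) (fun _ _ _ _ => hj) (fun r c => by
      rw [Finset.sum_const, smul_eq_mul, show Finset.card _ = 1 by revert r c; decide, one_mul])
    (fun _ _ => 1) (fun r _ => if r then -1 else 1) (by simp) (by decide)
    (fun r r' c c' a b d _ => by revert r r' c c'; decide)
  simpa using this

end Pool.Agent.NL
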