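import Pool.Agent.Work.MP_03d2dd_co.NL.Dig
import Pool.Agent.Work.MP_03d2dd_co.NL.Gad
import Pool.Agent.Work.MP_03d2dd_co.NL.Fill
import Pool.Agent.Work.MP_03d2dd_co.Spectrum

/-! Squares of linear order with prescribed coprimality.

Plan.  Take `t` from `gadO`, `t1`, `t2` from `gadE` (`j = 1, 2`), and `P = 13 ^ k` with `k ≥ 1`
above the three bounds of `Rep.step`.  Put `W = 8 * F * P`, `b = DP (2 * F) W`.
For `v ≥ 6 * F * P ^ 2`, `horner` with `2 * F`, `E = 1`, `x = v % 2` gives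
`Rep (DS (2 * F) W) n a 0 (4 * v)` with `n ≤ t ^ 3 * v` coprime to `2 * F`.
If `h = 4 * v`: `closeDS`, `Rep.ex`; for the even order multiply with `ex_zero` (prime 13,
`Ex.mul_one'`).  If `h` is odd: `digit1` with `R = 4 * P` and modulus `F`, `h = v * (4 * P) + d`
with `d` odd, then one step with the gadget `j = 1`.  If `h = 2 * h'` with `h'` odd: `digit1` for
`h'` with `R = 2 * P`, and one step with the gadget `j = 2`.  Never evaluate `t`, `b`. -/

namespace Pool.Agent.NL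

open Pool.Agent.Work.MP_03d2dd_co

theorem inner_base {F t P W v : ℕ} (G : Rep ∅ t 1 0 4) (hs : StepOk t 0 4 P) (hP : 2 ≤ P)
    (hPF : Nat.Coprime P (2 * F)) (htF : Nat.Coprime t (2 * F)) (ht : 0 < t) (h30 : 30 ∣ 2 * F)
    (hF : 0 < F) (hW : 2 * F * P ≤ W) (hv : 6 * F * P ^ 2 ≤ v) :
    ∃ n a, n ≤ t ^ 3 * v ∧ Nat.Coprime n (2 * F) ∧ Rep (DS (2 * F) W) n a 0 (4 * v) := by
  have hx : v % 2 ≤ 1 := by omega
  have h1 : P ^ (v % 2 + 1) ≤ P ^ 2 := Nat.pow_le_pow_right (by omega) (by omega)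
  obtain ⟨u, h2, h3, h4⟩ := horner (F := 2 * F) (E := 1) (W := W) G hs hP hPF
    (Nat.coprime_one_left _) h30 (by omega) one_pos (by rwa [mul_one]) (v % 2) v
    (Nat.even_iff.2 (by omega))
    (by
      have := Nat.mul_le_mul_left (6 * F) h1
      calc 3 * (2 * F * 1) * P ^ (v % 2 + 1) = 6 * F * P ^ (v % 2 + 1) := by ring
        _ ≤ v + 2 * (2 * F * 1) := by omega)
  rw [mul_one] at h2
  rw [zero_pow (by omega)] at h4
  exact ⟨_, _, Nat.mul_le_mul (Nat.pow_le_pow_right ht (by omega)) h3,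
    (htF.pow_left _).mul_left (h2.mul_left (hPF.pow_left _)), h4⟩

theorem inner_step {F T P W j R s h : ℕ}
    (base : ∀ v, 6 * F * P ^ 2 ≤ v →
      ∃ n a, n ≤ T * v ∧ Nat.Coprime n (2 * F) ∧ Rep (DS (2 * F) W) n a 0 (4 * v))
    (hP : 2 ≤ P) (hPF : Nat.Coprime P (2 * F)) (h30 : 30 ∣ 2 * F) (hF : 0 < F)
    (hW : 4 * F * P ≤ W) (hR : R * j = 4 * P) (h2 : 2 ∣ R) (hRF : Nat.Coprime R F)
    (hs : StepOk (2 * s) 0 j P) (hsF : Nat.Coprime s (2 * F)) (hh : h % 2 = 1)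
    (hC : 24 * F * P ^ 3 + 4 * F * P ≤ h * j) :
    ∃ q ≤ T * DP (2 * F) W * s * (h * j), Ex (2 * q) (h * j + 1) ∧ Nat.Coprime q (2 * F) := by
  have hj : 0 < j := Nat.pos_of_mul_pos_left (a := R) (by omega)
  have hR0 : 0 < R := Nat.pos_of_mul_pos_right (b := j) (by omega)
  have e1 : F * R * j = 4 * F * P := by rw [mul_assoc, hR]; ring
  obtain ⟨v, d, e, h3, h4⟩ := digit1 hRF hF hR0
    (Nat.le_of_mul_le_mul_right (c := j) (b := h) (by omega) hj)
  have e2 : h * j = 4 * v * P + j * d := by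
    rw [e, add_mul, mul_assoc, hR]; ring
  have h5 : j * d ≤ 4 * F * P := by
    rw [← e1, mul_comm j]
    exact Nat.mul_le_mul_right j h4.le
  have h6 : 6 * F * P ^ 2 ≤ v := by
    refine Nat.le_of_mul_le_mul_right (c := 4 * P) ?_ (by omega)
    have e3 : 6 * F * P ^ 2 * (4 * P) = 24 * F * P ^ 3 := by ring
    have e4 : v * (4 * P) = 4 * v * P := by ring
    omega
  have h7 : d ≤ W := ((Nat.le_mul_of_pos_left d hj).trans h5).trans hW
  have h8 : Nat.Coprime d (2 * F) := by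
    refine Nat.Coprime.mul_right ?_ ?_
    · obtain ⟨r, rfl⟩ := h2
      have e3 : v * (2 * r) = 2 * (v * r) := by ring
      exact Nat.coprime_two_right.2 (Nat.odd_iff.2 (by omega))
    · exact h3.gcd_eq.trans (Nat.gcd_one_left F)
  obtain ⟨n, a, h9, h10, h11⟩ := base v h6
  have h12 := ((hs _ _ _ _ _ d h11 (mem_DS.2 ⟨h7, h8⟩)).closeDS h30).ex
  refine ⟨n * (s * P) * DP (2 * F) W, ?_, ?_,
    (h10.mul_left (hsF.mul_left hPF)).mul_left (DP_coprime _ _)⟩
  · have h13 : v * P ≤ h * j := by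
      have e4 : 4 * v * P = 4 * (v * P) := by ring
      omega
    calc n * (s * P) * DP (2 * F) W ≤ T * v * (s * P) * DP (2 * F) W :=
          Nat.mul_le_mul_right _ (Nat.mul_le_mul_right _ h9)
      _ = T * DP (2 * F) W * s * (v * P) := by ring
      _ ≤ _ := Nat.mul_le_mul_left _ h13
  · rw [e2, show 2 * (n * (s * P) * DP (2 * F) W) = n * (2 * s * P) * DP (2 * F) W by ring]
    exact h12

theorem inner_ex {F : ℕ} (hF : Nat.Coprime F 806) (h15 : 15 ∣ F) : ∃ C, ∀ h, C ≤ h →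
    (∃ q ≤ C * h, Ex (2 * q) (h + 1) ∧ Nat.Coprime q (2 * F)) ∧
      (4 ∣ h → ∃ q ≤ C * h, Ex q (h + 1) ∧ Nat.Coprime q (2 * F)) := by
  have hF0 : 0 < F := Nat.pos_of_ne_zero (by rintro rfl; norm_num at hF)
  have h30 : 30 ∣ 2 * F := Nat.mul_dvd_mul_left 2 h15
  have h403 : Nat.Coprime 403 (2 * F) :=
    Nat.Coprime.mul_right (by norm_num) (hF.symm.coprime_dvd_left (by norm_num))
  have h13 : Nat.Coprime 13 (2 * F) := h403.coprime_dvd_left (by norm_num)
  have h2F : Nat.Coprime 2 F := hF.symm.coprime_dvd_left (by norm_num)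
  obtain ⟨t, e, G, ht⟩ := gadO
  obtain ⟨t1, e1, G1, ht1⟩ := gadE (j := 1) (by norm_num)
  obtain ⟨t2, e2, G2, ht2⟩ := gadE (j := 2) (by norm_num)
  obtain ⟨k, hk⟩ := G.step
  obtain ⟨k1, hk1⟩ := G1.step
  obtain ⟨k2, hk2⟩ := G2.step
  have p13 : Nat.Prime 13 := by norm_num
  have s0 := hk 13 (k + k1 + k2 + 1) p13 (by norm_num) (by omega)
  have s1 := hk1 13 (k + k1 + k2 + 1) p13 (by norm_num) (by omega)
  have s2 := hk2 13 (k + k1 + k2 + 1) p13 (by norm_num) (by omega)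
  have hP : 2 ≤ 13 ^ (k + k1 + k2 + 1) := Nat.one_lt_pow (by omega) (by norm_num)
  have hPF := h13.pow_left (k + k1 + k2 + 1)
  have z := ex_zero p13 (by norm_num)
  have hZ := h13.pow_left 16
  generalize 13 ^ (k + k1 + k2 + 1) = P at s0 s1 s2 hP hPF
  generalize 13 ^ 16 = Z at z hZ
  have hZ0 : 0 < Z := Nat.pos_of_ne_zero (by
    rintro rfl
    rw [Nat.coprime_zero_left] at hZ
    omega)
  have hPF' : Nat.Coprime P F := hPF.coprime_mul_left_right
  have base := fun v => inner_base (W := 8 * F * P) (v := v) G s0 hP hPF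
    ((h403.pow_left e).coprime_dvd_left ht) (Nat.pos_of_dvd_of_pos ht (by positivity)) h30 hF0
    (Nat.mul_le_mul_right _ (by omega))
  have hW : 4 * F * P ≤ 8 * F * P := Nat.mul_le_mul_right _ (by omega)
  have st1 := fun h => inner_step (j := 1) (R := 4 * P) (h := h) base hP hPF h30 hF0 hW
    (mul_one _) ⟨2 * P, by ring⟩ ((h2F.pow_left 2).mul_left hPF') s1
    ((h403.pow_left e1).coprime_dvd_left ht1)
  have st2 := fun h => inner_step (j := 2) (R := 2 * P) (h := h) base hP hPF h30 hF0 hW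
    (by ring) ⟨P, rfl⟩ (h2F.mul_left hPF') s2 ((h403.pow_left e2).coprime_dvd_left ht2)
  have hb := DP_coprime (2 * F) (8 * F * P)
  have cl : ∀ {n a v}, Rep (DS (2 * F) (8 * F * P)) n a 0 v →
      Ex (n * DP (2 * F) (8 * F * P)) (v + 1) := fun H => (H.closeDS h30).ex
  generalize DP (2 * F) (8 * F * P) = b at st1 st2 hb cl
  generalize t ^ 3 = T at base st1 st2
  refine ⟨24 * F * P ^ 3 + 4 * F * P + (T * b * Z + T * b * t1 + T * b * t2), fun h hh => ?_⟩
  have four : 4 ∣ h → ∃ q ≤ T * b * h, Ex q (h + 1) ∧ Nat.Coprime q (2 * F) := by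
    rintro ⟨v, rfl⟩
    have h1 : 24 * F * P ^ 2 ≤ 24 * F * P ^ 3 :=
      Nat.mul_le_mul_left _ (Nat.pow_le_pow_right (by omega) (by omega))
    have h2 : 24 * F * P ^ 2 = 4 * (6 * F * P ^ 2) := by ring
    obtain ⟨n, a, h3, h4, h5⟩ := base v (by omega)
    refine ⟨n * b, ?_, cl h5, h4.mul_left hb⟩
    calc n * b ≤ T * v * b := Nat.mul_le_mul_right _ h3
      _ = T * b * v := by ring
      _ ≤ _ := Nat.mul_le_mul_left _ (by omega)
  refine ⟨?_, fun h4 => ?_⟩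
  · by_cases h1 : h % 2 = 1
    · obtain ⟨q, h2, h3⟩ := st1 h h1 (by omega)
      rw [mul_one] at h2 h3
      exact ⟨q, h2.trans (Nat.mul_le_mul_right _ (by omega)), h3⟩
    by_cases h4 : 4 ∣ h
    · obtain ⟨q, h2, h3, h5⟩ := four h4
      refine ⟨q * Z, ?_, ?_, h5.mul_left hZ⟩
      · calc q * Z ≤ T * b * h * Z := Nat.mul_le_mul_right _ h2
          _ = T * b * Z * h := by ring
          _ ≤ _ := Nat.mul_le_mul_right _ (by omega)
      · rw [mul_left_comm]
        exact h3.mul_one' z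
    · obtain ⟨q, h2, h3⟩ := st2 (h / 2) (by omega) (by omega)
      rw [show h / 2 * 2 = h by omega] at h2 h3
      exact ⟨q, h2.trans (Nat.mul_le_mul_right _ (by omega)), h3⟩
  · obtain ⟨q, h2, h3⟩ := four h4
    have := Nat.le_mul_of_pos_right (T * b) hZ0
    exact ⟨q, h2.trans (Nat.mul_le_mul_right _ (by omega)), h3⟩

end Pool.Agent.NL
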