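import Pool.Agent.Work.MP_03d2dd_co.NL.Lift
import Mathlib.Algebra.Field.ZMod
import Mathlib.Algebra.Group.Pi.Units

/-! Removing the uncoloured quads.

The fibre is `(lines × Fin 3) → ZMod 11`, labels keep only the fibre 0.  In the coordinate
`(m, e)` only the line `m` is changed, and only if it is unprotected: it gets offset 1 and the
coefficients `kv e`.

Plan.  A function into `ZMod 11` is a unit iff all values are nonzero (`Pi.isUnit_iff`).
`spec`: `h2`.  `on` is void.  `gen`: if all four lines are protected the coefficients are `tz`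
(`det_cst`, `det_tz`, `unit_of_dvd`).  Otherwise the quad is not `Rel` (`h3`), so all points are
plain; in each coordinate at most one of the three (pairwise different) lines is changed, and the
determinant is one of 12; -12, -3, 15; -20, 2, 18; 4, -13, 9, all nonzero mod 11.
`kill_clean`: let the base quad be uncoloured.  It has exactly one label point (`four`, `one12`,
...), with fibre 0; the two lines through it are `Spec`; one of the two plain lines, `m`, is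
unprotected, the other one is a different triple.  If the label is a row, the border lines say
`j0 = k1`, `j1 = k0` and in the coordinate `(m, 0)` the two plain lines say `E = 1` and `E = 0`
for the same expression `E`.  For a column label (`i0 = k1`, `i1 = k0`) use `(m, 1)`, for a
symbol label (`i0 = j1`, `i1 = j0`) use `(m, 2)`.
`kill`: `sys_ord`; the weights are 1; `Nat.card` of the fibre ring is `11 ^ c`. -/

namespace Pool.Agent.NL.Sys

variable (S : Sys) (pt : S.P → S.P → S.P → Prop)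

/-- The changed coefficients. -/
def kv : Fin 3 → ℤ × ℤ × ℤ := ![(3, -1, -2), (-1, -2, 3), (-2, 3, -1)]

/-- The fibre ring. -/
abbrev KR : Type := (S.P × S.P × S.P) × Fin 3 → ZMod 11

open Classical in
/-- Integer coefficients of a line in one coordinate. -/
noncomputable def kc (a b c : S.P) (z : (S.P × S.P × S.P) × Fin 3) : ℤ × ℤ × ℤ :=
  if z.1 = (a, b, c) ∧ ¬pt a b c then kv z.2 else S.G.tz a b c

/-- The protection rules. -/
structure Prot : Prop where
  h1 : ∀ q, S.G.Quad q → S.col q = none → S.G.HasLab q ∧ ¬q.All pt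
  h2 : ∀ a b c, S.G.line a b c → S.G.Spec a b c → pt a b c
  h3 : ∀ q, S.G.Quad q → S.col q ≠ none → S.G.Rel q → q.All pt

theorem kill_unit {x : ZMod 11} (hx : x ≠ 0) : IsUnit x := by
  have h : ∀ x : ZMod 11, x ≠ 0 → ∃ y, x * y = 1 := by decide
  obtain ⟨y, hy⟩ := h x hx
  exact IsUnit.of_mul_eq_one y hy

theorem kill_u30 : IsUnit (30 : S.KR) :=
  Pi.isUnit_iff.2 fun _ => kill_unit (x := 30) (by decide)

theorem kill_ne (a b c : S.P) (z : (S.P × S.P × S.P) × Fin 3) :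
    ((S.kc pt a b c z).1 : ZMod 11) ≠ 0 ∧ ((S.kc pt a b c z).2.1 : ZMod 11) ≠ 0 ∧
      ((S.kc pt a b c z).2.2 : ZMod 11) ≠ 0 := by
  unfold kc
  split_ifs
  · generalize z.2 = e
    revert e
    decide
  · unfold Geo.tz
    generalize S.G.lab a = x, S.G.lab b = y, S.G.lab c = w
    revert x y w
    decide

open Classical in
theorem kill_prot {a b c : S.P} (h : pt a b c) :
    ((fun z => ((S.kc pt a b c z).1 : ZMod 11), fun z => ((S.kc pt a b c z).2.1 : ZMod 11),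
      fun z => ((S.kc pt a b c z).2.2 : ZMod 11)) : S.KR × S.KR × S.KR) =
      cst S.KR (S.G.tz a b c) ∧
    (fun z => if z.1 = (a, b, c) ∧ ¬pt a b c then 1 else 0 : S.KR) = 0 := by
  have e : ∀ z, S.kc pt a b c z = S.G.tz a b c := fun z => if_neg fun h' => h'.2 h
  simp only [e]
  exact ⟨rfl, funext fun z => if_neg fun h' => h'.2 h⟩

theorem kill_det {q : Six S.P} (hq : S.G.Quad q) (hl : ¬S.G.HasLab q)
    (z : (S.P × S.P × S.P) × Fin 3) :
    ((det (S.kc pt q.r0 q.c1 q.s1 z) (S.kc pt q.r1 q.c0 q.s1 z) (S.kc pt q.r1 q.c1 q.s0 z) : ℤ) :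
      ZMod 11) ≠ 0 := by
  obtain ⟨-, h1, h2, -⟩ := hq
  simp only [Geo.HasLab, not_or, Bool.not_eq_true] at hl
  obtain ⟨l1, l2, l3, l4, l5, l6⟩ := hl
  obtain ⟨m, e⟩ := z
  simp only [kc, Geo.tz, l1, l2, l3, l4, l5, l6]
  split_ifs with a b c c b c c
  · exact absurd (congrArg Prod.fst (a.1.symm.trans b.1)) h1
  · exact absurd (congrArg Prod.fst (a.1.symm.trans b.1)) h1
  · exact absurd (congrArg Prod.fst (a.1.symm.trans c.1)) h1
  · revert e; decide
  · exact absurd (congrArg (fun x => x.2.1) (b.1.symm.trans c.1)) h2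
  · revert e; decide
  · revert e; decide
  · decide

open Classical in
noncomputable def killLD (h : S.Prot pt) : LD S S.KR where
  T := ⊥
  co a b c := (fun z => (S.kc pt a b c z).1, fun z => (S.kc pt a b c z).2.1,
    fun z => (S.kc pt a b c z).2.2)
  off a b c z := if z.1 = (a, b, c) ∧ ¬pt a b c then 1 else 0
  U _ := False
  u30 := S.kill_u30
  unit a b c := ⟨Pi.isUnit_iff.2 fun z => kill_unit (S.kill_ne pt a b c z).1,
    Pi.isUnit_iff.2 fun z => kill_unit (S.kill_ne pt a b c z).2.1,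
    Pi.isUnit_iff.2 fun z => kill_unit (S.kill_ne pt a b c z).2.2⟩
  spec hl hs := S.kill_prot pt (h.h2 _ _ _ hl hs)
  on _ _ _ _ h := h.elim
  gen q k hq hk _ := by
    have hc : S.col q ≠ none := by rw [hk]; exact Option.some_ne_none k
    refine ⟨?_, fun hr => ?_⟩
    · by_cases hr : S.G.Rel q
      · obtain ⟨-, a, b, c⟩ := h.h3 q hq hc hr
        simp only [Six.a01, Six.a10, Six.a11]
        rw [(S.kill_prot pt a).1, (S.kill_prot pt b).1, (S.kill_prot pt c).1, det_cst]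
        exact unit_of_dvd S.kill_u30 (S.G.det_tz S.four hq)
      · refine Pi.isUnit_iff.2 fun z => kill_unit ?_
        have h1 := S.kill_det pt hq (fun hl => hr (Or.inl hl)) z
        rw [← det_cst] at h1
        exact h1
    · obtain ⟨a, b, c, d⟩ := h.h3 q hq hc hr
      exact ⟨S.kill_prot pt a, S.kill_prot pt b, S.kill_prot pt c, S.kill_prot pt d⟩

section

variable {S pt} {h : S.Prot pt} {r r' c c' s s' : (S.killLD pt h).Pt}

theorem kill_old (l : (S.killLD pt h).line r c s) (z : (S.P × S.P × S.P) × Fin 3)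
    (hz : pt r.1.1 c.1.1 s.1.1 ∨ z.1 ≠ (r.1.1, c.1.1, s.1.1)) :
    Eqn (cst (ZMod 11) (t0 (S.G.lab r.1.1) (S.G.lab c.1.1) (S.G.lab s.1.1))) 0
      (r.1.2 z) (c.1.2 z) (s.1.2 z) := by
  classical
  have h0 : ¬(z.1 = (r.1.1, c.1.1, s.1.1) ∧ ¬pt r.1.1 c.1.1 s.1.1) := fun h' =>
    hz.elim h'.2 fun k => k h'.1
  have h1 : Eqn (cst (ZMod 11) (S.kc pt r.1.1 c.1.1 s.1.1 z))
      (if z.1 = (r.1.1, c.1.1, s.1.1) ∧ ¬pt r.1.1 c.1.1 s.1.1 then 1 else 0)
      (r.1.2 z) (c.1.2 z) (s.1.2 z) := congrFun l.2 z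
  rwa [kc, if_neg h0, if_neg h0] at h1

theorem kill_new (l : (S.killLD pt h).line r c s) (e : Fin 3) (hz : ¬pt r.1.1 c.1.1 s.1.1) :
    Eqn (cst (ZMod 11) (kv e)) 1 (r.1.2 ((r.1.1, c.1.1, s.1.1), e))
      (c.1.2 ((r.1.1, c.1.1, s.1.1), e)) (s.1.2 ((r.1.1, c.1.1, s.1.1), e)) := by
  classical
  have h1 : Eqn (cst (ZMod 11) (S.kc pt r.1.1 c.1.1 s.1.1 ((r.1.1, c.1.1, s.1.1), e)))
      (if (r.1.1, c.1.1, s.1.1) = (r.1.1, c.1.1, s.1.1) ∧ ¬pt r.1.1 c.1.1 s.1.1 then 1 else 0)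
      (r.1.2 ((r.1.1, c.1.1, s.1.1), e)) (c.1.2 ((r.1.1, c.1.1, s.1.1), e))
      (s.1.2 ((r.1.1, c.1.1, s.1.1), e)) := congrFun l.2 ((r.1.1, c.1.1, s.1.1), e)
  rwa [kc, if_pos ⟨rfl, hz⟩, if_pos ⟨rfl, hz⟩] at h1

theorem kill_fib (hr : S.G.lab r.1.1 = true) (z : (S.P × S.P × S.P) × Fin 3) : r.1.2 z = 0 :=
  congrFun (AddSubgroup.mem_bot.1 (r.2 hr)) z

theorem kill_row (hr : S.G.lab r.1.1 = true) (hr' : S.G.lab r'.1.1 = false) (hc : c.1.1 ≠ c'.1.1)
    (l1 : (S.killLD pt h).line r c s) (l2 : (S.killLD pt h).line r c' s')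
    (l3 : (S.killLD pt h).line r' c s') (l4 : (S.killLD pt h).line r' c' s) :
    pt r'.1.1 c.1.1 s'.1.1 := by
  by_contra hn
  have e3 := kill_new l3 0 hn
  generalize hz : ((r'.1.1, c.1.1, s'.1.1), (0 : Fin 3)) = z at e3
  have e1 := kill_old l1 z (Or.inl (h.h2 _ _ _ l1.1 (Or.inl hr)))
  have e2 := kill_old l2 z (Or.inl (h.h2 _ _ _ l2.1 (Or.inl hr)))
  have e4 := kill_old l4 z (Or.inr fun e => hc (by rw [← hz] at e; exact congrArg (·.2.1) e))
  have a1 : S.G.lab c'.1.1 = false := S.G.one12 l2.1 hr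
  have a2 : S.G.lab s.1.1 = false := S.G.one13 l1.1 hr
  have e0 := kill_fib hr z
  simp only [Eqn, cst, t0, kv, hr, hr', a1, a2, e0, if_true, Bool.false_eq_true, if_false,
    Matrix.cons_val_zero] at e1 e2 e3 e4
  push_cast at e1 e2 e3 e4
  exact absurd (by linear_combination -e3 + e4 - e1 + 2 * e2 : (1 : ZMod 11) = 0) (by decide)

theorem kill_col (hc : S.G.lab c.1.1 = true) (hc' : S.G.lab c'.1.1 = false) (hr : r.1.1 ≠ r'.1.1)
    (l1 : (S.killLD pt h).line r c s) (l2 : (S.killLD pt h).line r' c s')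
    (l3 : (S.killLD pt h).line r c' s') (l4 : (S.killLD pt h).line r' c' s) :
    pt r.1.1 c'.1.1 s'.1.1 := by
  by_contra hn
  have e3 := kill_new l3 1 hn
  generalize hz : ((r.1.1, c'.1.1, s'.1.1), (1 : Fin 3)) = z at e3
  have e1 := kill_old l1 z (Or.inl (h.h2 _ _ _ l1.1 (Or.inr (Or.inl hc))))
  have e2 := kill_old l2 z (Or.inl (h.h2 _ _ _ l2.1 (Or.inr (Or.inl hc))))
  have e4 := kill_old l4 z (Or.inr fun e => hr (by rw [← hz] at e; exact congrArg (·.1) e))
  have a1 : S.G.lab r.1.1 = false ∧ S.G.lab s.1.1 = false := S.G.lab2 l1.1 hc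
  have a2 : S.G.lab r'.1.1 = false := (S.G.lab2 l2.1 hc).1
  have e0 := kill_fib hc z
  simp only [Eqn, cst, t0, kv, hc, hc', a1.1, a1.2, a2, e0, if_true, Bool.false_eq_true, if_false,
    Matrix.cons_val_one, Matrix.cons_val_zero] at e1 e2 e3 e4
  push_cast at e1 e2 e3 e4
  exact absurd (by linear_combination -e3 + e4 + e1 + 3 * e2 : (1 : ZMod 11) = 0) (by decide)

theorem kill_sym (hs : S.G.lab s.1.1 = true) (hs' : S.G.lab s'.1.1 = false) (hr : r.1.1 ≠ r'.1.1)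
    (l1 : (S.killLD pt h).line r c s) (l2 : (S.killLD pt h).line r' c' s)
    (l3 : (S.killLD pt h).line r c' s') (l4 : (S.killLD pt h).line r' c s') :
    pt r.1.1 c'.1.1 s'.1.1 := by
  by_contra hn
  have e3 := kill_new l3 2 hn
  generalize hz : ((r.1.1, c'.1.1, s'.1.1), (2 : Fin 3)) = z at e3
  have e1 := kill_old l1 z (Or.inl (h.h2 _ _ _ l1.1 (Or.inr (Or.inr (Or.inl hs)))))
  have e2 := kill_old l2 z (Or.inl (h.h2 _ _ _ l2.1 (Or.inr (Or.inr (Or.inl hs)))))
  have e4 := kill_old l4 z (Or.inr fun e => hr (by rw [← hz] at e; exact congrArg (·.1) e))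
  have a1 : S.G.lab r.1.1 = false ∧ S.G.lab c.1.1 = false := S.G.lab3 l1.1 hs
  have a2 : S.G.lab r'.1.1 = false ∧ S.G.lab c'.1.1 = false := S.G.lab3 l2.1 hs
  have e0 := kill_fib hs z
  simp only [Eqn, cst, t0, kv, hs, hs', a1.1, a1.2, a2.1, a2.2, e0, if_true, Bool.false_eq_true,
    if_false, Matrix.cons_val] at e1 e2 e3 e4
  push_cast at e1 e2 e3 e4
  exact absurd (by linear_combination -e3 + e4 - 2 * e1 - 3 * e2 : (1 : ZMod 11) = 0) (by decide)

end

theorem kill_clean (h : S.Prot pt) : (S.killLD pt h).sys.Clean := by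
  refine (S.killLD pt h).sys_clean fun q hq hl hc => ?_
  obtain ⟨hlab, hn⟩ := h.h1 _ hq hc
  obtain ⟨f1, f2, f3⟩ := S.four _ hq
  obtain ⟨-, n1, n2, -⟩ := hq
  obtain ⟨l00, l01, l10, l11⟩ := hl
  refine hn ?_
  rcases hlab with k | k | k | k | k | k
  · have k' := Bool.eq_false_iff.2 fun e => f1 ⟨k, e⟩
    exact ⟨h.h2 _ _ _ l00.1 (Or.inl k), h.h2 _ _ _ l01.1 (Or.inl k),
      kill_row k k' n2 l00 l01 l10 l11, kill_row k k' n2.symm l01 l00 l11 l10⟩
  · have k' := Bool.eq_false_iff.2 fun e => f2 ⟨k, e⟩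
    exact ⟨h.h2 _ _ _ l00.1 (Or.inr (Or.inl k)), kill_col k k' n1 l00 l10 l01 l11,
      h.h2 _ _ _ l10.1 (Or.inr (Or.inl k)), kill_col k k' n1.symm l10 l00 l11 l01⟩
  · have k' := Bool.eq_false_iff.2 fun e => f3 ⟨k, e⟩
    exact ⟨h.h2 _ _ _ l00.1 (Or.inr (Or.inr (Or.inl k))), kill_sym k k' n1 l00 l11 l01 l10,
      kill_sym k k' n1.symm l11 l00 l10 l01, h.h2 _ _ _ l11.1 (Or.inr (Or.inr (Or.inl k)))⟩
  · have k' := Bool.eq_false_iff.2 fun e => f1 ⟨e, k⟩
    exact ⟨kill_row k k' n2 l10 l11 l00 l01, kill_row k k' n2.symm l11 l10 l01 l00,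
      h.h2 _ _ _ l10.1 (Or.inl k), h.h2 _ _ _ l11.1 (Or.inl k)⟩
  · have k' := Bool.eq_false_iff.2 fun e => f2 ⟨e, k⟩
    exact ⟨kill_col k k' n1 l01 l11 l00 l10, h.h2 _ _ _ l01.1 (Or.inr (Or.inl k)),
      kill_col k k' n1.symm l11 l01 l10 l00, h.h2 _ _ _ l11.1 (Or.inr (Or.inl k))⟩
  · have k' := Bool.eq_false_iff.2 fun e => f3 ⟨e, k⟩
    exact ⟨kill_sym k k' n1 l01 l10 l00 l11, h.h2 _ _ _ l01.1 (Or.inr (Or.inr (Or.inl k))),
      h.h2 _ _ _ l10.1 (Or.inr (Or.inr (Or.inl k))), kill_sym k k' n1.symm l10 l01 l11 l00⟩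

theorem kill (h : S.Prot pt) : ∃ c, Rep ∅ (S.ord * 11 ^ c) 1 (Nat.card S.B) (∑ k, S.N k) := by
  refine ⟨Nat.card ((S.P × S.P × S.P) × Fin 3), (S.killLD pt h).sys, S.kill_clean pt h, ?_,
    Nat.card_pos, rfl, fun _ => 1, fun _ => Or.inl rfl, Finset.sum_congr rfl fun k _ => ?_⟩
  · rw [LD.sys_ord, Nat.card_fun, Nat.card_zmod]
  · exact (mul_one _).trans ((congrArg (S.N k * ·) (if_neg not_false)).trans (mul_one _))

end Pool.Agent.NL.Sys
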