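import Pool.Agent.Work.MP_03d2dd_co.NL.LinAlg
import Pool.Agent.Work.MP_03d2dd_co.Bases
import Mathlib.Algebra.Group.PUnit

/-! Systems without labels.

Plan.  `rep_of_latin`: points `α`, no labels (`lab = false`, `B = Empty`, `A = C = Unit`),
`line a b c := L a b = c`, every quad has the colour `()`, `N = j`,
`σ _ r c _ = (2 * a r c, -3 * b r c, -6)`, so that `tz * σ = (6 a, 6 b, 6)`.
`RegP` completions `(r', c', s')` correspond to the pairs counted by `intercalates` (`cnt_eq`).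
`liftP`: copy the proof of `lift` in the file Lift one folder up (and the end of `lift_gad`
with `m = D = 13`, `q = 31`) and add the last two clauses: `π` is the first projection.  If
`π r' = π r` then `π c' = π c`, and in each coordinate `Face.quad_same` (count 1, the trivial pair
is counted) gives equal fibres, so `r' = r`.  If `π r' ≠ π r`, the coordinate of the sorted
intercalate shows that the set counted in `quad_own` is not empty.
Never evaluate the large powers. -/

namespace Pool.Agent.NL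

open Pool.Agent.Work.MP_03d2dd_co Finset

/-- The sign rule on an intercalate. -/
def Sgn {α : Type} (a b : α → α → ℤ) (r r' c c' : α) : Prop :=
  a r c * b r c' + a r c' * b r' c' = 0 ∧ b r c * a r' c + b r' c * a r' c' = 0 ∧
    a r c * b r' c + b r c * a r c' = 0

instance {α : Type} (a b : α → α → ℤ) (r r' c c' : α) : Decidable (Sgn a b r r' c c') := by
  unfold Sgn; infer_instance

/-- The geometry of a latin square without labels. -/
def latin_geo {α : Type} {L : α → α → α} (h1 : ∀ r, Function.Bijective fun c => L r c)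
    (h2 : ∀ c, Function.Bijective fun r => L r c) : Geo α where
  lab _ := false
  line a b c := L a b = c
  one12 _ h := absurd h Bool.false_ne_true
  one13 _ h := absurd h Bool.false_ne_true
  one23 _ h := absurd h Bool.false_ne_true
  u1 h h' _ := (h2 _).1 (h.trans h'.symm)
  u2 h h' _ := (h1 _).1 (h.trans h'.symm)
  u3 h h' _ := h.symm.trans h'
  e1 b c _ := ((h2 b).2 c).imp fun _ h => ⟨rfl, h⟩
  e2 a c _ := ((h1 a).2 c).imp fun _ h => ⟨rfl, h⟩
  e3 a b _ := ⟨L a b, rfl, rfl⟩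
  t1 _ _ _ _ h := absurd h Bool.false_ne_true
  t2 _ _ _ _ h := absurd h Bool.false_ne_true

theorem latin_reg {α : Type} [Fintype α] [DecidableEq α] {L : α → α → α} (hL : IsLatin L)
    {r c s : α} (h : L r c = s) :
    num ((latin_geo hL.1 hL.2).RegP (fun _ => some ()) r c s ()) = intercalates L r c := by
  rw [intercalates, ← num_eq_card]
  refine num_bij (fun x => (x.1, x.2.1)) ?_ ?_ ?_
  · rintro ⟨r', c', s'⟩ ⟨⟨⟨-, a1, a2, a3⟩, b1, b2, -⟩, -⟩
    exact ⟨b1.symm, b2.symm, h.trans a3.symm, a1.trans a2.symm⟩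
  · rintro ⟨r', c', s'⟩ ⟨r'', c'', s''⟩ ⟨⟨⟨-, a1, -⟩, -⟩, -⟩ ⟨⟨⟨-, b1, -⟩, -⟩, -⟩ e
    obtain ⟨rfl, rfl⟩ := Prod.mk.inj e
    exact Prod.ext rfl (Prod.ext rfl (a1.symm.trans b1))
  · rintro ⟨r', c'⟩ ⟨a1, a2, a3, a4⟩
    refine ⟨(r', c', L r c'), ⟨⟨⟨h, rfl, a4.symm, a3.symm.trans h⟩, a1.symm, a2.symm, fun e => ?_⟩,
      rfl, rfl, rfl, rfl⟩, rfl⟩
    exact a2 ((hL.1 r).1 (h.trans e)).symm

theorem rep_of_latin {α : Type} [Fintype α] [DecidableEq α] {L : α → α → α} (hL : IsLatin L)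
    {j : ℕ} (hc : ∀ r c, cnt L r c = j + 1) (a b : α → α → ℤ) (ha : ∀ r c, a r c ∣ 1)
    (hb : ∀ r c, b r c ∣ 1)
    (hs : ∀ r r' c c', r' ≠ r → L r c = L r' c' → L r c' = L r' c → Sgn a b r r' c c') :
    Rep ∅ (Fintype.card α) 1 0 j := by
  refine ⟨{
    P := α
    A := Unit
    B := Empty
    C := Unit
    G := latin_geo hL.1 hL.2
    lb := fun β => β.elim
    lb_lab := fun p => ⟨fun h => absurd h Bool.false_ne_true, fun ⟨β, _⟩ => β.elim⟩
    lb_inj := fun {β} => β.elim
    tf := fun _ _ => rfl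
    three := fun {_ _ _ β} => β.elim
    four := fun _ _ => ⟨fun h => Bool.false_ne_true h.1, fun h => Bool.false_ne_true h.1,
      fun h => Bool.false_ne_true h.1⟩
    col := fun _ => some ()
    sep := fun _ _ _ _ h => absurd h.1 Bool.false_ne_true
    N := fun _ => j
    reg := fun {r c s} h _ => ?_
    bal := fun _ _ _ _ => (num_zero fun y => y.2.elim).trans (num_zero fun y => y.2.elim).symm
    σ := fun _ r c _ => (2 * a r c, -3 * b r c, -6)
    σ_sm := fun _ r c _ => ⟨1, (mul_dvd_mul_left 2 (ha r c)).trans (by norm_num),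
      (mul_dvd_mul_left (-3) (hb r c)).trans (by norm_num), by norm_num⟩
    σ_one := fun _ _ _ _ _ h => ?_
    σ_on := fun q _ hq _ => ?_
    σ_flat := fun _ _ _ _ _ h => absurd rfl h }, fun _ _ => Option.some_ne_none _, ?_, ?_, ?_,
    fun _ => 1, fun _ => Or.inl rfl, ?_⟩
  · have := cnt_eq hL r c
    rw [hc, add_left_inj] at this
    exact (latin_reg hL h).trans this.symm
  · rcases h with h | h | h | ⟨_, h, -⟩ <;> exact absurd h Bool.false_ne_true
  · obtain ⟨⟨a0, a1, a2, a3⟩, b1, -⟩ := hq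
    obtain ⟨k1, k2, k3⟩ := hs q.r0 q.r1 q.c0 q.c1 b1.symm (a0.trans a3.symm) (a1.trans a2.symm)
    simp only [OnId, Six.a00, Six.a01, Six.a10, Six.a11, Geo.tz, latin_geo, t0, Bool.false_eq_true,
      if_false, Prod.mk_mul_mk]
    exact ⟨by linear_combination 216 * k1, by linear_combination 216 * k2,
      by linear_combination 216 * k3⟩
  · exact (num_congr fun _ => iff_true_intro rfl).trans (num_true.trans Nat.card_eq_fintype_card)
  · exact Nat.card_pos
  · exact Nat.card_of_isEmpty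
  · simp

theorem latin_lift {α Φ : Type} [Fintype α] [DecidableEq α] [CommRing Φ] [Fintype Φ] [DecidableEq Φ]
    (h2 : ∀ x y : Φ, x + x = y + y → x = y) {K : α → α → α} (hK : IsLatin K)
    (w : α → α → α → α → ℕ) (s1 : ∀ r r' c c', w r r' c c' = w r' r c c')
    (s2 : ∀ r r' c c', w r r' c c' = w r r' c' c)
    (hg : ∀ r r' c c', ∃ f : Bool → Bool → Φ → Φ → Φ, IsGadget f (w r r' c c')) {h : ℕ}
    (hs : ∀ r c, ∑ p ∈ univ.filter (fun p : α × α =>
      p.1 ≠ r ∧ p.2 ≠ c ∧ K r c = K p.1 p.2 ∧ K r p.2 = K p.1 c), w r p.1 c p.2 = h) :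
    ∃ (β : Type) (_ : Fintype β) (_ : DecidableEq β) (L : β → β → β) (π : β → α),
      Fintype.card β = Fintype.card α * Fintype.card Φ ^ (Fintype.card α ^ 4) ∧ IsLatin L ∧
      (∀ r c, cnt L r c = h + 1) ∧ (∀ r c, π (L r c) = K (π r) (π c)) ∧
      ∀ r r' c c', r' ≠ r → L r c = L r' c' → L r c' = L r' c →
        π r' ≠ π r ∧ 0 < w (π r) (π r') (π c) (π c') := by
  let _ : LinearOrder α := LinearOrder.lift' (Fintype.equivFin α) (Fintype.equivFin α).injective
  choose f0 hf0 using hg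
  let f : α × α × α × α → Bool → Bool → Φ → Φ → Φ := fun t => f0 t.1 t.2.1 t.2.2.1 t.2.2.2
  let v : α × α × α × α → ℕ := fun t => w t.1 t.2.1 t.2.2.1 t.2.2.2
  have hf : ∀ t, IsGadget (f t) (v t) := fun t => hf0 _ _ _ _
  have hv : ∀ r r' c c', v (min r r', max r r', min c c', max c c') = w r r' c c' := by
    intro r r' c c'
    rcases le_total r r' with a | a <;> rcases le_total c c' with b | b <;>
      simp only [v, min_eq_left a, max_eq_right a, min_eq_right a, max_eq_left a,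
        min_eq_left b, max_eq_right b, min_eq_right b, max_eq_left b]
    · exact s2 _ _ _ _
    · exact s1 _ _ _ _
    · rw [s1, s2]
  refine ⟨α × (α × α × α × α → Φ), inferInstance, inferInstance,
    fun p q => (K p.1 q.1, fun t => face K f t p.1 q.1 (p.2 t) (q.2 t)), Prod.fst, ?_, ⟨?_, ?_⟩, ?_,
    fun _ _ => rfl, ?_⟩
  · simp only [Fintype.card_prod, Fintype.card_fun]
    congr 2
    ring
  · rintro ⟨r, x⟩
    refine Finite.injective_iff_bijective.1 ?_
    rintro ⟨c, y⟩ ⟨c', y'⟩ e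
    simp only [Prod.mk.injEq, funext_iff] at e ⊢
    obtain rfl : c = c' := (hK.1 r).1 e.1
    exact ⟨rfl, fun t => (face_face h2 hf t r c).row _ _ _ (e.2 t)⟩
  · rintro ⟨c, y⟩
    refine Finite.injective_iff_bijective.1 ?_
    rintro ⟨r, x⟩ ⟨r', x'⟩ e
    simp only [Prod.mk.injEq, funext_iff] at e ⊢
    obtain rfl : r = r' := (hK.2 c).1 e.1
    exact ⟨rfl, fun t => (face_face h2 hf t r c).col _ _ _ (e.2 t)⟩
  · rintro ⟨r, x⟩ ⟨c, y⟩
    have e1 : cnt (fun p q : α × (α × α × α × α → Φ) =>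
        (K p.1 q.1, fun t => face K f t p.1 q.1 (p.2 t) (q.2 t))) (r, x) (c, y) =
        ∑ p : α × α, if K r c = K p.1 p.2 ∧ K r p.2 = K p.1 c then
          ∏ t, quad (face K f t r c) (face K f t r p.2) (face K f t p.1 c) (face K f t p.1 p.2)
            (x t) (y t) else 0 := by
      unfold cnt
      rw [card_filter]
      simp only [Fintype.sum_prod_type]
      refine sum_congr rfl fun r' _ => ?_
      rw [sum_comm]
      refine sum_congr rfl fun c' _ => ?_
      unfold quad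
      rw [← card_pi_filter (fun t (p : Φ × Φ) =>
        face K f t r c (x t) (y t) = face K f t r' c' p.1 p.2 ∧
          face K f t r c' (x t) p.2 = face K f t r' c p.1 (y t)), card_filter,
        Fintype.sum_prod_type]
      simp only [Prod.mk.injEq, funext_iff, forall_and]
      split_ifs with hp
      · simp only [hp.1, hp.2, true_and]
      · refine sum_eq_zero fun _ _ => sum_eq_zero fun _ _ => if_neg fun hq => hp ⟨hq.1.1, hq.2.1⟩
    rw [e1, ← hs r c, sum_filter, ← sum_erase_add _ _ (mem_univ (r, c)),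
      ← sum_erase_add univ _ (mem_univ (r, c))]
    simp only [ne_eq, not_true_eq_false, false_and, if_false, add_zero, and_self, if_true]
    rw [prod_eq_one fun t _ => (face_face h2 hf t r c).quad_same _ _]
    congr 1
    refine sum_congr rfl ?_
    rintro ⟨r', c'⟩ hp
    have hp' : ¬(r' = r ∧ c' = c) := by simpa using hp
    by_cases hq : K r c = K r' c' ∧ K r c' = K r' c
    · have hr : r' ≠ r := by
        rintro rfl
        exact hp' ⟨rfl, (hK.1 r').1 hq.2⟩
      have hc : c' ≠ c := by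
        rintro rfl
        exact hp' ⟨((hK.2 c').1 hq.2).symm, rfl⟩
      rw [if_pos hq, if_pos ⟨hr, hc, hq⟩,
        prod_eq_single (min r r', max r r', min c c', max c c')
          (fun t _ ht => quad_other h2 hK hf hr hc hq.1 hq.2 ht _ _) (by simp),
        quad_own hf hr hc hq.1 hq.2 rfl, hv]
    · rw [if_neg hq, if_neg fun h => hq h.2.2]
  · rintro ⟨r, x⟩ ⟨r', x'⟩ ⟨c, y⟩ ⟨c', y'⟩ e0 e1 e2
    simp only [Prod.mk.injEq, funext_iff] at e1 e2
    have hr : r' ≠ r := by
      rintro rfl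
      obtain rfl : c = c' := (hK.1 r').1 e1.1
      exact e0 (Prod.ext rfl (funext fun t =>
        ((face_face h2 hf t r' c).free _ _ _ _ (e1.2 t) (e2.2 t)).symm))
    have hc : c' ≠ c := by
      rintro rfl
      exact hr ((hK.2 c').1 e1.1).symm
    refine ⟨hr, ?_⟩
    rw [← hv, ← quad_own hf hr hc e1.1 e2.1 rfl (x _) (y _)]
    exact card_pos.2 ⟨(x' _, y' _), mem_filter.2 ⟨mem_univ _, e1.2 _, e2.2 _⟩⟩

/-- The lift with the explicit gadgets. -/
theorem latin_gad {α : Type} [Fintype α] [DecidableEq α] {K : α → α → α} (hK : IsLatin K)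
    (w : α → α → α → α → ℕ) (s1 : ∀ r r' c c', w r r' c c' = w r' r c c')
    (s2 : ∀ r r' c c', w r r' c c' = w r r' c' c) {m D q : ℕ} (hm : Nat.Coprime m 6)
    (hp : q.Prime) (hq : 2 * m + 3 < q) (hw : ∀ r r' c c', w r r' c c' ≤ m ∧ m ≤ w r r' c c' + D)
    {h : ℕ} (hs : ∀ r c, ∑ p ∈ univ.filter (fun p : α × α =>
      p.1 ≠ r ∧ p.2 ≠ c ∧ K r c = K p.1 p.2 ∧ K r p.2 = K p.1 c), w r p.1 c p.2 = h) :
    ∃ (β : Type) (_ : Fintype β) (_ : DecidableEq β) (L : β → β → β) (π : β → α),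
      Fintype.card β = Fintype.card α * (m * q ^ D) ^ (Fintype.card α ^ 4) ∧ IsLatin L ∧
      (∀ r c, cnt L r c = h + 1) ∧ (∀ r c, π (L r c) = K (π r) (π c)) ∧
      ∀ r r' c c', r' ≠ r → L r c = L r' c' → L r c' = L r' c →
        π r' ≠ π r ∧ 0 < w (π r) (π r') (π c) (π c') := by
  have : NeZero m := ⟨by rintro rfl; simp at hm⟩
  have : Fact q.Prime := ⟨hp⟩
  have u2 : IsUnit (2 : ZMod m) := by
    have := (ZMod.isUnit_iff_coprime 2 m).2
      (Nat.Coprime.symm (Nat.Coprime.coprime_dvd_right (by norm_num) hm))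
    exact_mod_cast this
  have g2 : (2 : ZMod q) ≠ 0 := by
    exact_mod_cast cast_ne_zero_of_lt (q := q) (a := 2) (by omega) (by omega)
  have := latin_lift (Φ := ZMod m × (Fin D → ZMod q)) ?_ hK w s1 s2 ?_ hs
  · simpa only [Fintype.card_prod, Fintype.card_fun, ZMod.card, Fintype.card_fin] using this
  · rintro ⟨a, x⟩ ⟨b, y⟩ e
    simp only [Prod.mk_add_mk, Prod.mk.injEq, funext_iff, Pi.add_apply] at e ⊢
    exact ⟨u2.mul_left_cancel (by linear_combination e.1),
      fun k => mul_left_cancel₀ g2 (by linear_combination e.2 k)⟩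
  · intro r r' c c'
    obtain ⟨a, b⟩ := hw r r' c c'
    have := gad_isGadget (m := m) (D := D) (q := q) (e := m - w r r' c c') hm hq (by omega)
      (by omega)
    rw [Nat.sub_sub_self a] at this
    exact ⟨_, this⟩

theorem liftP {α : Type} [Fintype α] [DecidableEq α] {K : α → α → α} (hK : IsLatin K)
    (w : α → α → α → α → ℕ) (s1 : ∀ r r' c c', w r r' c c' = w r' r c c')
    (s2 : ∀ r r' c c', w r r' c c' = w r r' c' c) (hw : ∀ r r' c c', w r r' c c' ≤ 13) {h : ℕ}
    (hs : ∀ r c, ∑ p ∈ univ.filter (fun p : α × α =>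
      p.1 ≠ r ∧ p.2 ≠ c ∧ K r c = K p.1 p.2 ∧ K r p.2 = K p.1 c), w r p.1 c p.2 = h) :
    ∃ (β : Type) (_ : Fintype β) (_ : DecidableEq β) (L : β → β → β) (π : β → α),
      Fintype.card β = Fintype.card α * (13 * 31 ^ 13) ^ (Fintype.card α ^ 4) ∧ IsLatin L ∧
      (∀ r c, cnt L r c = h + 1) ∧ (∀ r c, π (L r c) = K (π r) (π c)) ∧
      ∀ r r' c c', r' ≠ r → L r c = L r' c' → L r c' = L r' c →
        π r' ≠ π r ∧ 0 < w (π r) (π r') (π c) (π c') := by
  exact latin_gad hK w s1 s2 (m := 13) (D := 13) (q := 31) (by norm_num) (by norm_num)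
    (by norm_num) (fun r r' c c' => ⟨hw r r' c c', Nat.le_add_left _ _⟩) hs

theorem rep_lift {α : Type} [Fintype α] [DecidableEq α] {K : α → α → α} (hK : IsLatin K)
    (w : α → α → α → α → ℕ) (s1 : ∀ r r' c c', w r r' c c' = w r' r c c')
    (s2 : ∀ r r' c c', w r r' c c' = w r r' c' c) (hw : ∀ r r' c c', w r r' c c' ≤ 13) {h : ℕ}
    (hs : ∀ r c, ∑ p ∈ univ.filter (fun p : α × α =>
      p.1 ≠ r ∧ p.2 ≠ c ∧ K r c = K p.1 p.2 ∧ K r p.2 = K p.1 c), w r p.1 c p.2 = h)
    (a b : α → α → ℤ) (ha : ∀ r c, a r c ∣ 1) (hb : ∀ r c, b r c ∣ 1)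
    (hz : ∀ r r' c c', r' ≠ r → K r c = K r' c' → K r c' = K r' c → 0 < w r r' c c' →
      Sgn a b r r' c c') :
    ∃ t e, Rep ∅ (Fintype.card α * t) 1 0 h ∧ t ∣ 403 ^ e := by
  obtain ⟨β, _, _, L, π, h1, h2, h3, h4, h5⟩ := liftP hK w s1 s2 hw hs
  refine ⟨(13 * 31 ^ 13) ^ (Fintype.card α ^ 4), 13 * Fintype.card α ^ 4, ?_, ?_⟩
  · rw [← h1]
    refine rep_of_latin h2 h3 (fun r c => a (π r) (π c)) (fun r c => b (π r) (π c))
      (fun _ _ => ha _ _) (fun _ _ => hb _ _) fun r r' c c' e0 e1 e2 => ?_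
    obtain ⟨k1, k2⟩ := h5 r r' c c' e0 e1 e2
    exact hz _ _ _ _ k1 (by rw [← h4, ← h4, e1]) (by rw [← h4, ← h4, e2]) k2
  · rw [pow_mul]
    exact pow_dvd_pow_of_dvd (by norm_num) _

end Pool.Agent.NL
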