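import Pool.Agent.Work.MP_03d2dd_co.NL.LiftN

/-! Gains in a lift.  The plan is in the header of `LiftB` (the part on gain pairs). -/

namespace Pool.Agent.NL.LD

variable {S : Sys} {R : Type} [CommRing R] (D : LD S R)

/-- Label points among `y` get the fibre `t`. -/
def liftc_LC (S : Sys) (y : S.P × S.P × S.P) (t : R) (z : R × R × R) : Prop :=
  (S.G.lab y.1 = true → z.1 = t) ∧ (S.G.lab y.2.1 = true → z.2.1 = t) ∧
    (S.G.lab y.2.2 = true → z.2.2 = t)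

/-- Exactly one of the three new points is a label. -/
theorem liftc_one {a b c : S.P} {y : S.P × S.P × S.P} (hq : S.G.Quad (mk6 a b c y)) :
    (S.G.lab y.1 = true → S.G.lab y.2.1 = false ∧ S.G.lab y.2.2 = false) ∧
      (S.G.lab y.2.1 = true → S.G.lab y.1 = false ∧ S.G.lab y.2.2 = false) ∧
      (S.G.lab y.2.2 = true → S.G.lab y.1 = false ∧ S.G.lab y.2.1 = false) :=
  ⟨fun h => ⟨S.G.one12 hq.1.2.2.2 h, S.G.one13 hq.1.2.2.1 h⟩,
    fun h => ⟨(S.G.lab2 hq.1.2.2.2 h).1, (S.G.lab2 hq.1.2.1 h).2⟩,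
    fun h => ⟨(S.G.lab3 hq.1.2.2.1 h).1, (S.G.lab3 hq.1.2.1 h).2⟩⟩

theorem liftc_gen {a b c : D.Pt} (h : D.geo.line a b c) (hp : D.geo.Plain (a, b, c)) {k : S.C}
    {y : S.P × S.P × S.P} (hq : S.G.Quad (mk6 (D.pr a) (D.pr b) (D.pr c) y))
    (hk : S.col (mk6 (D.pr a) (D.pr b) (D.pr c) y) = some k)
    (hl : S.G.lab y.1 = true ∨ S.G.lab y.2.1 = true ∨ S.G.lab y.2.2 = true) (hU : ¬D.U k) :
    ∃ z, D.SolAt a b c y z ∧ liftc_LC S y (D.fb b - D.fb a) z := by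
  obtain ⟨⟨a0, b0⟩, ⟨a1, b1⟩, ⟨a2, b2⟩, a3, b3⟩ :=
    (D.gen _ k hq hk hU).2 (.inl (.inr (.inr (.inr hl))))
  obtain ⟨p1, p2, p3⟩ : S.G.lab (D.pr a) = false ∧ S.G.lab (D.pr b) = false ∧
    S.G.lab (D.pr c) = false := hp
  obtain ⟨l1, l2, l3⟩ := liftc_one hq
  have e0 := h.2
  simp only [mk6] at a0 b0 a1 b1 a2 b2 a3 b3
  simp only [a0, b0, Eqn, cst, Geo.tz, t0, p1, p2, p3] at e0
  simp only [SolAt, Sol, liftc_LC, a1, b1, a2, b2, a3, b3, Eqn, cst, Geo.tz, t0, p1, p2, p3]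
  norm_num at e0
  rcases hl with w | w | w
  · refine ⟨(D.fb b - D.fb a, D.fb b, D.fb c), ⟨?_, ?_, ?_⟩, by simp [l1 w]⟩ <;>
      norm_num [w, l1 w] <;> linear_combination e0
  · refine ⟨(D.fb a, D.fb b - D.fb a, D.fb c), ⟨?_, ?_, ?_⟩, by simp [l2 w]⟩ <;>
      norm_num [w, l2 w]
    exacts [by linear_combination -e0, by linear_combination e0, by linear_combination -e0]
  · refine ⟨(D.fb a, D.fb b, D.fb b - D.fb a), ⟨?_, ?_, ?_⟩, by simp [l3 w]⟩ <;>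
      norm_num [w, l3 w]
    exacts [by ring, by ring, by linear_combination e0]

theorem liftc_key {a b c : D.Pt} (h : D.geo.line a b c) (hp : D.geo.Plain (a, b, c)) {k : S.C}
    {y : S.P × S.P × S.P} (hq : S.G.Quad (mk6 (D.pr a) (D.pr b) (D.pr c) y))
    (hk : S.col (mk6 (D.pr a) (D.pr b) (D.pr c) y) = some k)
    (hl : S.G.lab y.1 = true ∨ S.G.lab y.2.1 = true ∨ S.G.lab y.2.2 = true) (t : R) :
    (D.U k ∨ t = D.fb b - D.fb a → ∃! z, D.SolAt a b c y z ∧ liftc_LC S y t z) ∧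
      ∀ z, D.SolAt a b c y z → liftc_LC S y t z → D.U k ∨ t = D.fb b - D.fb a := by
  by_cases hU : D.U k
  · refine ⟨fun _ => ?_, fun _ _ _ => .inl hU⟩
    obtain ⟨o1, o2⟩ := D.on _ k hq hk hU
    obtain ⟨l1, l2, l3⟩ := liftc_one hq
    rcases hl with w | w | w
    · simp only [liftc_LC, w, l1 w, Bool.false_eq_true, false_imp_iff, true_imp_iff, and_true]
      exact on_i o1 (D.u3' ..) (D.u3' ..) (D.u3' ..) (D.u3' ..) o2 h.2 t
    · simp only [liftc_LC, w, l2 w, Bool.false_eq_true, false_imp_iff, true_imp_iff, and_true,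
        true_and]
      exact on_j o1 (D.u3' ..) (D.u3' ..) (D.u3' ..) (D.u3' ..) o2 h.2 t
    · simp only [liftc_LC, w, l3 w, Bool.false_eq_true, false_imp_iff, true_imp_iff, true_and]
      exact on_k o1 (D.u3' ..) (D.u3' ..) (D.u3' ..) (D.u3' ..) o2 h.2 t
  · obtain ⟨z0, s0, c0⟩ := D.liftc_gen h hp hq hk hl hU
    have u : ∀ z, D.SolAt a b c y z → z = z0 := fun z hz =>
      (gen_unique (D.gen _ k hq hk hU).1).unique hz s0
    refine ⟨fun w => ⟨z0, ⟨s0, w.resolve_left hU ▸ c0⟩, fun z hz => u z hz.1⟩,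
      fun z hz hc => .inr ?_⟩
    obtain rfl := u z hz
    rcases hl with w | w | w
    exacts [(hc.1 w).symm.trans (c0.1 w), (hc.2.1 w).symm.trans (c0.2.1 w),
      (hc.2.2 w).symm.trans (c0.2.2 w)]

theorem liftc_lab {a b c : S.P} {k : S.C} {x : S.A} {y : (S.P × S.P × S.P) × S.B}
    (hy : S.G.GainP S.col (fun β => S.lb β x) a b c k y) :
    S.G.lab y.1.1 = true ∨ S.G.lab y.1.2.1 = true ∨ S.G.lab y.1.2.2 = true :=
  hy.2.2.imp (fun e => (S.lb_lab _).2 ⟨_, _, e.symm⟩)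
    (Or.imp (fun e => (S.lb_lab _).2 ⟨_, _, e.symm⟩) fun e => (S.lb_lab _).2 ⟨_, _, e.symm⟩)

theorem liftc_pr {a b c : D.Pt} (h : D.geo.line a b c) {k : S.C} {x : S.A × D.T}
    {y : (D.Pt × D.Pt × D.Pt) × S.B} (hy : D.geo.GainP D.col (fun β => D.lb β x) a b c k y) :
    S.G.GainP S.col (fun β => S.lb β x.1) (D.pr a) (D.pr b) (D.pr c) k (D.pr3 y.1, y.2) ∧
      D.SolAt a b c (D.pr3 y.1) (D.fb3 y.1) ∧ liftc_LC S (D.pr3 y.1) x.2.1 (D.fb3 y.1) := by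
  obtain ⟨q1, q2⟩ := (D.quad_iff h _).1 hy.1
  obtain ⟨l1, l2, l3⟩ := liftc_one q1
  have no : ∀ {u : Bool} {p : Prop}, u = false → u = true → p := fun e e' =>
    absurd (e.symm.trans e') Bool.false_ne_true
  refine ⟨⟨q1, hy.2.1, hy.2.2.imp (congrArg D.pr) (Or.imp (congrArg D.pr) (congrArg D.pr))⟩, q2, ?_⟩
  rcases hy.2.2 with w | w | w
  · have u := l1 ((S.lb_lab _).2 ⟨_, _, (congrArg D.pr w).symm⟩)
    exact ⟨fun _ => congrArg D.fb w, no u.1, no u.2⟩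
  · have u := l2 ((S.lb_lab _).2 ⟨_, _, (congrArg D.pr w).symm⟩)
    exact ⟨no u.1, fun _ => congrArg D.fb w, no u.2⟩
  · have u := l3 ((S.lb_lab _).2 ⟨_, _, (congrArg D.pr w).symm⟩)
    exact ⟨no u.1, no u.2, fun _ => congrArg D.fb w⟩

open Classical in
theorem gain [Finite R] {a b c : D.Pt} (h : D.geo.line a b c) (hp : D.geo.Plain (a, b, c))
    (k : S.C) (x : S.A × D.T) :
    num (D.geo.GainP D.col (fun β => D.lb β x) a b c k) =
      if D.U k ∨ x.2.1 = D.fb b - D.fb a then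
        num (S.G.GainP S.col (fun β => S.lb β x.1) (D.pr a) (D.pr b) (D.pr c) k) else 0 := by
  split_ifs with hg
  · refine num_bij (fun y => (D.pr3 y.1, y.2)) (fun y hy => (D.liftc_pr h hy).1)
      (fun y y' hy hy' e => ?_) fun y hy => ?_
    · obtain ⟨g1, g2⟩ := D.liftc_pr h hy
      obtain ⟨e1, e2⟩ := Prod.mk.inj e
      have e3 := ((D.liftc_key h hp g1.1 g1.2.1 (liftc_lab g1) x.2.1).1 hg).unique g2
        (e1.symm ▸ (D.liftc_pr h hy').2)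
      exact Prod.ext (Prod.ext (D.pt_ext (congrArg (·.1) e1) (congrArg (·.1) e3))
        (Prod.ext (D.pt_ext (congrArg (·.2.1) e1) (congrArg (·.2.1) e3))
          (D.pt_ext (congrArg (·.2.2) e1) (congrArg (·.2.2) e3)))) e2
    · obtain ⟨z, ⟨z1, z2⟩, -⟩ := (D.liftc_key h hp hy.1 hy.2.1 (liftc_lab hy) x.2.1).1 hg
      refine ⟨((⟨(y.1.1, z.1), fun w => (z2.1 w).symm ▸ x.2.2⟩,
        ⟨(y.1.2.1, z.2.1), fun w => (z2.2.1 w).symm ▸ x.2.2⟩,
        ⟨(y.1.2.2, z.2.2), fun w => (z2.2.2 w).symm ▸ x.2.2⟩), y.2),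
        ⟨(D.quad_iff h _).2 ⟨hy.1, z1⟩, hy.2.1, ?_⟩, rfl⟩
      exact hy.2.2.imp (fun w => D.pt_ext w (z2.1 ((S.lb_lab _).2 ⟨_, _, w.symm⟩)))
        (Or.imp (fun w => D.pt_ext w (z2.2.1 ((S.lb_lab _).2 ⟨_, _, w.symm⟩)))
          fun w => D.pt_ext w (z2.2.2 ((S.lb_lab _).2 ⟨_, _, w.symm⟩)))
  · refine num_zero fun y hy => hg ?_
    obtain ⟨g1, g2, g3⟩ := D.liftc_pr h hy
    exact (D.liftc_key h hp g1.1 g1.2.1 (liftc_lab g1) x.2.1).2 _ g2 g3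

end Pool.Agent.NL.LD
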