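import Pool.Agent.Work.MP_03d2dd_co.NL.LiftB
import Pool.Agent.Work.MP_03d2dd_co.NL.LiftC

/-! The lifted system. -/

namespace Pool.Agent.NL.LD

variable {S : Sys} {R : Type} [CommRing R] [Finite R] (D : LD S R)

open Classical in
/-- The lifted system. -/
noncomputable def sys : Sys where
  P := D.Pt
  A := S.A × D.T
  B := S.B
  C := S.C
  G := D.geo
  lb := D.lb
  lb_lab := D.lb_lab
  lb_inj := D.lb_inj
  tf := D.tf
  three := D.three
  four := D.four
  col := D.col
  sep := D.sep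
  N k := S.N k * if D.U k then Nat.card R else 1
  reg h k := D.reg h k
  bal h hp k x := by
    rw [D.loss h hp, D.gain h hp, S.bal h.1 hp]
  σ k a b c := S.σ k (D.pr a) (D.pr b) (D.pr c)
  σ_sm _ _ _ _ := S.σ_sm _ _ _ _
  σ_one k _ _ _ h hs := S.σ_one k h.1 (D.spec_pr hs)
  σ_on _ k h hk := S.σ_on _ k (D.quad_pr h) hk
  σ_flat _ k k' h hk e := S.σ_flat _ k k' (D.quad_pr h) hk e

theorem sys_ord : D.sys.ord = S.ord * Nat.card R := D.ord

theorem sys_A : Nat.card D.sys.A = Nat.card S.A * Nat.card D.T := Nat.card_prod _ _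

theorem sys_clean (h : ∀ q : Six D.Pt, S.G.Quad (q.map D.pr) → q.All D.line →
    S.col (q.map D.pr) ≠ none) : D.sys.Clean := fun q hq => h q (D.quad_pr hq) hq.1

end Pool.Agent.NL.LD
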