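import Pool.Agent.Work.MP_03d2dd_co.NL.LiftN

/-! Balance of losses and gains in a lift.

Let `(a, b, c)` be a plain lifted line with fibres `i0 j0 k0`, and `x = (x0, t)`.
Put `good := D.U k ∨ t = j0 - i0`.  Claim (`loss`, `gain`): projecting the three points
(`y ↦ (pr3 y.1, y.2)`) is a bijection from lifted loss pairs to base loss pairs if `good`, and
there are no lifted loss pairs otherwise; the same for gain pairs.  Use `quad_iff`, `line_lab`.

Case `D.U k` (`D.on`): over a base loss pair the condition that the lifted line carries the label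
with fibre `t` fixes one unknown: on the line `(a, c1)` it says `j1 = i0 + t` (`on_j`), on
`(r1, b)` it says `i1 = j0 - t` (`on_i`), on `(r1, c1)` (a `Spec` line, so `3 i1 - 2 j1 - k0 = 0`
by `D.spec`) it says `j1 - i1 = t`, equivalently `i1 = k0 + 2 t` (`on_i`).  Exactly one of the
three base alternatives holds (`same_row`, `same_col`, `same_sym` and the quad inequalities).
Over a base gain pair the label point must have fibre `t` (`on_i`, `on_j`, `on_k`); the other two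
points are plain (`one12`, `one13`, `one23`), so every solution gives a lifted pair.
Case `¬ D.U k` (`D.gen`): the base quad is `Rel`, all four lines have coefficients `t0`, offset 0,
in particular `3 i0 - 2 j0 - k0 = 0`, and the unique solution (`gen_unique`) is `(i0, j0, k0)`
for a loss pair and is obtained from it by replacing the label coordinate with `j0 - i0` for a
gain pair.  So the label fibre is `j0 - i0` in all cases. -/

namespace Pool.Agent.NL.LD

variable {S : Sys} {R : Type} [CommRing R] (D : LD S R)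

/-- One of the three new lines over `y` with fibres `z` carries the label `L` with fibre `t`. -/
def liftb_Cond (a b : D.Pt) (L : S.P) (t : R) (y : S.P × S.P × S.P) (z : R × R × R) : Prop :=
  S.G.line (D.pr a) y.2.1 L ∧ t = z.2.1 - D.fb a ∨ S.G.line y.1 (D.pr b) L ∧ t = D.fb b - z.1 ∨
    S.G.line y.1 y.2.1 L ∧ t = z.2.1 - z.1

theorem liftb_iff {a b c : D.Pt} (h : D.geo.line a b c) (k : S.C) (x : S.A × D.T)
    (w : (D.Pt × D.Pt × D.Pt) × S.B) :
    D.geo.LossP D.col (fun β => D.lb β x) a b c k w ↔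
      S.G.LossP S.col (fun β => S.lb β x.1) (D.pr a) (D.pr b) (D.pr c) k (D.pr3 w.1, w.2) ∧
        D.SolAt a b c (D.pr3 w.1) (D.fb3 w.1) ∧
        D.liftb_Cond a b (S.lb w.2 x.1) x.2.1 (D.pr3 w.1) (D.fb3 w.1) := by
  have hl : D.geo.lab (D.lb w.2 x) = true := (D.lb_lab _).2 ⟨_, _, rfl⟩
  unfold Geo.LossP Geo.RegP
  rw [D.quad_iff h, D.line_lab hl, D.line_lab hl, D.line_lab hl]
  constructor
  · rintro ⟨⟨⟨h1, h2⟩, h3, h4⟩, h5⟩
    exact ⟨⟨⟨h1, h3, h4⟩, h5.imp And.left (Or.imp And.left And.left)⟩, h2, h5⟩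
  · rintro ⟨⟨⟨h1, h3, h4⟩, -⟩, h2, h5⟩
    exact ⟨⟨⟨h1, h2⟩, h3, h4⟩, h5⟩

theorem liftb_plain {a b c : S.P} (ha : S.G.lab a = false) (hb : S.G.lab b = false)
    (hc : S.G.lab c = false) (e : D.co a b c = cst R (S.G.tz a b c) ∧ D.off a b c = 0) (i j l : R) :
    Eqn (D.co a b c) (D.off a b c) i j l ↔ 3 * i - 2 * j - l = 0 := by
  rw [e.1, e.2, Geo.tz, ha, hb, hc]
  simp only [Eqn, cst, t0, Bool.false_eq_true, if_false]
  push_cast
  constructor <;> intro h <;> linear_combination h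

theorem liftb_on {a b c : D.Pt} (h : D.geo.line a b c) (hp : D.geo.Plain (a, b, c)) {k : S.C}
    (hk : D.U k) {x0 : S.A} (t : R) {y : (S.P × S.P × S.P) × S.B}
    (hy : S.G.LossP S.col (fun β => S.lb β x0) (D.pr a) (D.pr b) (D.pr c) k y) :
    ∃! z, D.SolAt a b c y.1 z ∧ D.liftb_Cond a b (S.lb y.2 x0) t y.1 z := by
  obtain ⟨⟨hq, hc, p1, p2, p3⟩, alt⟩ := hy
  obtain ⟨o1, o2⟩ := D.on _ k hq hc hk
  have hl : S.G.lab (S.lb y.2 x0) = true := (S.lb_lab _).2 ⟨_, _, rfl⟩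
  obtain ⟨⟨-, l01, l10, l11⟩, n1, n2, -⟩ := hq
  have x12 : S.G.line (D.pr a) y.1.2.1 (S.lb y.2 x0) → S.G.line y.1.1 (D.pr b) (S.lb y.2 x0) →
      False := fun u v => n1 (S.G.same_sym l01 l10 p3 hl u v).1
  have x13 : S.G.line (D.pr a) y.1.2.1 (S.lb y.2 x0) → S.G.line y.1.1 y.1.2.1 (S.lb y.2 x0) →
      False := fun u v => n1 (S.G.same_col hl u v)
  have x23 : S.G.line y.1.1 (D.pr b) (S.lb y.2 x0) → S.G.line y.1.1 y.1.2.1 (S.lb y.2 x0) →
      False := fun u v => n2 (S.G.same_row hl u v)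
  rcases alt with u | u | u
  · refine (existsUnique_congr fun z => and_congr_right fun _ => ?_).1
      (on_j o1 (D.u3' _ _ _) (D.u3' _ _ _) (D.u3' _ _ _) (D.u3' _ _ _) o2 h.2 (D.fb a + t))
    constructor
    · exact fun e => Or.inl ⟨u, by rw [e]; ring⟩
    · rintro (⟨-, e⟩ | ⟨v, -⟩ | ⟨v, -⟩)
      · rw [e]; ring
      · exact (x12 u v).elim
      · exact (x13 u v).elim
  · refine (existsUnique_congr fun z => and_congr_right fun _ => ?_).1
      (on_i o1 (D.u3' _ _ _) (D.u3' _ _ _) (D.u3' _ _ _) (D.u3' _ _ _) o2 h.2 (D.fb b - t))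
    constructor
    · exact fun e => Or.inr (Or.inl ⟨u, by rw [e]; ring⟩)
    · rintro (⟨v, -⟩ | ⟨-, e⟩ | ⟨v, -⟩)
      · exact (x12 v u).elim
      · rw [e]; ring
      · exact (x23 u v).elim
  · refine (existsUnique_congr fun z => and_congr_right fun hz => ?_).1
      (on_i o1 (D.u3' _ _ _) (D.u3' _ _ _) (D.u3' _ _ _) (D.u3' _ _ _) o2 h.2 (D.fb c + 2 * t))
    have e3 := (D.liftb_plain p1 p2 hp.2.2
      (D.spec l11 (Or.inr (Or.inr (Or.inr ⟨_, hl, u⟩)))) _ _ _).1 hz.2.2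
    constructor
    · refine fun e => Or.inr (Or.inr ⟨u, (unit2 D.u30).mul_left_cancel ?_⟩)
      linear_combination e3 - e
    · rintro (⟨v, -⟩ | ⟨v, -⟩ | ⟨-, e⟩)
      · exact (x13 v u).elim
      · exact (x23 v u).elim
      · linear_combination e3 - 2 * e

theorem liftb_gen {a b c : D.Pt} (h : D.geo.line a b c) (hp : D.geo.Plain (a, b, c)) {k : S.C}
    (hk : ¬D.U k) {x0 : S.A} (t : R) {y : (S.P × S.P × S.P) × S.B}
    (hy : S.G.LossP S.col (fun β => S.lb β x0) (D.pr a) (D.pr b) (D.pr c) k y) (z : R × R × R) :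
    D.SolAt a b c y.1 z ∧ D.liftb_Cond a b (S.lb y.2 x0) t y.1 z ↔
      z = (D.fb a, D.fb b, D.fb c) ∧ t = D.fb b - D.fb a := by
  obtain ⟨⟨hq, hc, p1, p2, p3⟩, alt⟩ := hy
  obtain ⟨g1, g2⟩ := D.gen _ k hq hc hk
  have hl : S.G.lab (S.lb y.2 x0) = true := (S.lb_lab _).2 ⟨_, _, rfl⟩
  obtain ⟨e00, e01, e10, e11⟩ := g2 (Or.inr ⟨_, hl, Or.inr
    (alt.imp (fun u => ⟨p3, u⟩) (Or.imp (fun u => ⟨p3, u⟩) fun u => ⟨hp.2.2, u⟩))⟩)
  have e0 := (D.liftb_plain hp.1 hp.2.1 hp.2.2 e00 _ _ _).1 h.2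
  have s0 : D.SolAt a b c y.1 (D.fb a, D.fb b, D.fb c) :=
    ⟨(D.liftb_plain hp.1 p2 p3 e01 _ _ _).2 e0, (D.liftb_plain p1 hp.2.1 p3 e10 _ _ _).2 e0,
      (D.liftb_plain p1 p2 hp.2.2 e11 _ _ _).2 e0⟩
  constructor
  · rintro ⟨h1, h2⟩
    have e : z = (D.fb a, D.fb b, D.fb c) := (gen_unique g1).unique h1 s0
    refine ⟨e, ?_⟩
    rw [e] at h2
    rcases h2 with ⟨-, u⟩ | ⟨-, u⟩ | ⟨-, u⟩ <;> exact u
  · rintro ⟨rfl, e⟩
    exact ⟨s0, alt.imp (fun u => ⟨u, e⟩) (Or.imp (fun u => ⟨u, e⟩) fun u => ⟨u, e⟩)⟩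

open Classical in
theorem loss [Finite R] {a b c : D.Pt} (h : D.geo.line a b c) (hp : D.geo.Plain (a, b, c))
    (k : S.C) (x : S.A × D.T) :
    num (D.geo.LossP D.col (fun β => D.lb β x) a b c k) =
      if D.U k ∨ x.2.1 = D.fb b - D.fb a then
        num (S.G.LossP S.col (fun β => S.lb β x.1) (D.pr a) (D.pr b) (D.pr c) k) else 0 := by
  split_ifs with hg
  · have key : ∀ y, S.G.LossP S.col (fun β => S.lb β x.1) (D.pr a) (D.pr b) (D.pr c) k y →
        ∃! z, D.SolAt a b c y.1 z ∧ D.liftb_Cond a b (S.lb y.2 x.1) x.2.1 y.1 z := by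
      intro y hy
      by_cases hk : D.U k
      · exact D.liftb_on h hp hk _ hy
      · exact ⟨_, (D.liftb_gen h hp hk _ hy _).2 ⟨rfl, hg.resolve_left hk⟩,
          fun z hz => ((D.liftb_gen h hp hk _ hy _).1 hz).1⟩
    refine num_bij (fun w => (D.pr3 w.1, w.2)) (fun w hw => ((D.liftb_iff h k x w).1 hw).1)
      (fun w w' hw hw' e => ?_) fun y hy => ?_
    · obtain ⟨h1, h2⟩ := (D.liftb_iff h k x w).1 hw
      obtain ⟨-, h3⟩ := (D.liftb_iff h k x w').1 hw'
      obtain ⟨e1, e2⟩ := Prod.mk.inj e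
      rw [← e1, ← e2] at h3
      have e3 : D.fb3 w.1 = D.fb3 w'.1 := (key _ h1).unique h2 h3
      refine Prod.ext (Prod.ext (D.pt_ext ?_ ?_) (Prod.ext (D.pt_ext ?_ ?_) (D.pt_ext ?_ ?_))) e2
      · exact congrArg (fun u => u.1) e1
      · exact congrArg (fun u => u.1) e3
      · exact congrArg (fun u => u.2.1) e1
      · exact congrArg (fun u => u.2.1) e3
      · exact congrArg (fun u => u.2.2) e1
      · exact congrArg (fun u => u.2.2) e3
    · obtain ⟨z, hz, -⟩ := key y hy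
      obtain ⟨p1, p2, p3⟩ := hy.1.2.2
      exact ⟨((D.mkP _ p1 z.1, D.mkP _ p2 z.2.1, D.mkP _ p3 z.2.2), y.2),
        (D.liftb_iff h k x _).2 ⟨hy, hz⟩, rfl⟩
  · refine num_zero fun w hw => hg (Or.inr ?_)
    obtain ⟨h1, h2⟩ := (D.liftb_iff h k x w).1 hw
    exact ((D.liftb_gen h hp (fun hk => hg (Or.inl hk)) _ h1 _).1 h2).2

end Pool.Agent.NL.LD
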