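import Pool.Agent.Work.MP_03d2dd_co.NL.Num

/-! Linear algebra of four lines over a commutative ring.

Plan.  `on_i`: solve `Eqn C` for `x.2.2` and `Eqn D` for `x.2.1` with unit inverses
(`IsUnit.exists_right_inv`); `Eqn B` follows after multiplying by the unit
`A.1 * C.2.1 * D.2.2` (see the combination in `offSum_eq`).  `on_j`, `on_k` alike.
`on_num`: `num_bij` with `x ↦ x.1` and `num_true`.  `gen_unique`: Cramer.
`det_tz`: at most one of the six points is a label (`Four`, `one12`, `one13`, `one23`);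
case split on the six booleans; the values are 12, 3, -3, 8, -8, 5, -5. -/

namespace Pool.Agent.NL

variable {R : Type} [CommRing R]

/-- All entries are units. -/
def U3 (A : R × R × R) : Prop := IsUnit A.1 ∧ IsUnit A.2.1 ∧ IsUnit A.2.2

theorem unit_of_dvd (h : IsUnit (30 : R)) {z : ℤ} {k : ℕ} (hz : z ∣ 30 ^ k) : IsUnit (z : R) := by
  obtain ⟨w, hw⟩ := hz
  have : ((z : R) * w) = 30 ^ k := by exact_mod_cast (congrArg (Int.cast : ℤ → R) hw).symm
  exact isUnit_of_mul_isUnit_left (this ▸ h.pow k)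

theorem unit2 (h : IsUnit (30 : R)) : IsUnit (2 : R) := by
  exact_mod_cast unit_of_dvd h (z := 2) (k := 1) (by norm_num)

theorem unit3 (h : IsUnit (30 : R)) : IsUnit (3 : R) := by
  exact_mod_cast unit_of_dvd h (z := 3) (k := 1) (by norm_num)

theorem unit5 (h : IsUnit (30 : R)) : IsUnit (5 : R) := by
  exact_mod_cast unit_of_dvd h (z := 5) (k := 1) (by norm_num)

theorem Sm.u3 (h : IsUnit (30 : R)) {v : ℤ × ℤ × ℤ} (hv : Sm v) : U3 (cst R v) :=
  let ⟨_, a, b, c⟩ := hv; ⟨unit_of_dvd h a, unit_of_dvd h b, unit_of_dvd h c⟩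

theorem Sm.mul {v w : ℤ × ℤ × ℤ} (hv : Sm v) (hw : Sm w) : Sm (v * w) := by
  obtain ⟨k, a, b, c⟩ := hv
  obtain ⟨l, a', b', c'⟩ := hw
  exact ⟨k + l, by rw [pow_add]; exact mul_dvd_mul a a', by rw [pow_add]; exact mul_dvd_mul b b',
    by rw [pow_add]; exact mul_dvd_mul c c'⟩

theorem sm_one : Sm 1 := ⟨0, by simp⟩

theorem sm_prod {ι : Type} (s : Finset ι) (f : ι → ℤ × ℤ × ℤ) (h : ∀ i ∈ s, Sm (f i)) :
    Sm (∏ i ∈ s, f i) :=
  Finset.prod_induction f Sm (fun _ _ => Sm.mul) sm_one h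

theorem sm_t0 (a b c : Bool) : Sm (t0 a b c) :=
  ⟨1, by revert a b c; decide⟩

theorem cst_mul (v w : ℤ × ℤ × ℤ) : cst R (v * w) = cst R v * cst R w := by
  simp [cst]

theorem OnId.cst {A B C D : ℤ × ℤ × ℤ} (h : OnId A B C D) :
    OnId (cst R A) (cst R B) (cst R C) (cst R D) := by
  obtain ⟨a, b, c⟩ := h
  refine ⟨?_, ?_, ?_⟩ <;> simp only [NL.cst]
  · exact_mod_cast congrArg (Int.cast : ℤ → R) a
  · exact_mod_cast congrArg (Int.cast : ℤ → R) b
  · exact_mod_cast congrArg (Int.cast : ℤ → R) c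

theorem OnId.mul {A B C D : R × R × R} (h : OnId A B C D) (v : R × R × R) :
    OnId (A * v) (B * v) (C * v) (D * v) := by
  obtain ⟨a, b, c⟩ := h
  refine ⟨?_, ?_, ?_⟩ <;> simp only [Prod.fst_mul, Prod.snd_mul]
  · linear_combination v.1 * v.2.1 * v.2.2 * a
  · linear_combination v.1 * v.2.1 * v.2.2 * b
  · linear_combination v.1 * v.2.1 * v.2.2 * c

variable {A B C D : R × R × R} {a b c d i0 j0 k0 : R}

theorem OnId.det_eq (h : OnId A B C D) (hA : U3 A) (hC : U3 C) (hD : U3 D) : det B C D = 0 := by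
  obtain ⟨h1, h2, h3⟩ := h
  refine (hA.1.mul (hA.2.1.mul (hC.2.1.mul hD.2.2))).mul_left_cancel ?_
  unfold det
  linear_combination (A.2.1 * C.2.1 * C.2.2 * D.1) * h1 + (A.2.1 * C.1 * D.2.2 * D.2.1) * h3 -
    (A.2.1 * B.1 * C.2.2 * D.2.1) * h2

theorem OnId.offSum_eq (h : OnId A B C D) {i1 j1 k1 : R} (e0 : Eqn A a i0 j0 k0)
    (e1 : Eqn B b i0 j1 k1) (e2 : Eqn C c i1 j0 k1) (e3 : Eqn D d i1 j1 k0) :
    offSum A B C D a b c d = 0 := by
  obtain ⟨h1, h2, h3⟩ := h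
  unfold Eqn at *
  subst e0 e1 e2 e3
  unfold offSum
  linear_combination (-C.2.1 * j1) * h1 + (-B.1 * i1) * h2 + (-D.2.2 * k1) * h3

/-- The three equations that complete the line with fibres `i0 j0 k0` to a quad. -/
def Sol (B C D : R × R × R) (b c d i0 j0 k0 : R) (x : R × R × R) : Prop :=
  Eqn B b i0 x.2.1 x.2.2 ∧ Eqn C c x.1 j0 x.2.2 ∧ Eqn D d x.1 x.2.1 k0

theorem linalg_solve {u : R} (hu : IsUnit u) (r : R) : ∃ z, u * z = r :=
  let ⟨w, hw⟩ := hu.exists_right_inv; ⟨w * r, by rw [← mul_assoc, hw, one_mul]⟩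

theorem linalg_dep (h : OnId A B C D) (h0 : offSum A B C D a b c d = 0) (e0 : Eqn A a i0 j0 k0)
    (x y z : R) : A.1 * (C.2.1 * D.2.2) * (B.1 * i0 + B.2.1 * y + B.2.2 * z - b) +
      A.2.1 * (B.1 * D.2.2) * (C.1 * x + C.2.1 * j0 + C.2.2 * z - c) +
      A.2.2 * (B.1 * C.2.1) * (D.1 * x + D.2.1 * y + D.2.2 * k0 - d) = 0 := by
  obtain ⟨h1, h2, h3⟩ := h
  unfold Eqn at e0
  unfold offSum at h0
  linear_combination h0 + B.1 * C.2.1 * D.2.2 * e0 + y * C.2.1 * h1 + x * B.1 * h2 +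
    z * D.2.2 * h3

/-- Dependent case: one solution for each value of the first unknown. -/
theorem on_i (h : OnId A B C D) (hA : U3 A) (_hB : U3 B) (hC : U3 C) (hD : U3 D)
    (h0 : offSum A B C D a b c d = 0) (e0 : Eqn A a i0 j0 k0) (t : R) :
    ∃! x, Sol B C D b c d i0 j0 k0 x ∧ x.1 = t := by
  obtain ⟨y, hy⟩ := linalg_solve hD.2.1 (d - D.1 * t - D.2.2 * k0)
  obtain ⟨z, hz⟩ := linalg_solve hC.2.2 (c - C.1 * t - C.2.1 * j0)
  have e := linalg_dep h h0 e0 t y z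
  simp only [ExistsUnique, Sol, Eqn]
  refine ⟨(t, y, z), ⟨⟨(hA.1.mul (hC.2.1.mul hD.2.2)).mul_left_cancel ?_, ?_, ?_⟩, rfl⟩, ?_⟩
  · linear_combination e - A.2.1 * (B.1 * D.2.2) * hz - A.2.2 * (B.1 * C.2.1) * hy
  · linear_combination hz
  · linear_combination hy
  · rintro ⟨x', y', z'⟩ ⟨⟨-, e2, e3⟩, rfl⟩
    refine Prod.ext rfl (Prod.ext (hD.2.1.mul_left_cancel ?_) (hC.2.2.mul_left_cancel ?_))
    · linear_combination e3 - hy
    · linear_combination e2 - hz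

theorem on_j (h : OnId A B C D) (hA : U3 A) (hB : U3 B) (_hC : U3 C) (hD : U3 D)
    (h0 : offSum A B C D a b c d = 0) (e0 : Eqn A a i0 j0 k0) (t : R) :
    ∃! x, Sol B C D b c d i0 j0 k0 x ∧ x.2.1 = t := by
  obtain ⟨x, hx⟩ := linalg_solve hD.1 (d - D.2.1 * t - D.2.2 * k0)
  obtain ⟨z, hz⟩ := linalg_solve hB.2.2 (b - B.1 * i0 - B.2.1 * t)
  have e := linalg_dep h h0 e0 x t z
  simp only [ExistsUnique, Sol, Eqn]
  refine ⟨(x, t, z), ⟨⟨?_, (hA.2.1.mul (hB.1.mul hD.2.2)).mul_left_cancel ?_, ?_⟩, rfl⟩, ?_⟩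
  · linear_combination hz
  · linear_combination e - A.1 * (C.2.1 * D.2.2) * hz - A.2.2 * (B.1 * C.2.1) * hx
  · linear_combination hx
  · rintro ⟨x', y', z'⟩ ⟨⟨e1, -, e3⟩, rfl⟩
    refine Prod.ext (hD.1.mul_left_cancel ?_) (Prod.ext rfl (hB.2.2.mul_left_cancel ?_))
    · linear_combination e3 - hx
    · linear_combination e1 - hz

theorem on_k (h : OnId A B C D) (hA : U3 A) (hB : U3 B) (hC : U3 C) (_hD : U3 D)
    (h0 : offSum A B C D a b c d = 0) (e0 : Eqn A a i0 j0 k0) (t : R) :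
    ∃! x, Sol B C D b c d i0 j0 k0 x ∧ x.2.2 = t := by
  obtain ⟨x, hx⟩ := linalg_solve hC.1 (c - C.2.1 * j0 - C.2.2 * t)
  obtain ⟨y, hy⟩ := linalg_solve hB.2.1 (b - B.1 * i0 - B.2.2 * t)
  have e := linalg_dep h h0 e0 x y t
  simp only [ExistsUnique, Sol, Eqn]
  refine ⟨(x, y, t), ⟨⟨?_, ?_, (hA.2.2.mul (hB.1.mul hC.2.1)).mul_left_cancel ?_⟩, rfl⟩, ?_⟩
  · linear_combination hy
  · linear_combination hx
  · linear_combination e - A.1 * (C.2.1 * D.2.2) * hy - A.2.1 * (B.1 * D.2.2) * hx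
  · rintro ⟨x', y', z'⟩ ⟨⟨e1, e2, -⟩, rfl⟩
    refine Prod.ext (hC.1.mul_left_cancel ?_) (Prod.ext (hB.2.1.mul_left_cancel ?_) rfl)
    · linear_combination e2 - hx
    · linear_combination e1 - hy

/-- Dependent case: as many solutions as ring elements. -/
theorem on_num [Finite R] (h : OnId A B C D) (hA : U3 A) (hB : U3 B) (hC : U3 C) (hD : U3 D)
    (h0 : offSum A B C D a b c d = 0) (e0 : Eqn A a i0 j0 k0) :
    num (Sol B C D b c d i0 j0 k0) = Nat.card R := by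
  rw [← num_true]
  exact num_bij (fun x => x.1) (fun _ _ => trivial)
    (fun x y hx hy e => (on_i h hA hB hC hD h0 e0 y.1).unique ⟨hx, e⟩ ⟨hy, rfl⟩)
    fun t _ => (on_i h hA hB hC hD h0 e0 t).exists

/-- Independent case: exactly one solution. -/
theorem gen_unique (h : IsUnit (det B C D)) : ∃! x, Sol B C D b c d i0 j0 k0 x := by
  obtain ⟨w, hw⟩ := h.exists_right_inv
  obtain ⟨p, hp⟩ : ∃ p, b = p + B.1 * i0 := ⟨_, (sub_add_cancel _ _).symm⟩
  obtain ⟨q, hq⟩ : ∃ q, c = q + C.2.1 * j0 := ⟨_, (sub_add_cancel _ _).symm⟩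
  obtain ⟨r, hr⟩ : ∃ r, d = r + D.2.2 * k0 := ⟨_, (sub_add_cancel _ _).symm⟩
  subst hp hq hr
  simp only [ExistsUnique, Sol, Eqn, det] at *
  refine ⟨(w * (B.2.1 * C.2.2 * r + B.2.2 * D.2.1 * q - C.2.2 * D.2.1 * p),
    w * (C.2.2 * D.1 * p + B.2.2 * C.1 * r - B.2.2 * D.1 * q),
    w * (C.1 * D.2.1 * p + B.2.1 * D.1 * q - B.2.1 * C.1 * r)), ⟨?_, ?_, ?_⟩, ?_⟩
  · linear_combination p * hw
  · linear_combination q * hw
  · linear_combination r * hw
  · rintro ⟨x, y, z⟩ ⟨e1, e2, e3⟩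
    refine Prod.ext ?_ (Prod.ext ?_ ?_)
    · linear_combination w * (B.2.1 * C.2.2 * e3 + B.2.2 * D.2.1 * e2 - C.2.2 * D.2.1 * e1) -
        x * hw
    · linear_combination w * (C.2.2 * D.1 * e1 + B.2.2 * C.1 * e3 - B.2.2 * D.1 * e2) - y * hw
    · linear_combination w * (C.1 * D.2.1 * e1 + B.2.1 * D.1 * e2 - B.2.1 * C.1 * e3) - z * hw

theorem det_mul (B C D v : R × R × R) :
    det (B * v) (C * v) (D * v) = det B C D * (v.1 * v.2.1 * v.2.2) := by
  simp only [det, Prod.fst_mul, Prod.snd_mul]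
  ring

theorem det_cst (B C D : ℤ × ℤ × ℤ) :
    det (cst R B) (cst R C) (cst R D) = ((det B C D : ℤ) : R) := by
  simp [det, cst]

theorem linalg_tz : ∀ r0 c0 s0 r1 c1 s1 : Bool, (r0 && r1 || c0 && c1 || s0 && s1) = false →
    (r0 && c0 || r0 && s0 || c0 && s0) = false → (r0 && c1 || r0 && s1 || c1 && s1) = false →
    (r1 && c0 || r1 && s1 || c0 && s1) = false → (r1 && c1 || r1 && s0 || c1 && s0) = false →
    det (t0 r0 c1 s1) (t0 r1 c0 s1) (t0 r1 c1 s0) ∣ 30 ^ 3 := by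
  decide

theorem linalg_line {P : Type} (G : Geo P) {a b c : P} (h : G.line a b c) :
    (G.lab a && G.lab b || G.lab a && G.lab c || G.lab b && G.lab c) = false := by
  simpa [and_assoc] using And.intro (G.one12 h) (And.intro (G.one13 h) (G.one23 h))

/-- The trivial coefficients of a quad are independent. -/
theorem Geo.det_tz {P : Type} (G : Geo P) (h4 : G.Four) {q : Six P} (hq : G.Quad q) :
    det (q.a01 G.tz) (q.a10 G.tz) (q.a11 G.tz) ∣ 30 ^ 3 := by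
  obtain ⟨⟨l0, l1, l2, l3⟩, -⟩ := id hq
  exact linalg_tz _ _ _ _ _ _ (by simpa [and_assoc] using h4 q hq) (linalg_line G l0)
    (linalg_line G l1) (linalg_line G l2) (linalg_line G l3)

end Pool.Agent.NL
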