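import Pool.Agent.Work.MP_03d2dd_co.NL.GeoB
import Pool.Agent.Work.MP_03d2dd_co.NL.LinAlg

/-! The lift of a geometry is a geometry.

Plan.  A point of the lift is `⟨(p, i), h⟩`; use `pt_ext`.  `one..` come from the base.
`u1`: the base points agree by `S.G.u1`, then cancel the unit `(D.co ..).1` in `Eqn`.
`e1`: take the plain base point of `S.G.e1`, solve `Eqn` for its fibre (the side condition of
`Pt` is void for plain points).  `t1`, `t2`: if one side holds then the base line `r c b` holds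
(base `t1`, `t2`), all three base lines are `Spec`, so `D.spec` gives the coefficients `t0` and
offset 0: `3i - 2j - k = 0`, `i - j + l = 0`, `-3l + j - k = 0`, `-i + 2l + k = 0`; 2 and 3 are
units (`unit2`, `unit3` with `D.u30`).  `three`: add the three border equations.
`tf`: componentwise, 6 is a unit of `R`. -/

namespace Pool.Agent.NL.LD

variable {S : Sys} {R : Type} [CommRing R] (D : LD S R)

theorem pt_ext {p q : D.Pt} (h1 : D.pr p = D.pr q) (h2 : D.fb p = D.fb q) : p = q :=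
  Subtype.ext (Prod.ext h1 h2)

/-- The point over a plain point with a given fibre coordinate. -/
def mkP (p : S.P) (h : S.G.lab p = false) (i : R) : D.Pt :=
  ⟨(p, i), fun e => absurd (h.symm.trans e) Bool.false_ne_true⟩

theorem u3' (a b c : S.P) : U3 (D.co a b c) := D.unit a b c

instance [Finite R] : Finite D.Pt := by
  unfold Pt; infer_instance

theorem liftg_spec {a b c : D.Pt} (hs : S.G.Spec (D.pr a) (D.pr b) (D.pr c)) :
    D.line a b c ↔ S.G.line (D.pr a) (D.pr b) (D.pr c) ∧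
      Eqn (cst R (t0 (D.lab a) (D.lab b) (D.lab c))) 0 (D.fb a) (D.fb b) (D.fb c) := by
  refine and_congr_right fun h => ?_
  rw [(D.spec h hs).1, (D.spec h hs).2]
  rfl

theorem liftg_1 {a b c : D.Pt} (ha : D.lab a = true) :
    D.line a b c ↔ S.G.line (D.pr a) (D.pr b) (D.pr c) ∧ -3 * D.fb a + D.fb b - D.fb c = 0 := by
  rw [D.liftg_spec (Or.inl ha)]
  refine and_congr_right fun _ => ?_
  simp only [ha, t0, cst, Eqn, if_true]
  push_cast
  constructor <;> intro h <;> linear_combination h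

theorem liftg_2 {a b c : D.Pt} (hb : D.lab b = true) :
    D.line a b c ↔ S.G.line (D.pr a) (D.pr b) (D.pr c) ∧ -D.fb a + 2 * D.fb b + D.fb c = 0 := by
  rw [D.liftg_spec (Or.inr (Or.inl hb))]
  refine and_congr_right fun h => ?_
  have ha : D.lab a = false := (S.G.lab2 h hb).1
  simp only [ha, hb, t0, cst, Eqn, if_true, Bool.false_eq_true, if_false]
  push_cast
  constructor <;> intro h <;> linear_combination h

theorem liftg_3 {a b c : D.Pt} (hc : D.lab c = true) :
    D.line a b c ↔ S.G.line (D.pr a) (D.pr b) (D.pr c) ∧ D.fb a - D.fb b + D.fb c = 0 := by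
  rw [D.liftg_spec (Or.inr (Or.inr (Or.inl hc)))]
  refine and_congr_right fun h => ?_
  have ha : D.lab a = false := (S.G.lab3 h hc).1
  have hb : D.lab b = false := (S.G.lab3 h hc).2
  simp only [ha, hb, hc, t0, cst, Eqn, if_true, Bool.false_eq_true, if_false]
  push_cast
  constructor <;> intro h <;> linear_combination h

theorem liftg_0 {a b c : D.Pt} (h : D.line a b c) (ha : D.lab a = false) (hb : D.lab b = false)
    (hc : D.lab c = false) {x : S.P} (hx : S.G.lab x = true)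
    (hl : S.G.line (D.pr a) (D.pr b) x) : 3 * D.fb a - 2 * D.fb b - D.fb c = 0 := by
  have h1 := ((D.liftg_spec (Or.inr (Or.inr (Or.inr ⟨x, hx, hl⟩)))).1 h).2
  simp only [ha, hb, hc, t0, cst, Eqn, Bool.false_eq_true, if_false] at h1
  push_cast at h1
  linear_combination h1

theorem liftg_solve {u : R} (hu : IsUnit u) (a : R) : ∃ i, u * i = a := by
  obtain ⟨v, hv⟩ := hu.exists_right_inv
  exact ⟨v * a, by rw [← mul_assoc, hv, one_mul]⟩

/-- The lifted geometry. -/
def geo : Geo D.Pt where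
  lab := D.lab
  line := D.line
  one12 h := S.G.one12 h.1
  one13 h := S.G.one13 h.1
  one23 h := S.G.one23 h.1
  u1 := by
    rintro a a' b c ⟨h, e⟩ ⟨h', e'⟩ hl
    have h1 : D.pr a = D.pr a' := S.G.u1 h h' hl
    refine D.pt_ext h1 ((D.unit (D.pr a) (D.pr b) (D.pr c)).1.mul_left_cancel ?_)
    rw [← h1] at e'
    unfold Eqn at e e'
    linear_combination e - e'
  u2 := by
    rintro a b b' c ⟨h, e⟩ ⟨h', e'⟩ hl
    have h1 : D.pr b = D.pr b' := S.G.u2 h h' hl
    refine D.pt_ext h1 ((D.unit (D.pr a) (D.pr b) (D.pr c)).2.1.mul_left_cancel ?_)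
    rw [← h1] at e'
    unfold Eqn at e e'
    linear_combination e - e'
  u3 := by
    rintro a b c c' ⟨h, e⟩ ⟨h', e'⟩ hl
    have h1 : D.pr c = D.pr c' := S.G.u3 h h' hl
    refine D.pt_ext h1 ((D.unit (D.pr a) (D.pr b) (D.pr c)).2.2.mul_left_cancel ?_)
    rw [← h1] at e'
    unfold Eqn at e e'
    linear_combination e - e'
  e1 := by
    intro b c h
    obtain ⟨a, ha, hl⟩ := S.G.e1 (D.pr b) (D.pr c) h
    obtain ⟨i, hi⟩ := liftg_solve (D.unit a (D.pr b) (D.pr c)).1
      (D.off a (D.pr b) (D.pr c) - (D.co a (D.pr b) (D.pr c)).2.1 * D.fb b -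
        (D.co a (D.pr b) (D.pr c)).2.2 * D.fb c)
    refine ⟨D.mkP a ha i, ha, hl, ?_⟩
    show Eqn (D.co a (D.pr b) (D.pr c)) (D.off a (D.pr b) (D.pr c)) i (D.fb b) (D.fb c)
    unfold Eqn
    linear_combination hi
  e2 := by
    intro a c h
    obtain ⟨b, hb, hl⟩ := S.G.e2 (D.pr a) (D.pr c) h
    obtain ⟨i, hi⟩ := liftg_solve (D.unit (D.pr a) b (D.pr c)).2.1
      (D.off (D.pr a) b (D.pr c) - (D.co (D.pr a) b (D.pr c)).1 * D.fb a -
        (D.co (D.pr a) b (D.pr c)).2.2 * D.fb c)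
    refine ⟨D.mkP b hb i, hb, hl, ?_⟩
    show Eqn (D.co (D.pr a) b (D.pr c)) (D.off (D.pr a) b (D.pr c)) (D.fb a) i (D.fb c)
    unfold Eqn
    linear_combination hi
  e3 := by
    intro a b h
    obtain ⟨c, hc, hl⟩ := S.G.e3 (D.pr a) (D.pr b) h
    obtain ⟨i, hi⟩ := liftg_solve (D.unit (D.pr a) (D.pr b) c).2.2
      (D.off (D.pr a) (D.pr b) c - (D.co (D.pr a) (D.pr b) c).1 * D.fb a -
        (D.co (D.pr a) (D.pr b) c).2.1 * D.fb b)
    refine ⟨D.mkP c hc i, hc, hl, ?_⟩
    show Eqn (D.co (D.pr a) (D.pr b) c) (D.off (D.pr a) (D.pr b) c) (D.fb a) (D.fb b) i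
    unfold Eqn
    linear_combination hi
  t1 := by
    intro r c s b h hr hc hs hb
    rw [D.liftg_3 hb, D.liftg_1 hb, ← S.G.t1 h.1 hr hc hs hb]
    refine and_congr_right fun hl => ?_
    have h0 := D.liftg_0 h hr hc hs hb hl
    constructor
    · intro e
      linear_combination h0 - 3 * e
    · intro e
      refine (unit3 D.u30).mul_left_cancel ?_
      linear_combination h0 - e
  t2 := by
    intro r c s b h hr hc hs hb
    rw [D.liftg_3 hb, D.liftg_2 hb, ← S.G.t2 h.1 hr hc hs hb]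
    refine and_congr_right fun hl => ?_
    have h0 := D.liftg_0 h hr hc hs hb hl
    constructor
    · intro e
      linear_combination 2 * e - h0
    · intro e
      refine (unit2 D.u30).mul_left_cancel ?_
      linear_combination h0 + e

theorem lb_lab (p : D.Pt) : D.geo.lab p = true ↔ ∃ β a, D.lb β a = p := by
  constructor
  · intro h
    obtain ⟨β, a, e⟩ := (S.lb_lab (D.pr p)).1 h
    exact ⟨β, (a, ⟨D.fb p, p.2 h⟩), D.pt_ext e rfl⟩
  · rintro ⟨β, a, rfl⟩
    exact (S.lb_lab _).2 ⟨β, a.1, rfl⟩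

theorem lb_inj {β β' : S.B} {a a' : S.A × D.T} (h : D.lb β a = D.lb β' a') : β = β' ∧ a = a' := by
  have h1 := S.lb_inj (congrArg D.pr h)
  exact ⟨h1.1, Prod.ext h1.2 (Subtype.ext (congrArg D.fb h))⟩

theorem tf (a : S.A × D.T) (h : 6 • a = 0) : a = 0 := by
  refine Prod.ext (S.tf _ (congrArg Prod.fst h)) (Subtype.ext ?_)
  have h1 : (6 : ℕ) • (a.2 : R) = 0 := congrArg (fun x : S.A × D.T => (x.2 : R)) h
  rw [nsmul_eq_mul] at h1
  push_cast at h1
  refine ((unit2 D.u30).mul (unit3 D.u30)).mul_left_cancel ?_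
  show 2 * 3 * (a.2 : R) = 2 * 3 * 0
  linear_combination h1

theorem three {r c s : D.Pt} {β β' β'' : S.B} {a a' a'' : S.A × D.T}
    (h1 : D.geo.line r c (D.lb β a)) (h2 : D.geo.line r (D.lb β' a') s)
    (h3 : D.geo.line (D.lb β'' a'') c s) : β = β' ∧ β = β'' ∧ 3 • a'' = 2 • a' + a := by
  have hl : ∀ β a, D.lab (D.lb β a) = true := fun β a => (D.lb_lab _).2 ⟨β, a, rfl⟩
  obtain ⟨k1, e1⟩ := (D.liftg_3 (hl _ _)).1 h1
  obtain ⟨k2, e2⟩ := (D.liftg_2 (hl _ _)).1 h2
  obtain ⟨k3, e3⟩ := (D.liftg_1 (hl _ _)).1 h3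
  obtain ⟨b1, b2, b3⟩ := S.three k1 k2 k3
  refine ⟨b1, b2, Prod.ext b3 (Subtype.ext ?_)⟩
  show (3 : ℕ) • D.fb (D.lb β'' a'') = (2 : ℕ) • D.fb (D.lb β' a') + D.fb (D.lb β a)
  rw [nsmul_eq_mul, nsmul_eq_mul]
  push_cast
  linear_combination -e1 - e2 - e3

/-- Over a cell of the transversal `b` with fibres `i, j` lies the label with fibre `j - i`. -/
theorem line_lab {r c b : D.Pt} (hb : D.geo.lab b = true) :
    D.geo.line r c b ↔ S.G.line (D.pr r) (D.pr c) (D.pr b) ∧ D.fb b = D.fb c - D.fb r := by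
  refine (D.liftg_3 hb).trans (and_congr_right fun _ => ?_)
  constructor <;> intro h <;> linear_combination h

theorem ord [Finite R] : num (fun p => D.geo.lab p = false) = S.ord * Nat.card R := by
  refine num_fiber D.pr _ (fun _ h => h) fun y hy => ?_
  rw [← num_true]
  refine num_bij D.fb (fun _ _ => trivial) (fun p q hp hq e => D.pt_ext (hp.2.trans hq.2.symm) e)
    fun i _ => ⟨D.mkP y hy i, ⟨hy, rfl⟩, rfl⟩

end Pool.Agent.NL.LD
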