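import Pool.Agent.Work.MP_03d2dd_co.NL.LiftQ

/-! Counting plain quads in a lift.

Plan.  Use `num_fiber` with the map `x ↦ (pr x.1, pr x.2.1, pr x.2.2)` (`quad_pr`).  Over a base
completion `y` (a plain quad of colour `k`) the lifted completions are in bijection (`num_bij`,
`x ↦ (fb x.1, fb x.2.1, fb x.2.2)`, inverse by `mkP`, `quad_of`) with the solutions `Sol` of the
three remaining equations: `fiber`.  Their number is `Nat.card R` if `D.U k` (`D.on`, `on_num`)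
and 1 otherwise (`D.gen`, `gen_unique`, `num_one`). -/

namespace Pool.Agent.NL.LD

variable {S : Sys} {R : Type} [CommRing R] (D : LD S R)

def pr3 (x : D.Pt × D.Pt × D.Pt) : S.P × S.P × S.P := (D.pr x.1, D.pr x.2.1, D.pr x.2.2)

def fb3 (x : D.Pt × D.Pt × D.Pt) : R × R × R := (D.fb x.1, D.fb x.2.1, D.fb x.2.2)

/-- The equations of a completion of the lifted line `(a, b, c)` over `y`. -/
def SolAt (a b c : D.Pt) (y : S.P × S.P × S.P) (z : R × R × R) : Prop :=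
  Sol (D.co (D.pr a) y.2.1 y.2.2) (D.co y.1 (D.pr b) y.2.2) (D.co y.1 y.2.1 (D.pr c))
    (D.off (D.pr a) y.2.1 y.2.2) (D.off y.1 (D.pr b) y.2.2) (D.off y.1 y.2.1 (D.pr c))
    (D.fb a) (D.fb b) (D.fb c) z

/-- A completion of a lifted line is a quad iff it lies over a quad and solves the equations. -/
theorem quad_iff {a b c : D.Pt} (h : D.geo.line a b c) (x : D.Pt × D.Pt × D.Pt) :
    D.geo.Quad (mk6 a b c x) ↔
      S.G.Quad (mk6 (D.pr a) (D.pr b) (D.pr c) (D.pr3 x)) ∧ D.SolAt a b c (D.pr3 x) (D.fb3 x) := by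
  constructor
  · intro hq
    exact ⟨D.quad_pr hq, hq.1.2.1.2, hq.1.2.2.1.2, hq.1.2.2.2.2⟩
  · rintro ⟨hq, h1, h2, h3⟩
    exact D.quad_of (q := mk6 a b c x) hq ⟨h, ⟨hq.1.2.1, h1⟩, ⟨hq.1.2.2.1, h2⟩, ⟨hq.1.2.2.2, h3⟩⟩

open Classical in
theorem reg [Finite R] {a b c : D.Pt} (h : D.geo.line a b c) (k : S.C) :
    num (D.geo.RegP D.col a b c k) = S.N k * if D.U k then Nat.card R else 1 := by
  rw [← S.reg h.1 k]
  refine num_fiber D.pr3 _ (fun x hx => ⟨((D.quad_iff h x).1 hx.1).1, hx.2.1, hx.2.2⟩) ?_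
  rintro y ⟨hq, hc, p1, p2, p3⟩
  have e : num (fun x => D.geo.RegP D.col a b c k x ∧ D.pr3 x = y) = num (D.SolAt a b c y) := by
    refine num_bij D.fb3 (fun x hx => hx.2 ▸ ((D.quad_iff h x).1 hx.1.1).2)
      (fun x x' hx hx' e3 => ?_) fun z hz => ?_
    · have e1 := hx.2.trans hx'.2.symm
      refine Prod.ext (D.pt_ext ?_ ?_) (Prod.ext (D.pt_ext ?_ ?_) (D.pt_ext ?_ ?_))
      · exact congrArg (fun u => u.1) e1
      · exact congrArg (fun u => u.1) e3
      · exact congrArg (fun u => u.2.1) e1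
      · exact congrArg (fun u => u.2.1) e3
      · exact congrArg (fun u => u.2.2) e1
      · exact congrArg (fun u => u.2.2) e3
    · exact ⟨(D.mkP _ p1 z.1, D.mkP _ p2 z.2.1, D.mkP _ p3 z.2.2),
        ⟨⟨(D.quad_iff h _).2 ⟨hq, hz⟩, hc, p1, p2, p3⟩, rfl⟩, rfl⟩
  rw [e]
  split_ifs with hk
  · obtain ⟨o1, o2⟩ := D.on _ k hq hc hk
    exact on_num o1 (D.u3' _ _ _) (D.u3' _ _ _) (D.u3' _ _ _) (D.u3' _ _ _) o2 h.2
  · exact num_one (gen_unique (D.gen _ k hq hc hk).1)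

end Pool.Agent.NL.LD
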