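import Pool.Agent.Work.MP_03d2dd_co.NL.LiftG

/-! Quads of a lift lie over quads.

Plan.  `quad_pr`: the projected configuration has four base lines.  Suppose it is no quad.
By `Geo.degen` and `Geo.degen_spec` either the four base lines coincide; then the four equations
have the same unit coefficients and offset, and subtracting them gives `2 * C * (k0 - k1) = 0`,
so `s0 = s1`; or all four lines are `Spec`, the coefficients are `t0` with offset 0, and two of
the three pairs have equal base points: for `r0 = r1`, `c0 = c1`, one symbol a label one gets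
`5 * (i0 - i1) = 0`; for `r0 = r1`, `s0 = s1` one gets `4 * (i0 - i1) = 0`; for `c0 = c1`,
`s0 = s1` one gets `j0 = j1` (each in two mirror images).  In all cases two points of the lifted
quad coincide.
`sep`: `On` projects to `On`; base `sep` gives no label point and equal base labels; two
different plain lines of a quad cannot carry the same label (`same_row`, `same_col`, `same_sym`),
so both lifted labels sit on the same line and `u3` applies. -/

namespace Pool.Agent.NL.LD

variable {S : Sys} {R : Type} [CommRing R] (D : LD S R)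

theorem liftq_eq {a b c : D.Pt} (h : D.line a b c) (hs : S.G.Spec (D.pr a) (D.pr b) (D.pr c)) :
    Eqn (cst R (t0 (S.G.lab (D.pr a)) (S.G.lab (D.pr b)) (S.G.lab (D.pr c)))) 0
      (D.fb a) (D.fb b) (D.fb c) := by
  have e := h.2
  obtain ⟨e1, e2⟩ := D.spec h.1 hs
  rw [e1, e2] at e
  exact e

theorem quad_pr {q : Six D.Pt} (h : D.geo.Quad q) : S.G.Quad (q.map D.pr) := by
  obtain ⟨r0, c0, s0, r1, c1, s1⟩ := q
  obtain ⟨⟨l00, l01, l10, l11⟩, hr, hc, hs⟩ := h
  dsimp only at l00 l01 l10 l11 hr hc hs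
  have hb : (Six.map D.pr ⟨r0, c0, s0, r1, c1, s1⟩).All S.G.line := ⟨l00.1, l01.1, l10.1, l11.1⟩
  by_contra hn
  have u2 := unit2 D.u30
  have u5 := unit5 D.u30
  have same : D.pr r0 = D.pr r1 → D.pr c0 = D.pr c1 → D.pr s0 = D.pr s1 → False := by
    intro a b c
    have e00 := l00.2
    have e01 := l01.2
    have e10 := l10.2
    have e11 := l11.2
    rw [← b, ← c] at e01
    rw [← a, ← c] at e10
    rw [← a, ← b] at e11
    unfold Eqn at e00 e01 e10 e11
    refine hs (D.pt_ext c ((u2.mul (D.unit (D.pr r0) (D.pr c0) (D.pr s0)).2.2).mul_left_cancel ?_))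
    linear_combination e00 + e11 - e01 - e10
  rcases S.G.degen_spec hb hn with ⟨a, b, c⟩ | ⟨-, p00, p01, p10, p11⟩
  · exact same a b c
  have e00 := D.liftq_eq l00 p00
  have e01 := D.liftq_eq l01 p01
  have e10 := D.liftq_eq l10 p10
  have e11 := D.liftq_eq l11 p11
  have hd := S.G.degen hb hn
  dsimp only [Six.map] at hd
  rcases hd with ⟨a, b, e | e⟩ | ⟨a, b, e⟩ | ⟨a, b, e⟩
  · exact same a b e
  · rw [← b] at e01 e11
    rw [← a] at e10 e11
    refine hr (D.pt_ext a (u5.mul_left_cancel ?_))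
    rcases Geo.bool_ne e with ⟨x, y⟩ | ⟨y, x⟩
    · obtain ⟨v, w⟩ := S.G.lab3 l00.1 x
      simp only [x, y, v, w, t0, Eqn, cst] at e00 e01 e10 e11
      norm_num at e00 e01 e10 e11
      linear_combination 2 * e00 - 2 * e11 + e01 - e10
    · obtain ⟨v, w⟩ := S.G.lab3 l01.1 x
      rw [← b] at w
      simp only [x, y, v, w, t0, Eqn, cst] at e00 e01 e10 e11
      norm_num at e00 e01 e10 e11
      linear_combination e00 - e11 + 2 * e01 - 2 * e10
  · rw [← b] at e01 e10
    rw [← a] at e10 e11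
    refine hr (D.pt_ext a ((u2.mul u2).mul_left_cancel ?_))
    rcases Geo.bool_ne e with ⟨x, y⟩ | ⟨y, x⟩
    · obtain ⟨v, w⟩ := S.G.lab2 l00.1 x
      simp only [x, y, v, w, t0, Eqn, cst] at e00 e01 e10 e11
      norm_num at e00 e01 e10 e11
      linear_combination e01 - e11 - e00 + e10
    · obtain ⟨v, w⟩ := S.G.lab2 l11.1 x
      rw [← a] at v
      simp only [x, y, v, w, t0, Eqn, cst] at e00 e01 e10 e11
      norm_num at e00 e01 e10 e11
      linear_combination e00 - e10 - e01 + e11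
  · rw [← b] at e01 e10
    rw [← a] at e01 e11
    refine hc (D.pt_ext a ?_)
    rcases Geo.bool_ne e with ⟨x, y⟩ | ⟨y, x⟩
    · have v := S.G.one12 l00.1 x
      have w := S.G.one13 l00.1 x
      simp only [x, y, v, w, t0, Eqn, cst] at e00 e01 e10 e11
      norm_num at e00 e01 e10 e11
      linear_combination e01 - e00 - e10 + e11
    · have v := S.G.one12 l10.1 x
      have w := S.G.one13 l11.1 x
      simp only [x, y, v, w, t0, Eqn, cst] at e00 e01 e10 e11
      norm_num at e00 e01 e10 e11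
      linear_combination e11 - e10 - e00 + e01

theorem quad_of {q : Six D.Pt} (h : S.G.Quad (q.map D.pr)) (hl : q.All D.geo.line) :
    D.geo.Quad q :=
  ⟨hl, fun e => h.2.1 (congrArg D.pr e), fun e => h.2.2.1 (congrArg D.pr e),
    fun e => h.2.2.2 (congrArg D.pr e)⟩

theorem four : D.geo.Four := fun _ h => S.four _ (D.quad_pr h)

theorem liftq_on {q : Six D.Pt} {b : D.Pt} (h : D.geo.On q b) :
    S.G.On (q.map D.pr) (D.pr b) :=
  ⟨h.1, h.2.imp (fun k => ⟨k.1, k.2.1⟩) fun k => k.imp (fun k => ⟨k.1, k.2.1⟩) fun k =>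
    k.imp (fun k => ⟨k.1, k.2.1⟩) fun k => ⟨k.1, k.2.1⟩⟩

theorem sep : D.geo.Sep D.col := by
  intro q b hq hcol hon
  have hQ := D.quad_pr hq
  obtain ⟨h1, h2⟩ := S.sep _ _ hQ hcol (D.liftq_on hon)
  refine ⟨h1, fun b' hon' => ?_⟩
  have e := h2 _ (D.liftq_on hon')
  obtain ⟨⟨l00, l01, l10, l11⟩, hr, hc, -⟩ := hQ
  obtain ⟨hb, k⟩ := hon
  obtain ⟨hb', k'⟩ := hon'
  have hl : D.geo.lab b' = D.geo.lab b := hb'.trans hb.symm
  have tr : ∀ {x y : D.Pt}, D.geo.line x y b' → S.G.line (D.pr x) (D.pr y) (D.pr b) :=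
    fun m => e ▸ m.1
  rcases k with ⟨p, k⟩ | ⟨p, k⟩ | ⟨p, k⟩ | ⟨p, k⟩ <;>
    rcases k' with ⟨-, k'⟩ | ⟨-, k'⟩ | ⟨-, k'⟩ | ⟨-, k'⟩
  · exact D.geo.u3 k' k hl
  · exact absurd (S.G.same_row hb k.1 (tr k')) hc
  · exact absurd (S.G.same_col hb k.1 (tr k')) hr
  · exact absurd (S.G.same_sym l00 l11 p hb k.1 (tr k')).1 hr
  · exact absurd (S.G.same_row hb (tr k') k.1) hc
  · exact D.geo.u3 k' k hl
  · exact absurd (S.G.same_sym l01 l10 p hb k.1 (tr k')).1 hr
  · exact absurd (S.G.same_col hb k.1 (tr k')) hr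
  · exact absurd (S.G.same_col hb (tr k') k.1) hr
  · exact absurd (S.G.same_sym l01 l10 p hb (tr k') k.1).1 hr
  · exact D.geo.u3 k' k hl
  · exact absurd (S.G.same_row hb k.1 (tr k')) hc
  · exact absurd (S.G.same_sym l00 l11 p hb (tr k') k.1).1 hr
  · exact absurd (S.G.same_col hb (tr k') k.1) hr
  · exact absurd (S.G.same_row hb (tr k') k.1) hc
  · exact D.geo.u3 k' k hl

theorem spec_pr {a b c : D.Pt} (h : D.geo.Spec a b c) : S.G.Spec (D.pr a) (D.pr b) (D.pr c) := by
  rcases h with h | h | h | ⟨x, h, k⟩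
  · exact Or.inl h
  · exact Or.inr (Or.inl h)
  · exact Or.inr (Or.inr (Or.inl h))
  · exact Or.inr (Or.inr (Or.inr ⟨D.pr x, h, k.1⟩))

end Pool.Agent.NL.LD
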