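import Pool.Agent.Work.MP_03d2dd_co.NL.Outer
import Pool.Agent.Work.MP_03d2dd_co.NL.Inner
import Pool.Agent.Work.MP_03d2dd_co.NL.CovB

/-! All large orders for one `h`.

Plan.  Put `P = 19 ^ k`, `m = 1607970`, `W = 3 * m * P ^ 2`, `b = DP 84630 W` (coprime to 84630,
so positive and odd), `F = 15 * 11 * 71 * 19 * b`, and take `C` from `inner_ex`.
For `h` large take `v, t, g` from `outer`; then `v ≥ 3 * m * P ^ 2`.  Let `x0 = v % 2` and let `l`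
be the largest `y` with `3 * m * P ^ (x0 + 2 * y + 1) ≤ v + 2 * m` (`Nat.findGreatest` or
`Nat.find` on the first failure); `L = x0 + 2 * l`; then `P ^ (L + 1) ≤ v ≤ h`.
`choose` the numbers `uy y` of `outer` for `x = x0 + 2 * y`, `y ≤ l`.  By maximality
`uy l ≤ W`, so `uy l ∣ b` (`dvd_DP`).  Use `chain` with `τ = 7 ^ (L + 3)`, `c = b * P ^ (x0 + 2)`,
`R = P ^ 2`, `Ty y = t2 ^ (x0 + 2 * y + 2) * t`, `gy y = 7 ^ (x0 + 2 * y + 2) * g`,
`T = Y = β ^ (L + 3)`, `Q = Y * b * h`, `w = l / s + 1`, `ρ = R ^ w`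
(`ρ ^ s ≤ P ^ (2 * s) * P ^ (2 * l)`).  The start is `cov_base` with `M = 30 * Ty l * uy l * c`,
which divides a power of `2 * F` and is at most `30 * Y * W * b * P ^ 3`, and `Q = C * h`.
Take `U = K0 * h * ρ * Y ^ 63` with `K0 = C * (60 * W * b * P ^ 3) ^ 62 + b * (1 + 60 * W)`
and `K = 6 ^ (s + 1) * K0`.  Split this into lemmas on plain inequalities; never evaluate `b`. -/

namespace Pool.Agent.NL

open Pool.Agent.Work.MP_03d2dd_co

theorem mainh_pos {a n : ℕ} (h : Nat.Coprime a n) (hn : n ≠ 1) : 0 < a := by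
  rcases Nat.eq_zero_or_pos a with rfl | h0
  · exact absurd ((Nat.coprime_zero_left n).1 h) hn
  · exact h0

theorem mainh_find {A B P x0 : ℕ} (hP : 2 ≤ P) (hA : 0 < A) (h0 : A * P ^ (x0 + 1) ≤ B) :
    ∃ l, (∀ y ≤ l, A * P ^ (x0 + 2 * y + 1) ≤ B) ∧ B < A * P ^ (x0 + 2 * (l + 1) + 1) := by
  have hex : ∃ y, B < A * P ^ (x0 + 2 * (y + 1) + 1) := by
    refine ⟨B, lt_of_lt_of_le ?_ (Nat.le_mul_of_pos_left _ hA)⟩
    have := Nat.lt_pow_self (n := x0 + 2 * (B + 1) + 1) (show 1 < P from hP)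
    omega
  refine ⟨Nat.find hex, fun y hy => ?_, Nat.find_spec hex⟩
  rcases y with _ | y
  · exact h0
  · exact not_lt.1 (Nat.find_min hex hy)

theorem mainh_base {τ Y C h M A ρ : ℕ} (K : ℕ) (h1 : τ ≤ Y) (h2 : M ≤ 30 * Y * A) (h3 : 0 < ρ) :
    τ * (C * h) * (2 * M) ^ 62 ≤ (C * (60 * A) ^ 62 + K) * h * ρ * Y ^ 63 := by
  have a1 : 2 * M ≤ 60 * A * Y := by nlinarith
  have a2 := Nat.pow_le_pow_left a1 62
  rw [mul_pow (60 * A) Y] at a2
  generalize (60 * A) ^ 62 = X at *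
  calc τ * (C * h) * (2 * M) ^ 62 ≤ Y * (C * h) * (X * Y ^ 62) :=
        Nat.mul_le_mul (Nat.mul_le_mul_right _ h1) a2
    _ = C * X * h * 1 * Y ^ 63 := by ring
    _ ≤ _ := Nat.mul_le_mul_right _
        (Nat.mul_le_mul (Nat.mul_le_mul_right _ (Nat.le_add_right _ _)) h3)

theorem mainh_step {τ Y b h T u W ρ : ℕ} (K : ℕ) (h1 : τ ≤ Y) (h2 : T ≤ Y) (h3 : u ≤ W)
    (h4 : 0 < ρ) (h5 : 0 < Y) :
    Y * b * h * τ * (1 + 30 * T * u * (1 + ρ)) ≤ (K + b * (1 + 60 * W)) * h * ρ * Y ^ 63 := by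
  have a1 : 30 * T * u * (1 + ρ) ≤ 30 * Y * W * (ρ + ρ) :=
    Nat.mul_le_mul (Nat.mul_le_mul (Nat.mul_le_mul_left _ h2) h3) (by omega)
  have a2 : 1 ≤ Y * ρ := Nat.mul_pos h5 h4
  calc Y * b * h * τ * (1 + 30 * T * u * (1 + ρ))
      ≤ Y * b * h * Y * (Y * ρ + 30 * Y * W * (ρ + ρ)) :=
        Nat.mul_le_mul (Nat.mul_le_mul_left _ h1) (Nat.add_le_add a2 a1)
    _ = b * (1 + 60 * W) * h * ρ * Y ^ 3 := by ring
    _ ≤ _ := Nat.mul_le_mul (Nat.mul_le_mul_right _ (Nat.mul_le_mul_right _ (Nat.le_add_left _ _)))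
        (Nat.pow_le_pow_right h5 (by norm_num))

theorem mainh_fin {Y : ℕ} (K h ρ s : ℕ) (h5 : 0 < Y) :
    (4 * Y + 2) ^ (s + 1) * (K * h * ρ * Y ^ 63) ≤ 6 ^ (s + 1) * K * h * ρ * Y ^ (s + 64) :=
  calc (4 * Y + 2) ^ (s + 1) * (K * h * ρ * Y ^ 63) ≤ (6 * Y) ^ (s + 1) * (K * h * ρ * Y ^ 63) :=
        Nat.mul_le_mul_right _ (Nat.pow_le_pow_left (by omega) _)
    _ = _ := by ring
theorem main_h {t1 t2 e1 e2 k β s : ℕ} (G2 : Rep ∅ t2 1 7 2) (s1 : StepOk t1 14 1 (19 ^ k))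
    (s2 : StepOk t2 7 2 (19 ^ k)) (hk : 1 ≤ k) (v1 : Even t1) (v2 : Even t2)
    (d1 : t1 ∣ 4686 ^ e1) (d2 : t2 ∣ 4686 ^ e2) (b1 : t1 ≤ β) (b2 : t2 ≤ β) (b7 : 7 ≤ β)
    (hs : 1 ≤ s) :
    ∃ K h0, ∀ h, h0 ≤ h → ∃ L ρ, (19 ^ k) ^ (L + 1) ≤ h ∧ ρ ^ s ≤ (19 ^ k) ^ (2 * s) * h ∧
      ∀ n, K * h * ρ * (β ^ (L + 3)) ^ (s + 64) ≤ n → Adm h n → Ex n (h + 1) := by
  have hP19 : ∀ a, Nat.Coprime a 19 → Nat.Coprime a (19 ^ k) := fun a h => h.pow_right k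
  have hP : 2 ≤ 19 ^ k := le_trans (by norm_num) (Nat.pow_le_pow_right (by norm_num) hk)
  have hPF : Nat.Coprime (19 ^ k) 84630 := Nat.Coprime.pow_left k (by norm_num)
  generalize 19 ^ k = P at *
  have hP0 : 0 < P := by omega
  obtain ⟨W, hW⟩ : ∃ W, W = 3 * 1607970 * P ^ 2 := ⟨_, rfl⟩
  obtain ⟨b, hb⟩ : ∃ b, b = DP 84630 W := ⟨_, rfl⟩
  have hbc : Nat.Coprime b 84630 := hb ▸ DP_coprime _ _
  have hbd : ∀ d ≤ W, Nat.Coprime d 84630 → d ∣ b := fun d h1 h2 => hb ▸ dvd_DP h1 h2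
  have hb0 : 0 < b := mainh_pos hbc (by norm_num)
  obtain ⟨C, hC⟩ := inner_ex (F := 15 * 11 * 71 * 19 * b)
    (Nat.Coprime.mul_left (by norm_num) (hbc.coprime_dvd_right (by norm_num)))
    (Dvd.dvd.mul_right (by norm_num) b)
  refine ⟨6 ^ (s + 1) * (C * (60 * (W * (b * P ^ 3))) ^ 62 + b * (1 + 60 * W)),
    C + 2 + (W + 84630) * (2 * P), fun h hh => ?_⟩
  have hWP : 1607970 * P ≤ W := by
    rw [hW]
    nlinarith
  obtain ⟨v, t, g, htg, hv1, hv2, hv3⟩ := outer (h := h) G2 s1 s2 hP hPF hWP (by nlinarith)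
  rw [← hb] at hv3
  have hWv : W ≤ v := by
    have : (W + 84630) * (2 * P) < (v + 84630) * (2 * P) := by omega
    have := Nat.lt_of_mul_lt_mul_right this
    omega
  obtain ⟨x0, hx0, hx1⟩ : ∃ x0, x0 ≤ 1 ∧ ∀ y, Even (v + (x0 + 2 * y)) :=
    ⟨v % 2, by omega, fun y => Nat.even_iff.2 (by omega)⟩
  obtain ⟨l, hl1, hl2⟩ := mainh_find (A := 3 * 1607970) (B := v + 2 * 1607970) (x0 := x0) hP
    (by norm_num) (by
      have : P ^ (x0 + 1) ≤ P ^ 2 := Nat.pow_le_pow_right hP0 (by omega)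
      omega)
  have hu := fun y (hy : y ≤ l) => hv3 (x0 + 2 * y) (hx1 y) (hl1 y hy)
  choose! uy u1 u2 u3 using hu
  have hvh : v ≤ h := le_trans (Nat.le_mul_of_pos_right v hP0) hv1
  have hLh : P ^ (x0 + 2 * l + 1) ≤ h := by
    have a1 := hl1 l le_rfl
    have a2 : 0 < P ^ (x0 + 2 * l + 1) := by positivity
    omega
  have hul : uy l ≤ W := by
    have a1 := u2 l le_rfl
    have a2 : 3 * 1607970 * P ^ (x0 + 2 * (l + 1) + 1) = W * P ^ (x0 + 2 * l + 1) := by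
      rw [hW]
      ring
    have a3 := Nat.le_mul_of_pos_left (P ^ (x0 + 2 * l + 1))
      (show 0 < W by rw [hW]; positivity)
    have a4 : uy l * P ^ (x0 + 2 * l + 1) ≤ W * P ^ (x0 + 2 * l + 1) := by omega
    exact Nat.le_of_mul_le_mul_right a4 (by positivity)
  have hub : uy l ∣ b := hbd _ hul ((u1 l le_rfl).coprime_dvd_right (by norm_num))
  have ht : Even t ∧ t ≤ β ∧ ∃ e, t ∣ 4686 ^ e := by
    rcases htg with ⟨rfl, -⟩ | ⟨rfl, -⟩
    exacts [⟨v1, b1, e1, d1⟩, ⟨v2, b2, e2, d2⟩]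
  obtain ⟨te, tβ, e, td⟩ := ht
  have hT : ∀ y q, Nat.Coprime q 4686 → Nat.Coprime q (t2 ^ (x0 + 2 * y + 2) * t) :=
    fun y q hq => Nat.Coprime.mul_right
      (((hq.pow_right e2).coprime_dvd_right d2).pow_right _) ((hq.pow_right e).coprime_dvd_right td)
  have hT0 : ∀ y, 0 < t2 ^ (x0 + 2 * y + 2) * t := fun y =>
    mainh_pos (hT y 19 (by norm_num)).symm (by norm_num)
  have hTY : ∀ y ≤ l, t2 ^ (x0 + 2 * y + 2) * t ≤ β ^ (x0 + 2 * l + 3) := fun y hy =>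
    calc t2 ^ (x0 + 2 * y + 2) * t ≤ β ^ (x0 + 2 * y + 2) * β :=
          Nat.mul_le_mul (Nat.pow_le_pow_left b2 _) tβ
      _ = β ^ (x0 + 2 * y + 3) := (pow_succ _ _).symm
      _ ≤ _ := Nat.pow_le_pow_right (by omega) (by omega)
  have hτY : 7 ^ (x0 + 2 * l + 3) ≤ β ^ (x0 + 2 * l + 3) := Nat.pow_le_pow_left b7 _
  have hY0 : 0 < β ^ (x0 + 2 * l + 3) := pow_pos (by omega) _
  have hu0 : ∀ y ≤ l, 0 < uy y := fun y hy => mainh_pos (u1 y hy) (by norm_num)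
  refine ⟨x0 + 2 * l, (P ^ 2) ^ (l / s + 1), hLh, ?_, fun n hn hA => ?_⟩
  · have a1 := Nat.div_mul_le_self l s
    calc ((P ^ 2) ^ (l / s + 1)) ^ s = P ^ (2 * s + 2 * (l / s * s)) := by
          rw [← pow_mul, ← pow_mul]
          congr 1
          ring
      _ ≤ P ^ (2 * s + (x0 + 2 * l + 1)) := Nat.pow_le_pow_right hP0 (by omega)
      _ ≤ _ := by
          rw [pow_add]
          exact Nat.mul_le_mul_left _ hLh
  have hρ : 0 < (P ^ 2) ^ (l / s + 1) := by positivity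
  have hM : ∀ q, Nat.Coprime q 30 → Nat.Coprime q 4686 → Nat.Coprime q b → Nat.Coprime q 19 →
      Nat.Coprime q (30 * (t2 ^ (x0 + 2 * l + 2) * t) * uy l * (b * P ^ (x0 + 2))) :=
    fun q q1 q2 q3 q4 => ((q1.mul_right (hT l q q2)).mul_right (q3.coprime_dvd_right hub)).mul_right
      (q3.mul_right ((hP19 q q4).pow_right _))
  have hMq : ∀ q, Nat.Coprime q (2 * (15 * 11 * 71 * 19 * b)) →
      Nat.Coprime q (30 * (t2 ^ (x0 + 2 * l + 2) * t) * uy l * (b * P ^ (x0 + 2))) := by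
    intro q hq
    rw [← mul_assoc] at hq
    have q1 := hq.coprime_mul_right_right
    exact hM q (q1.coprime_dvd_right (by norm_num)) (q1.coprime_dvd_right (by norm_num))
      hq.coprime_mul_left_right (q1.coprime_dvd_right (by norm_num))
  have hτ : ∀ a, Nat.Coprime 13 a → Nat.Coprime 7 a →
      Nat.Coprime (13 * 7 ^ (x0 + 2 * l + 3)) a := fun a h1 h2 => h1.mul_left (h2.pow_left _)
  obtain ⟨E2, E1⟩ := hC h (by omega)
  have base := cov_base (h := h) (τ := 7 ^ (x0 + 2 * l + 3)) (Q := C * h)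
    (M := 30 * (t2 ^ (x0 + 2 * l + 2) * t) * uy l * (b * P ^ (x0 + 2)))
    ((((by decide : Even 30).mul_right _).mul_right _).mul_right _)
    (by have := hT0 l; have := hu0 l le_rfl; positivity)
    (hM _ (hτ _ (by norm_num) (by norm_num)) (hτ _ (by norm_num) (by norm_num))
      (hτ _ (hbc.coprime_dvd_right (by norm_num)).symm (hbc.coprime_dvd_right (by norm_num)).symm)
      (hτ _ (by norm_num) (by norm_num)))
    (let ⟨q, a1, a2, a3⟩ := E2; ⟨q, a1, a2, hMq q a3⟩)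
    (fun h4 => let ⟨q, a1, a2, a3⟩ := E1 h4; ⟨q, a1, a2, hMq q a3⟩)
  have hMle : 30 * (t2 ^ (x0 + 2 * l + 2) * t) * uy l * (b * P ^ (x0 + 2)) ≤
      30 * β ^ (x0 + 2 * l + 3) * (W * (b * P ^ 3)) := by
    rw [mul_assoc]
    exact Nat.mul_le_mul (Nat.mul_le_mul_left _ (hTY l le_rfl)) (Nat.mul_le_mul hul
      (Nat.mul_le_mul_left _ (Nat.pow_le_pow_right hP0 (by omega))))
  refine chain (τ := 7 ^ (x0 + 2 * l + 3)) (c := b * P ^ (x0 + 2)) (R := P ^ 2)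
    (T := β ^ (x0 + 2 * l + 3)) (Q := β ^ (x0 + 2 * l + 3) * b * h) (l := l) (w := l / s + 1)
    (s := s) (U := (C * (60 * (W * (b * P ^ 3))) ^ 62 + b * (1 + 60 * W)) * h *
      (P ^ 2) ^ (l / s + 1) * (β ^ (x0 + 2 * l + 3)) ^ 63)
    (fun y => t2 ^ (x0 + 2 * y + 2) * t) uy (fun y => 7 ^ (x0 + 2 * y + 2) * g)
    (fun y hy => ?_) (by omega) (by positivity) (by positivity)
    (Nat.Coprime.pow_left _ (by norm_num))
    (base.mono dvd_rfl (mainh_base _ hτY hMle hρ))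
    (mainh_step _ hτY (hTY l le_rfl) hul hρ hY0) (Nat.lt_mul_div_succ l hs).le
    ((mainh_fin _ _ _ _ hY0).trans hn) hA
  have ea : uy y * (b * P ^ (x0 + 2)) * (P ^ 2) ^ y = uy y * b * P ^ (x0 + 2 * y + 2) := by ring
  refine ⟨ea ▸ u3 y hy, fun N h1 h2 => ?_, te.mul_left _, hT0 y, hTY y hy, hu0 y hy, ?_, ?_⟩
  · have a1 : 7 ^ (x0 + 2 * y + 2) * 7 ∣ N :=
      Dvd.dvd.trans (by rw [← pow_succ]; exact pow_dvd_pow 7 (by omega)) h1
    rcases htg with ⟨-, rfl, ho⟩ | ⟨-, rfl⟩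
    · have a2 : 2 ∣ N := by
        rcases h2 with h2 | h2
        · exact h2.two_dvd
        · rw [Nat.odd_iff] at ho
          omega
      rw [show 7 ^ (x0 + 2 * y + 2) * 14 = 7 ^ (x0 + 2 * y + 2) * 7 * 2 by ring]
      exact Nat.Coprime.mul_dvd_of_dvd_of_dvd
        (Nat.Coprime.mul_left (Nat.Coprime.pow_left _ (by norm_num)) (by norm_num)) a1 a2
    · exact a1
  · refine (hP19 _ ?_).pow_right 2
    exact ((hT y 19 (by norm_num)).symm.mul_left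
      ((u1 y hy).coprime_dvd_right (by norm_num))).mul_left (Nat.Coprime.pow_left _ (by norm_num))
  · rw [ea, mul_assoc (β ^ _)]
    refine Nat.mul_le_mul (hTY y hy) ?_
    calc uy y * b * P ^ (x0 + 2 * y + 2) = b * (uy y * P ^ (x0 + 2 * y + 1) * P) := by ring
      _ ≤ b * (v * P) := Nat.mul_le_mul_left _ (Nat.mul_le_mul_right _ (u2 y hy))
      _ ≤ b * h := Nat.mul_le_mul_left _ hv1

end Pool.Agent.NL
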