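import Pool.Agent.Work.MP_03d2dd_co.NL.Defs
import Mathlib.Data.Fintype.BigOperators

/-! Counting lemmas for `num`. -/

namespace Pool.Agent.NL

variable {α β : Type}

theorem num_eq_card [Fintype α] (p : α → Prop) [DecidablePred p] :
    num p = (Finset.univ.filter p).card := by
  rw [num, Nat.card_eq_fintype_card, Fintype.card_subtype]

theorem num_congr {p q : α → Prop} (h : ∀ x, p x ↔ q x) : num p = num q := by
  rw [show p = q from funext fun x => propext (h x)]

/-- Counting through a bijection. -/
theorem num_bij {p : α → Prop} {q : β → Prop} (f : α → β) (h1 : ∀ x, p x → q (f x))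
    (h2 : ∀ x y, p x → p y → f x = f y → x = y) (h3 : ∀ y, q y → ∃ x, p x ∧ f x = y) :
    num p = num q :=
  Nat.card_eq_of_bijective (fun x : {x // p x} => (⟨f x.1, h1 _ x.2⟩ : {y // q y}))
    ⟨fun x y e => Subtype.ext (h2 _ _ x.2 y.2 (congrArg Subtype.val e)),
      fun y => let ⟨x, a, b⟩ := h3 y.1 y.2; ⟨⟨x, a⟩, Subtype.ext b⟩⟩

theorem num_zero {p : α → Prop} (h : ∀ x, ¬p x) : num p = 0 := by
  have : IsEmpty {x // p x} := ⟨fun x => h _ x.2⟩
  exact Nat.card_of_isEmpty

theorem num_one {p : α → Prop} (h : ∃! x, p x) : num p = 1 := by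
  obtain ⟨x, a, b⟩ := h
  exact Nat.card_eq_one_iff_exists.2 ⟨⟨x, a⟩, fun y => Subtype.ext (b _ y.2)⟩

theorem num_true : num (fun _ : α => True) = Nat.card α :=
  Nat.card_congr (Equiv.Set.univ α)

theorem num_or [Finite α] {p q : α → Prop} (h : ∀ x, p x → q x → False) :
    num (fun x => p x ∨ q x) = num p + num q := by
  classical
  have := Fintype.ofFinite α
  rw [num_eq_card, num_eq_card, num_eq_card, Finset.filter_or, Finset.card_union_of_disjoint]
  exact Finset.disjoint_filter.2 fun x _ a b => h x a b

theorem num_split [Finite α] (p q : α → Prop) :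
    num p = num (fun x => p x ∧ q x) + num fun x => p x ∧ ¬q x := by
  rw [← num_or fun x a b => b.2 a.2]
  exact num_congr fun x => by tauto

theorem num_sum [Finite α] [Fintype β] (p : α → Prop) (f : α → β) :
    num p = ∑ y, num fun x => p x ∧ f x = y := by
  classical
  have := Fintype.ofFinite α
  simp only [num_eq_card]
  rw [Finset.card_eq_sum_card_fiberwise (f := f) (t := Finset.univ) (by simp)]
  simp [Finset.filter_filter]

/-- Counting through a map with fibres of constant size. -/
theorem num_fiber [Finite α] [Finite β] {p : α → Prop} {q : β → Prop} (f : α → β) (m : ℕ)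
    (h1 : ∀ x, p x → q (f x)) (h2 : ∀ y, q y → num (fun x => p x ∧ f x = y) = m) :
    num p = num q * m := by
  classical
  have := Fintype.ofFinite β
  rw [num_sum p f, num_eq_card q, Finset.card_filter, Finset.sum_mul]
  refine Finset.sum_congr rfl fun y _ => ?_
  split_ifs with h
  · rw [h2 y h, one_mul]
  · rw [zero_mul]
    exact num_zero fun x a => h (a.2 ▸ h1 x a.1)

theorem num_le [Finite α] {p q : α → Prop} (h : ∀ x, p x → q x) : num p ≤ num q := by
  rw [num_split q p, num_congr (p := fun x => q x ∧ p x) (q := p) fun x => ⟨fun a => a.2,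
    fun a => ⟨h x a, a⟩⟩]
  exact Nat.le_add_right _ _

end Pool.Agent.NL
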