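import Pool.Agent.Work.MP_03d2dd_co.NL.Dig

/-! The family of systems with labels.  Here `84630 = 210 * 13 * 31` and `1607970 = 19 * 84630`.

Plan.  If `h` is odd, `digit1` with `R = 2 * P` and modulus `42315` gives `h = v * (2 * P) + d`
with `d` odd and coprime to `84630`; the last step uses the first gadget.  If `h = 2 * h'`,
`digit1` for `h'` with `R = P` and modulus `84630`; the last step uses the second gadget.
Then `horner` for the second gadget with `F = 84630`, `E = 19`, the last step, and `closeDS`. -/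

namespace Pool.Agent.NL

theorem outer_cop {d F : ℕ} (h : d ≡ 1 [MOD F]) : Nat.Coprime d F := by
  unfold Nat.Coprime
  rw [h.gcd_eq, Nat.gcd_one_left]

/-- The Horner scheme, one more step and the closing product. -/
theorem outer_last {t t2 g j P W v d : ℕ} (G2 : Rep ∅ t2 1 7 2) (s : StepOk t g j P)
    (s2 : StepOk t2 7 2 P) (hP : 2 ≤ P) (hPF : Nat.Coprime P 84630) (hW : 1607970 * P ≤ W)
    (hd : Nat.Coprime d 84630) (hdW : d ≤ W) (x : ℕ) (hx : Even (v + x))
    (hv : 3 * 1607970 * P ^ (x + 1) ≤ v + 2 * 1607970) :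
    ∃ u, Nat.Coprime u 1607970 ∧ u * P ^ (x + 1) ≤ v ∧
      Rep ∅ (t2 ^ (x + 2) * t * (u * DP 84630 W * P ^ (x + 2)))
        (u * DP 84630 W * P ^ (x + 2)) (7 ^ (x + 2) * g) (2 * v * P + j * d) := by
  obtain ⟨u, h1, h2, h3⟩ := horner (F := 84630) (E := 19) (W := W) G2 s2 hP hPF (by norm_num)
    (by norm_num) (by norm_num) (by norm_num) hW x v hx hv
  refine ⟨u, h1, h2, ?_⟩
  have h4 := (s _ _ _ _ _ d h3 (mem_DS.2 ⟨hdW, hd⟩)).closeDS (by norm_num)
  generalize DP 84630 W = b at h4 ⊢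
  have e1 : t2 ^ (x + 2) * (u * P ^ (x + 1)) * (t * P) * b =
      t2 ^ (x + 2) * t * (u * b * P ^ (x + 2)) := by ring
  have e2 : u * P ^ (x + 1) * P * b = u * b * P ^ (x + 2) := by ring
  rwa [e1, e2] at h4

theorem outer {t1 t2 P W h : ℕ} (G2 : Rep ∅ t2 1 7 2) (s1 : StepOk t1 14 1 P)
    (s2 : StepOk t2 7 2 P) (hP : 2 ≤ P) (hPF : Nat.Coprime P 84630) (hW : 1607970 * P ≤ W)
    (hh : 84630 * (2 * P) ≤ h) :
    ∃ v t g, (t = t1 ∧ g = 14 ∧ Odd h ∨ t = t2 ∧ g = 7) ∧ v * P ≤ h ∧ h < (v + 84630) * (2 * P) ∧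
      ∀ x, Even (v + x) → 3 * 1607970 * P ^ (x + 1) ≤ v + 2 * 1607970 →
        ∃ u, Nat.Coprime u 1607970 ∧ u * P ^ (x + 1) ≤ v ∧
          Rep ∅ (t2 ^ (x + 2) * t * (u * DP 84630 W * P ^ (x + 2)))
            (u * DP 84630 W * P ^ (x + 2)) (7 ^ (x + 2) * g) h := by
  rcases Nat.even_or_odd h with ⟨h', rfl⟩ | ho
  · obtain ⟨v, d, e, hd, hl⟩ := digit1 (F := 84630) (R := P) (v := h') hPF (by norm_num)
      (by omega) (by omega)
    refine ⟨v, t2, 7, Or.inr ⟨rfl, rfl⟩, by omega, ?_, fun x hx hv => ?_⟩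
    · rw [show (v + 84630) * (2 * P) = 2 * (v * P) + 2 * (84630 * P) by ring]
      omega
    · rw [show h' + h' = 2 * v * P + 2 * d by rw [e]; ring]
      exact outer_last G2 s2 s2 hP hPF hW (outer_cop hd) (by omega) x hx hv
  · have hc : Nat.Coprime (2 * P) 42315 :=
      Nat.Coprime.mul_left (by norm_num) (hPF.coprime_dvd_right (by norm_num))
    obtain ⟨v, d, e, hd, hl⟩ := digit1 (F := 42315) (R := 2 * P) (v := h) hc (by norm_num)
      (by omega) (by omega)
    have e' : h = 2 * (v * P) + d := by rw [e]; ring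
    have hodd : Odd d := by
      rw [Nat.odd_iff] at ho ⊢
      omega
    have hd' : Nat.Coprime d 84630 :=
      Nat.Coprime.mul_right (n := 2) (k := d) (m := 42315) (outer_cop hd)
        (Nat.coprime_two_right.2 hodd)
    refine ⟨v, t1, 14, Or.inl ⟨rfl, rfl, ho⟩, by omega, ?_, fun x hx hv => ?_⟩
    · rw [show (v + 84630) * (2 * P) = 2 * (v * P) + 2 * (84630 * P) by ring]
      omega
    · rw [show h = 2 * v * P + 1 * d by rw [e]; ring]
      exact outer_last G2 s1 s2 hP hPF hW hd' (by omega) x hx hv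

end Pool.Agent.NL
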