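import Pool.Agent.Work.MP_03d2dd_co.NL.ProdN

/-! The product of two systems.

Plan.  `reg`, `bal`, `sep`: case on the colour; `pcol_inl`, `pcol_inr` turn `RegP`, `LossP`,
`GainP` for `pcol` into those for one `sc` (`num_congr`); then `IsProd.reg`, `loss`, `gain`, `sep`
for `isProd` and `isProd.symm` (with `Equiv.refl` and `Equiv.prodComm`).
`σ_on`: from the factor in which the quad is genuine (`tz1`).  `σ_flat`: same side, use `σ_flat`
of the factor; other side, the projection is degenerate and `degen_spec` says that its four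
lines coincide or are all `Spec` (then `σ_one`). -/

namespace Pool.Agent.NL.Sys

variable (S T : Sys)

def f1 (p : PP S.G T.G) : S.P := p.1.1

def f2 (p : PP S.G T.G) : T.P := p.1.2

theorem isP : IsProd (S.G.prod T.G) S.G T.G (S.f1 T) (S.f2 T) := isProd S.G T.G

/-- The colouring of the product. -/
noncomputable def pcol (q : Six (PP S.G T.G)) : Option (S.C ⊕ T.C) :=
  ((sc S.G T.G (S.f1 T) (S.f2 T) S.col q).map Sum.inl).or
    ((sc T.G S.G (S.f2 T) (S.f1 T) T.col q).map Sum.inr)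

theorem pcol_inl {q : Six (PP S.G T.G)} {k : S.C} :
    S.pcol T q = some (.inl k) ↔ sc S.G T.G (S.f1 T) (S.f2 T) S.col q = some k := by
  unfold pcol
  cases sc S.G T.G (S.f1 T) (S.f2 T) S.col q <;>
    cases sc T.G S.G (S.f2 T) (S.f1 T) T.col q <;> simp

theorem pcol_inr {q : Six (PP S.G T.G)} {k : T.C} :
    S.pcol T q = some (.inr k) ↔ sc T.G S.G (S.f2 T) (S.f1 T) T.col q = some k := by
  unfold pcol
  cases h1 : sc S.G T.G (S.f1 T) (S.f2 T) S.col q with
  | none => cases sc T.G S.G (S.f2 T) (S.f1 T) T.col q <;> simp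
  | some j =>
    constructor
    · intro h
      simp at h
    · intro h
      exact absurd (sc_eq.1 h1).1 (sc_eq.1 h).2.1

def plb (β : S.B × T.B) (a : S.A × T.A) : PP S.G T.G :=
  ⟨(S.lb β.1 a.1, T.lb β.2 a.2),
    ((S.lb_lab _).2 ⟨_, _, rfl⟩).trans ((T.lb_lab _).2 ⟨_, _, rfl⟩).symm⟩

theorem prod_lab (β : S.B × T.B) (a : S.A × T.A) :
    (S.G.prod T.G).lab (S.plb T β a) = true :=
  (S.lb_lab _).2 ⟨_, _, rfl⟩

theorem prod_flat (S : Sys) {q : Six S.P} (h : q.All S.G.line) (hn : ¬S.G.Quad q) (k : S.C) :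
    q.a01 (S.σ k) = q.a00 (S.σ k) ∧ q.a10 (S.σ k) = q.a00 (S.σ k) ∧
      q.a11 (S.σ k) = q.a00 (S.σ k) := by
  rcases S.G.degen_spec h hn with ⟨e1, e2, e3⟩ | ⟨-, s1, s2, s3, s4⟩
  · simp only [Six.a00, Six.a01, Six.a10, Six.a11, e1, e2, e3, and_self]
  · simp only [Six.a00, Six.a01, Six.a10, Six.a11, S.σ_one k h.1 s1, S.σ_one k h.2.1 s2,
      S.σ_one k h.2.2.1 s3, S.σ_one k h.2.2.2 s4, and_self]

/-- The product system. -/
noncomputable def prod : Sys where
  P := PP S.G T.G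
  A := S.A × T.A
  B := S.B × T.B
  C := S.C ⊕ T.C
  G := S.G.prod T.G
  lb := S.plb T
  lb_lab := by
    rintro ⟨⟨x, y⟩, e⟩
    constructor
    · intro h
      obtain ⟨b1, a1, rfl⟩ := (S.lb_lab x).1 h
      obtain ⟨b2, a2, rfl⟩ := (T.lb_lab y).1 (e.symm.trans h)
      exact ⟨(b1, b2), (a1, a2), rfl⟩
    · rintro ⟨β, a, h⟩
      rw [← h]
      exact S.prod_lab T β a
  lb_inj := by
    intro β β' a a' h
    obtain ⟨e1, e2⟩ := S.lb_inj (congrArg (S.f1 T) h)
    obtain ⟨e3, e4⟩ := T.lb_inj (congrArg (S.f2 T) h)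
    exact ⟨Prod.ext e1 e3, Prod.ext e2 e4⟩
  tf := fun a h =>
    Prod.ext (S.tf a.1 (congrArg Prod.fst h)) (T.tf a.2 (congrArg Prod.snd h))
  three := by
    intro r c s β β' β'' a a' a'' h1 h2 h3
    obtain ⟨e1, e2, e3⟩ := S.three h1.1 h2.1 h3.1
    obtain ⟨e4, e5, e6⟩ := T.three h1.2 h2.2 h3.2
    exact ⟨Prod.ext e1 e4, Prod.ext e2 e5, Prod.ext e3 e6⟩
  four := (S.isP T).four S.four T.four
  col := S.pcol T
  sep := by
    intro q b hq hc hb
    obtain ⟨k | k, hk⟩ := Option.ne_none_iff_exists'.1 hc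
    · exact (S.isP T).sep S.sep q b hq (by rw [(S.pcol_inl T).1 hk]; simp) hb
    · exact (S.isP T).symm.sep T.sep q b hq (by rw [(S.pcol_inr T).1 hk]; simp) hb
  N := Sum.elim S.N T.N
  reg := by
    rintro a b c hl (k | k)
    · refine (num_congr fun x => ?_).trans (((S.isP T).reg S.col hl k).trans (S.reg hl.1 k))
      simp only [Geo.RegP, S.pcol_inl T]
    · refine (num_congr fun x => ?_).trans
        (((S.isP T).symm.reg T.col hl k).trans (T.reg hl.2 k))
      simp only [Geo.RegP, S.pcol_inr T]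
  bal := by
    rintro a b c hl hp (k | k) x
    · have h1 := (S.isP T).loss S.col (l := fun β => S.plb T β x) (l1 := fun β => S.lb β x.1)
        (l2 := fun β => T.lb β x.2) (Equiv.refl _) (fun _ => rfl) (fun _ => rfl)
        (fun β => S.prod_lab T β x) hl hp k
      have h2 := (S.isP T).gain S.col (l := fun β => S.plb T β x) (l1 := fun β => S.lb β x.1)
        (l2 := fun β => T.lb β x.2) (Equiv.refl _) (fun _ => rfl) (fun _ => rfl)
        (fun β => S.prod_lab T β x) hl hp k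
      have h3 := S.bal hl.1 hp k x.1
      refine (num_congr fun y => ?_).trans ((h1.trans ((congrArg (· * _) h3).trans h2.symm)).trans
        (num_congr fun y => ?_))
      · simp only [Geo.LossP, Geo.RegP, S.pcol_inl T]
      · simp only [Geo.GainP, S.pcol_inl T]
    · have h1 := (S.isP T).symm.loss T.col (l := fun β => S.plb T β x)
        (l1 := fun β => T.lb β x.2) (l2 := fun β => S.lb β x.1) (Equiv.prodComm _ _)
        (fun _ => rfl) (fun _ => rfl) (fun β => S.prod_lab T β x) hl hp k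
      have h2 := (S.isP T).symm.gain T.col (l := fun β => S.plb T β x)
        (l1 := fun β => T.lb β x.2) (l2 := fun β => S.lb β x.1) (Equiv.prodComm _ _)
        (fun _ => rfl) (fun _ => rfl) (fun β => S.prod_lab T β x) hl hp k
      have h3 := T.bal hl.2 ⟨a.2.symm.trans hp.1, b.2.symm.trans hp.2.1, c.2.symm.trans hp.2.2⟩
        k x.2
      refine (num_congr fun y => ?_).trans ((h1.trans ((congrArg (· * _) h3).trans h2.symm)).trans
        (num_congr fun y => ?_))
      · simp only [Geo.LossP, Geo.RegP, S.pcol_inr T]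
      · simp only [Geo.GainP, S.pcol_inr T]
  σ k a b c := Sum.elim (fun k => S.σ k (S.f1 T a) (S.f1 T b) (S.f1 T c))
    (fun k => T.σ k (S.f2 T a) (S.f2 T b) (S.f2 T c)) k
  σ_sm := by
    rintro (k | k) a b c
    · exact S.σ_sm k _ _ _
    · exact T.σ_sm k _ _ _
  σ_one := by
    rintro (k | k) a b c hl hs
    · exact S.σ_one k hl.1 ((S.isP T).spec1 hs)
    · exact T.σ_one k hl.2 ((S.isP T).symm.spec1 hs)
  σ_on := by
    rintro q (k | k) - hc
    · obtain ⟨h1, -, h2⟩ := sc_eq.1 ((S.pcol_inl T).1 hc)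
      exact S.σ_on _ k h1 h2
    · obtain ⟨h1, -, h2⟩ := sc_eq.1 ((S.pcol_inr T).1 hc)
      have h3 := T.σ_on _ k h1 h2
      simp only [Six.a00, Six.a01, Six.a10, Six.a11, (S.isP T).symm.tz1]
      exact h3
  σ_flat := by
    rintro q (k | k) (j | j) hq hc hne
    · obtain ⟨h1, -, h2⟩ := sc_eq.1 ((S.pcol_inl T).1 hc)
      exact S.σ_flat _ k j h1 h2 fun e => hne (congrArg Sum.inl e)
    · exact prod_flat T ((S.isP T).symm.all1 hq.1) (sc_eq.1 ((S.pcol_inl T).1 hc)).2.1 j
    · exact prod_flat S ((S.isP T).all1 hq.1) (sc_eq.1 ((S.pcol_inr T).1 hc)).2.1 j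
    · obtain ⟨h1, -, h2⟩ := sc_eq.1 ((S.pcol_inr T).1 hc)
      exact T.σ_flat _ k j h1 h2 fun e => hne (congrArg Sum.inr e)

theorem prod_ord : (S.prod T).ord = S.ord * T.ord := (S.isP T).ord

end Pool.Agent.NL.Sys
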