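import Pool.Agent.Work.MP_03d2dd_co.NL.GeoB

/-! Products of geometries.

Plan.  `geo`: everything is componentwise; both components of a point have the same kind.
`quad_or`: if both projections are degenerate, compare the two alternatives of `Geo.degen`
(the kinds of the points are the same in both factors) and use `IsProd.inj`: two points of `q`
coincide.  `sep`: let `q` be a quad with `sc q ≠ none`, so the first projection is a coloured
quad and the second is degenerate; `On` projects to `On`; `h1` gives no label point and equal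
first components; by `degen_spec` the four lines of the second projection coincide, so the second
components of both labels sit on one line and agree by `u3`. -/

namespace Pool.Agent.NL

variable {P P1 P2 : Type}

/-- Points of the product. -/
def PP (G1 : Geo P1) (G2 : Geo P2) : Type := {p : P1 × P2 // G1.lab p.1 = G2.lab p.2}

instance (G1 : Geo P1) (G2 : Geo P2) [Finite P1] [Finite P2] : Finite (PP G1 G2) := by
  unfold PP; infer_instance

/-- The product geometry. -/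
def Geo.prod (G1 : Geo P1) (G2 : Geo P2) : Geo (PP G1 G2) where
  lab p := G1.lab p.1.1
  line a b c := G1.line a.1.1 b.1.1 c.1.1 ∧ G2.line a.1.2 b.1.2 c.1.2
  one12 h := G1.one12 h.1
  one13 h := G1.one13 h.1
  one23 h := G1.one23 h.1
  u1 := fun {a a' _ _} h h' e => Subtype.ext
    (Prod.ext (G1.u1 h.1 h'.1 e) (G2.u1 h.2 h'.2 (a.2.symm.trans (e.trans a'.2))))
  u2 := fun {_ a a' _} h h' e => Subtype.ext
    (Prod.ext (G1.u2 h.1 h'.1 e) (G2.u2 h.2 h'.2 (a.2.symm.trans (e.trans a'.2))))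
  u3 := fun {_ _ a a'} h h' e => Subtype.ext
    (Prod.ext (G1.u3 h.1 h'.1 e) (G2.u3 h.2 h'.2 (a.2.symm.trans (e.trans a'.2))))
  e1 := fun b c h => by
    obtain ⟨x, hx, lx⟩ := G1.e1 b.1.1 c.1.1 h
    obtain ⟨y, hy, ly⟩ := G2.e1 b.1.2 c.1.2 (h.imp b.2.symm.trans c.2.symm.trans)
    exact ⟨⟨(x, y), hx.trans hy.symm⟩, hx, lx, ly⟩
  e2 := fun b c h => by
    obtain ⟨x, hx, lx⟩ := G1.e2 b.1.1 c.1.1 h
    obtain ⟨y, hy, ly⟩ := G2.e2 b.1.2 c.1.2 (h.imp b.2.symm.trans c.2.symm.trans)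
    exact ⟨⟨(x, y), hx.trans hy.symm⟩, hx, lx, ly⟩
  e3 := fun b c h => by
    obtain ⟨x, hx, lx⟩ := G1.e3 b.1.1 c.1.1 h
    obtain ⟨y, hy, ly⟩ := G2.e3 b.1.2 c.1.2 (h.imp b.2.symm.trans c.2.symm.trans)
    exact ⟨⟨(x, y), hx.trans hy.symm⟩, hx, lx, ly⟩
  t1 := fun {r c s b} h hr hc hs hb => and_congr (G1.t1 h.1 hr hc hs hb)
    (G2.t1 h.2 (r.2.symm.trans hr) (c.2.symm.trans hc) (s.2.symm.trans hs) (b.2.symm.trans hb))
  t2 := fun {r c s b} h hr hc hs hb => and_congr (G1.t2 h.1 hr hc hs hb)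
    (G2.t2 h.2 (r.2.symm.trans hr) (c.2.symm.trans hc) (s.2.symm.trans hs) (b.2.symm.trans hb))

theorem isProd (G1 : Geo P1) (G2 : Geo P2) :
    IsProd (G1.prod G2) G1 G2 (fun p => p.1.1) fun p => p.1.2 :=
  ⟨fun _ => rfl, fun p => p.2, fun _ _ _ => Iff.rfl, fun _ _ a b => Subtype.ext (Prod.ext a b),
    fun x y e => ⟨⟨(x, y), e⟩, rfl, rfl⟩⟩

open Classical in
/-- The colouring of the quads that are genuine in the first factor only. -/
noncomputable def sc {C : Type} (G1 : Geo P1) (G2 : Geo P2) (f1 : P → P1) (f2 : P → P2)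
    (col : Six P1 → Option C) (q : Six P) : Option C :=
  if G1.Quad (q.map f1) ∧ ¬G2.Quad (q.map f2) then col (q.map f1) else none

theorem sc_eq {C : Type} {G1 : Geo P1} {G2 : Geo P2} {f1 : P → P1} {f2 : P → P2}
    {col : Six P1 → Option C} {q : Six P} {k : C} : sc G1 G2 f1 f2 col q = some k ↔
      G1.Quad (q.map f1) ∧ ¬G2.Quad (q.map f2) ∧ col (q.map f1) = some k := by
  unfold sc
  split_ifs with h
  · tauto
  · simp only [false_iff]
    tauto

namespace IsProd

variable {G : Geo P} {G1 : Geo P1} {G2 : Geo P2} {f1 : P → P1} {f2 : P → P2}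
  (h : IsProd G G1 G2 f1 f2)
include h

theorem all1 {q : Six P} (hq : q.All G.line) : (q.map f1).All G1.line :=
  ⟨((h.line _ _ _).1 hq.1).1, ((h.line _ _ _).1 hq.2.1).1, ((h.line _ _ _).1 hq.2.2.1).1,
    ((h.line _ _ _).1 hq.2.2.2).1⟩

theorem quad_or {q : Six P} (hq : G.Quad q) : G1.Quad (q.map f1) ∨ G2.Quad (q.map f2) := by
  by_contra hn
  rw [not_or] at hn
  have d1 := G1.degen (h.all1 hq.1) hn.1
  have d2 := G2.degen (h.symm.all1 hq.1) hn.2
  obtain ⟨-, n1, n2, n3⟩ := hq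
  simp only [Six.map] at d1 d2
  have i1 := fun a b => n1 (h.inj _ _ a b)
  have i2 := fun a b => n2 (h.inj _ _ a b)
  have i3 := fun a b => n3 (h.inj _ _ a b)
  tauto

theorem four (h1 : G1.Four) (h2 : G2.Four) : G.Four := by
  intro q hq
  rcases h.quad_or hq with k | k
  · simpa only [Six.map, ← h.lab1] using h1 _ k
  · simpa only [Six.map, ← h.lab2] using h2 _ k

theorem spec1 {a b c : P} (hs : G.Spec a b c) : G1.Spec (f1 a) (f1 b) (f1 c) := by
  rcases hs with k | k | k | ⟨x, k, l⟩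
  · exact Or.inl (h.lab1 a ▸ k)
  · exact Or.inr (Or.inl (h.lab1 b ▸ k))
  · exact Or.inr (Or.inr (Or.inl (h.lab1 c ▸ k)))
  · exact Or.inr (Or.inr (Or.inr ⟨f1 x, h.lab1 x ▸ k, ((h.line _ _ _).1 l).1⟩))

theorem tz1 (a b c : P) : G.tz a b c = G1.tz (f1 a) (f1 b) (f1 c) := by
  simp only [Geo.tz, h.lab1]

theorem prodg_on {q : Six P} {b : P} (ho : G.On q b) : G1.On (q.map f1) (f1 b) := by
  obtain ⟨k, l⟩ := ho
  refine ⟨h.lab1 b ▸ k, ?_⟩
  simp only [Six.map, ← h.lab1]
  simp only [h.line] at l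
  tauto

theorem prodg_lab {q : Six P} : G1.HasLab (q.map f1) ↔ G.HasLab q := by
  simp only [Geo.HasLab, Six.map, h.lab1]


theorem sep {C : Type} {col : Six P1 → Option C} (h1 : G1.Sep col) :
    G.Sep (sc G1 G2 f1 f2 col) := by
  intro q b hq hc ho
  obtain ⟨k, hk⟩ := Option.ne_none_iff_exists'.1 hc
  obtain ⟨q1, q2, q3⟩ := sc_eq.1 hk
  obtain ⟨k1, k2⟩ := h1 _ _ q1 (by rw [q3]; exact Option.some_ne_none k) (h.prodg_on ho)
  rw [h.prodg_lab] at k1
  refine ⟨k1, fun b' ho' => h.inj _ _ (k2 _ (h.prodg_on ho')) ?_⟩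
  rcases G2.degen_spec (h.symm.all1 hq.1) q2 with ⟨e1, e2, -⟩ | ⟨e, -⟩
  · have key : ∀ x, G.On q x → G2.lab (f2 x) = true ∧
        G2.line (q.map f2).r0 (q.map f2).c0 (f2 x) := fun x hx => by
      obtain ⟨a1, a2⟩ := h.symm.prodg_on hx
      rw [← e1, ← e2] at a2
      exact ⟨a1, by tauto⟩
    exact G2.u3 (key _ ho').2 (key _ ho).2 ((key _ ho').1.trans (key _ ho).1.symm)
  · exact absurd (h.symm.prodg_lab.1 e) k1

theorem ord [Finite P1] [Finite P2] : num (fun p => G.lab p = false) =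
    num (fun p => G1.lab p = false) * num fun p => G2.lab p = false := by
  rw [num_bij (q := fun x : P1 × P2 => G1.lab x.1 = false ∧ G2.lab x.2 = false)
    (fun p => (f1 p, f2 p)) (fun p k => ⟨h.lab1 p ▸ k, h.lab2 p ▸ k⟩)
    (fun x y _ _ e => h.inj _ _ (congrArg Prod.fst e) (congrArg Prod.snd e)) fun y k => by
      obtain ⟨p, a, b⟩ := h.surj y.1 y.2 (k.1.trans k.2.symm)
      exact ⟨p, by rw [h.lab1, a, k.1], Prod.ext a b⟩]
  unfold num
  rw [← Nat.card_prod]
  exact Nat.card_congr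
    (Equiv.subtypeProdEquivProd (p := fun x => G1.lab x = false) (q := fun x => G2.lab x = false))

end IsProd

end Pool.Agent.NL
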