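import Pool.Agent.Work.MP_03d2dd_co.NL.ProdG

/-! Counting quads in a product.

Plan.  `reg`: `num_bij` with the first projection of the completion.  The second projection must
be the unique degenerate plain completion of the line `(f2 a, f2 b, f2 c)` (`Geo.triv`), which
gives injectivity (`IsProd.inj`) and surjectivity (`IsProd.surj`).
`loss`, `gain`: `num_fiber` along `y ↦ (first projection of y.1, (e y.2).1)`; the fibre is in
bijection with the `β2` such that `G2.line (f2 a) (f2 b) (l2 β2)` through `y ↦ (e y.2).2`.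
For `loss`: the line is plain, so by `triv` the second projection of the completion is
`(f2 a, f2 b, f2 c)` itself, and each of the three alternatives of `LossP` is the alternative in
`G1` together with `G2.line (f2 a) (f2 b) (l2 β2)`.
For `gain`: say `y.1.1 = l β`.  The second projection is degenerate and its second row is a label
while the first row is plain, so by `Geo.degen` its columns and symbols agree, and the condition
is `G2.line (l2 β2) (f2 b) (f2 c)`, which is the required line by `t1`.  For the column use `t2`,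
for the symbol the condition is the line itself.  In a gain pair of `G1` exactly one point of the
completion is a label (`one12`, `one13`, `one23`). -/

namespace Pool.Agent.NL.IsProd

/-- A map applied to three points. -/
def prodn_m3 {P P' : Type} (f : P → P') (x : P × P × P) : P' × P' × P' :=
  (f x.1, f x.2.1, f x.2.2)

theorem prodn_mul {α β : Type} (q : α → Prop) (r : β → Prop) :
    num (fun z : α × β => q z.1 ∧ r z.2) = num q * num r :=
  (Nat.card_congr Equiv.subtypeProdEquivProd).trans (Nat.card_prod _ _)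

variable {P P1 P2 C B B1 B2 : Type} [Finite P] [Finite P1] [Finite P2] [Finite B] [Finite B1]
  [Finite B2] {G : Geo P} {G1 : Geo P1} {G2 : Geo P2} {f1 : P → P1} {f2 : P → P2}
  (h : IsProd G G1 G2 f1 f2) (col : Six P1 → Option C)
include h

omit [Finite P] [Finite P1] [Finite P2] in
theorem prodn_quad {a b c : P} {x : P × P × P} {k : C} :
    G.Quad (mk6 a b c x) ∧ sc G1 G2 f1 f2 col (mk6 a b c x) = some k ↔
      (G1.Quad (mk6 (f1 a) (f1 b) (f1 c) (prodn_m3 f1 x)) ∧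
        col (mk6 (f1 a) (f1 b) (f1 c) (prodn_m3 f1 x)) = some k) ∧
      (mk6 (f2 a) (f2 b) (f2 c) (prodn_m3 f2 x)).All G2.line ∧
        ¬G2.Quad (mk6 (f2 a) (f2 b) (f2 c) (prodn_m3 f2 x)) := by
  rw [sc_eq]
  constructor
  · rintro ⟨h1, h2, h3, h4⟩
    exact ⟨⟨h2, h4⟩, h.symm.all1 h1.1, h3⟩
  · rintro ⟨⟨h1, h2⟩, h3, h4⟩
    exact ⟨⟨⟨(h.line _ _ _).2 ⟨h1.1.1, h3.1⟩, (h.line _ _ _).2 ⟨h1.1.2.1, h3.2.1⟩,
      (h.line _ _ _).2 ⟨h1.1.2.2.1, h3.2.2.1⟩, (h.line _ _ _).2 ⟨h1.1.2.2.2, h3.2.2.2⟩⟩,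
      fun e => h1.2.1 (congrArg f1 e), fun e => h1.2.2.1 (congrArg f1 e),
      fun e => h1.2.2.2 (congrArg f1 e)⟩, h1, h4, h2⟩

omit [Finite P] [Finite P1] [Finite P2] in
theorem prodn_plain {x : P × P × P} : G.Plain x ↔ G1.Plain (prodn_m3 f1 x) := by
  simp only [Geo.Plain, prodn_m3, h.lab1]

omit [Finite P] [Finite P1] [Finite P2] in
theorem prodn_inj {x y : P × P × P} (h1 : prodn_m3 f1 x = prodn_m3 f1 y)
    (h2 : prodn_m3 f2 x = prodn_m3 f2 y) : x = y := by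
  simp only [prodn_m3, Prod.mk.injEq] at h1 h2
  exact Prod.ext (h.inj _ _ h1.1 h2.1)
    (Prod.ext (h.inj _ _ h1.2.1 h2.2.1) (h.inj _ _ h1.2.2 h2.2.2))

omit [Finite P] [Finite P1] [Finite P2] in
theorem prodn_surj (x1 : P1 × P1 × P1) (x2 : P2 × P2 × P2) (h1 : G1.lab x1.1 = G2.lab x2.1)
    (h2 : G1.lab x1.2.1 = G2.lab x2.2.1) (h3 : G1.lab x1.2.2 = G2.lab x2.2.2) :
    ∃ x, prodn_m3 f1 x = x1 ∧ prodn_m3 f2 x = x2 := by
  obtain ⟨p, a1, a2⟩ := h.surj _ _ h1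
  obtain ⟨q, b1, b2⟩ := h.surj _ _ h2
  obtain ⟨r, c1, c2⟩ := h.surj _ _ h3
  exact ⟨(p, q, r), Prod.ext a1 (Prod.ext b1 c1), Prod.ext a2 (Prod.ext b2 c2)⟩

omit [Finite P] [Finite P1] [Finite P2] in
theorem prodn_reg {a b c : P} {x : P × P × P} {k : C} :
    G.RegP (sc G1 G2 f1 f2 col) a b c k x ↔
      G1.RegP col (f1 a) (f1 b) (f1 c) k (prodn_m3 f1 x) ∧
      (mk6 (f2 a) (f2 b) (f2 c) (prodn_m3 f2 x)).All G2.line ∧
        ¬G2.Quad (mk6 (f2 a) (f2 b) (f2 c) (prodn_m3 f2 x)) ∧ G2.Plain (prodn_m3 f2 x) := by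
  constructor
  · rintro ⟨h1, h2, h3⟩
    obtain ⟨⟨h4, h5⟩, h6, h7⟩ := (h.prodn_quad col).1 ⟨h1, h2⟩
    exact ⟨⟨h4, h5, h.prodn_plain.1 h3⟩, h6, h7, h.symm.prodn_plain.1 h3⟩
  · rintro ⟨⟨h4, h5, h3⟩, h6, h7, -⟩
    obtain ⟨h1, h2⟩ := (h.prodn_quad col).2 ⟨⟨h4, h5⟩, h6, h7⟩
    exact ⟨h1, h2, h.prodn_plain.2 h3⟩

theorem reg {a b c : P} (hl : G.line a b c) (k : C) :
    num (G.RegP (sc G1 G2 f1 f2 col) a b c k) = num (G1.RegP col (f1 a) (f1 b) (f1 c) k) := by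
  obtain ⟨x2, hx2, hu⟩ := G2.triv ((h.line _ _ _).1 hl).2
  refine num_bij (prodn_m3 f1) (fun x hx => ((h.prodn_reg col).1 hx).1) (fun x y hx hy e => ?_)
    fun x1 hx1 => ?_
  · exact h.prodn_inj e
      ((hu _ ((h.prodn_reg col).1 hx).2).trans (hu _ ((h.prodn_reg col).1 hy).2).symm)
  · obtain ⟨x, rfl, rfl⟩ := h.prodn_surj x1 x2 (hx1.2.2.1.trans hx2.2.2.1.symm)
      (hx1.2.2.2.1.trans hx2.2.2.2.1.symm) (hx1.2.2.2.2.trans hx2.2.2.2.2.symm)
    exact ⟨x, (h.prodn_reg col).2 ⟨hx1, hx2⟩, rfl⟩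

variable {l : B → P} {l1 : B1 → P1} {l2 : B2 → P2} (e : B ≃ B1 × B2)
  (e1 : ∀ β, f1 (l β) = l1 (e β).1) (e2 : ∀ β, f2 (l β) = l2 (e β).2)
  (hb : ∀ β, G.lab (l β) = true)
include e1 e2 hb

theorem loss {a b c : P} (hl : G.line a b c) (hp : G.Plain (a, b, c)) (k : C) :
    num (G.LossP (sc G1 G2 f1 f2 col) l a b c k) =
      num (G1.LossP col l1 (f1 a) (f1 b) (f1 c) k) *
        num fun β => G2.line (f2 a) (f2 b) (l2 β) := by
  have hl2 := ((h.line _ _ _).1 hl).2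
  have hp2 : G2.Plain (f2 a, f2 b, f2 c) := h.symm.prodn_plain.1 hp
  have h0 : (mk6 (f2 a) (f2 b) (f2 c) (f2 a, f2 b, f2 c)).All G2.line ∧
      ¬G2.Quad (mk6 (f2 a) (f2 b) (f2 c) (f2 a, f2 b, f2 c)) ∧ G2.Plain (f2 a, f2 b, f2 c) :=
    ⟨⟨hl2, hl2, hl2, hl2⟩, fun q => q.2.1 rfl, hp2⟩
  have hu : ∀ x, G.RegP (sc G1 G2 f1 f2 col) a b c k x → prodn_m3 f2 x = (f2 a, f2 b, f2 c) :=
    fun x hx => (G2.triv hl2).unique ((h.prodn_reg col).1 hx).2 h0
  have halt : ∀ (x : P × P × P) (β : B), prodn_m3 f2 x = (f2 a, f2 b, f2 c) →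
      (G.line a x.2.1 (l β) ∨ G.line x.1 b (l β) ∨ G.line x.1 x.2.1 (l β) ↔
        (G1.line (f1 a) (f1 x.2.1) (l1 (e β).1) ∨ G1.line (f1 x.1) (f1 b) (l1 (e β).1) ∨
          G1.line (f1 x.1) (f1 x.2.1) (l1 (e β).1)) ∧ G2.line (f2 a) (f2 b) (l2 (e β).2)) := by
    intro x β hx
    simp only [prodn_m3, Prod.mk.injEq] at hx
    simp only [h.line, e1, e2, hx.1, hx.2.1, or_and_right]
  rw [← prodn_mul]
  refine num_bij (fun y => ((prodn_m3 f1 y.1, (e y.2).1), (e y.2).2)) (fun y hy => ?_)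
    (fun y z hy hz eq => ?_) fun z hz => ?_
  · obtain ⟨h1, h2⟩ := (halt y.1 y.2 (hu _ hy.1)).1 hy.2
    exact ⟨⟨((h.prodn_reg col).1 hy.1).1, h1⟩, h2⟩
  · simp only [Prod.mk.injEq] at eq
    exact Prod.ext (h.prodn_inj eq.1.1 ((hu _ hy.1).trans (hu _ hz.1).symm))
      (e.injective (Prod.ext eq.1.2 eq.2))
  · obtain ⟨⟨x1, β1⟩, β2⟩ := z
    obtain ⟨⟨h1, h2⟩, h3⟩ := hz
    obtain ⟨x, rfl, hx⟩ := h.prodn_surj x1 (f2 a, f2 b, f2 c) (h1.2.2.1.trans hp2.1.symm)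
      (h1.2.2.2.1.trans hp2.2.1.symm) (h1.2.2.2.2.trans hp2.2.2.symm)
    refine ⟨(x, e.symm (β1, β2)), ⟨(h.prodn_reg col).2 ⟨h1, hx ▸ h0⟩, (halt x _ hx).2 ?_⟩, ?_⟩
    · rw [e.apply_symm_apply]
      exact ⟨h2, h3⟩
    · simp only [e.apply_symm_apply]

theorem gain {a b c : P} (hl : G.line a b c) (hp : G.Plain (a, b, c)) (k : C) :
    num (G.GainP (sc G1 G2 f1 f2 col) l a b c k) =
      num (G1.GainP col l1 (f1 a) (f1 b) (f1 c) k) *
        num fun β => G2.line (f2 a) (f2 b) (l2 β) := by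
  have hl2 := ((h.line _ _ _).1 hl).2
  obtain ⟨pa, pb, pc⟩ : G2.Plain (f2 a, f2 b, f2 c) := h.symm.prodn_plain.1 hp
  dsimp only at pa pb pc
  have hb1 : ∀ β, G1.lab (l1 (e β).1) = true := fun β => by rw [← e1, ← h.lab1, hb]
  have hb2 : ∀ β, G2.lab (l2 (e β).2) = true := fun β => by rw [← e2, ← h.lab2, hb]
  have h12 : ∀ p, G1.lab (f1 p) = G2.lab (f2 p) := fun p => by rw [← h.lab1, h.lab2]
  let g : P1 × P1 × P1 → B2 → P2 × P2 × P2 := fun x β =>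
    (if G1.lab x.1 = true then l2 β else f2 a, if G1.lab x.2.1 = true then l2 β else f2 b,
      if G1.lab x.2.2 = true then l2 β else f2 c)
  have hu : ∀ y, G.GainP (sc G1 G2 f1 f2 col) l a b c k y →
      prodn_m3 f2 y.1 = g (prodn_m3 f1 y.1) (e y.2).2 ∧ G2.line (f2 a) (f2 b) (l2 (e y.2).2) := by
    rintro ⟨⟨r, s, t⟩, β⟩ ⟨h1, h2, h3⟩
    obtain ⟨-, h4, h5⟩ := (h.prodn_quad col).1 ⟨h1, h2⟩
    have hd := G2.degen h4 h5
    obtain ⟨-, m1, m2, m3⟩ := h4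
    have hβ := hb2 β
    dsimp only [mk6, prodn_m3, g] at *
    simp only [h12]
    rcases h3 with rfl | rfl | rfl <;> rw [e2] at *
    · rcases hd with ⟨d, -⟩ | ⟨d, -⟩ | ⟨d1, d2, -⟩
      · rw [d, hβ] at pa
        exact Bool.noConfusion pa
      · rw [d, hβ] at pa
        exact Bool.noConfusion pa
      · rw [← d2] at m2
        rw [← d1, ← d2]
        exact ⟨by simp [hβ, pb, pc], (G2.t1 hl2 pa pb pc hβ).2 m2⟩
    · rcases hd with ⟨-, d, -⟩ | ⟨d1, d2, -⟩ | ⟨d, -⟩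
      · rw [d, hβ] at pb
        exact Bool.noConfusion pb
      · rw [← d2] at m1
        rw [← d1, ← d2]
        exact ⟨by simp [hβ, pa, pc], (G2.t2 hl2 pa pb pc hβ).2 m1⟩
      · rw [d, hβ] at pb
        exact Bool.noConfusion pb
    · rcases hd with ⟨d1, d2, -⟩ | ⟨-, d, -⟩ | ⟨-, d, -⟩
      · rw [← d2] at m1
        rw [← d1, ← d2]
        exact ⟨by simp [hβ, pa, pb], m1⟩
      · rw [d, hβ] at pc
        exact Bool.noConfusion pc
      · rw [d, hβ] at pc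
        exact Bool.noConfusion pc
  rw [← prodn_mul]
  refine num_bij (fun y => ((prodn_m3 f1 y.1, (e y.2).1), (e y.2).2)) (fun y hy => ?_)
    (fun y z hy hz eq => ?_) fun z hz => ?_
  · obtain ⟨⟨h1, h2⟩, -⟩ := (h.prodn_quad col).1 ⟨hy.1, hy.2.1⟩
    exact ⟨⟨h1, h2, hy.2.2.imp (fun d => (congrArg f1 d).trans (e1 _))
      (Or.imp (fun d => (congrArg f1 d).trans (e1 _)) fun d => (congrArg f1 d).trans (e1 _))⟩,
      (hu y hy).2⟩
  · simp only [Prod.mk.injEq] at eq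
    refine Prod.ext (h.prodn_inj eq.1.1 ?_) (e.injective (Prod.ext eq.1.2 eq.2))
    rw [(hu y hy).1, (hu z hz).1, eq.1.1, eq.2]
  · obtain ⟨⟨x1, β1⟩, β2⟩ := z
    obtain ⟨β, hβ⟩ := e.surjective (β1, β2)
    obtain ⟨rfl, rfl⟩ : (e β).1 = β1 ∧ (e β).2 = β2 := Prod.ext_iff.1 hβ
    obtain ⟨⟨h1, h2, h3⟩, h4⟩ := hz
    have k1 := hb1 β
    have k2 := hb2 β
    have hlab : ∀ (p : P1) (q : P2), G2.lab q = false →
        G1.lab p = G2.lab (if G1.lab p = true then l2 (e β).2 else q) := fun p q hq => by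
      split_ifs with hp
      · rw [hp, k2]
      · rw [hq]
        simpa using hp
    obtain ⟨⟨r, s, t⟩, rfl, hx⟩ := h.prodn_surj x1 (g x1 (e β).2) (hlab _ _ pa) (hlab _ _ pb)
      (hlab _ _ pc)
    obtain ⟨-, m1, m2, m3⟩ := h1.1
    have key : ((mk6 (f2 a) (f2 b) (f2 c) (prodn_m3 f2 (r, s, t))).All G2.line ∧
        ¬G2.Quad (mk6 (f2 a) (f2 b) (f2 c) (prodn_m3 f2 (r, s, t)))) ∧
        (r = l β ∨ s = l β ∨ t = l β) := by
      rw [hx]
      dsimp only [mk6, prodn_m3, g] at hx h3 h4 m1 m2 m3 ⊢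
      simp only [Prod.mk.injEq] at hx
      rcases h3 with d | d | d
      · have n1 : G1.lab (f1 r) = true := d ▸ k1
        have n2 := G1.one12 m3 n1
        have n3 := G1.one13 m2 n1
        have n4 := (G2.t1 hl2 pa pb pc k2).1 h4
        simp only [n1, n2, n3, if_true, Bool.false_eq_true, if_false] at hx ⊢
        exact ⟨⟨⟨hl2, hl2, n4, n4⟩, fun q => q.2.2.1 rfl⟩,
          Or.inl (h.inj _ _ (d.trans (e1 β).symm) (hx.1.trans (e2 β).symm))⟩
      · have n1 : G1.lab (f1 s) = true := d ▸ k1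
        have n2 := (G1.lab2 m3 n1).1
        have n3 := G1.one23 m1 n1
        have n4 := (G2.t2 hl2 pa pb pc k2).1 h4
        simp only [n1, n2, n3, if_true, Bool.false_eq_true, if_false] at hx ⊢
        exact ⟨⟨⟨hl2, n4, hl2, n4⟩, fun q => q.2.1 rfl⟩,
          Or.inr (Or.inl (h.inj _ _ (d.trans (e1 β).symm) (hx.2.1.trans (e2 β).symm)))⟩
      · have n1 : G1.lab (f1 t) = true := d ▸ k1
        have n2 := (G1.lab3 m2 n1).1
        have n3 := (G1.lab3 m1 n1).2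
        simp only [n1, n2, n3, if_true, Bool.false_eq_true, if_false] at hx ⊢
        exact ⟨⟨⟨hl2, h4, h4, hl2⟩, fun q => q.2.1 rfl⟩,
          Or.inr (Or.inr (h.inj _ _ (d.trans (e1 β).symm) (hx.2.2.trans (e2 β).symm)))⟩
    obtain ⟨h5, h6⟩ := (h.prodn_quad col).2 ⟨⟨h1, h2⟩, key.1⟩
    exact ⟨((r, s, t), β), ⟨h5, h6, key.2⟩, rfl⟩

end Pool.Agent.NL.IsProd
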