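import Pool.Agent.Work.MP_03d2dd_co.NL.StepB

/-! One Horner step.

Plan.  Let `T` be the system of the gadget (all its weights are 1) and
`k0 = Nat.card ((T.P × T.P × T.P) × Bool)`; for `k0 ≤ k` take an injection `ι` into `Fin k`
(`Finite.equivFin`, `Fin.castLE`).  Use `(S.stepLD T u (dl p ι)).sys` with the weights
`Sum.elim w fun _ => d`; `step_clean`, `sys_ord`, `prod_ord`, `sys_A`, `Fintype.sum_sum_type`;
`Nat.card (Fin k → ZMod p) = p ^ k`.  30 is a unit since `p` is a prime above 5. -/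

namespace Pool.Agent.NL

/-- The gadget `(t, g', j)` can be attached with radix `P`. -/
def StepOk (t g' j P : ℕ) : Prop :=
  ∀ (D : Finset ℕ) (n a g v d : ℕ), Rep D n a g v → d ∈ D →
    Rep D (n * (t * P)) (a * P) (g * g') (v * P + j * d)

theorem step_unit {p : ℕ} (hp : p.Prime) (h5 : 5 < p) (k : ℕ) : IsUnit (30 : Fin k → ZMod p) := by
  have h : IsUnit ((30 : ℕ) : ZMod p) := by
    rw [ZMod.isUnit_iff_coprime, Nat.coprime_comm, hp.coprime_iff_not_dvd]
    intro h
    rcases (hp.dvd_mul (m := 6) (n := 5)).1 h with h | h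
    · rcases (hp.dvd_mul (m := 2) (n := 3)).1 h with h | h <;>
        exact absurd (Nat.le_of_dvd (by norm_num) h) (by omega)
    · exact absurd (Nat.le_of_dvd (by norm_num) h) (by omega)
  have h' := h.map (Pi.constRingHom (Fin k) (ZMod p))
  rw [map_natCast] at h'
  exact_mod_cast h'

theorem Rep.step {t g' j : ℕ} (G : Rep ∅ t 1 g' j) :
    ∃ k0, ∀ p k, p.Prime → 5 < p → k0 ≤ k → StepOk t g' j (p ^ k) := by
  obtain ⟨T, hT, rfl, hA, rfl, w', hw', rfl⟩ := G
  refine ⟨Nat.card ((T.P × T.P × T.P) × Bool), fun p k hp h5 hk => ?_⟩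
  rintro D n a g v d ⟨S, hS, rfl, ha, rfl, w, hw, rfl⟩ hd
  have : Fact p.Prime := ⟨hp⟩
  let ι : (T.P × T.P × T.P) × Bool → Fin k := fun x => Fin.castLE hk (Finite.equivFin _ x)
  have hι : Function.Injective ι :=
    (Fin.castLE_injective hk).comp (Finite.equivFin _).injective
  have u := step_unit hp h5 k
  have hc : Nat.card (Fin k → ZMod p) = p ^ k := by
    rw [Nat.card_fun, Nat.card_zmod, Nat.card_eq_fintype_card, Fintype.card_fin]
  refine ⟨(S.stepLD T u (Sys.dl p ι)).sys, Sys.step_clean u ι h5 hι hS hT, ?_, ?_, ?_,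
    Sum.elim w fun _ => d, ?_, ?_⟩
  · rw [LD.sys_ord, Sys.prod_ord, hc, mul_assoc]
  · have e1 : Nat.card (S.prod T).A = Nat.card S.A * Nat.card T.A := Nat.card_prod _ _
    have e2 : Nat.card (S.stepLD T u (Sys.dl p ι)).T = p ^ k :=
      (AddSubgroup.card_top (G := Fin k → ZMod p)).trans hc
    rw [LD.sys_A, e1, e2]
    exact Nat.mul_le_mul_right _ (ha.trans (Nat.le_mul_of_pos_right _ hA))
  · exact Nat.card_prod _ _
  · rintro (x | x)
    · exact hw x
    · exact Or.inr hd
  · have e1 : ∀ x, (S.stepLD T u (Sys.dl p ι)).sys.N (Sum.inl x) = S.N x * p ^ k := fun x => by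
      rw [← hc]
      exact congrArg (S.N x * ·) (if_pos rfl)
    have e2 : ∀ x, (S.stepLD T u (Sys.dl p ι)).sys.N (Sum.inr x) = T.N x * w' x := fun x => by
      rw [(hw' x).resolve_right (Finset.notMem_empty _)]
      exact congrArg (T.N x * ·) (if_neg Bool.false_ne_true)
    refine (Fintype.sum_sum_type (α₁ := S.C) (α₂ := T.C) _).trans ?_
    simp only [e1, e2, Sum.elim_inl, Sum.elim_inr, Finset.sum_mul]
    congr 1
    exact Finset.sum_congr rfl fun x _ => by ring

end Pool.Agent.NL
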