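import Pool.Agent.Work.MP_03d2dd_co.NL.Prod
import Pool.Agent.Work.MP_03d2dd_co.NL.Lift

/-! The lift of a product that multiplies the quads of the first factor.

Plan.  `ic_on`: `∏ k', σ k' = σ k * ∏ k' ∈ univ.erase k, σ k'`; the last product is the same on
the four lines (`σ_flat`); `σ_on` and `OnId.mul`.
`unit`: `Sm.u3`, `Sm.mul`, `sm_t0`, `sm_prod`.  `spec`: `IsProd.spec1` for both factors, `σ_one`.
`on`: the colour is `inl k` (`pcol_inl`, `sc_eq`), `ic_on` and `OnId.cst`.  The second projection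
is degenerate (`degen_spec`): all four lines are `Spec` and all offsets vanish, or the four lines
are one line `m`; then (if `m` is not `Spec`) every offset has the form
`co.1 * u + co.2.1 * v + co.2.2 * w` with `u = -2 δ m false`, `v = -3 δ m false - δ m true`,
`w = 2 δ m true`, and `OnId.offSum_eq` applies with `i0 = i1 = u`, `j0 = j1 = v`, `k0 = k1 = w`.
`gen`: the colour is `inr k`, the first projection is degenerate, so the product of the `σ` is the
same vector `v` on the four lines (one line, or all `Spec` and `v = 1`); `det_mul`, `det_cst`,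
`det_tz`, `unit_of_dvd`.  If `q` is `Rel`, the common line is `Spec`, so `v = 1`; a line whose
second projection is not `Spec` is plain, has coefficients `(3, -2, -1)` and offset 0. -/

namespace Pool.Agent.NL.Sys

variable (S T : Sys) {R : Type} [CommRing R]

/-- Integer coefficients of a line of the product. -/
noncomputable def ic (a b c : PP S.G T.G) : ℤ × ℤ × ℤ :=
  S.G.tz (S.f1 T a) (S.f1 T b) (S.f1 T c) * ∏ k, S.σ k (S.f1 T a) (S.f1 T b) (S.f1 T c)

theorem ic_sm (a b c : PP S.G T.G) : Sm (S.ic T a b c) :=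
  (sm_t0 _ _ _).mul (sm_prod _ _ fun k _ => S.σ_sm k _ _ _)

theorem ic_spec {a b c : PP S.G T.G} (h : S.G.line (S.f1 T a) (S.f1 T b) (S.f1 T c))
    (hs : S.G.Spec (S.f1 T a) (S.f1 T b) (S.f1 T c)) :
    S.ic T a b c = S.G.tz (S.f1 T a) (S.f1 T b) (S.f1 T c) := by
  rw [ic, Finset.prod_eq_one fun k _ => S.σ_one k h hs, mul_one]

theorem ic_on {q : Six (PP S.G T.G)} {k : S.C} (h : S.G.Quad (q.map (S.f1 T)))
    (hk : S.col (q.map (S.f1 T)) = some k) :
    OnId (q.a00 (S.ic T)) (q.a01 (S.ic T)) (q.a10 (S.ic T)) (q.a11 (S.ic T)) := by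
  classical
  have key : ∀ a b c : PP S.G T.G,
      (∀ k' ∈ Finset.univ.erase k, S.σ k' (S.f1 T a) (S.f1 T b) (S.f1 T c) =
        (q.map (S.f1 T)).a00 (S.σ k')) → S.ic T a b c =
      S.G.tz (S.f1 T a) (S.f1 T b) (S.f1 T c) * S.σ k (S.f1 T a) (S.f1 T b) (S.f1 T c) *
        ∏ k' ∈ Finset.univ.erase k, (q.map (S.f1 T)).a00 (S.σ k') := fun a b c e => by
    rw [ic, ← Finset.mul_prod_erase Finset.univ _ (Finset.mem_univ k), ← mul_assoc,
      Finset.prod_congr rfl e]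
  have fl := fun k' (e : k' ∈ Finset.univ.erase k) =>
    S.σ_flat _ k k' h hk (Finset.ne_of_mem_erase e)
  have := (S.σ_on _ k h hk).mul (∏ k' ∈ Finset.univ.erase k, (q.map (S.f1 T)).a00 (S.σ k'))
  have e0 := key q.r0 q.c0 q.s0 fun _ _ => rfl
  have e1 := key q.r0 q.c1 q.s1 fun k' e => (fl k' e).1
  have e2 := key q.r1 q.c0 q.s1 fun k' e => (fl k' e).2.1
  have e3 := key q.r1 q.c1 q.s0 fun k' e => (fl k' e).2.2
  change OnId (S.ic T q.r0 q.c0 q.s0) (S.ic T q.r0 q.c1 q.s1) (S.ic T q.r1 q.c0 q.s1)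
    (S.ic T q.r1 q.c1 q.s0)
  rw [e0, e1, e2, e3]
  exact this

open Classical in
/-- Offsets of the lines of the product. -/
noncomputable def ofs (δ : T.P × T.P × T.P → Bool → R) (a b c : PP S.G T.G) : R :=
  if T.G.Spec (S.f2 T a) (S.f2 T b) (S.f2 T c) then 0 else
    ((-2 * (S.ic T a b c).1 - 3 * (S.ic T a b c).2.1 : ℤ) : R) *
        δ (S.f2 T a, S.f2 T b, S.f2 T c) false +
      ((2 * (S.ic T a b c).2.2 - (S.ic T a b c).2.1 : ℤ) : R) *
        δ (S.f2 T a, S.f2 T b, S.f2 T c) true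

theorem stepa_zero (δ : T.P × T.P × T.P → Bool → R) {a b c : PP S.G T.G}
    (h : T.G.Spec (S.f2 T a) (S.f2 T b) (S.f2 T c)) : S.ofs T δ a b c = 0 := by
  rw [ofs, if_pos h]

theorem stepa_eqn (δ : T.P × T.P × T.P → Bool → R) {a b c : PP S.G T.G} {x y z : T.P}
    (ha : S.f2 T a = x) (hb : S.f2 T b = y) (hc : S.f2 T c = z) (h : ¬T.G.Spec x y z) :
    Eqn (cst R (S.ic T a b c)) (S.ofs T δ a b c) (-2 * δ (x, y, z) false)
      (-3 * δ (x, y, z) false - δ (x, y, z) true) (2 * δ (x, y, z) true) := by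
  subst ha hb hc
  rw [ofs, if_neg h]
  simp only [Eqn, cst]
  push_cast
  ring

theorem stepa_off (δ : T.P × T.P × T.P → Bool → R) {a b c : PP S.G T.G}
    (h : S.ic T a b c = S.G.tz (S.f1 T a) (S.f1 T b) (S.f1 T c)) : S.ofs T δ a b c = 0 := by
  by_cases k : T.G.Spec (S.f2 T a) (S.f2 T b) (S.f2 T c)
  · exact S.stepa_zero T δ k
  · have hp : ∀ p : PP S.G T.G, ¬T.G.lab (S.f2 T p) = true → S.G.lab (S.f1 T p) = false :=
      fun p e => p.2.trans (Bool.eq_false_iff.2 e)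
    have h1 := hp a fun e => k (Or.inl e)
    have h2 := hp b fun e => k (Or.inr (Or.inl e))
    have h3 := hp c fun e => k (Or.inr (Or.inr (Or.inl e)))
    rw [ofs, if_neg k, h, Geo.tz, h1, h2, h3]
    simp [t0]

theorem stepa_flat {q : Six S.P} (h : q.All S.G.line) (hn : ¬S.G.Quad q) :
    ∃ v : ℤ × ℤ × ℤ, Sm v ∧ ∏ k, S.σ k q.r0 q.c1 q.s1 = v ∧ ∏ k, S.σ k q.r1 q.c0 q.s1 = v ∧
      ∏ k, S.σ k q.r1 q.c1 q.s0 = v := by
  rcases S.G.degen_spec h hn with ⟨e1, e2, e3⟩ | ⟨-, -, e1, e2, e3⟩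
  · exact ⟨_, sm_prod _ _ fun k _ => S.σ_sm k _ _ _, rfl, by rw [e1, e2], by rw [e1, e3]⟩
  · exact ⟨1, sm_one, Finset.prod_eq_one fun k _ => S.σ_one k h.2.1 e1,
      Finset.prod_eq_one fun k _ => S.σ_one k h.2.2.1 e2,
      Finset.prod_eq_one fun k _ => S.σ_one k h.2.2.2 e3⟩

theorem stepa_rel {q : Six S.P} (h : q.All S.G.line) (hn : ¬S.G.Quad q) (hr : S.G.Rel q) :
    q.All S.G.Spec := by
  rcases S.G.degen_spec h hn with ⟨e1, e2, e3⟩ | ⟨-, e⟩
  · obtain ⟨r0, c0, s0, r1, c1, s1⟩ := q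
    dsimp only at e1 e2 e3
    subst e1 e2 e3
    have : S.G.Spec r0 c0 s0 := by
      rcases hr with k | ⟨b, k, l⟩
      · simp only [Geo.HasLab] at k
        simp only [Geo.Spec]
        tauto
      · exact Or.inr (Or.inr (Or.inr ⟨b, k, by dsimp only at l; tauto⟩))
    exact ⟨this, this, this, this⟩
  · exact e

/-- The lift data of one step. -/
noncomputable def stepLD (u : IsUnit (30 : R)) (δ : T.P × T.P × T.P → Bool → R) :
    LD (S.prod T) R where
  T := ⊤
  co a b c := cst R (S.ic T a b c)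
  off := S.ofs T δ
  U k := k.isLeft = true
  u30 := u
  unit a b c := (S.ic_sm T a b c).u3 u
  spec := fun {a b c} h hs =>
    ⟨congrArg (cst R) (S.ic_spec T h.1 ((S.isP T).spec1 hs)),
      S.stepa_zero T δ ((S.isP T).symm.spec1 hs)⟩
  on := by
    rintro q (k | k) hq hk hU
    · obtain ⟨q1, q2, q3⟩ := sc_eq.1 ((S.pcol_inl T).1 hk)
      have ho := (S.ic_on T q1 q3).cst (R := R)
      refine ⟨ho, ?_⟩
      have z : (q.map (S.f2 T)).All T.G.Spec → offSum (cst R (q.a00 (S.ic T)))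
          (cst R (q.a01 (S.ic T))) (cst R (q.a10 (S.ic T))) (cst R (q.a11 (S.ic T)))
          (S.ofs T δ q.r0 q.c0 q.s0) (S.ofs T δ q.r0 q.c1 q.s1) (S.ofs T δ q.r1 q.c0 q.s1)
          (S.ofs T δ q.r1 q.c1 q.s0) = 0 := fun e => by
        rw [S.stepa_zero T δ e.1, S.stepa_zero T δ e.2.1, S.stepa_zero T δ e.2.2.1,
          S.stepa_zero T δ e.2.2.2]
        simp [offSum]
      rcases T.G.degen_spec ((S.isP T).symm.all1 hq.1) q2 with ⟨e1, e2, e3⟩ | ⟨-, e⟩
      · by_cases hs : T.G.Spec (S.f2 T q.r0) (S.f2 T q.c0) (S.f2 T q.s0)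
        · refine z ?_
          unfold Six.All
          rw [← e1, ← e2, ← e3]
          exact ⟨hs, hs, hs, hs⟩
        · exact ho.offSum_eq (S.stepa_eqn T δ rfl rfl rfl hs)
            (S.stepa_eqn T δ rfl e2.symm e3.symm hs) (S.stepa_eqn T δ e1.symm rfl e3.symm hs)
            (S.stepa_eqn T δ e1.symm e2.symm rfl hs)
      · exact z e
    · exact absurd hU (by simp)
  gen := by
    rintro q (k | k) hq hk hU
    · exact absurd rfl hU
    · obtain ⟨-, q2, -⟩ := sc_eq.1 ((S.pcol_inr T).1 hk)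
      have ha := (S.isP T).all1 hq.1
      constructor
      · obtain ⟨v, hv, e1, e2, e3⟩ := S.stepa_flat ha q2
        have d := (S.prod T).G.det_tz (S.prod T).four hq
        have f1 : S.ic T q.r0 q.c1 q.s1 = q.a01 (S.prod T).G.tz * v := congrArg _ e1
        have f2 : S.ic T q.r1 q.c0 q.s1 = q.a10 (S.prod T).G.tz * v := congrArg _ e2
        have f3 : S.ic T q.r1 q.c1 q.s0 = q.a11 (S.prod T).G.tz * v := congrArg _ e3
        change IsUnit (det (cst R (S.ic T q.r0 q.c1 q.s1)) (cst R (S.ic T q.r1 q.c0 q.s1))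
          (cst R (S.ic T q.r1 q.c1 q.s0)))
        rw [f1, f2, f3, cst_mul, cst_mul, cst_mul, det_mul, det_cst]
        obtain ⟨u1, u2, u3⟩ := hv.u3 u
        exact (unit_of_dvd u d).mul ((u1.mul u2).mul u3)
      · intro hr
        have hr' : S.G.Rel (q.map (S.f1 T)) :=
          hr.imp (S.isP T).prodg_lab.2 fun ⟨b, e⟩ => ⟨_, (S.isP T).prodg_on e⟩
        obtain ⟨s0, s1, s2, s3⟩ := S.stepa_rel ha q2 hr'
        have g0 := S.ic_spec T ha.1 s0
        have g1 := S.ic_spec T ha.2.1 s1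
        have g2 := S.ic_spec T ha.2.2.1 s2
        have g3 := S.ic_spec T ha.2.2.2 s3
        exact ⟨⟨congrArg (cst R) g0, S.stepa_off T δ g0⟩, ⟨congrArg (cst R) g1, S.stepa_off T δ g1⟩,
          ⟨congrArg (cst R) g2, S.stepa_off T δ g2⟩, ⟨congrArg (cst R) g3, S.stepa_off T δ g3⟩⟩

end Pool.Agent.NL.Sys
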