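import Pool.Agent.Work.MP_03d2dd_co.NL.StepA
import Mathlib.Algebra.Field.ZMod

/-! In the lift of one step no quad that is genuine in both factors survives.

Plan.  `no_both`: let `k` be the colour of the first projection (`hS`).  `ic_on`, `OnId.cst` and
`OnId.offSum_eq` give `offSum = 0` in `R`.  The four lines of the second projection are pairwise
different triples.  Evaluate at the coordinate `ι (m, b)` for such a line `m` that is not `Spec`:
since all entries of `ic` are nonzero in `ZMod p` (`ic_sm`, `Sm.u3`), its coefficients `A` satisfy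
`-2 A.1 - 3 A.2.1 = 0` and `2 A.2.2 - A.2.1 = 0` in `ZMod p`, so `A = (-A.2.2) * (3, -2, -1)`.
The second projection is coloured (`hT`), so `T.sep` applies.
If it has a label point, its plain lines carry no label, hence are not `Spec`; the two border
lines have `ic = tz` (`ic_spec`); so each of the lines `a01 a10 a11` has coefficients
`unit * tz`, the determinant is a unit by `det_tz`, but it is 0 by `OnId.det_eq`.
Otherwise at most one of the four plain lines is `Spec` (two would carry the same label, against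
`same_row`, `same_col`, `same_sym`), and the identity of `OnId` (or `det_eq`) on the other three
lines reads `12 * unit = 0`.
`step_clean`: `sys_clean`, `IsProd.quad_or`, `pcol_inl`, `pcol_inr`, `sc_eq`, `no_both`. -/

namespace Pool.Agent.NL.Sys

variable {S T : Sys} {p n : ℕ} [Fact p.Prime] (u : IsUnit (30 : Fin n → ZMod p))
  (ι : (T.P × T.P × T.P) × Bool → Fin n)

/-- Independent offsets. -/
def dl (p : ℕ) (ι : (T.P × T.P × T.P) × Bool → Fin n) (m : T.P × T.P × T.P) (b : Bool) :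
    Fin n → ZMod p := Pi.single (ι (m, b)) 1

theorem stepb_u30 (hp : 5 < p) : IsUnit (30 : ZMod p) := by
  have hP : p.Prime := Fact.out
  refine Ne.isUnit fun h => ?_
  have h1 : p ∣ 2 * 3 * 5 := (ZMod.natCast_eq_zero_iff _ _).1 (by exact_mod_cast h)
  rcases hP.dvd_mul.1 h1 with h2 | h2
  · rcases hP.dvd_mul.1 h2 with h3 | h3 <;> exact absurd (Nat.le_of_dvd (by norm_num) h3) (by omega)
  · exact absurd (Nat.le_of_dvd (by norm_num) h2) (by omega)

variable {ι} in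
theorem stepb_ne (hι : Function.Injective ι) {a b c : PP S.G T.G} {m : T.P × T.P × T.P}
    (h : (S.f2 T a, S.f2 T b, S.f2 T c) ≠ m) (x : Bool) :
    S.ofs T (dl p ι) a b c (ι (m, x)) = 0 := by
  have k : ∀ y, dl p ι (S.f2 T a, S.f2 T b, S.f2 T c) y (ι (m, x)) = 0 := fun y =>
    Pi.single_eq_of_ne (fun e => h (congrArg Prod.fst (hι e)).symm) _
  unfold ofs
  split_ifs
  · rfl
  · simp only [Pi.add_apply, Pi.mul_apply, k, mul_zero, add_zero]

variable {ι} in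
theorem stepb_good (hp : 5 < p) (hι : Function.Injective ι) {a b c : PP S.G T.G}
    (hl : S.G.line (S.f1 T a) (S.f1 T b) (S.f1 T c))
    (h0 : ∀ x, S.ofs T (dl p ι) a b c (ι ((S.f2 T a, S.f2 T b, S.f2 T c), x)) = 0)
    (hn : ¬∃ x, T.G.lab x = true ∧ T.G.lab (S.f2 T c) = false ∧
      T.G.line (S.f2 T a) (S.f2 T b) x) :
    ∃ t : ZMod p, t ≠ 0 ∧ cst (ZMod p) (S.ic T a b c) =
      (t, t, t) * cst (ZMod p) (T.G.tz (S.f2 T a) (S.f2 T b) (S.f2 T c)) := by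
  have hP := S.isP T
  by_cases hs : T.G.Spec (S.f2 T a) (S.f2 T b) (S.f2 T c)
  · have h1 : S.G.Spec (S.f1 T a) (S.f1 T b) (S.f1 T c) := by
      unfold Geo.Spec at hs ⊢
      rw [← hP.lab1, ← hP.lab1, ← hP.lab1, hP.lab2, hP.lab2, hP.lab2]
      rcases hs with k | k | k | ⟨x, k, k'⟩
      · exact Or.inl k
      · exact Or.inr (Or.inl k)
      · exact Or.inr (Or.inr (Or.inl k))
      · exact Or.inr (Or.inr (Or.inl (by
          by_contra e
          exact hn ⟨x, k, Bool.eq_false_iff.2 e, k'⟩)))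
    refine ⟨1, one_ne_zero, ?_⟩
    rw [S.ic_spec T hl h1, ← hP.tz1, hP.symm.tz1]
    exact (one_mul _).symm
  · have e1 := h0 false
    have e2 := h0 true
    have k : ∀ x y : Bool, x ≠ y →
        dl p ι (S.f2 T a, S.f2 T b, S.f2 T c) y (ι ((S.f2 T a, S.f2 T b, S.f2 T c), x)) = 0 :=
      fun x y e => Pi.single_eq_of_ne (fun e' => e (congrArg Prod.snd (hι e'))) _
    have k' : ∀ x : Bool,
        dl p ι (S.f2 T a, S.f2 T b, S.f2 T c) x (ι ((S.f2 T a, S.f2 T b, S.f2 T c), x)) = 1 :=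
      fun x => Pi.single_eq_same _ _
    unfold ofs at e1 e2
    rw [if_neg hs] at e1 e2
    simp only [Pi.add_apply, Pi.mul_apply, k', k false true (by decide), k true false (by decide),
      mul_zero, add_zero, zero_add, mul_one, Pi.intCast_apply] at e1 e2
    push_cast at e1 e2
    have e3 : T.G.tz (S.f2 T a) (S.f2 T b) (S.f2 T c) = (3, -2, -1) := by
      unfold Geo.Spec at hs
      rw [not_or, not_or, not_or] at hs
      unfold Geo.tz t0
      rw [if_neg hs.1, if_neg hs.2.1, if_neg hs.2.2.1]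
    have u := stepb_u30 hp
    refine ⟨-((S.ic T a b c).2.2 : ZMod p), neg_ne_zero.2 ((S.ic_sm T a b c).u3 u).2.2.ne_zero, ?_⟩
    rw [e3]
    refine Prod.ext ?_ (Prod.ext ?_ ?_) <;> simp only [cst, Prod.fst_mul, Prod.snd_mul] <;> push_cast
    · refine (unit2 u).mul_left_cancel ?_
      linear_combination 3 * e2 - e1
    · linear_combination -e2
    · ring

theorem stepb_ev {v : ℤ × ℤ × ℤ} {a i j k : Fin n → ZMod p} (e : Eqn (cst _ v) a i j k)
    (x : Fin n) : Eqn (cst (ZMod p) v) (a x) (i x) (j x) (k x) := congrFun e x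

theorem no_both (hp : 5 < p) (hι : Function.Injective ι) (hS : S.Clean) (hT : T.Clean)
    {q : Six (PP S.G T.G)} (h1 : S.G.Quad (q.map (S.f1 T))) (h2 : T.G.Quad (q.map (S.f2 T)))
    {i0 j0 k0 i1 j1 k1 : Fin n → ZMod p}
    (e0 : Eqn (cst _ (q.a00 (S.ic T))) (q.a00 (S.ofs T (dl p ι))) i0 j0 k0)
    (e1 : Eqn (cst _ (q.a01 (S.ic T))) (q.a01 (S.ofs T (dl p ι))) i0 j1 k1)
    (e2 : Eqn (cst _ (q.a10 (S.ic T))) (q.a10 (S.ofs T (dl p ι))) i1 j0 k1)
    (e3 : Eqn (cst _ (q.a11 (S.ic T))) (q.a11 (S.ofs T (dl p ι))) i1 j1 k0) : False := by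
  obtain ⟨k, hk⟩ := Option.ne_none_iff_exists'.1 (hS _ h1)
  have u := stepb_u30 hp
  have hO := (S.ic_on T h1 hk).cst (R := ZMod p)
  have h0 := fun x => hO.offSum_eq (stepb_ev e0 x) (stepb_ev e1 x) (stepb_ev e2 x) (stepb_ev e3 x)
  have uA : U3 (cst (ZMod p) (q.a00 (S.ic T))) := (S.ic_sm T _ _ _).u3 u
  have uB : U3 (cst (ZMod p) (q.a01 (S.ic T))) := (S.ic_sm T _ _ _).u3 u
  have uC : U3 (cst (ZMod p) (q.a10 (S.ic T))) := (S.ic_sm T _ _ _).u3 u
  have uD : U3 (cst (ZMod p) (q.a11 (S.ic T))) := (S.ic_sm T _ _ _).u3 u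
  have hD := hO.det_eq uA uC uD
  have hdet := unit_of_dvd u (T.G.det_tz T.four h2)
  have hsep := fun b => T.sep _ b h2 (hT _ h2)
  obtain ⟨⟨l0, l1, l2, l3⟩, -⟩ := h1
  obtain ⟨⟨m0, m1, m2, m3⟩, hr, hc, hs⟩ := h2
  have nr : ∀ {x y z w : T.P}, (S.f2 T q.r0, x, y) ≠ (S.f2 T q.r1, z, w) := fun e =>
    hr (congrArg Prod.fst e)
  have nc : ∀ {x y z w : T.P}, (x, S.f2 T q.c0, y) ≠ (z, S.f2 T q.c1, w) := fun e =>
    hc (congrArg (fun v => v.2.1) e)
  unfold offSum Six.a00 Six.a01 Six.a10 Six.a11 at h0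
  have gA := stepb_good hp hι l0 fun x => by
    have e := h0 (ι ((S.f2 T q.r0, S.f2 T q.c0, S.f2 T q.s0), x))
    rw [stepb_ne hι nc.symm, stepb_ne hι nr.symm, stepb_ne hι nr.symm] at e
    exact (uB.1.mul (uC.2.1.mul uD.2.2)).mul_right_cancel (by
      unfold Six.a01 Six.a10 Six.a11
      linear_combination e)
  have gB := stepb_good hp hι l1 fun x => by
    have e := h0 (ι ((S.f2 T q.r0, S.f2 T q.c1, S.f2 T q.s1), x))
    rw [stepb_ne hι nc, stepb_ne hι nr.symm, stepb_ne hι nr.symm] at e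
    exact (uA.1.mul (uC.2.1.mul uD.2.2)).mul_right_cancel (by
      unfold Six.a00 Six.a10 Six.a11
      linear_combination -e)
  have gC := stepb_good hp hι l2 fun x => by
    have e := h0 (ι ((S.f2 T q.r1, S.f2 T q.c0, S.f2 T q.s1), x))
    rw [stepb_ne hι nr, stepb_ne hι nr, stepb_ne hι nc.symm] at e
    exact (uA.2.1.mul (uB.1.mul uD.2.2)).mul_right_cancel (by
      unfold Six.a00 Six.a01 Six.a11
      linear_combination -e)
  have gD := stepb_good hp hι l3 fun x => by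
    have e := h0 (ι ((S.f2 T q.r1, S.f2 T q.c1, S.f2 T q.s0), x))
    rw [stepb_ne hι nr, stepb_ne hι nr, stepb_ne hι nc] at e
    exact (uA.2.2.mul (uB.1.mul uC.2.1)).mul_right_cancel (by
      unfold Six.a00 Six.a01 Six.a10
      linear_combination -e)
  clear h0 uA uB uC uD e0 e1 e2 e3
  have u12 : (12 : ZMod p) ≠ 0 := by
    have := ((unit2 u).mul ((unit2 u).mul (unit3 u))).ne_zero
    rwa [show (2 * (2 * 3) : ZMod p) = 12 by norm_num] at this
  have tz0 : ¬T.G.HasLab (q.map (S.f2 T)) →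
      T.G.tz (S.f2 T q.r0) (S.f2 T q.c0) (S.f2 T q.s0) = (3, -2, -1) ∧
      T.G.tz (S.f2 T q.r0) (S.f2 T q.c1) (S.f2 T q.s1) = (3, -2, -1) ∧
      T.G.tz (S.f2 T q.r1) (S.f2 T q.c0) (S.f2 T q.s1) = (3, -2, -1) ∧
      T.G.tz (S.f2 T q.r1) (S.f2 T q.c1) (S.f2 T q.s0) = (3, -2, -1) := fun h => by
    simp only [Geo.HasLab, Six.map, not_or] at h
    obtain ⟨a1, a2, a3, a4, a5, a6⟩ := h
    simp only [Geo.tz, t0, if_neg a1, if_neg a2, if_neg a3, if_neg a4, if_neg a5, if_neg a6,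
      and_self]
  unfold OnId Six.a00 Six.a01 Six.a10 Six.a11 at hO
  by_cases bB : ∃ x, T.G.lab x = true ∧ T.G.lab (S.f2 T q.s1) = false ∧
      T.G.line (S.f2 T q.r0) (S.f2 T q.c1) x
  · obtain ⟨x, x1, x2, x3⟩ := bB
    obtain ⟨n1, n2⟩ := hsep x ⟨x1, Or.inr (Or.inl ⟨x2, x3⟩)⟩
    obtain ⟨a, a0, ea⟩ := gA fun ⟨y, y1, y2, y3⟩ =>
      hc (T.G.same_row x1 (n2 y ⟨y1, Or.inl ⟨y2, y3⟩⟩ ▸ y3) x3)
    obtain ⟨c, c0, ec⟩ := gC fun ⟨y, y1, y2, y3⟩ => hr (T.G.same_sym m1 m2 x2 x1 x3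
      (n2 y ⟨y1, Or.inr (Or.inr (Or.inl ⟨y2, y3⟩))⟩ ▸ y3)).1
    obtain ⟨d, d0, ed⟩ := gD fun ⟨y, y1, y2, y3⟩ =>
      hr (T.G.same_col x1 x3 (n2 y ⟨y1, Or.inr (Or.inr (Or.inr ⟨y2, y3⟩))⟩ ▸ y3))
    have e := hO.2.1
    rw [ea, ec, ed, (tz0 n1).1, (tz0 n1).2.2.1, (tz0 n1).2.2.2] at e
    simp only [cst, Prod.fst_mul, Prod.snd_mul] at e
    push_cast at e
    exact mul_ne_zero u12 (mul_ne_zero a0 (mul_ne_zero c0 d0)) (by linear_combination e)
  by_cases bC : ∃ x, T.G.lab x = true ∧ T.G.lab (S.f2 T q.s1) = false ∧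
      T.G.line (S.f2 T q.r1) (S.f2 T q.c0) x
  · obtain ⟨x, x1, x2, x3⟩ := bC
    obtain ⟨n1, n2⟩ := hsep x ⟨x1, Or.inr (Or.inr (Or.inl ⟨x2, x3⟩))⟩
    obtain ⟨a, a0, ea⟩ := gA fun ⟨y, y1, y2, y3⟩ =>
      hr (T.G.same_col x1 (n2 y ⟨y1, Or.inl ⟨y2, y3⟩⟩ ▸ y3) x3)
    obtain ⟨b, b0, eb⟩ := gB bB
    obtain ⟨d, d0, ed⟩ := gD fun ⟨y, y1, y2, y3⟩ =>
      hc (T.G.same_row x1 x3 (n2 y ⟨y1, Or.inr (Or.inr (Or.inr ⟨y2, y3⟩))⟩ ▸ y3))
    have e := hO.1
    rw [ea, eb, ed, (tz0 n1).1, (tz0 n1).2.1, (tz0 n1).2.2.2] at e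
    simp only [cst, Prod.fst_mul, Prod.snd_mul] at e
    push_cast at e
    exact mul_ne_zero u12 (mul_ne_zero a0 (mul_ne_zero b0 d0)) (by linear_combination e)
  obtain ⟨b, b0, eb⟩ := gB bB
  obtain ⟨c, c0, ec⟩ := gC bC
  by_cases bD : ∃ x, T.G.lab x = true ∧ T.G.lab (S.f2 T q.s0) = false ∧
      T.G.line (S.f2 T q.r1) (S.f2 T q.c1) x
  · obtain ⟨x, x1, x2, x3⟩ := bD
    obtain ⟨n1, n2⟩ := hsep x ⟨x1, Or.inr (Or.inr (Or.inr ⟨x2, x3⟩))⟩
    obtain ⟨a, a0, ea⟩ := gA fun ⟨y, y1, y2, y3⟩ =>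
      hr (T.G.same_sym m0 m3 x2 x1 (n2 y ⟨y1, Or.inl ⟨y2, y3⟩⟩ ▸ y3) x3).1
    have e := hO.2.2
    rw [ea, eb, ec, (tz0 n1).1, (tz0 n1).2.1, (tz0 n1).2.2.1] at e
    simp only [cst, Prod.fst_mul, Prod.snd_mul] at e
    push_cast at e
    exact mul_ne_zero u12 (mul_ne_zero a0 (mul_ne_zero b0 c0)) (by linear_combination e)
  obtain ⟨d, d0, ed⟩ := gD bD
  rw [← det_cst] at hdet
  unfold Six.a01 Six.a10 Six.a11 at hD hdet
  simp only [Six.map] at eb ec ed hdet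
  rw [eb, ec, ed] at hD
  refine mul_ne_zero (mul_ne_zero b0 (mul_ne_zero c0 d0)) hdet.ne_zero ?_
  simp only [det, Prod.fst_mul, Prod.snd_mul] at hD ⊢
  linear_combination hD

theorem step_clean (hp : 5 < p) (hι : Function.Injective ι) (hS : S.Clean) (hT : T.Clean) :
    (S.stepLD T u (dl p ι)).sys.Clean := by
  refine LD.sys_clean _ fun q hq hl => ?_
  obtain ⟨⟨-, e0⟩, ⟨-, e1⟩, ⟨-, e2⟩, ⟨-, e3⟩⟩ := hl
  generalize hq' : q.map (S.stepLD T u (dl p ι)).pr = q' at hq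
  change S.pcol T q' ≠ none
  by_cases h1 : S.G.Quad (q'.map (S.f1 T))
  · by_cases h2 : T.G.Quad (q'.map (S.f2 T))
    · subst hq'
      exact (no_both ι hp hι hS hT h1 h2 e0 e1 e2 e3).elim
    · obtain ⟨k, hk⟩ := Option.ne_none_iff_exists'.1 (hS _ h1)
      rw [(S.pcol_inl T).2 (sc_eq.2 ⟨h1, h2, hk⟩)]
      exact Option.some_ne_none _
  · have h2 := ((S.isP T).quad_or hq).resolve_left h1
    obtain ⟨k, hk⟩ := Option.ne_none_iff_exists'.1 (hT _ h2)
    rw [(S.pcol_inr T).2 (sc_eq.2 ⟨h2, h1, hk⟩)]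
    exact Option.some_ne_none _

end Pool.Agent.NL.Sys
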