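import Pool.Agent.Work.MP_03d2dd_co.NL.Defs

/-! Translation invariant squares with transversals, given by tables, and the finite checks. -/

namespace Pool.Agent.NL

/-- Function application that evaluates its argument first. -/
def frc {α : Type} (n : ℕ) (f : ℕ → α) : α := Nat.casesOn n (f 0) fun m => f (m + 1)

theorem frc_eq {α : Type} (n : ℕ) (f : ℕ → α) : frc n f = f n := by cases n <;> rfl

/-- Plain points are pairs (class, group element); `B` is the set of labels.
`th a b x = (d, y)` says that `((a, r), (b, r + x), (d, r + y))` is a cell for every `r`;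
`rw b d (y - x) = (a, x)` and `cm a d y = (b, x)` are the inverse tables.
The transversal `β` meets row `(a, r)` in column `tc β a` and symbol `ts β a` (shifted by `r`),
and column `(b, c)` in symbol `tz β b` (shifted by `c`).  `fr a x` is `some (.inl (a, x))`,
written so that it evaluates its arguments first. -/
structure Tab (W V B : Type) where
  th : W → W → V → W × V
  rw : W → W → V → W × V
  cm : W → W → V → W × V
  tc : B → W → W × V
  ts : B → W → W × V
  tz : B → W → W × V
  ic : B → W → W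
  is : B → W → W
  lc : W → W → V → Option B
  lz : W → W → V → Option B
  pr : W → W → V → Bool
  sg : W → W → V → ℤ × ℤ × ℤ
  fr : W → V → Option ((W × V) ⊕ B)

namespace Tab

variable {W V B : Type} [AddCommGroup V] (T : Tab W V B)

def lab : (W × V) ⊕ B → Bool
  | .inl _ => false
  | .inr _ => true

def up (x : V) (t : W × V) : Option ((W × V) ⊕ B) := T.fr t.1 (x + t.2)

def dn (x : V) (t : W × V) : Option ((W × V) ⊕ B) := T.fr t.1 (x - t.2)

/-- The symbol of kind `k` in a given row and column. -/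
def f3 (a b : (W × V) ⊕ B) (k : Bool) : Option ((W × V) ⊕ B) :=
  Sum.casesOn a
    (fun a => Sum.casesOn b
      (fun b => cond k ((T.lc a.1 b.1 (b.2 - a.2)).map .inr) (T.up a.2 (T.th a.1 b.1 (b.2 - a.2))))
      (fun β => cond k none (T.up a.2 (T.ts β a.1))))
    (fun β => Sum.casesOn b (fun b => cond k none (T.up b.2 (T.tz β b.1))) (fun _ => none))

/-- The row of kind `k` for a given column and symbol. -/
def f1 (b d : (W × V) ⊕ B) (k : Bool) : Option ((W × V) ⊕ B) :=
  Sum.casesOn b
    (fun b => Sum.casesOn d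
      (fun d => cond k ((T.lz b.1 d.1 (d.2 - b.2)).map .inr) (T.dn b.2 (T.rw b.1 d.1 (d.2 - b.2))))
      (fun β => cond k none (T.dn b.2 (T.ic β b.1, (T.tc β (T.ic β b.1)).2))))
    (fun β => Sum.casesOn d
      (fun d => cond k none (T.dn d.2 (T.is β d.1, (T.ts β (T.is β d.1)).2))) (fun _ => none))

def line (a b c : (W × V) ⊕ B) : Prop := T.f3 a b (lab c) = some c

/-- Protected lines. -/
def prot : (W × V) ⊕ B → (W × V) ⊕ B → (W × V) ⊕ B → Bool
  | .inl a, .inl b, .inl _ => T.pr a.1 b.1 (b.2 - a.2)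
  | _, _, _ => true

def sig : (W × V) ⊕ B → (W × V) ⊕ B → (W × V) ⊕ B → ℤ × ℤ × ℤ
  | .inl a, .inl b, .inl _ => T.sg a.1 b.1 (b.2 - a.2)
  | _, _, _ => 1

def hasLab (q : Six ((W × V) ⊕ B)) : Bool :=
  lab q.r0 || lab q.c0 || lab q.s0 || lab q.r1 || lab q.c1 || lab q.s1

def allProt (q : Six ((W × V) ⊕ B)) : Bool :=
  q.a00 T.prot && q.a01 T.prot && q.a10 T.prot && q.a11 T.prot

def colB (q : Six ((W × V) ⊕ B)) : Bool := !hasLab q || T.allProt q

def col (q : Six ((W × V) ⊕ B)) : Option Unit := if T.colB q then some () else none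

/-- Indicator of the plain lines that lie on a transversal. -/
def tau (a b c : (W × V) ⊕ B) : ℕ := if !lab c && (T.f3 a b true).isSome then 1 else 0

def tzz (a b c : (W × V) ⊕ B) : ℤ × ℤ × ℤ := t0 (lab a) (lab b) (lab c)

instance (A B C D : ℤ × ℤ × ℤ) : Decidable (OnId A B C D) := by
  unfold OnId; infer_instance

variable [DecidableEq W] [DecidableEq V] [DecidableEq B]

def eqP (a b : (W × V) ⊕ B) : Bool :=
  Sum.casesOn a
    (fun a => Sum.casesOn b (fun b => decide (a.2 = b.2) && decide (a.1 = b.1)) (fun _ => false))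
    (fun β => Sum.casesOn b (fun _ => false) (fun β' => decide (β = β')))

/-- The quad through `(a, b, c)` with second column `y` and the kinds `k`, `k'` of the second
symbol and row, if there is one. -/
def cand (a b c y : (W × V) ⊕ B) (k k' : Bool) : Option (Six ((W × V) ⊕ B)) :=
  (T.f3 a y k).bind fun s => (T.f1 b s k').bind fun r => (T.f3 r y (lab c)).bind fun t =>
    cond (eqP t c && !eqP a r && !eqP b y && !eqP c s) (some ⟨a, b, c, r, y, s⟩) none

/-- The pointwise conditions on a quad. -/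
def good (q : Six ((W × V) ⊕ B)) : Bool :=
  !(lab q.r0 && lab q.r1) && !(lab q.c0 && lab q.c1) && !(lab q.s0 && lab q.s1) &&
    (!T.colB q ||
      (decide (OnId (q.a00 tzz * q.a00 T.sig) (q.a01 tzz * q.a01 T.sig) (q.a10 tzz * q.a10 T.sig)
          (q.a11 tzz * q.a11 T.sig)) &&
        (decide (q.a00 T.tau + q.a01 T.tau + q.a10 T.tau + q.a11 T.tau = 0) ||
          (!hasLab q && T.allProt q &&
            decide (q.a00 T.tau + q.a01 T.tau + q.a10 T.tau + q.a11 T.tau = 1)))))

def plain (q : Six ((W × V) ⊕ B)) : Bool := !(lab q.r1 || lab q.c1 || lab q.s1)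

/-- Weight of a quad in the count of plain coloured quads. -/
def wReg (q : Six ((W × V) ⊕ B)) : ℕ := if T.colB q && plain q then 1 else 0

def wLoss (q : Six ((W × V) ⊕ B)) : ℕ :=
  if T.colB q && plain q then q.a01 T.tau + q.a10 T.tau + q.a11 T.tau else 0

def wGain (q : Six ((W × V) ⊕ B)) : ℕ := if T.colB q && !plain q then 1 else 0

def cands (a b c y : (W × V) ⊕ B) : List (Six ((W × V) ⊕ B)) :=
  (T.cand a b c y false false).toList ++ ((T.cand a b c y false true).toList ++
    ((T.cand a b c y true false).toList ++ (T.cand a b c y true true).toList))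

/-- All quads through a line; `e 0, ..., e (n - 1)` are the points. -/
def quads (n : ℕ) (e : ℕ → (W × V) ⊕ B) (a b c : (W × V) ⊕ B) : List (Six ((W × V) ⊕ B)) :=
  (List.range n).flatMap fun i => T.cands a b c (e i)

/-- The conditions on the quads through one line. -/
def okL (j : ℕ) (pl : Bool) (m : List (Six ((W × V) ⊕ B))) : Bool :=
  (m.map T.wReg).sum == j && (!pl || (m.map T.wLoss).sum == (m.map T.wGain).sum) && m.all T.good

/-- Check of the cell in row `(a, 0)` and column `p`. -/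
def okCell (n : ℕ) (e : ℕ → (W × V) ⊕ B) (j : ℕ) (a : W) (p : W × V) : Bool :=
  T.okL j true (T.quads n e (.inl (a, 0)) (.inl p) (.inl (T.th a p.1 p.2)))

/-- Fast versions of the tables on codes of plain points. -/
structure Raw where
  cd : W × V → ℕ
  thN : ℕ → ℕ → ℕ
  rwN : ℕ → ℕ → ℕ
  lcN : ℕ → ℕ → Bool
  lzN : ℕ → ℕ → Bool
  th_cd : ∀ a b, thN (cd a) (cd b) =
    cd ((T.th a.1 b.1 (b.2 - a.2)).1, a.2 + (T.th a.1 b.1 (b.2 - a.2)).2)
  rw_cd : ∀ b d, rwN (cd b) (cd d) =
    cd ((T.rw b.1 d.1 (d.2 - b.2)).1, b.2 - (T.rw b.1 d.1 (d.2 - b.2)).2)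
  lc_cd : ∀ a b, lcN (cd a) (cd b) = (T.lc a.1 b.1 (b.2 - a.2)).isSome
  lz_cd : ∀ b d, lzN (cd b) (cd d) = (T.lz b.1 d.1 (d.2 - b.2)).isSome

/-- A fast test that is true whenever some quad has the second column with code `i`. -/
def Raw.pf (R : T.Raw) (a b c i : ℕ) : Bool :=
  frc (R.thN a i) fun s => frc (R.rwN b s) fun r =>
    Nat.beq (R.thN r i) c || R.lzN b s || R.lcN a i

/-- The fast version of `okCell`; the first `t` points are the plain ones. -/
def Raw.okCell (R : T.Raw) (n t : ℕ) (e : ℕ → (W × V) ⊕ B) (j : ℕ) (a : W) (p : W × V) : Bool :=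
  frc (R.cd (a, 0)) fun x => frc (R.cd p) fun y => frc (R.cd (T.th a p.1 p.2)) fun z =>
    T.okL j true ((List.range n).flatMap fun i => cond (Nat.blt i t && !R.pf T x y z i) []
      (T.cands (.inl (a, 0)) (.inl p) (.inl (T.th a p.1 p.2)) (e i)))

variable [Fintype W] [Fintype V] [Fintype B]

/-- Check of the three border lines of the transversal `β` at row `(a, 0)`. -/
def okBord (n : ℕ) (e : ℕ → (W × V) ⊕ B) (j : ℕ) (β : B) (a : W) : Bool :=
  T.okL j false (T.quads n e (.inr β) (.inl (T.tc β a)) (.inl (T.ts β a))) &&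
    T.okL j false (T.quads n e (.inl (a, 0)) (.inr β) (.inl (T.ts β a))) &&
    T.okL j false (T.quads n e (.inl (a, 0)) (.inl (T.tc β a)) (.inr β)) &&
    decide (∀ β' β'', T.tz β'' (T.tc β a).1 = ((T.ts β' a).1, (T.ts β' a).2 - (T.tc β a).2) →
      β = β' ∧ β = β'')

/-- The tables of the square fit together. -/
def Ok1 (a b : W) (x : V) : Prop :=
  T.fr a x = some (.inl (a, x)) ∧ T.rw b (T.th a b x).1 ((T.th a b x).2 - x) = (a, x) ∧
    T.cm a (T.th a b x).1 (T.th a b x).2 = (b, x) ∧
    T.th (T.rw a b x).1 a (T.rw a b x).2 = (b, (T.rw a b x).2 + x) ∧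
    T.th a (T.cm a b x).1 (T.cm a b x).2 = (b, x) ∧
    (T.sg a b x).1 ∣ 30 ^ 3 ∧ (T.sg a b x).2.1 ∣ 30 ^ 3 ∧ (T.sg a b x).2.2 ∣ 30 ^ 3

instance (a b : W) (x : V) : Decidable (T.Ok1 a b x) := by
  unfold Ok1; infer_instance

/-- The label finders are correct. -/
def Ok2 (a b : W) (x : V) (β : B) : Prop :=
  (T.lc a b x = some β ↔ T.tc β a = (b, x)) ∧ (T.lz a b x = some β ↔ T.tz β a = (b, x))

instance (a b : W) (x : V) (β : B) : Decidable (T.Ok2 a b x β) := by
  unfold Ok2; infer_instance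

/-- The tables of the transversals fit together. -/
def Ok3 (β : B) (a : W) : Prop :=
  T.th a (T.tc β a).1 (T.tc β a).2 = T.ts β a ∧
    T.tz β (T.tc β a).1 = ((T.ts β a).1, (T.ts β a).2 - (T.tc β a).2) ∧
    T.ic β (T.tc β a).1 = a ∧ T.is β (T.ts β a).1 = a ∧ (T.tc β (T.ic β a)).1 = a ∧
    (T.ts β (T.is β a)).1 = a ∧ T.sg a (T.tc β a).1 (T.tc β a).2 = 1 ∧
    T.pr a (T.tc β a).1 (T.tc β a).2 = true

instance (β : B) (a : W) : Decidable (T.Ok3 β a) := by
  unfold Ok3; infer_instance

/-- The tables fit together. -/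
def OkTab : Prop := (∀ a b x, T.Ok1 a b x) ∧ (∀ a b x β, T.Ok2 a b x β) ∧ ∀ β a, T.Ok3 β a

instance : Decidable T.OkTab := by
  unfold OkTab; infer_instance

end Tab

end Pool.Agent.NL
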