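import Pool.Agent.Work.MP_03d2dd_co.NL.TabD
import Pool.Agent.Work.MP_03d2dd_co.NL.GeoB

/-! The geometry of a table.

Plan.  First prove the four descriptions `line_ppp`, `line_ppl`, `line_plp`, `line_lpp` of lines
(unfold `line`, `f3`, `up`, use the first clause of `Ok1` and `Ok2`); lines with two labels do not
exist.  Then the axioms by cases on the kinds of the points:
`u1`: `rw` inverts `th` (`Ok1`), `ic`, `is` invert the first components of `tc`, `ts` (`Ok3`), and
`lz` finds the label (`Ok2`).  `u2`: `cm` inverts `th`; for a label row `β` write the column class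
as `(tc β a).1` with `a = ic β _`, then `tz` gives `a = is β _`; for two label columns `cm` gives
`tc β a = tc β' a` and `lc` gives `β = β'`.  `u3`: `f3` is a function.  `e1`, `e2`, `e3`: the
tables give the point.  `t1`, `t2`: one direction from `Ok3`; for the other build the cell of the
transversal in the same column (row) and use uniqueness. -/

namespace Pool.Agent.NL.Tab

section

variable {W V B : Type} [AddCommGroup V] {T : Tab W V B} (h : T.OkTab)
include h

theorem tabg_up (x : V) (t : W × V) : T.up x t = some (.inl (t.1, x + t.2)) :=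
  (h.1 t.1 t.1 _).1

theorem tabg_dn (x : V) (t : W × V) : T.dn x t = some (.inl (t.1, x - t.2)) :=
  (h.1 t.1 t.1 _).1

theorem tabg_up_iff (x : V) (t c : W × V) :
    T.up x t = some (.inl c) ↔ t = (c.1, c.2 - x) := by
  rw [tabg_up h]
  obtain ⟨t1, t2⟩ := t
  obtain ⟨c1, c2⟩ := c
  simp only [Option.some.injEq, Sum.inl.injEq, Prod.mk.injEq]
  exact and_congr_right fun _ => ⟨fun e => by rw [← e, add_sub_cancel_left], fun e => by rw [e, add_sub_cancel]⟩

theorem tabg_lppp (a b c : W × V) : T.line (.inl a) (.inl b) (.inl c) ↔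
    T.th a.1 b.1 (b.2 - a.2) = (c.1, c.2 - a.2) := by
  exact tabg_up_iff h _ _ _

theorem tabg_lppl (a b : W × V) (β : B) : T.line (.inl a) (.inl b) (.inr β) ↔
    T.tc β a.1 = (b.1, b.2 - a.2) := by
  rw [← (h.2.1 a.1 b.1 (b.2 - a.2) β).1]
  show (T.lc a.1 b.1 (b.2 - a.2)).map Sum.inr = some (Sum.inr β) ↔ _
  cases T.lc a.1 b.1 (b.2 - a.2) <;> simp

theorem tabg_lplp (a c : W × V) (β : B) : T.line (.inl a) (.inr β) (.inl c) ↔
    T.ts β a.1 = (c.1, c.2 - a.2) := by
  exact tabg_up_iff h _ _ _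

theorem tabg_llpp (b c : W × V) (β : B) : T.line (.inr β) (.inl b) (.inl c) ↔
    T.tz β b.1 = (c.1, c.2 - b.2) := by
  exact tabg_up_iff h _ _ _

omit h in
theorem tabg_pll {a : W × V} {β γ : B} (l : T.line (.inl a) (.inr β) (.inr γ)) : False :=
  absurd (show none = some _ from l) (by simp)

omit h in
theorem tabg_lpl {b : W × V} {β γ : B} (l : T.line (.inr β) (.inl b) (.inr γ)) : False :=
  absurd (show none = some _ from l) (by simp)

omit h in
theorem tabg_ll {c : (W × V) ⊕ B} {β γ : B} (l : T.line (.inr β) (.inr γ) c) : False :=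
  absurd (show none = some _ from l) (by simp)

omit h in
theorem tabg_pair {a a' : W × V} {x : V} (e : (a.1, x - a.2) = (a'.1, x - a'.2)) : a = a' :=
  Prod.ext (Prod.mk.inj e).1 (sub_right_injective (Prod.mk.inj e).2)

omit h in
theorem tabg_pair' {a a' : W × V} {x : V} (e : (a.1, a.2 - x) = (a'.1, a'.2 - x)) : a = a' :=
  Prod.ext (Prod.mk.inj e).1 (sub_left_injective (Prod.mk.inj e).2)

theorem tabg_rw {a b c : W × V} (l : T.line (.inl a) (.inl b) (.inl c)) :
    T.rw b.1 c.1 (c.2 - b.2) = (a.1, b.2 - a.2) := by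
  have k := (h.1 a.1 b.1 (b.2 - a.2)).2.1
  rwa [(tabg_lppp h a b c).1 l, sub_sub_sub_cancel_right] at k

theorem tabg_cm {a b c : W × V} (l : T.line (.inl a) (.inl b) (.inl c)) :
    T.cm a.1 c.1 (c.2 - a.2) = (b.1, b.2 - a.2) := by
  have k := (h.1 a.1 b.1 (b.2 - a.2)).2.2.1
  rwa [(tabg_lppp h a b c).1 l] at k

theorem tabg_u1 {a a' b c : (W × V) ⊕ B} (l : T.line a b c) (l' : T.line a' b c)
    (e : lab a = lab a') : a = a' := by
  rcases a with a | a <;> rcases a' with a' | a'
  · rcases b with b | b <;> rcases c with c | c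
    · rw [tabg_pair ((tabg_rw h l).symm.trans (tabg_rw h l'))]
    · have e1 := (tabg_lppl h a b c).1 l
      have e2 := (tabg_lppl h a' b c).1 l'
      have k1 := (h.2.2 c a.1).2.2.1
      have k2 := (h.2.2 c a'.1).2.2.1
      rw [e1] at k1
      rw [e2] at k2
      have k : a.1 = a'.1 := k1.symm.trans k2
      rw [k, e2] at e1
      rw [Prod.ext k (sub_right_injective (Prod.mk.inj e1).2).symm]
    · have e1 := (tabg_lplp h a c b).1 l
      have e2 := (tabg_lplp h a' c b).1 l'
      have k1 := (h.2.2 b a.1).2.2.2.1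
      have k2 := (h.2.2 b a'.1).2.2.2.1
      rw [e1] at k1
      rw [e2] at k2
      have k : a.1 = a'.1 := k1.symm.trans k2
      rw [k, e2] at e1
      rw [Prod.ext k (sub_right_injective (Prod.mk.inj e1).2).symm]
    · exact (tabg_pll l).elim
  · exact absurd e (by simp [lab])
  · exact absurd e (by simp [lab])
  · rcases b with b | b
    · rcases c with c | c
      · have e1 := (h.2.1 _ _ _ _).2.2 ((tabg_llpp h b c a).1 l)
        have e2 := (h.2.1 _ _ _ _).2.2 ((tabg_llpp h b c a').1 l')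
        rw [Option.some.inj (e1.symm.trans e2)]
      · exact (tabg_lpl l).elim
    · exact (tabg_ll l).elim

theorem tabg_tz {β : B} {b c : W} {x : V} (e : T.tz β b = (c, x)) : T.ic β b = T.is β c := by
  have k := (h.2.2 β (T.ic β b)).2.1
  have k' := (h.2.2 β (T.ic β b)).2.2.2.1
  rw [(h.2.2 β b).2.2.2.2.1, e] at k
  rw [← (Prod.mk.inj k).1] at k'
  exact k'.symm

theorem tabg_u2 {a b b' c : (W × V) ⊕ B} (l : T.line a b c) (l' : T.line a b' c)
    (e : lab b = lab b') : b = b' := by
  rcases b with b | b <;> rcases b' with b' | b'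
  · rcases a with a | a <;> rcases c with c | c
    · rw [tabg_pair' ((tabg_cm h l).symm.trans (tabg_cm h l'))]
    · rw [tabg_pair' (((tabg_lppl h a b c).1 l).symm.trans ((tabg_lppl h a b' c).1 l'))]
    · have e1 := (tabg_llpp h b c a).1 l
      have e2 := (tabg_llpp h b' c a).1 l'
      have k : b.1 = b'.1 := by
        rw [← (h.2.2 a b.1).2.2.2.2.1, ← (h.2.2 a b'.1).2.2.2.2.1, tabg_tz h e1, tabg_tz h e2]
      rw [k, e2] at e1
      rw [Prod.ext k (sub_right_injective (Prod.mk.inj e1).2).symm]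
    · exact (tabg_lpl l).elim
  · exact absurd e (by simp [lab])
  · exact absurd e (by simp [lab])
  · rcases a with a | a
    · rcases c with c | c
      · have e1 := (tabg_lplp h a c b).1 l
        have e2 := (tabg_lplp h a c b').1 l'
        have k1 := (h.1 a.1 (T.tc b a.1).1 (T.tc b a.1).2).2.2.1
        have k2 := (h.1 a.1 (T.tc b' a.1).1 (T.tc b' a.1).2).2.2.1
        rw [(h.2.2 b a.1).1, e1] at k1
        rw [(h.2.2 b' a.1).1, e2] at k2
        have k : T.tc b a.1 = T.tc b' a.1 := k1.symm.trans k2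
        have m1 := (h.2.1 a.1 (T.tc b a.1).1 (T.tc b a.1).2 b).1.2 rfl
        have m2 := (h.2.1 a.1 (T.tc b a.1).1 (T.tc b a.1).2 b').1.2 k.symm
        rw [Option.some.inj (m1.symm.trans m2)]
      · exact (tabg_pll l).elim
    · exact (tabg_ll l).elim

omit h in
theorem tabg_u3 {a b c c' : (W × V) ⊕ B} (l : T.line a b c) (l' : T.line a b c')
    (e : lab c = lab c') : c = c' := by
  unfold line at l l'
  rw [e, l'] at l
  exact (Option.some.inj l).symm

theorem tabg_e1 (b c : (W × V) ⊕ B) (e : lab b = false ∨ lab c = false) :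
    ∃ a, lab a = false ∧ T.line a b c := by
  rcases b with b | b <;> rcases c with c | c
  · refine ⟨.inl ((T.rw b.1 c.1 (c.2 - b.2)).1, b.2 - (T.rw b.1 c.1 (c.2 - b.2)).2), rfl,
      (tabg_lppp h _ _ _).2 ?_⟩
    dsimp only
    rw [sub_sub_cancel, (h.1 b.1 c.1 (c.2 - b.2)).2.2.2.1]
    rw [sub_sub_eq_add_sub, add_sub_right_comm, add_comm]
  · refine ⟨.inl (T.ic c b.1, b.2 - (T.tc c (T.ic c b.1)).2), rfl, (tabg_lppl h _ _ _).2 ?_⟩
    dsimp only
    rw [sub_sub_cancel]
    exact Prod.ext (h.2.2 c b.1).2.2.2.2.1 rfl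
  · refine ⟨.inl (T.is b c.1, c.2 - (T.ts b (T.is b c.1)).2), rfl, (tabg_lplp h _ _ _).2 ?_⟩
    dsimp only
    rw [sub_sub_cancel]
    exact Prod.ext (h.2.2 b c.1).2.2.2.2.2.1 rfl
  · exact absurd e (by simp [lab])

theorem tabg_e2 (a c : (W × V) ⊕ B) (e : lab a = false ∨ lab c = false) :
    ∃ b, lab b = false ∧ T.line a b c := by
  rcases a with a | a <;> rcases c with c | c
  · refine ⟨.inl ((T.cm a.1 c.1 (c.2 - a.2)).1, (T.cm a.1 c.1 (c.2 - a.2)).2 + a.2), rfl,
      (tabg_lppp h _ _ _).2 ?_⟩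
    dsimp only
    rw [add_sub_cancel_right, (h.1 a.1 c.1 (c.2 - a.2)).2.2.2.2.1]
  · refine ⟨.inl ((T.tc c a.1).1, (T.tc c a.1).2 + a.2), rfl, (tabg_lppl h _ _ _).2 ?_⟩
    dsimp only
    rw [add_sub_cancel_right]
  · refine ⟨.inl ((T.tc a (T.is a c.1)).1,
      c.2 - ((T.ts a (T.is a c.1)).2 - (T.tc a (T.is a c.1)).2)), rfl, (tabg_llpp h _ _ _).2 ?_⟩
    dsimp only
    rw [sub_sub_cancel, (h.2.2 a (T.is a c.1)).2.1, (h.2.2 a c.1).2.2.2.2.2.1]
  · exact absurd e (by simp [lab])

theorem tabg_e3 (a b : (W × V) ⊕ B) (e : lab a = false ∨ lab b = false) :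
    ∃ c, lab c = false ∧ T.line a b c := by
  rcases a with a | a <;> rcases b with b | b
  · exact ⟨.inl _, rfl, tabg_up h _ _⟩
  · exact ⟨.inl _, rfl, tabg_up h _ _⟩
  · exact ⟨.inl _, rfl, tabg_up h _ _⟩
  · exact absurd e (by simp [lab])

theorem tabg_fw {r c s : W × V} {β : B} (l : T.line (.inl r) (.inl c) (.inl s))
    (k : T.line (.inl r) (.inl c) (.inr β)) :
    T.line (.inr β) (.inl c) (.inl s) ∧ T.line (.inl r) (.inr β) (.inl s) := by
  have e1 := (tabg_lppp h r c s).1 l
  have e2 := (tabg_lppl h r c β).1 k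
  have k1 := (h.2.2 β r.1).1
  have k2 := (h.2.2 β r.1).2.1
  rw [e2, e1] at k1
  rw [e2, ← k1, sub_sub_sub_cancel_right] at k2
  exact ⟨(tabg_llpp h c s β).2 k2, (tabg_lplp h r s β).2 k1.symm⟩

theorem tabg_t1 {r c s b : (W × V) ⊕ B} (l : T.line r c s) (hr : lab r = false)
    (hc : lab c = false) (hs : lab s = false) (hb : lab b = true) :
    T.line r c b ↔ T.line b c s := by
  rcases r with r | r
  swap
  · exact absurd hr (by simp [lab])
  rcases c with c | c
  swap
  · exact absurd hc (by simp [lab])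
  rcases s with s | s
  swap
  · exact absurd hs (by simp [lab])
  rcases b with b | b
  · exact absurd hb (by simp [lab])
  refine ⟨fun k => (tabg_fw h l k).1, fun k => ?_⟩
  obtain ⟨r', m1, m2⟩ := tabg_e1 h (.inl c) (.inr b) (Or.inl rfl)
  obtain ⟨s', n1, n2⟩ := tabg_e3 h r' (.inl c) (Or.inr rfl)
  rcases r' with r' | r'
  swap
  · exact absurd m1 (by simp [lab])
  rcases s' with s' | s'
  swap
  · exact absurd n1 (by simp [lab])
  rw [tabg_u3 (tabg_fw h n2 m2).1 k rfl] at n2
  rwa [tabg_u1 h l n2 rfl]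

theorem tabg_t2 {r c s b : (W × V) ⊕ B} (l : T.line r c s) (hr : lab r = false)
    (hc : lab c = false) (hs : lab s = false) (hb : lab b = true) :
    T.line r c b ↔ T.line r b s := by
  rcases r with r | r
  swap
  · exact absurd hr (by simp [lab])
  rcases c with c | c
  swap
  · exact absurd hc (by simp [lab])
  rcases s with s | s
  swap
  · exact absurd hs (by simp [lab])
  rcases b with b | b
  · exact absurd hb (by simp [lab])
  refine ⟨fun k => (tabg_fw h l k).2, fun k => ?_⟩
  obtain ⟨c', m1, m2⟩ := tabg_e2 h (.inl r) (.inr b) (Or.inl rfl)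
  obtain ⟨s', n1, n2⟩ := tabg_e3 h (.inl r) c' (Or.inl rfl)
  rcases c' with c' | c'
  swap
  · exact absurd m1 (by simp [lab])
  rcases s' with s' | s'
  swap
  · exact absurd n1 (by simp [lab])
  rw [tabg_u3 (tabg_fw h n2 m2).2 k rfl] at n2
  rwa [tabg_u2 h l n2 rfl]

theorem tabg_f1 {a b c : (W × V) ⊕ B} (l : T.line a b c) : T.f1 b c (lab a) = some a := by
  rcases a with a | a <;> rcases b with b | b <;> rcases c with c | c
  · show T.dn b.2 (T.rw b.1 c.1 (c.2 - b.2)) = _
    rw [tabg_rw h l, tabg_dn h, sub_sub_cancel]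
  · have e := (tabg_lppl h a b c).1 l
    have k : T.ic c b.1 = a.1 := by
      have := (h.2.2 c a.1).2.2.1
      rwa [e] at this
    show T.dn b.2 (T.ic c b.1, (T.tc c (T.ic c b.1)).2) = _
    rw [k, e, tabg_dn h, sub_sub_cancel]
  · have e := (tabg_lplp h a c b).1 l
    have k : T.is b c.1 = a.1 := by
      have := (h.2.2 b a.1).2.2.2.1
      rwa [e] at this
    show T.dn c.2 (T.is b c.1, (T.ts b (T.is b c.1)).2) = _
    rw [k, e, tabg_dn h, sub_sub_cancel]
  · exact (tabg_pll l).elim
  · have e := (h.2.1 _ _ _ _).2.2 ((tabg_llpp h b c a).1 l)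
    show (T.lz b.1 c.1 (c.2 - b.2)).map Sum.inr = _
    rw [e]
    rfl
  · exact (tabg_lpl l).elim
  · exact (tabg_ll l).elim
  · exact (tabg_ll l).elim

end

variable {W V B : Type} [AddCommGroup V] [DecidableEq W] [DecidableEq V] [DecidableEq B]
  [Fintype W] [Fintype V] [Fintype B] {T : Tab W V B} (h : T.OkTab)
include h

theorem line_ppp (a b c : W × V) : T.line (.inl a) (.inl b) (.inl c) ↔
    T.th a.1 b.1 (b.2 - a.2) = (c.1, c.2 - a.2) := by
  exact tabg_up_iff h _ _ _

theorem line_ppl (a b : W × V) (β : B) : T.line (.inl a) (.inl b) (.inr β) ↔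
    T.tc β a.1 = (b.1, b.2 - a.2) := by
  exact tabg_lppl h a b β

theorem line_plp (a c : W × V) (β : B) : T.line (.inl a) (.inr β) (.inl c) ↔
    T.ts β a.1 = (c.1, c.2 - a.2) := by
  exact tabg_up_iff h _ _ _

theorem line_lpp (b c : W × V) (β : B) : T.line (.inr β) (.inl b) (.inl c) ↔
    T.tz β b.1 = (c.1, c.2 - b.2) := by
  exact tabg_up_iff h _ _ _

omit h in
/-- The geometry of a table. -/
def geo (h : T.OkTab) : Geo ((W × V) ⊕ B) where
  lab := lab
  line := T.line
  one12 := by
    rintro (a | a) (b | b) c l e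
    · rfl
    · exact absurd e (by simp [lab])
    · rfl
    · exact (tabg_ll l).elim
  one13 := by
    rintro (a | a) b (c | c) l e
    · rfl
    · exact absurd e (by simp [lab])
    · rfl
    · rcases b with b | b
      · exact (tabg_lpl l).elim
      · exact (tabg_ll l).elim
  one23 := by
    rintro a (b | b) (c | c) l e
    · rfl
    · exact absurd e (by simp [lab])
    · rfl
    · rcases a with a | a
      · exact (tabg_pll l).elim
      · exact (tabg_ll l).elim
  u1 := tabg_u1 h
  u2 := tabg_u2 h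
  u3 := tabg_u3
  e1 := tabg_e1 h
  e2 := tabg_e2 h
  e3 := tabg_e3 h
  t1 := tabg_t1 h
  t2 := tabg_t2 h

theorem f3_iff (a b c : (W × V) ⊕ B) (k : Bool) :
    T.f3 a b k = some c ↔ T.line a b c ∧ lab c = k := by
  refine ⟨fun e => ?_, fun e => e.2 ▸ e.1⟩
  have hk : lab c = k := by
    rcases a with a | a <;> rcases b with b | b <;> cases k
    · have e' : T.up a.2 (T.th a.1 b.1 (b.2 - a.2)) = some c := e
      rw [tabg_up h] at e'
      rw [← Option.some.inj e']
      rfl
    · have e' : (T.lc a.1 b.1 (b.2 - a.2)).map Sum.inr = some c := e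
      obtain ⟨β, -, rfl⟩ := Option.map_eq_some_iff.1 e'
      rfl
    · have e' : T.up a.2 (T.ts b a.1) = some c := e
      rw [tabg_up h] at e'
      rw [← Option.some.inj e']
      rfl
    · exact absurd (show none = some c from e) (by simp)
    · have e' : T.up b.2 (T.tz a b.1) = some c := e
      rw [tabg_up h] at e'
      rw [← Option.some.inj e']
      rfl
    · exact absurd (show none = some c from e) (by simp)
    · exact absurd (show none = some c from e) (by simp)
    · exact absurd (show none = some c from e) (by simp)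
  exact ⟨by rw [line, hk]; exact e, hk⟩

theorem f1_iff (a b c : (W × V) ⊕ B) (k : Bool) :
    T.f1 b c k = some a ↔ T.line a b c ∧ lab a = k := by
  refine ⟨fun e => ?_, fun e => e.2 ▸ tabg_f1 h e.1⟩
  cases k
  · have hbc : lab b = false ∨ lab c = false := by
      rcases b with b | b
      · exact Or.inl rfl
      · rcases c with c | c
        · exact Or.inr rfl
        · exact absurd (show none = some a from e) (by simp)
    obtain ⟨a', k1, k2⟩ := tabg_e1 h b c hbc
    have e' := tabg_f1 h k2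
    rw [k1, e] at e'
    rw [Option.some.inj e']
    exact ⟨k2, k1⟩
  · rcases b with b | b <;> rcases c with c | c
    · have e' : (T.lz b.1 c.1 (c.2 - b.2)).map Sum.inr = some a := e
      obtain ⟨β, e1, rfl⟩ := Option.map_eq_some_iff.1 e'
      exact ⟨(line_lpp h b c β).2 ((h.2.1 _ _ _ _).2.1 e1), rfl⟩
    · exact absurd (show none = some a from e) (by simp)
    · exact absurd (show none = some a from e) (by simp)
    · exact absurd (show none = some a from e) (by simp)

theorem tau_eq (a b c : (W × V) ⊕ B) :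
    T.tau a b c = 1 ∧ lab c = false ∧ (∃ β, T.line a b (.inr β)) ∨
      T.tau a b c = 0 ∧ (lab c = true ∨ ∀ β, ¬T.line a b (.inr β)) := by
  have k : (T.f3 a b true).isSome = true ↔ ∃ β, T.line a b (.inr β) := by
    rw [Option.isSome_iff_exists]
    constructor
    · rintro ⟨x, e⟩
      obtain ⟨e1, e2⟩ := (f3_iff h a b x true).1 e
      rcases x with x | x
      · exact absurd e2 (by simp [lab])
      · exact ⟨x, e1⟩
    · rintro ⟨β, e⟩
      exact ⟨_, e⟩
  unfold tau
  cases hc : lab c
  · by_cases e : (T.f3 a b true).isSome = true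
    · exact Or.inl ⟨by simp [e], rfl, k.1 e⟩
    · exact Or.inr ⟨by simp [e], Or.inr fun β l => e (k.2 ⟨β, l⟩)⟩
  · exact Or.inr ⟨by simp, Or.inl rfl⟩

omit h in
theorem eqP_iff (a b : (W × V) ⊕ B) : eqP a b = true ↔ a = b := by
  rcases a with ⟨a1, a2⟩ | a <;> rcases b with ⟨b1, b2⟩ | b <;> simp [eqP, and_comm]

end Pool.Agent.NL.Tab
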