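import Pool.Agent.Work.MP_03d2dd_co.NL.TabG

/-! The list of all quads through a line, and what the check `okL` says.

Plan.  `cand_iff`: `Option.bind_eq_some_iff`, `f3_iff`, `f1_iff`, `eqP_iff`.
`nodup_quads`: quads from different `i` have different second columns, and the four candidates
for one column differ in the kinds of `s1`, `r1`.
For a duplicate-free list `m` of the quads through `(a, b, c)` a sum `(m.map w).sum` is a sum over
`m.toFinset` (`List.sum_toFinset`; `Six` has decidable equality by `classical`), and quads through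
the line correspond to completions `x` by `mk6 a b c x`.
`okL_reg`: `wReg` is the indicator of `RegP`.
`okL_bal`: split loss pairs by their completion.  Over a plain coloured quad the labels `β` with
one of the three alternatives are counted by `tau + tau + tau` (`tau_eq`): a cell has at most one
label (`u3`) and different cells of a quad have different labels (`same_row`, `same_col`,
`same_sym`).  Over a coloured quad with a label among the new points there is exactly one such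
label (`one12`, `one13`, `one23`). -/

namespace Pool.Agent.NL.Tab

/-- `e 0, ..., e (n - 1)` lists every point once. -/
def Enum {P : Type} (n : ℕ) (e : ℕ → P) : Prop :=
  (∀ p, ∃ i < n, e i = p) ∧ ∀ i < n, ∀ j < n, e i = e j → i = j

variable {W V B : Type} [AddCommGroup V] [DecidableEq W] [DecidableEq V] [DecidableEq B]
  [Fintype W] [Fintype V] [Fintype B] {T : Tab W V B} (h : T.OkTab) {n j : ℕ}
  {e : ℕ → (W × V) ⊕ B} {a b c : (W × V) ⊕ B}

theorem tabq_ne (x y : (W × V) ⊕ B) : eqP x y = false ↔ x ≠ y := by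
  rw [Ne, ← eqP_iff, Bool.not_eq_true]

theorem cand_iff (hl : T.line a b c) (y : (W × V) ⊕ B) (k k' : Bool) (q : Six ((W × V) ⊕ B)) :
    T.cand a b c y k k' = some q ↔ (geo h).Quad q ∧ q.r0 = a ∧ q.c0 = b ∧ q.s0 = c ∧ q.c1 = y ∧
      lab q.s1 = k ∧ lab q.r1 = k' := by
  unfold cand
  simp only [Option.bind_eq_some_iff, f3_iff h, f1_iff h]
  constructor
  · rintro ⟨s, h1, r, h2, t, h3, h4⟩
    cases hb : (eqP t c && !eqP a r && !eqP b y && !eqP c s) with
    | false =>
      rw [hb] at h4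
      exact absurd h4 (by simp)
    | true =>
      rw [hb] at h4
      obtain rfl := Option.some.inj h4
      simp only [Bool.and_eq_true, Bool.not_eq_true', eqP_iff, tabq_ne] at hb
      obtain ⟨⟨⟨rfl, n1⟩, n2⟩, n3⟩ := hb
      exact ⟨⟨⟨hl, h1.1, h2.1, h3.1⟩, n1, n2, n3⟩, rfl, rfl, rfl, rfl, h1.2, h2.2⟩
  · obtain ⟨r0, c0, s0, r1, c1, s1⟩ := q
    rintro ⟨⟨⟨-, l1, l2, l3⟩, n1, n2, n3⟩, rfl, rfl, rfl, rfl, k1, k2⟩
    refine ⟨s1, ⟨l1, k1⟩, r1, ⟨l2, k2⟩, s0, ⟨l3, rfl⟩, ?_⟩
    rw [(eqP_iff s0 s0).2 rfl, (tabq_ne _ _).2 n1, (tabq_ne _ _).2 n2, (tabq_ne _ _).2 n3]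
    rfl

theorem tabq_cands (hl : T.line a b c) (y : (W × V) ⊕ B) (q : Six ((W × V) ⊕ B)) :
    q ∈ T.cands a b c y ↔ (geo h).Quad q ∧ q.r0 = a ∧ q.c0 = b ∧ q.s0 = c ∧ q.c1 = y := by
  unfold cands
  simp only [List.mem_append, Option.mem_toList, cand_iff h hl]
  constructor
  · rintro (k | k | k | k) <;> exact ⟨k.1, k.2.1, k.2.2.1, k.2.2.2.1, k.2.2.2.2.1⟩
  · rintro ⟨k1, k2, k3, k4, k5⟩
    cases e1 : lab q.s1 <;> cases e2 : lab q.r1
    · exact Or.inl ⟨k1, k2, k3, k4, k5, rfl, rfl⟩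
    · exact Or.inr (Or.inl ⟨k1, k2, k3, k4, k5, rfl, rfl⟩)
    · exact Or.inr (Or.inr (Or.inl ⟨k1, k2, k3, k4, k5, rfl, rfl⟩))
    · exact Or.inr (Or.inr (Or.inr ⟨k1, k2, k3, k4, k5, rfl, rfl⟩))

theorem mem_quads (he : Enum n e) (hl : T.line a b c) (q : Six ((W × V) ⊕ B)) :
    q ∈ T.quads n e a b c ↔ (geo h).Quad q ∧ q.r0 = a ∧ q.c0 = b ∧ q.s0 = c := by
  unfold quads
  simp only [List.mem_flatMap, List.mem_range, tabq_cands h hl]
  constructor
  · rintro ⟨i, -, k1, k2, k3, k4, -⟩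
    exact ⟨k1, k2, k3, k4⟩
  · rintro ⟨k1, k2, k3, k4⟩
    obtain ⟨i, hi, e1⟩ := he.1 q.c1
    exact ⟨i, hi, k1, k2, k3, k4, e1.symm⟩

theorem tabq_opt {α : Type} (o : Option α) : o.toList.Nodup := by
  cases o <;> simp

include h in
theorem tabq_dis (hl : T.line a b c) (y : (W × V) ⊕ B) {k k' l l' : Bool} (hk : k ≠ l ∨ k' ≠ l')
    {q q' : Six ((W × V) ⊕ B)} (h1 : q ∈ (T.cand a b c y k k').toList)
    (h2 : q' ∈ (T.cand a b c y l l').toList) : q ≠ q' := by
  rintro rfl
  rw [Option.mem_toList, cand_iff h hl] at h1 h2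
  rcases hk with e | e
  · exact e (h1.2.2.2.2.2.1.symm.trans h2.2.2.2.2.2.1)
  · exact e (h1.2.2.2.2.2.2.symm.trans h2.2.2.2.2.2.2)

include h in
theorem nodup_quads (he : Enum n e) (hl : T.line a b c) : (T.quads n e a b c).Nodup := by
  unfold quads
  rw [List.nodup_flatMap]
  refine ⟨fun i _ => ?_, (List.nodup_range (n := n)).imp_of_mem fun {i i'} hi hi' ne => ?_⟩
  · unfold cands
    refine List.nodup_append.2 ⟨tabq_opt _, List.nodup_append.2 ⟨tabq_opt _,
      List.nodup_append.2 ⟨tabq_opt _, tabq_opt _, fun q h1 q' h2 =>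
        tabq_dis h hl _ (by decide) h1 h2⟩, fun q h1 q' h2 => ?_⟩, fun q h1 q' h2 => ?_⟩
    · rcases List.mem_append.1 h2 with h2 | h2 <;> exact tabq_dis h hl _ (by decide) h1 h2
    · rcases List.mem_append.1 h2 with h2 | h2
      · exact tabq_dis h hl _ (by decide) h1 h2
      · rcases List.mem_append.1 h2 with h2 | h2 <;> exact tabq_dis h hl _ (by decide) h1 h2
  · intro q h1 h2
    rw [tabq_cands h hl] at h1 h2
    exact ne (he.2 i (List.mem_range.1 hi) i' (List.mem_range.1 hi')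
      (h1.2.2.2.2.symm.trans h2.2.2.2.2))

theorem okL_good (he : Enum n e) {pl : Bool} {q : Six ((W × V) ⊕ B)} (hq : (geo h).Quad q)
    (hk : T.okL j pl (T.quads n e q.r0 q.c0 q.s0) = true) : T.good q = true := by
  unfold okL at hk
  simp only [Bool.and_eq_true, List.all_eq_true] at hk
  exact hk.2 q ((mem_quads h he hq.1.1 q).2 ⟨hq, rfl, rfl, rfl⟩)

open Classical in
theorem tabq_sum (he : Enum n e) (hl : T.line a b c) (w : Six ((W × V) ⊕ B) → ℕ) :
    ((T.quads n e a b c).map w).sum =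
      ∑ x, if (geo h).Quad (mk6 a b c x) then w (mk6 a b c x) else 0 := by
  rw [← List.sum_toFinset w (nodup_quads h he hl), ← Finset.sum_filter]
  symm
  refine Finset.sum_bij (fun x _ => mk6 a b c x) (fun x hx => ?_) (fun x _ y _ k => ?_)
    (fun q hq => ?_) (fun _ _ => rfl)
  · exact List.mem_toFinset.2 ((mem_quads h he hl _).2 ⟨(Finset.mem_filter.1 hx).2, rfl, rfl, rfl⟩)
  · exact Prod.ext (congrArg Six.r1 k) (Prod.ext (congrArg Six.c1 k) (congrArg Six.s1 k))
  · obtain ⟨k1, k2, k3, k4⟩ := (mem_quads h he hl _).1 (List.mem_toFinset.1 hq)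
    obtain ⟨r0, c0, s0, r1, c1, s1⟩ := q
    subst k2 k3 k4
    exact ⟨(r1, c1, s1), Finset.mem_filter.2 ⟨Finset.mem_univ _, k1⟩, rfl⟩

omit [DecidableEq W] [DecidableEq V] [DecidableEq B] [Fintype W] [Fintype V] [Fintype B] in
theorem tabq_col (q : Six ((W × V) ⊕ B)) : T.col q = some () ↔ T.colB q = true := by
  unfold col
  split_ifs with k <;> simp [k]

theorem tabq_plain (x : ((W × V) ⊕ B) × ((W × V) ⊕ B) × ((W × V) ⊕ B)) :
    (geo h).Plain x ↔ plain (mk6 a b c x) = true := by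
  show lab x.1 = false ∧ lab x.2.1 = false ∧ lab x.2.2 = false ↔
    (!(lab x.1 || lab x.2.1 || lab x.2.2)) = true
  cases lab x.1 <;> cases lab x.2.1 <;> cases lab x.2.2 <;> simp

theorem tabq_regP (x : ((W × V) ⊕ B) × ((W × V) ⊕ B) × ((W × V) ⊕ B)) :
    (geo h).RegP T.col a b c () x ↔ (geo h).Quad (mk6 a b c x) ∧
      (T.colB (mk6 a b c x) && plain (mk6 a b c x)) = true := by
  rw [Geo.RegP, tabq_col, tabq_plain h (a := a) (b := b) (c := c), Bool.and_eq_true]

theorem okL_reg (he : Enum n e) (hl : T.line a b c) {pl : Bool}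
    (hk : T.okL j pl (T.quads n e a b c) = true) : num ((geo h).RegP T.col a b c ()) = j := by
  classical
  unfold okL at hk
  simp only [Bool.and_eq_true, beq_iff_eq] at hk
  rw [← hk.1.1, tabq_sum h he hl, num_eq_card, Finset.card_filter]
  refine Finset.sum_congr rfl fun x _ => ?_
  unfold wReg
  by_cases k1 : (geo h).Quad (mk6 a b c x)
  · by_cases k2 : (T.colB (mk6 a b c x) && plain (mk6 a b c x)) = true
    · rw [if_pos k1, if_pos k2, if_pos ((tabq_regP h x).2 ⟨k1, k2⟩)]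
    · rw [if_pos k1, if_neg k2, if_neg fun k => k2 ((tabq_regP h x).1 k).2]
  · rw [if_neg k1, if_neg fun k => k1 ((tabq_regP h x).1 k).1]

theorem tabq_prod {α β : Type} [Fintype α] [Finite β] (p : α × β → Prop) :
    num p = ∑ x, num fun y => p (x, y) := by
  rw [num_sum p Prod.fst]
  refine Finset.sum_congr rfl fun x _ => ?_
  refine num_bij Prod.snd (fun z k => ?_) (fun z z' k k' e => Prod.ext (k.2.trans k'.2.symm) e)
    (fun y k => ⟨(x, y), ⟨k, rfl⟩, rfl⟩)
  obtain ⟨k1, rfl⟩ := k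
  exact k1

include h in
theorem tabq_tau (u v w : (W × V) ⊕ B) (hw : lab w = false) :
    num (fun β : B => T.line u v (.inr β)) = T.tau u v w := by
  rcases tau_eq h u v w with ⟨k1, -, β, k2⟩ | ⟨k1, k2 | k2⟩
  · rw [k1]
    exact num_one ⟨β, k2, fun β' k3 => Sum.inr.inj ((geo h).u3 k3 k2 rfl)⟩
  · rw [hw] at k2
    exact absurd k2 (by simp)
  · rw [k1]
    exact num_zero k2

open Classical in
theorem tabq_loss (hp : (geo h).Plain (a, b, c))
    (x : ((W × V) ⊕ B) × ((W × V) ⊕ B) × ((W × V) ⊕ B)) :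
    num (fun β => (geo h).LossP T.col Sum.inr a b c () (x, β)) =
      if (geo h).Quad (mk6 a b c x) then T.wLoss (mk6 a b c x) else 0 := by
  unfold wLoss
  by_cases k : (geo h).RegP T.col a b c () x
  · obtain ⟨k1, k2⟩ := (tabq_regP h x).1 k
    rw [if_pos k1, if_pos k2]
    obtain ⟨⟨-, l1, l2, -⟩, n1, n2, -⟩ := k1
    have p3 : lab x.2.2 = false := k.2.2.2.2
    have e : num (fun β => (geo h).LossP T.col Sum.inr a b c () (x, β)) =
        num fun β : B => T.line a x.2.1 (.inr β) ∨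
          (T.line x.1 b (.inr β) ∨ T.line x.1 x.2.1 (.inr β)) :=
      num_congr fun β => ⟨fun k' => k'.2, fun k' => ⟨k, k'⟩⟩
    rw [e, num_or, num_or, tabq_tau h a x.2.1 x.2.2 p3, tabq_tau h x.1 b x.2.2 p3,
      tabq_tau h x.1 x.2.1 c hp.2.2, ← add_assoc]
    · rfl
    · exact fun β m1 m2 => n2 ((geo h).same_row rfl m1 m2)
    · rintro β m1 (m2 | m2)
      · exact n1 ((geo h).same_sym l1 l2 p3 rfl m1 m2).1
      · exact n1 ((geo h).same_col rfl m1 m2)
  · rw [num_zero fun β k' => k k'.1]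
    split_ifs with k1 k2
    · exact absurd ((tabq_regP h x).2 ⟨k1, k2⟩) k
    · rfl
    · rfl

open Classical in
theorem tabq_gain (x : ((W × V) ⊕ B) × ((W × V) ⊕ B) × ((W × V) ⊕ B)) :
    num (fun β => (geo h).GainP T.col Sum.inr a b c () (x, β)) =
      if (geo h).Quad (mk6 a b c x) then T.wGain (mk6 a b c x) else 0 := by
  unfold wGain
  by_cases k1 : (geo h).Quad (mk6 a b c x)
  swap
  · rw [if_neg k1]
    exact num_zero fun β k => k1 k.1
  rw [if_pos k1]
  by_cases k2 : T.colB (mk6 a b c x) = true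
  swap
  · rw [if_neg fun k => k2 (Bool.and_eq_true_iff.1 k).1]
    exact num_zero fun β k => k2 ((tabq_col _).1 k.2.1)
  have e : num (fun β => (geo h).GainP T.col Sum.inr a b c () (x, β)) =
      num fun β : B => x.1 = .inr β ∨ x.2.1 = .inr β ∨ x.2.2 = .inr β :=
    num_congr fun β => ⟨fun k' => k'.2.2, fun k' => ⟨k1, (tabq_col _).2 k2, k'⟩⟩
  rw [e, k2, Bool.true_and]
  obtain ⟨⟨-, l1, l2, l3⟩, -⟩ := k1
  have o1 := (geo h).one23 l1
  have o2 := (geo h).one13 l2
  have o3 := (geo h).one12 l3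
  obtain ⟨r, y, s⟩ := x
  rcases r with r | r <;> rcases y with y | y <;> rcases s with s | s
  · exact num_zero fun β k => by simp at k
  · exact num_one ⟨s, by simp, fun β k => by simpa [eq_comm] using k⟩
  · exact num_one ⟨y, by simp, fun β k => by simpa [eq_comm] using k⟩
  · exact absurd (o1 rfl) Bool.noConfusion
  · exact num_one ⟨r, by simp, fun β k => by simpa [eq_comm] using k⟩
  · exact absurd (o2 rfl) Bool.noConfusion
  · exact absurd (o3 rfl) Bool.noConfusion
  · exact absurd (o3 rfl) Bool.noConfusion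

theorem okL_bal (he : Enum n e) (hl : T.line a b c) (hp : (geo h).Plain (a, b, c))
    (hk : T.okL j true (T.quads n e a b c) = true) :
    num ((geo h).LossP T.col Sum.inr a b c ()) = num ((geo h).GainP T.col Sum.inr a b c ()) := by
  unfold okL at hk
  simp only [Bool.and_eq_true, Bool.not_true, Bool.false_or, beq_iff_eq] at hk
  have k := hk.1.2
  rw [tabq_sum h he hl, tabq_sum h he hl] at k
  rw [tabq_prod, tabq_prod]
  simp only [tabq_loss h hp, tabq_gain h]
  exact k

end Pool.Agent.NL.Tab
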