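import Pool.Agent.Work.MP_03d2dd_co.NL.TabQ

/-! Translations, and the fast check.

Plan.  `okCell_raw`: remove `frc` by `frc_eq`; it suffices to show that `cands` is empty when
`i < t` and `pf` is false.  Then `e i = inl y` with code `i`; `lcN = false` kills the candidates
with a label symbol, `lzN = false` the one with a label row, and for the plain candidate the
symbol found has a code different from the code of the symbol of the cell (`th_cd`, `rw_cd`, first
clause of `Ok1` to evaluate `up`, `dn`), so `eqP` fails.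
The `sh` lemmas: cases on the points, `line_ppp` etc., `add_sub_add_right_eq_sub`.
`normal`: a plain line with row `(a, x)` is the translate by `x` of the cell in row `(a, 0)`;
a border line with label `β` is a translate of one of the three lines of `okBord`
(for a label row take `a = ic β _`). -/

namespace Pool.Agent.NL.Tab

variable {W V B : Type} [AddCommGroup V] [DecidableEq W] [DecidableEq V] [DecidableEq B]
  [Fintype W] [Fintype V] [Fintype B] {T : Tab W V B} (h : T.OkTab) {n j : ℕ}
  {e : ℕ → (W × V) ⊕ B}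

include h in
theorem tabr_cands (R : T.Raw) (a p c q : W × V)
    (hp : R.pf T (R.cd a) (R.cd p) (R.cd c) (R.cd q) = false) :
    T.cands (.inl a) (.inl p) (.inl c) (.inl q) = [] := by
  have hfr : ∀ a x, T.fr a x = some (.inl (a, x)) := fun a x => (h.1 a a x).1
  simp only [Raw.pf, frc_eq, R.th_cd, R.rw_cd, R.lc_cd, R.lz_cd, Bool.or_eq_false_iff,
    Option.isSome_eq_false_iff, Option.isNone_iff_eq_none] at hp
  obtain ⟨⟨h1, h2⟩, h3⟩ := hp
  have h4 := Nat.ne_of_beq_eq_false h1
  simp only [cands, cand, f3, f1, up, dn, hfr, h2, h3, lab, cond_true, cond_false, Option.map_none,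
    Option.bind_none, Option.bind_some, Option.toList_none, List.append_nil]
  rw [Bool.eq_false_iff.2 fun h5 => h4 (congrArg R.cd (Sum.inl.inj ((eqP_iff _ _).1 h5)))]
  simp

include h in
theorem okCell_raw (R : T.Raw) {t : ℕ} (ht : ∀ i < t, ∃ p, e i = .inl p ∧ R.cd p = i) (a : W)
    (p : W × V) : R.okCell T n t e j a p = T.okCell n e j a p := by
  simp only [Raw.okCell, frc_eq, okCell, quads]
  refine congrArg _ (List.flatMap_congr fun i _ => ?_)
  cases hb : (Nat.blt i t && !R.pf T (R.cd (a, 0)) (R.cd p) (R.cd (T.th a p.1 p.2)) i)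
  · rfl
  · rw [Bool.and_eq_true, Nat.blt_eq, Bool.not_eq_true'] at hb
    obtain ⟨q, hq, rfl⟩ := ht i hb.1
    rw [hq, tabr_cands h R _ _ _ _ hb.2]
    rfl

/-- Translation by `x`. -/
def sh (x : V) : (W × V) ⊕ B → (W × V) ⊕ B := Sum.map (fun p => (p.1, p.2 + x)) id

omit [DecidableEq W] [DecidableEq V] [DecidableEq B] [Fintype W] [Fintype V] [Fintype B] in
theorem sh_neg (x : V) (p : (W × V) ⊕ B) : sh (-x) (sh x p) = p ∧ sh x (sh (-x) p) = p := by
  cases p <;> simp [sh]

omit [DecidableEq W] [DecidableEq V] [DecidableEq B] [Fintype W] [Fintype V] [Fintype B] in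
theorem lab_sh (x : V) (p : (W × V) ⊕ B) : lab (sh x p) = lab p := by
  cases p <;> rfl

omit [DecidableEq W] [DecidableEq V] [DecidableEq B] [Fintype W] [Fintype V] [Fintype B] in
theorem tabr_inj (x : V) : Function.Injective (sh x : (W × V) ⊕ B → (W × V) ⊕ B) :=
  Function.LeftInverse.injective (g := sh (-x)) fun p => (sh_neg x p).1

omit [DecidableEq W] [DecidableEq V] [DecidableEq B] [Fintype W] [Fintype V] [Fintype B] in
theorem tabr_prot (x : V) (a b c : (W × V) ⊕ B) :
    T.prot (sh x a) (sh x b) (sh x c) = T.prot a b c := by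
  cases a <;> cases b <;> cases c <;> simp [sh, prot]

omit [DecidableEq W] [DecidableEq V] [DecidableEq B] [Fintype W] [Fintype V] [Fintype B] in
theorem tabr_sig (x : V) (a b c : (W × V) ⊕ B) :
    T.sig (sh x a) (sh x b) (sh x c) = T.sig a b c := by
  cases a <;> cases b <;> cases c <;> simp [sh, sig]

omit [DecidableEq W] [DecidableEq V] [DecidableEq B] [Fintype W] [Fintype V] [Fintype B] in
theorem tabr_tau (x : V) (a b c : (W × V) ⊕ B) :
    T.tau (sh x a) (sh x b) (sh x c) = T.tau a b c := by
  have : (T.f3 (sh x a) (sh x b) true).isSome = (T.f3 a b true).isSome := by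
    cases a <;> cases b <;> simp [sh, f3]
  simp only [tau, lab_sh, this]

omit [DecidableEq W] [DecidableEq V] [DecidableEq B] [Fintype W] [Fintype V] [Fintype B] in
theorem tabr_tzz (x : V) (a b c : (W × V) ⊕ B) :
    tzz (sh x a) (sh x b) (sh x c) = tzz a b c := by
  simp only [tzz, lab_sh]

omit [DecidableEq W] [DecidableEq V] [DecidableEq B] [Fintype W] [Fintype V] [Fintype B] in
theorem tabr_hasLab (x : V) (q : Six ((W × V) ⊕ B)) : hasLab (q.map (sh x)) = hasLab q := by
  simp only [hasLab, Six.map, lab_sh]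

omit [DecidableEq W] [DecidableEq V] [DecidableEq B] [Fintype W] [Fintype V] [Fintype B] in
theorem tabr_allProt (x : V) (q : Six ((W × V) ⊕ B)) :
    T.allProt (q.map (sh x)) = T.allProt q := by
  simp only [allProt, Six.map, Six.a00, Six.a01, Six.a10, Six.a11, tabr_prot]

omit [DecidableEq W] [DecidableEq V] [DecidableEq B] [Fintype W] [Fintype V] [Fintype B] in
theorem tabr_colB (x : V) (q : Six ((W × V) ⊕ B)) : T.colB (q.map (sh x)) = T.colB q := by
  simp only [colB, tabr_hasLab, tabr_allProt]

include h in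
theorem line_sh (x : V) (a b c : (W × V) ⊕ B) :
    T.line (sh x a) (sh x b) (sh x c) ↔ T.line a b c := by
  rcases a with a | a <;> rcases b with b | b <;> rcases c with c | c <;>
    simp only [sh, Sum.map_inl, Sum.map_inr, id, line_ppp h, line_ppl h, line_plp h, line_lpp h,
      add_sub_add_right_eq_sub] <;>
    simp [line, f3, lab]

theorem quad_sh (x : V) (q : Six ((W × V) ⊕ B)) :
    (geo h).Quad (q.map (sh x)) ↔ (geo h).Quad q := by
  have e : (geo h).line = T.line := rfl
  simp only [Geo.Quad, Six.All, Six.map, e, line_sh h, ne_eq, (tabr_inj x).eq_iff]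

omit [Fintype W] [Fintype V] [Fintype B] in
theorem col_sh (x : V) (q : Six ((W × V) ⊕ B)) : T.col (q.map (sh x)) = T.col q := by
  simp only [col, tabr_colB]

include h in
theorem good_sh (x : V) (q : Six ((W × V) ⊕ B)) : T.good (q.map (sh x)) = T.good q := by
  simp only [good, tabr_colB, tabr_hasLab, tabr_allProt]
  simp only [Six.map, Six.a00, Six.a01, Six.a10, Six.a11, lab_sh, tabr_sig, tabr_tau, tabr_tzz]
  rfl

theorem normal (hc : ∀ a p, T.okCell n e j a p = true) (hb : ∀ β a, T.okBord n e j β a = true)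
    {a b c : (W × V) ⊕ B} (hl : T.line a b c) :
    ∃ x a' b' c' pl, a = sh x a' ∧ b = sh x b' ∧ c = sh x c' ∧
      T.okL j pl (T.quads n e a' b' c') = true ∧ ((geo h).Plain (a, b, c) → pl = true) := by
  rcases a with a | a <;> rcases b with b | b <;> rcases c with c | c
  · have h1 := (line_ppp h _ _ _).1 hl
    refine ⟨a.2, .inl (a.1, 0), .inl (b.1, b.2 - a.2), .inl (T.th a.1 b.1 (b.2 - a.2)), true,
      ?_, ?_, ?_, hc a.1 (b.1, b.2 - a.2), fun _ => rfl⟩ <;> simp [sh, h1]
  · have h1 := (line_ppl h _ _ _).1 hl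
    have h2 := hb c a.1
    simp only [okBord, Bool.and_eq_true] at h2
    refine ⟨a.2, _, _, _, false, ?_, ?_, ?_, h2.1.2, fun hp => hp.2.2.symm⟩ <;> simp [sh, h1]
  · have h1 := (line_plp h _ _ _).1 hl
    have h2 := hb b a.1
    simp only [okBord, Bool.and_eq_true] at h2
    refine ⟨a.2, _, _, _, false, ?_, ?_, ?_, h2.1.1.2, fun hp => hp.2.1.symm⟩ <;> simp [sh, h1]
  · cases hl
  · have h1 := (line_lpp h _ _ _).1 hl
    have h2 := hb a (T.ic a b.1)
    have h3 := (h.2.2 a b.1).2.2.2.2.1
    have h4 := (h.2.2 a (T.ic a b.1)).2.1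
    rw [h3, h1, Prod.mk.injEq, sub_eq_iff_eq_add] at h4
    simp only [okBord, Bool.and_eq_true] at h2
    refine ⟨b.2 - (T.tc a (T.ic a b.1)).2, _, _, _, false, ?_, ?_, ?_, h2.1.1.1,
      fun hp => hp.1.symm⟩
    · rfl
    · simp [sh, h3]
    · refine congrArg Sum.inl (Prod.ext h4.1 ?_)
      rw [h4.2, sub_add_eq_add_sub, add_sub_assoc]
  · cases hl
  · cases hl
  · cases hl

end Pool.Agent.NL.Tab
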