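import Pool.Agent.Work.MP_03d2dd_co.NL.TabR
import Pool.Agent.Work.MP_03d2dd_co.NL.Kill
import Mathlib.Algebra.Group.PUnit

/-! The system of a checked table.

Plan.  `all_good`, `all_reg`, `all_bal`: `normal`, then `okL_good`, `okL_reg`, `okL_bal` for the
normalised line and transport along `sh x` (`num_bij`, `quad_sh`, `col_sh`, `good_sh`, `line_sh`,
`lab_sh`, `sh_neg`; labels are fixed by `sh`).
`three`: by `line_ppl`, `line_plp`, `line_lpp` this is the last clause of `okBord`.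
`four`, `σ_on`: read off from `good`.  `sep`: `On` makes one `tau` equal to 1 (`tau_eq`), so by
`good` there is no label point and the sum of the four `tau` is 1; two labels are then on the same
line and agree by `u3`.  `σ_sm`: `Ok1`.  `σ_one`, `Prot.h2`: border lines by definition, cells of
a transversal by `Ok3`.  `Prot.h1`: definition of `colB`.  `Prot.h3`: `colB` if there is a label
point, `good` otherwise.  `tab_rep`: `Sys.kill`. -/

namespace Pool.Agent.NL.Tab

variable {W V B : Type} [AddCommGroup V] [DecidableEq W] [DecidableEq V] [DecidableEq B]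
  [Fintype W] [Fintype V] [Fintype B] {T : Tab W V B} {n j : ℕ} {e : ℕ → (W × V) ⊕ B}

/-- All checks hold. -/
structure Chk (T : Tab W V B) (n : ℕ) (e : ℕ → (W × V) ⊕ B) (j : ℕ) : Prop where
  h : T.OkTab
  he : Enum n e
  hc : ∀ a p, T.okCell n e j a p = true
  hb : ∀ β a, T.okBord n e j β a = true

theorem tabs_num {α : Type} {p q : α → Prop} (f g : α → α) (h1 : ∀ y, g (f y) = y)
    (h2 : ∀ y, f (g y) = y) (h : ∀ y, p (f y) ↔ q y) : num p = num q :=
  (num_bij f (fun y hy => (h y).2 hy) (fun y z _ _ e => by rw [← h1 y, e, h1])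
    fun y hy => ⟨g y, (h _).1 ((h2 y).symm ▸ hy), h2 y⟩).symm

/-- Translation of triples. -/
def tabs_sh (x : V) (y : ((W × V) ⊕ B) × ((W × V) ⊕ B) × ((W × V) ⊕ B)) :
    ((W × V) ⊕ B) × ((W × V) ⊕ B) × ((W × V) ⊕ B) := (sh x y.1, sh x y.2.1, sh x y.2.2)

omit [DecidableEq W] [DecidableEq V] [DecidableEq B] [Fintype W] [Fintype V] [Fintype B] in
theorem tabs_neg (x : V) (y : ((W × V) ⊕ B) × ((W × V) ⊕ B) × ((W × V) ⊕ B)) :
    tabs_sh (-x) (tabs_sh x y) = y ∧ tabs_sh x (tabs_sh (-x) y) = y := by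
  simp only [tabs_sh, (sh_neg x _).1, (sh_neg x _).2, and_self]

omit [DecidableEq W] [DecidableEq V] [DecidableEq B] [Fintype W] [Fintype V] [Fintype B] in
theorem tabs_inr (x : V) (p : (W × V) ⊕ B) (β : B) : sh x p = .inr β ↔ p = .inr β := by
  cases p <;> simp [sh]

theorem tabs_qc (h : T.OkTab) (x : V) (a b c : (W × V) ⊕ B)
    (y : ((W × V) ⊕ B) × ((W × V) ⊕ B) × ((W × V) ⊕ B)) :
    ((geo h).Quad (mk6 (sh x a) (sh x b) (sh x c) (tabs_sh x y)) ↔ (geo h).Quad (mk6 a b c y)) ∧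
      T.col (mk6 (sh x a) (sh x b) (sh x c) (tabs_sh x y)) = T.col (mk6 a b c y) :=
  ⟨quad_sh h x (mk6 a b c y), col_sh x (mk6 a b c y)⟩

theorem tabs_reg (h : T.OkTab) (x : V) (a b c : (W × V) ⊕ B)
    (y : ((W × V) ⊕ B) × ((W × V) ⊕ B) × ((W × V) ⊕ B)) :
    (geo h).RegP T.col (sh x a) (sh x b) (sh x c) () (tabs_sh x y) ↔
      (geo h).RegP T.col a b c () y := by
  unfold Geo.RegP
  rw [(tabs_qc h x a b c y).1, (tabs_qc h x a b c y).2]
  refine and_congr_right fun _ => and_congr_right fun _ => ?_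
  change lab (sh x _) = false ∧ lab (sh x _) = false ∧ lab (sh x _) = false ↔ _
  rw [lab_sh, lab_sh, lab_sh]
  rfl

omit [DecidableEq W] [DecidableEq V] [DecidableEq B] [Fintype W] [Fintype V] [Fintype B] in
theorem tabs_good {q : Six ((W × V) ⊕ B)} (h : T.good q = true) :
    (¬(lab q.r0 = true ∧ lab q.r1 = true) ∧ ¬(lab q.c0 = true ∧ lab q.c1 = true) ∧
      ¬(lab q.s0 = true ∧ lab q.s1 = true)) ∧ (T.colB q = true →
      OnId (q.a00 tzz * q.a00 T.sig) (q.a01 tzz * q.a01 T.sig) (q.a10 tzz * q.a10 T.sig)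
        (q.a11 tzz * q.a11 T.sig) ∧
      (q.a00 T.tau + q.a01 T.tau + q.a10 T.tau + q.a11 T.tau = 0 ∨ hasLab q = false ∧
        T.allProt q = true ∧ q.a00 T.tau + q.a01 T.tau + q.a10 T.tau + q.a11 T.tau = 1)) := by
  simp only [good, Bool.and_eq_true, Bool.or_eq_true, Bool.not_eq_true', decide_eq_true_eq,
    ← Bool.not_eq_true] at h
  obtain ⟨⟨⟨h1, h2⟩, h3⟩, h4⟩ := h
  refine ⟨⟨h1, h2, h3⟩, fun hc => ?_⟩
  obtain ⟨h5, h6⟩ := h4.resolve_left fun h => h hc
  exact ⟨h5, h6.imp id fun h => ⟨Bool.eq_false_iff.2 h.1.1, h.1.2, h.2⟩⟩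

omit [DecidableEq W] [DecidableEq V] [DecidableEq B] [Fintype W] [Fintype V] [Fintype B] in
theorem tabs_col {q : Six ((W × V) ⊕ B)} : T.col q ≠ none ↔ T.colB q = true := by
  unfold col
  split_ifs with h <;> simp [h]

omit [DecidableEq W] [DecidableEq V] [DecidableEq B] [Fintype W] [Fintype V] [Fintype B] in
theorem tabs_lab (h : T.OkTab) {q : Six ((W × V) ⊕ B)} : (geo h).HasLab q ↔ hasLab q = true := by
  simp only [hasLab, Bool.or_eq_true, or_assoc]
  rfl

omit [DecidableEq W] [DecidableEq V] [DecidableEq B] [Fintype W] [Fintype V] [Fintype B] in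
theorem tabs_all {q : Six ((W × V) ⊕ B)} :
    (q.All fun a b c => T.prot a b c = true) ↔ T.allProt q = true := by
  simp only [allProt, Bool.and_eq_true, and_assoc]
  rfl

theorem tabs_tau (h : T.OkTab) {a b c x : (W × V) ⊕ B} (hx : lab x = true) (hc : lab c = false)
    (hl : T.line a b x) : T.tau a b c = 1 := by
  obtain _ | β := x
  · exact absurd hx Bool.false_ne_true
  · rcases tau_eq h a b c with h1 | ⟨-, h1 | h1⟩
    · exact h1.1
    · exact absurd (hc.symm.trans h1) Bool.false_ne_true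
    · exact absurd hl (h1 β)

theorem tabs_on (h : T.OkTab) {q : Six ((W × V) ⊕ B)} {b : (W × V) ⊕ B} (hb : (geo h).On q b) :
    q.a00 T.tau = 1 ∧ T.line q.r0 q.c0 b ∨ q.a01 T.tau = 1 ∧ T.line q.r0 q.c1 b ∨
      q.a10 T.tau = 1 ∧ T.line q.r1 q.c0 b ∨ q.a11 T.tau = 1 ∧ T.line q.r1 q.c1 b :=
  hb.2.imp (fun k => ⟨tabs_tau h hb.1 k.1 k.2, k.2⟩) <|
    Or.imp (fun k => ⟨tabs_tau h hb.1 k.1 k.2, k.2⟩) <|
      Or.imp (fun k => ⟨tabs_tau h hb.1 k.1 k.2, k.2⟩) fun k => ⟨tabs_tau h hb.1 k.1 k.2, k.2⟩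

theorem tabs_spec (h : T.OkTab) {a b c : (W × V) ⊕ B} (hs : (geo h).Spec a b c) :
    T.sig a b c = 1 ∧ T.prot a b c = true := by
  obtain a | _ := a
  · obtain b | _ := b
    · obtain c | _ := c
      · obtain k | k | k | ⟨_ | β, k, hl⟩ := hs
        · exact absurd k Bool.false_ne_true
        · exact absurd k Bool.false_ne_true
        · exact absurd k Bool.false_ne_true
        · exact absurd k Bool.false_ne_true
        · have h1 := (h.2.2 β a.1).2.2.2.2.2.2
          rw [(line_ppl h a b β).1 hl] at h1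
          exact h1
      · exact ⟨rfl, rfl⟩
    · exact ⟨rfl, rfl⟩
  · exact ⟨rfl, rfl⟩

theorem all_good (H : Chk T n e j) {q : Six ((W × V) ⊕ B)} (hq : (geo H.h).Quad q) :
    T.good q = true := by
  obtain ⟨x, a, b, c, pl, h1, h2, h3, h4, -⟩ := normal H.h H.hc H.hb hq.1.1
  rw [← good_sh H.h (-x)]
  refine okL_good H.h (j := j) H.he (pl := pl) ((quad_sh H.h _ q).2 hq) ?_
  change T.okL j pl (T.quads n e (sh (-x) q.r0) (sh (-x) q.c0) (sh (-x) q.s0)) = true
  rw [h1, h2, h3, (sh_neg x a).1, (sh_neg x b).1, (sh_neg x c).1, h4]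

theorem all_reg (H : Chk T n e j) {a b c : (W × V) ⊕ B} (hl : T.line a b c) :
    num ((geo H.h).RegP T.col a b c ()) = j := by
  obtain ⟨x, a, b, c, pl, rfl, rfl, rfl, h4, -⟩ := normal H.h H.hc H.hb hl
  exact (tabs_num (tabs_sh x) (tabs_sh (-x)) (fun y => (tabs_neg x y).1)
    (fun y => (tabs_neg x y).2) (tabs_reg H.h x a b c)).trans
    (okL_reg H.h H.he ((line_sh H.h x a b c).1 hl) h4)

theorem all_bal (H : Chk T n e j) {a b c : (W × V) ⊕ B} (hl : T.line a b c)
    (hp : (geo H.h).Plain (a, b, c)) :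
    num ((geo H.h).LossP T.col Sum.inr a b c ()) =
      num ((geo H.h).GainP T.col Sum.inr a b c ()) := by
  obtain ⟨x, a, b, c, pl, rfl, rfl, rfl, h4, h5⟩ := normal H.h H.hc H.hb hl
  obtain rfl := h5 hp
  have h6 := okL_bal H.h H.he ((line_sh H.h x a b c).1 hl)
    ⟨(lab_sh x a).symm.trans hp.1, (lab_sh x b).symm.trans hp.2.1,
      (lab_sh x c).symm.trans hp.2.2⟩ h4
  have h7 := fun {p q : (((W × V) ⊕ B) × ((W × V) ⊕ B) × ((W × V) ⊕ B)) × B → Prop} =>
    tabs_num (p := p) (q := q) (fun y => (tabs_sh x y.1, y.2)) (fun y => (tabs_sh (-x) y.1, y.2))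
      (fun y => Prod.ext (tabs_neg x y.1).1 rfl) fun y => Prod.ext (tabs_neg x y.1).2 rfl
  refine (h7 fun y => ?_).trans (h6.trans (h7 fun y => ?_).symm)
  · exact and_congr (tabs_reg H.h x a b c y.1) (or_congr (line_sh H.h x a _ (.inr y.2))
      (or_congr (line_sh H.h x _ b (.inr y.2)) (line_sh H.h x _ _ (.inr y.2))))
  · unfold Geo.GainP
    rw [(tabs_qc H.h x a b c y.1).1, (tabs_qc H.h x a b c y.1).2]
    exact and_congr_right fun _ => and_congr_right fun _ =>
      or_congr (tabs_inr x _ _) (or_congr (tabs_inr x _ _) (tabs_inr x _ _))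

theorem tabs_on_good (H : Chk T n e j) {q : Six ((W × V) ⊕ B)} {b : (W × V) ⊕ B}
    (hq : (geo H.h).Quad q) (hc : T.col q ≠ none) (hb : (geo H.h).On q b) :
    hasLab q = false ∧ T.allProt q = true ∧
      q.a00 T.tau + q.a01 T.tau + q.a10 T.tau + q.a11 T.tau = 1 := by
  refine ((tabs_good (all_good H hq)).2 (tabs_col.1 hc)).2.resolve_left fun h0 => ?_
  rcases tabs_on H.h hb with k | k | k | k <;> have := k.1 <;> omega

/-- The system of a checked table. -/
def sys (H : Chk T n e j) : Sys where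
  P := (W × V) ⊕ B
  A := Unit
  B := B
  C := Unit
  G := geo H.h
  lb β _ := .inr β
  lb_lab := by
    rintro (p | β)
    · exact iff_of_false Bool.false_ne_true fun ⟨_, _, k⟩ => Sum.inr_ne_inl k
    · exact iff_of_true rfl ⟨β, (), rfl⟩
  lb_inj := by exact fun k => ⟨Sum.inr.inj k, rfl⟩
  tf _ _ := rfl
  three := by
    intro r c s β β' β'' _ _ _ h1 h2 h3
    obtain ⟨k1, k2⟩ := (geo H.h).lab3 h1 rfl
    have k3 := ((geo H.h).lab2 h2 rfl).2
    obtain r | _ := r
    · obtain c | _ := c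
      · obtain s | _ := s
        · have k4 := H.hb β r.1
          simp only [okBord, Bool.and_eq_true, decide_eq_true_eq] at k4
          have k5 := k4.2 β' β'' (by
            rw [(line_ppl H.h r c β).1 h1, (line_plp H.h r s β').1 h2,
              (line_lpp H.h c s β'').1 h3, sub_sub_sub_cancel_right])
          exact ⟨k5.1, k5.2, rfl⟩
        · exact absurd k3.symm Bool.false_ne_true
      · exact absurd k2.symm Bool.false_ne_true
    · exact absurd k1.symm Bool.false_ne_true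
  four := by exact fun q hq => (tabs_good (all_good H hq)).1
  col := T.col
  sep := by
    intro q b hq hc hb
    obtain ⟨h1, -, h2⟩ := tabs_on_good H hq hc hb
    refine ⟨fun k => Bool.false_ne_true (h1.symm.trans ((tabs_lab H.h).1 k)), fun b' hb' => ?_⟩
    rcases tabs_on H.h hb with ⟨k, l⟩ | ⟨k, l⟩ | ⟨k, l⟩ | ⟨k, l⟩ <;>
      rcases tabs_on H.h hb' with ⟨k', l'⟩ | ⟨k', l'⟩ | ⟨k', l'⟩ | ⟨k', l'⟩ <;>
      first
        | exact (geo H.h).u3 l' l (hb'.1.trans hb.1.symm)
        | omega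
  N _ := j
  reg hl _ := all_reg H hl
  bal hl hp _ _ := all_bal H hl hp
  σ _ := T.sig
  σ_sm := by
    rintro _ (a | _) (b | _) (c | _)
    · exact ⟨3, (H.h.1 a.1 b.1 (b.2 - a.2)).2.2.2.2.2⟩
    all_goals exact ⟨0, one_dvd _, one_dvd _, one_dvd _⟩
  σ_one := by exact fun _ _ _ _ _ hs => (tabs_spec H.h hs).1
  σ_on := by
    exact fun q _ hq hc => ((tabs_good (all_good H hq)).2
      (tabs_col.1 (hc ▸ Option.some_ne_none _))).1
  σ_flat _ _ _ _ _ e := absurd rfl e

theorem prot_ok (H : Chk T n e j) :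
    (sys H).Prot fun a b c : (W × V) ⊕ B => T.prot a b c = true := by
  refine ⟨fun q _ hc => ?_, fun a b c _ hs => (tabs_spec H.h hs).2, fun q hq hc hr => ?_⟩
  · have h1 : ¬T.colB q = true := fun k => tabs_col.2 k hc
    simp only [colB, Bool.or_eq_true, Bool.not_eq_true', not_or, Bool.not_eq_false] at h1
    exact ⟨(tabs_lab H.h).2 h1.1, fun k => h1.2 (tabs_all.1 k)⟩
  · refine tabs_all.2 ?_
    obtain k | ⟨b, k⟩ := hr
    · have h1 : T.colB q = true := tabs_col.1 hc
      simpa only [colB, (tabs_lab H.h).1 k, Bool.not_true, Bool.false_or] using h1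
    · exact (tabs_on_good H hq hc k).2.1

theorem tab_rep (H : Chk T n e j) :
    ∃ c, Rep ∅ (Fintype.card W * Fintype.card V * 11 ^ c) 1 (Fintype.card B) j := by
  obtain ⟨c, hc⟩ := (sys H).kill _ (prot_ok H)
  have h1 : (sys H).ord = Fintype.card W * Fintype.card V := by
    rw [← Fintype.card_prod, ← Nat.card_eq_fintype_card, ← num_true]
    refine (num_bij (q := fun p : (W × V) ⊕ B => lab p = false) Sum.inl (fun _ _ => rfl)
      (fun _ _ _ _ k => Sum.inl.inj k) ?_).symm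
    rintro (p | _) k
    · exact ⟨p, trivial, rfl⟩
    · exact absurd k.symm Bool.false_ne_true
  have h2 : Nat.card (sys H).B = Fintype.card B := Nat.card_eq_fintype_card (α := B)
  have h3 : ∑ k, (sys H).N k = j := Fintype.sum_unique (ι := Unit) fun _ => j
  rw [h1, h2, h3] at hc
  exact ⟨c, hc⟩

end Pool.Agent.NL.Tab
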